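import Mathlib

set_option autoImplicit false

/-! # Two-neighbour bootstrap percolation in `[n]^d`: definitions -/

open scoped Classical
open Finset

namespace BTP

/-- sites of the lattice -/
abbrev Site (d : ℕ) := Fin d → ℤ
/-- the `2d` coordinate directions -/
abbrev Dir (d : ℕ) := Fin d × Bool
/-- a box, given by its `2d` outward coordinates: `T = {v : - T (i, false) ≤ v i ≤ T (i, true)}` -/
abbrev Box (d : ℕ) := Dir d → ℤ

variable {d : ℕ}

/-- outward coordinates of a site -/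
def cc (v : Site d) : Box d := fun j => if j.2 = true then v j.1 else - v j.1

/-- the opposite direction -/
def opp (j : Dir d) : Dir d := (j.1, !j.2)

/-- the box is not empty -/
def Ne (T : Box d) : Prop := ∀ i : Fin d, 0 ≤ T (i, true) + T (i, false)

/-- number of sites of the box in direction `i` (for nonempty boxes) -/
def sd (T : Box d) (i : Fin d) : ℕ := (T (i, true) + T (i, false) + 1).toNat

/-- the total extent `∑ i, (sd T i - 1)` -/
def Ys (T : Box d) : ℤ := ∑ j : Dir d, T j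

/-- the sites of a box -/
noncomputable def sites (T : Box d) : Finset (Site d) :=
  Finset.Icc (fun i => - T (i, false)) (fun i => T (i, true))

/-- gap between two boxes in direction `i` -/
noncomputable def gap (R S : Box d) (i : Fin d) : ℤ :=
  max 0 (max (-(R (i, true) + S (i, false))) (-(S (i, true) + R (i, false))))

/-- the boxes are at `ℓ¹`-distance at most two -/
def near (R S : Box d) : Prop := ∑ i : Fin d, gap R S i ≤ 2

/-- the box `T` is obtained from the single sites of `W` by successive merges, each site of `W` is used once -/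
inductive Gen : Box d → Finset (Site d) → Prop
  | single (v : Site d) : Gen (cc v) {v}
  | merge {R S : Box d} {W W' : Finset (Site d)} (hR : Gen R W) (hS : Gen S W')
      (hd : Disjoint W W') (hn : near R S) : Gen (R ⊔ S) (W ∪ W')

/-- the event: `T` is generated by sites of `U` -/
def IG (T : Box d) (U : Finset (Site d)) : Prop := ∃ W, W ⊆ U ∧ Gen T W

/-- growth from the box `R` to the box `Q` by successive merges with boxes of total extent `< h`, generated by disjoint sets of sites -/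
inductive SG (h : ℕ) : Box d → Box d → Finset (Site d) → Prop
  | refl (T : Box d) : SG h T T ∅
  | step {R S Q : Box d} {W' W : Finset (Site d)} (hS : Gen S W') (hh : Ys S < h)
      (hn : near R S) (hg : SG h (R ⊔ S) Q W) (hd : Disjoint W' W) : SG h R Q (W' ∪ W)

/-- the event: growth from `R` to `Q` with sites of `U` -/
def SGe (h : ℕ) (R Q : Box d) (U : Finset (Site d)) : Prop := ∃ W, W ⊆ U ∧ SG h R Q W

/-! ## Product measure on subsets of a finite set -/

section
variable {α : Type*}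

/-- probability that the `p`-random subset `U` of `V` satisfies `E` -/
noncomputable def Pr (V : Finset α) (p : ℝ) (E : Finset α → Prop) : ℝ :=
  ∑ U ∈ V.powerset.filter (fun U => E U), p ^ U.card * (1 - p) ^ (V.card - U.card)

/-- increasing events -/
def Inc (E : Finset α → Prop) : Prop := ∀ U U' : Finset α, U ⊆ U' → E U → E U'

/-- disjoint occurrence of two events -/
def dis (E F : Finset α → Prop) (U : Finset α) : Prop :=
  ∃ W W' : Finset α, Disjoint W W' ∧ W ⊆ U ∧ W' ⊆ U ∧ E W ∧ F W'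

/-- disjoint occurrence of a finite family of events -/
def disF {ι : Type*} (s : Finset ι) (E : ι → Finset α → Prop) (U : Finset α) : Prop :=
  ∃ W : ι → Finset α, (∀ i ∈ s, W i ⊆ U ∧ E i (W i)) ∧
    ∀ i ∈ s, ∀ j ∈ s, i ≠ j → Disjoint (W i) (W j)

end

/-! ## Records of growth steps in at least two axes -/

/-- a record: start levels `μ.1` and end levels `μ.2` (both `0` if there is no growth in that direction) -/
abbrev Rec (d : ℕ) := Box d × Box d

/-- the record is possible for a growth step between `T` and `Q`, in at least two axes -/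
def RecOK (T Q : Box d) (μ : Rec d) : Prop :=
  (∀ j, (μ.1 j = 0 ∧ μ.2 j = 0) ∨ (T j ≤ μ.1 j ∧ μ.1 j < μ.2 j ∧ μ.2 j ≤ Q j)) ∧
    ∃ j j' : Dir d, j.1 ≠ j'.1 ∧ μ.1 j < μ.2 j ∧ μ.1 j' < μ.2 j'

/-- the event that the record occurs: a box of extent `< h`, inside `Q`, with the prescribed end levels -/
def Clu (h : ℕ) (Q : Box d) (μ : Rec d) (U : Finset (Site d)) : Prop :=
  ∃ (S : Box d) (W : Finset (Site d)), W ⊆ U ∧ Gen S W ∧ Ys S < h ∧ S ≤ Q ∧
    (∀ j, μ.1 j < μ.2 j → S j = μ.2 j) ∧ ∑ j, (μ.2 j - μ.1 j) ≤ Ys S + 2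

/-- the levels in direction `j` between `T` and `Q` not covered by the records -/
noncomputable def free (T Q : Box d) (M : Finset (Rec d)) (j : Dir d) : Finset ℤ :=
  (Finset.Ioc (T j) (Q j)).filter (fun t => ∀ μ ∈ M, ¬ (μ.1 j < t ∧ t ≤ μ.2 j))

/-- the sites of `Q` at level `t` in direction `j` -/
noncomputable def lay (Q : Box d) (j : Dir d) (t : ℤ) : Finset (Site d) :=
  (sites Q).filter (fun v => cc v j = t)

/-- the set `U` meets the layer -/
def hit (Q : Box d) (U : Finset (Site d)) (j : Dir d) (t : ℤ) : Prop :=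
  ∃ v ∈ U, v ∈ lay Q j t

/-- crossing in axis `i` of the levels not covered by the records -/
def Cross (T Q : Box d) (M : Finset (Rec d)) (i : Fin d) (U : Finset (Site d)) : Prop :=
  ∀ b : Bool, ∀ t ∈ free T Q M (i, b),
    hit Q U (i, b) t ∨ (t + 1 ∈ free T Q M (i, b) ∧ hit Q U (i, b) (t + 1))

/-! ## The functions `β`, `g` and the constant `λ(d, 2)` -/

/-- `β(u)`, the positive root of `β² = u β + u (1 - u)` -/
noncomputable def bet (u : ℝ) : ℝ := (u + Real.sqrt (u * (4 - 3 * u))) / 2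

/-- `g(z) = - log β(1 - e^{-z})` -/
noncomputable def gg (z : ℝ) : ℝ := - Real.log (bet (1 - Real.exp (-z)))

/-- `λ(d, 2) = ∫_0^∞ g(z^{d-1}) dz` -/
noncomputable def lam (d : ℕ) : ℝ := ∫ z in Set.Ioi (0 : ℝ), gg (z ^ (d - 1))

/-! ## The potential -/

/-- `φ(m) = m + K √m + H` -/
noncomputable def ph (K H : ℝ) (m : ℕ) : ℝ := (m : ℝ) + K * Real.sqrt m + H

/-- cost of a unit step with face `z`: `max (g(q z) - c) 0` -/
noncomputable def Gh (q c : ℝ) (z : ℝ) : ℝ := max (gg (q * z) - c) 0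

/-- the potential for a step cost `G` and a gauge `φ` : sum of the costs along the diagonal path -/
noncomputable def Psi (G : ℝ → ℝ) (φ : ℕ → ℝ) (x : Fin d → ℕ) : ℝ :=
  ∑ k : Fin d, ∑ m ∈ Finset.range (x k),
    G (∏ j ∈ Finset.univ.erase k, φ (min (x j) (m + if j < k then 1 else 0)))

/-- `max x H₁` -/
noncomputable def xt (H1 : ℝ) (x : Fin d → ℕ) (i : Fin d) : ℝ := max (x i : ℝ) H1

/-- face `q ∏_{l ≠ i} y_l` -/
noncomputable def face (q : ℝ) (y : Fin d → ℝ) (i : Fin d) : ℝ := q * ∏ l ∈ Finset.univ.erase i, y l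

/-- the least `y_l`, `l ≠ i` -/
noncomputable def Mi (y : Fin d → ℝ) (i : Fin d) : ℝ := sInf (y '' {l | l ≠ i})

/-- the parameters of the proof -/
structure Par (d : ℕ) where
  (q A p c K H H1 Lam Z B P gam : ℝ)
  (h : ℕ)
  hd : 2 ≤ d
  hA : 10 ≤ A
  hq : 0 < q
  hqA : q * A ^ (d - 1) = 1
  hp : p = 1 - Real.exp (-q)
  hp2 : p ≤ 1 / 2
  hh : 1 ≤ h
  hhp : (h : ℝ) ^ d * p ≤ 1
  hK : 8 ≤ K
  hH1 : 100 ≤ H1
  hKH : K ^ 2 ≤ H1
  hH : H = 2 * H1
  hLam : 16 * d * (h : ℝ) ^ d * Real.sqrt (1 + Z) ≤ Lam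
  hwin : ((h : ℝ) + 2) * Lam ≤ Real.sqrt H1
  hgain : 10 * Lam * P ≤ K
  hc : 0 < c
  hc1 : 32 * P ^ 2 * Lam ^ 2 * B ^ (d - 2) ≤ c ^ 2 * A ^ (d - 1)
  hZ1 : 1 ≤ Z
  hZ : gg Z = c / 2
  hZH : q * H1 ^ (d - 1) ≤ Z
  hHB : H1 ≤ B
  hB : 4 ^ d * Z * A ≤ B
  hB2 : d * A * lam d ≤ B * ((gg 1) / 2)
  hcg : c ≤ gg 1 / 2
  hgam0 : 0 ≤ gam
  hgam : gg (q * H ^ (d - 1)) ≤ gam
  hP : 0 < P
  hcnt : 9 * Real.exp 2 * B ^ (4 * d) * Real.exp (2 * gam) ≤ Real.exp P
  hbase : ∀ Y m : ℕ, h ≤ Y → Y ≤ 2 * h + 2 → Y + 2 ≤ 2 * m →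
    (((Y : ℝ) + 1) ^ d * p) ^ m ≤ Real.exp (-(2 * P) - ((Y : ℝ) + d) * gam)

namespace Par
variable (a : Par d)

/-- the step cost of the parameters -/
noncomputable def G : ℝ → ℝ := Gh a.q a.c
/-- the gauge of the parameters -/
noncomputable def f : ℕ → ℝ := ph a.K a.H
/-- the potential of a box -/
noncomputable def Ps (T : Box d) : ℝ := Psi a.G a.f (sd T)
/-- `max (sd T i) H₁` -/
noncomputable def X (T : Box d) (i : Fin d) : ℝ := xt a.H1 (sd T) i
/-- the face of `T` in direction `i` -/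
noncomputable def z (T : Box d) (i : Fin d) : ℝ := face a.q (a.X T) i
/-- the window of `T` in direction `i` -/
noncomputable def w (T : Box d) (i : Fin d) : ℝ := Real.sqrt (Mi (a.X T) i) / a.Lam
/-- the domain -/
def InD (T : Box d) : Prop := (∀ i, a.z T i ≤ a.Z) ∧ ∀ i, (sd T i : ℝ) ≤ a.B
/-- `T` is in the window of `Q` -/
def Win (T Q : Box d) : Prop := Ne T ∧ T ≤ Q ∧ ∀ i, ((sd Q i : ℝ) - sd T i) ≤ 2 * a.w Q i

end Par

end BTP
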