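import Pool.Agent.BTP.D0

set_option autoImplicit false

open Filter

namespace BTP

/-- [BTP-A1] (`Real.tendsto_exp_div_pow_atTop`, or `Real.isLittleO_pow_exp_atTop` scaled) -/
theorem ev_exp (c : ℝ) (k : ℕ) : ∀ᶠ L : ℝ in atTop, c * L ^ k ≤ Real.exp (L / 4) := by
  have h1 : Tendsto (fun L : ℝ => L / 4) atTop atTop :=
    tendsto_id.atTop_div_const (by norm_num)
  have h2 := ((Real.tendsto_exp_div_pow_atTop k).comp h1).eventually_ge_atTop (c * 4 ^ k)
  filter_upwards [h2, eventually_gt_atTop 0] with L hL hL0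
  have h3 : 0 < (L / 4) ^ k := by positivity
  rw [Function.comp_apply, le_div_iff₀ h3, div_pow] at hL
  calc c * L ^ k = c * 4 ^ k * (L ^ k / 4 ^ k) := by field_simp
    _ ≤ Real.exp (L / 4) := hL

theorem ev_le (c : ℝ) : ∀ᶠ L : ℝ in atTop, c ≤ L :=
  eventually_ge_atTop c

theorem ev_log (c : ℝ) : ∀ᶠ L : ℝ in atTop, c ≤ Real.log L :=
  Real.tendsto_log_atTop.eventually_ge_atTop c

theorem ev_pow (c : ℝ) (k : ℕ) : ∀ᶠ L : ℝ in atTop, c * L ^ k ≤ L ^ (k + 1) := by
  filter_upwards [eventually_ge_atTop c, eventually_ge_atTop 0] with L hc h0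
  rw [pow_succ']
  exact mul_le_mul_of_nonneg_right hc (pow_nonneg h0 k)

end BTP
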