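import Pool.Agent.BTP.D0

set_option autoImplicit false

namespace BTP

/-- the bound for the step cost -/
noncomputable def gmL (d : ℕ) (L : ℝ) : ℝ :=
  (Real.log 2 + ((d : ℝ) - 1) * (L - Real.log (2 * L ^ (10 * d + 8)))) / 2



/-- [BTP-A3] the inequality `hbase` for `P = 20 d L`, `H = 2 L^(10d+8)`, `h ≈ L`.
PROOF. Let `l = log L`. `Y + 1 ≤ 2L + 5 ≤ L²`, so `r = (Y+1)^d p ≤ exp(2dl - (d-1)L) ≤ 1` (`2dl ≤ (d-1) L`), `r^m ≤ r^((Y+2)/2)` (real power), `log r^m ≤ ((Y+2)/2)(2dl - (d-1)L)`. To show: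
`(Y+2) d l + 40 d L + (Y+d) log 2/2 + (d-1) L (d-2)/2 ≤ (Y+d)(d-1) log H/2`, `log H ≥ (10d+8) l`, `(Y+d)(d-1) ≥ Y+2`, so the right side is `≥ (Y+2)(5d+4) l`; remains `40 d L + (Y+d)/2 + d² L/2 ≤ (Y+2)(4d+4) l`, where `(Y+d)/2 ≤ (Y+2) d` and `Y + 2 ≥ L`: `(4d+4) l ≥ 41 d + d²`. -/
theorem base_ineq {d : ℕ} (hd : 2 ≤ d) {L : ℝ} (hL : 100 ≤ L) (hl : (d : ℝ) + 41 ≤ Real.log L)
    (hl2 : 2 * d * Real.log L ≤ (d - 1) * L) {p : ℝ} (hp0 : 0 ≤ p)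
    (hp : p ≤ Real.exp (-(((d : ℝ) - 1) * L))) {h : ℕ} (h1 : L ≤ h) (h2 : (h : ℝ) ≤ L + 1)
    (Y m : ℕ) (hY1 : h ≤ Y) (hY2 : Y ≤ 2 * h + 2) (hm : Y + 2 ≤ 2 * m) :
    (((Y : ℝ) + 1) ^ d * p) ^ m ≤
      Real.exp (-(2 * (20 * d * L)) - ((Y : ℝ) + d) * gmL d L) := by
  have hd' : (2 : ℝ) ≤ d := by exact_mod_cast hd
  set D : ℝ := (d : ℝ) with hD
  set l : ℝ := Real.log L with hl'
  have hL0 : 0 < L := by linarith
  have hl0 : 43 ≤ l := by linarith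
  have hYh : (h : ℝ) ≤ Y := by exact_mod_cast hY1
  have hY2' : (Y : ℝ) ≤ 2 * h + 2 := by exact_mod_cast hY2
  have hYL : L ≤ Y := le_trans h1 hYh
  have hm' : (Y : ℝ) + 2 ≤ 2 * m := by exact_mod_cast hm
  have hY0 : (0 : ℝ) ≤ Y := Nat.cast_nonneg _
  -- the base
  have hYsq : (Y : ℝ) + 1 ≤ L ^ 2 := by nlinarith
  have hbase : ((Y : ℝ) + 1) ^ d ≤ Real.exp (2 * D * l) := by
    have e1 : Real.exp (2 * D * l) = (L ^ 2) ^ d := by
      have e2 : 2 * D * l = ((2 * d : ℕ) : ℝ) * l := by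
        rw [hD]
        push_cast
        ring
      rw [e2, Real.exp_nat_mul, hl', Real.exp_log hL0, pow_mul]
    rw [e1]
    exact pow_le_pow_left₀ (by linarith) hYsq d
  have hr : ((Y : ℝ) + 1) ^ d * p ≤ Real.exp (2 * D * l - (D - 1) * L) := by
    calc ((Y : ℝ) + 1) ^ d * p ≤ Real.exp (2 * D * l) * Real.exp (-((D - 1) * L)) :=
          mul_le_mul hbase hp hp0 (Real.exp_pos _).le
      _ = Real.exp (2 * D * l - (D - 1) * L) := by rw [← Real.exp_add]; ring_nf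
  have hr0 : 0 ≤ ((Y : ℝ) + 1) ^ d * p := mul_nonneg (pow_nonneg (by linarith) _) hp0
  have hpow : (((Y : ℝ) + 1) ^ d * p) ^ m ≤ Real.exp ((m : ℝ) * (2 * D * l - (D - 1) * L)) := by
    rw [Real.exp_nat_mul]
    exact pow_le_pow_left₀ hr0 hr m
  refine hpow.trans (Real.exp_le_exp.2 ?_)
  have hneg : 2 * D * l - (D - 1) * L ≤ 0 := by linarith
  have hstep : (m : ℝ) * (2 * D * l - (D - 1) * L) ≤
      (((Y : ℝ) + 2) / 2) * (2 * D * l - (D - 1) * L) := by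
    apply mul_le_mul_of_nonpos_right _ hneg
    linarith
  refine hstep.trans ?_
  have hlogH : Real.log (2 * L ^ (10 * d + 8)) = Real.log 2 + (10 * D + 8) * l := by
    rw [Real.log_mul (by norm_num) (pow_pos hL0 _).ne', Real.log_pow, hD, hl']
    push_cast
    ring
  have hg : gmL d L = (Real.log 2 + (D - 1) * (L - (Real.log 2 + (10 * D + 8) * l))) / 2 := by
    unfold gmL
    rw [hlogH]
  have hlog2 : 0 < Real.log 2 := Real.log_pos (by norm_num)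
  have hlog21 : Real.log 2 ≤ 1 := by
    have := Real.log_two_lt_d9
    linarith
  rw [hg]
  have hDD : (Y : ℝ) + 2 ≤ (Y + D) * (D - 1) := by nlinarith
  have k1 : ((Y : ℝ) + 2) * ((10 * D + 8) * l) ≤ (Y + D) * (D - 1) * (Real.log 2 + (10 * D + 8) * l) := by
    apply mul_le_mul hDD _ (by positivity) (by nlinarith)
    linarith
  have k2 : 40 * D * L ≤ 40 * D * ((Y : ℝ) + 2) := by
    apply mul_le_mul_of_nonneg_left _ (by positivity)
    linarith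
  have k3 : (D - 1) * (D - 2) * L ≤ D ^ 2 * ((Y : ℝ) + 2) := by
    apply mul_le_mul _ (by linarith) hL0.le (by positivity)
    nlinarith
  have k4 : ((Y : ℝ) + D) * Real.log 2 ≤ (Y + 2) * D := by
    have k5 : ((Y : ℝ) + D) * Real.log 2 ≤ (Y + D) * 1 :=
      mul_le_mul_of_nonneg_left hlog21 (by positivity)
    nlinarith
  have k6 : ((Y : ℝ) + 2) * ((4 * D + 4) * (D + 41)) ≤ (Y + 2) * ((4 * D + 4) * l) := by
    apply mul_le_mul_of_nonneg_left _ (by positivity)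
    exact mul_le_mul_of_nonneg_left hl (by positivity)
  have k7 : 40 * D * ((Y : ℝ) + 2) + D ^ 2 * (Y + 2) / 2 + (Y + 2) * D / 2 ≤
      (Y + 2) * ((4 * D + 4) * (D + 41)) := by
    have k8 : 40 * D + D ^ 2 / 2 + D / 2 ≤ (4 * D + 4) * (D + 41) := by nlinarith
    have k9 := mul_le_mul_of_nonneg_left k8 (by positivity : (0 : ℝ) ≤ (Y : ℝ) + 2)
    linarith
  linarith [k1, k2, k3, k4, k6, k7]

end BTP
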