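import Pool.Agent.BTP.G4

set_option autoImplicit false

open Finset MeasureTheory

namespace BTP

/-- `∫_0^{1/A} f ≤ (1/A) (log 2 + (d-1)(1 + log A))/2` -/
theorem g5_head {d : ℕ} (hd : 2 ≤ d) {e : ℝ} (he : 0 < e) (he1 : e ≤ 1) :
    ∫ s in Set.Ioc (0 : ℝ) e, gg (s ^ (d - 1)) ≤
      e * (Real.log 2 + ((d - 1 : ℕ) : ℝ) * (1 - Real.log e)) / 2 := by
  have hsub : Set.Ioc (0 : ℝ) e ⊆ Set.Ioi 0 := fun s hs => hs.1
  have hlog : IntegrableOn Real.log (Set.Ioc 0 e) := by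
    have := (intervalIntegral.intervalIntegrable_log' (a := 0) (b := e))
    exact (intervalIntegrable_iff_integrableOn_Ioc_of_le he.le).mp this
  have hc : IntegrableOn (fun _ : ℝ => Real.log 2) (Set.Ioc 0 e) := by
    simp
  have hI : IntegrableOn (fun s : ℝ => (Real.log 2 - ((d - 1 : ℕ) : ℝ) * Real.log s) / 2)
      (Set.Ioc 0 e) := (hc.sub (hlog.const_mul _)).div_const 2
  have h1 : ∫ s in Set.Ioc (0 : ℝ) e, gg (s ^ (d - 1)) ≤
      ∫ s in Set.Ioc (0 : ℝ) e, (Real.log 2 - ((d - 1 : ℕ) : ℝ) * Real.log s) / 2 := by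
    refine setIntegral_mono_on ((gg_integrable hd).mono_set hsub) hI measurableSet_Ioc ?_
    intro s hs
    exact g4_up hs.1 (hs.2.trans he1)
  have h2 : ∫ s in Set.Ioc (0 : ℝ) e, (Real.log 2 - ((d - 1 : ℕ) : ℝ) * Real.log s) / 2 =
      e * (Real.log 2 + ((d - 1 : ℕ) : ℝ) * (1 - Real.log e)) / 2 := by
    rw [integral_div, integral_sub hc (hlog.const_mul _), integral_const_mul,
      ← intervalIntegral.integral_of_le he.le, ← intervalIntegral.integral_of_le he.le,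
      integral_log]
    simp
    ring
  exact h1.trans h2.le

theorem g5_tail {d : ℕ} (hd : 2 ≤ d) {b : ℝ} (hb : 1 ≤ b) :
    ∫ s in Set.Ioi b, gg (s ^ (d - 1)) ≤ 2 * Real.exp (-b) := by
  have hsub : Set.Ioi b ⊆ Set.Ioi (0 : ℝ) := fun s hs => by
    have : b < s := hs
    exact Set.mem_Ioi.mpr (by linarith)
  have h1 : ∫ s in Set.Ioi b, gg (s ^ (d - 1)) ≤ ∫ s in Set.Ioi b, 2 * Real.exp (-s) := by
    refine setIntegral_mono_on ((gg_integrable hd).mono_set hsub)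
      ((integrableOn_exp_neg_Ioi b).const_mul 2) measurableSet_Ioi ?_
    intro s hs
    have : b < s := hs
    exact g4_tail hd (by linarith)
  rw [integral_const_mul, integral_exp_neg_Ioi] at h1
  exact h1

theorem g5_split {d : ℕ} (hd : 2 ≤ d) {a b : ℝ} (ha : 0 < a) (hab : a ≤ b) :
    lam d = (∫ s in Set.Ioc (0 : ℝ) a, gg (s ^ (d - 1))) + (∫ s in a..b, gg (s ^ (d - 1))) +
      ∫ s in Set.Ioi b, gg (s ^ (d - 1)) := by
  have hI := gg_integrable hd
  have h1 : lam d = (∫ s in Set.Ioc (0 : ℝ) a, gg (s ^ (d - 1))) +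
      ∫ s in Set.Ioi a, gg (s ^ (d - 1)) := by
    unfold lam
    rw [← setIntegral_union (Set.Ioc_disjoint_Ioi le_rfl) measurableSet_Ioi
      (hI.mono_set (fun s hs => hs.1))
      (hI.mono_set (fun s hs => Set.mem_Ioi.mpr (ha.trans hs))), Set.Ioc_union_Ioi_eq_Ioi ha.le]
  have h2 : ∫ s in Set.Ioi a, gg (s ^ (d - 1)) = (∫ s in Set.Ioc a b, gg (s ^ (d - 1))) +
      ∫ s in Set.Ioi b, gg (s ^ (d - 1)) := by
    rw [← setIntegral_union (Set.Ioc_disjoint_Ioi le_rfl) measurableSet_Ioi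
      (hI.mono_set (fun s hs => Set.mem_Ioi.mpr (ha.trans hs.1)))
      (hI.mono_set (fun s hs => Set.mem_Ioi.mpr ((ha.trans_le hab).trans hs))),
      Set.Ioc_union_Ioi_eq_Ioi hab]
  rw [h1, h2, intervalIntegral.integral_of_le hab]
  ring

/-- [BTP-G5] Riemann sums.
PROOF. `f(m/A) ≥ ∫_{m}^{m+1} f(t/A) dt` (antitone), so the sum is `≥ ∫_1^{M+1} f(t/A) dt = A ∫_{1/A}^{(M+1)/A} f = A (λ - ∫_0^{1/A} f - ∫_{(M+1)/A}^∞ f)` (`AntitoneOn.integral_le_sum` or one interval at a time).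
`A ∫_0^{1/A} f ≤ (1/2)(log 2 + (d-1)(1 + log A)) ≤ d log A` for `A ≥ 10` (`∫_0^ε log(1/s) ds = ε(1 + log(1/ε))`), and `A ∫_{2 log A}^∞ 2 e^{-s} ds = 2 A · A^{-2} ≤ 1`. -/
theorem riemann {d : ℕ} (hd : 2 ≤ d) {A : ℝ} (hA : 10 ≤ A) {M : ℕ} (hM : 2 * A * Real.log A ≤ M) :
    A * lam d - d * Real.log A - 1 ≤ ∑ m ∈ Finset.Icc 1 M, gg (((m : ℝ) / A) ^ (d - 1)) := by
  have hA0 : 0 < A := by linarith
  have hlogA : 1 ≤ Real.log A := by
    rw [Real.le_log_iff_exp_le hA0]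
    have := Real.exp_one_lt_d9
    linarith
  -- the sum is at least the integral
  have hanti : AntitoneOn (fun t : ℝ => gg ((t / A) ^ (d - 1))) (Set.Icc 1 (1 + (M : ℝ))) := by
    intro x hx y hy hxy
    refine g4_anti d (Set.mem_Ioi.mpr ?_) (Set.mem_Ioi.mpr ?_) ?_
    · exact div_pos (by linarith [hx.1]) hA0
    · exact div_pos (by linarith [hy.1]) hA0
    · exact div_le_div_of_nonneg_right hxy hA0.le
  have h1 := hanti.integral_le_sum
  have h2 : ∑ i ∈ Finset.range M, gg (((1 + (i : ℝ)) / A) ^ (d - 1)) =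
      ∑ m ∈ Finset.Icc 1 M, gg (((m : ℝ) / A) ^ (d - 1)) := by
    rw [Finset.range_eq_Ico]
    have := Finset.sum_Ico_add' (fun m : ℕ => gg (((m : ℝ) / A) ^ (d - 1))) 0 M 1
    have h3 : Finset.Ico (0 + 1) (M + 1) = Finset.Icc 1 M := by
      ext x; simp [Nat.lt_succ_iff]
    rw [h3] at this
    rw [← this]
    apply Finset.sum_congr rfl
    intro i _
    push_cast
    ring_nf
  have h3 : (∫ x in (1 : ℝ)..(1 + (M : ℝ)), gg ((x / A) ^ (d - 1))) =
      A * ∫ s in (1 / A)..((1 + (M : ℝ)) / A), gg (s ^ (d - 1)) := by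
    rw [intervalIntegral.integral_comp_div (fun s => gg (s ^ (d - 1))) hA0.ne']
    simp
  have hab : 1 / A ≤ (1 + (M : ℝ)) / A := by
    apply div_le_div_of_nonneg_right _ hA0.le
    have : (0 : ℝ) ≤ M := Nat.cast_nonneg _
    linarith
  have h4 := g5_split hd (a := 1 / A) (b := (1 + (M : ℝ)) / A) (by positivity) hab
  have h5 := g5_head hd (e := 1 / A) (by positivity) (by
    rw [div_le_one hA0]; linarith)
  have hb : 2 * Real.log A ≤ (1 + (M : ℝ)) / A := by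
    rw [le_div_iff₀ hA0]
    nlinarith
  have h6 := g5_tail hd (b := (1 + (M : ℝ)) / A) (by linarith)
  have h7 : Real.exp (-((1 + (M : ℝ)) / A)) ≤ 1 / (A * A) := by
    calc Real.exp (-((1 + (M : ℝ)) / A)) ≤ Real.exp (-(2 * Real.log A)) :=
          Real.exp_le_exp.mpr (by linarith)
      _ = 1 / (A * A) := by
          rw [Real.exp_neg, two_mul, Real.exp_add, Real.exp_log hA0, one_div]
  -- assemble
  have h8 : A * (∫ s in Set.Ioi ((1 + (M : ℝ)) / A), gg (s ^ (d - 1))) ≤ 1 := by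
    have : A * (∫ s in Set.Ioi ((1 + (M : ℝ)) / A), gg (s ^ (d - 1))) ≤
        A * (2 * (1 / (A * A))) :=
      mul_le_mul_of_nonneg_left (h6.trans (by linarith)) hA0.le
    refine this.trans ?_
    have h9 : A * (2 * (1 / (A * A))) = 2 / A := by field_simp
    rw [h9, div_le_one hA0]
    linarith
  have h9 : A * (∫ s in Set.Ioc (0 : ℝ) (1 / A), gg (s ^ (d - 1))) ≤ d * Real.log A := by
    have h10 := mul_le_mul_of_nonneg_left h5 hA0.le
    refine h10.trans ?_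
    have h11 : A * (1 / A * (Real.log 2 + ((d - 1 : ℕ) : ℝ) * (1 - Real.log (1 / A))) / 2) =
        (Real.log 2 + ((d - 1 : ℕ) : ℝ) * (1 + Real.log A)) / 2 := by
      rw [one_div, Real.log_inv]
      field_simp
      ring
    rw [h11]
    have h12 : ((d - 1 : ℕ) : ℝ) = (d : ℝ) - 1 := by
      rw [Nat.cast_sub (by omega)]; simp
    rw [h12]
    have hd2 : (2 : ℝ) ≤ d := by exact_mod_cast hd
    have hl2 : Real.log 2 ≤ 1 := by
      have := Real.log_two_lt_d9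
      linarith
    nlinarith
  have h10 : A * lam d = A * (∫ s in Set.Ioc (0 : ℝ) (1 / A), gg (s ^ (d - 1))) +
      A * (∫ s in (1 / A)..((1 + (M : ℝ)) / A), gg (s ^ (d - 1))) +
      A * (∫ s in Set.Ioi ((1 + (M : ℝ)) / A), gg (s ^ (d - 1))) := by
    rw [h4]; ring
  rw [h3, h2] at h1
  linarith

end BTP
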