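import Pool.Agent.BTP.V5
import Pool.Agent.BTP.G5

set_option autoImplicit false

open scoped Classical
open Finset

namespace BTP

variable {d : ℕ} (a : Par d)

/-- the number of terms -/
noncomputable def MM : ℕ := ⌈2 * a.A * Real.log a.A⌉₊

/-- the error in the value of the potential -/
noncomputable def Er : ℝ := d * (a.c * MM a + d * (2 * a.K * Real.sqrt (MM a) +
  a.H * (1 + Real.log (MM a))) + d * Real.log a.A + 1)

theorem v8_sqrt (M : ℕ) : ∑ m ∈ Finset.Icc 1 M, (1 / Real.sqrt m) ≤ 2 * Real.sqrt M := by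
  induction M with
  | zero => simp
  | succ M ih =>
    rw [Finset.sum_Icc_succ_top (by omega)]
    refine (add_le_add_left ih _).trans ?_
    have hM : (0 : ℝ) ≤ M := Nat.cast_nonneg M
    push_cast
    have e0 := Real.sq_sqrt hM
    have e1 := Real.sq_sqrt (show (0 : ℝ) ≤ M + 1 by linarith)
    have e2 : 0 < Real.sqrt (M + 1 : ℝ) := Real.sqrt_pos.2 (by linarith)
    have e3 : 1 / Real.sqrt (M + 1 : ℝ) ≤ 2 * Real.sqrt (M + 1 : ℝ) - 2 * Real.sqrt M := by
      rw [div_le_iff₀ e2]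
      nlinarith [sq_nonneg (Real.sqrt (M + 1 : ℝ) - Real.sqrt M)]
    linarith

theorem v8_harm (M : ℕ) : ∑ m ∈ Finset.Icc 1 M, (1 / (m : ℝ)) ≤ 1 + Real.log M := by
  refine le_trans (le_of_eq ?_) (harmonic_le_one_add_log M)
  rw [harmonic_eq_sum_Icc]
  push_cast
  apply Finset.sum_congr rfl
  intro m _
  rw [one_div]

/-- [BTP-V8] the sum along the diagonal.
PROOF. `q m^{d-1} = (m/A)^{d-1}` (`hqA`). `gg_log`: `g(q m^{d-1}) - g(q φ(m)^{d-1}) ≤ (d-1) log(φ(m)/m) ≤ (d-1)(K/√m + H/m)`; `∑_{m ≤ M} 1/√m ≤ 2√M`, `∑ 1/m ≤ 1 + log M` (`harmonic_le_one_add_log`); `riemann`. -/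
theorem diag_sum : a.A * lam d - Er a / d ≤
    ∑ m ∈ Finset.Icc 1 (MM a), (gg (a.q * a.f m ^ (d - 1)) - a.c) := by
  have hd := a.hd
  have hA := a.hA
  have hq := a.hq
  have hK : 0 ≤ a.K := by linarith [a.hK]
  have hH := a.H_pos
  have hd0 : (0 : ℝ) < d := by
    have : (0 : ℕ) < d := by omega
    exact_mod_cast this
  have h1 := riemann hd hA (M := MM a) (Nat.le_ceil _)
  have hterm : ∀ m ∈ Finset.Icc 1 (MM a), gg (((m : ℝ) / a.A) ^ (d - 1)) ≤
      gg (a.q * a.f m ^ (d - 1)) + ((d - 1 : ℕ) : ℝ) *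
        (a.K * (1 / Real.sqrt m) + a.H * (1 / (m : ℝ))) := by
    intro m hm
    rw [Finset.mem_Icc] at hm
    have hm0 : (0 : ℝ) < m := by
      have : 0 < m := by omega
      exact_mod_cast this
    have hA0 : 0 < a.A := by linarith
    have hsm : 0 < Real.sqrt m := Real.sqrt_pos.2 hm0
    have hfm : a.f m = m + a.K * Real.sqrt m + a.H := rfl
    have hmf : (m : ℝ) ≤ a.f m := by
      rw [hfm]
      have := mul_nonneg hK hsm.le
      linarith
    have hf0 : 0 < a.f m := lt_of_lt_of_le hm0 hmf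
    have hAp : 0 < a.A ^ (d - 1) := pow_pos hA0 _
    have hqe : a.q = (a.A ^ (d - 1))⁻¹ := eq_inv_of_mul_eq_one_left a.hqA
    have hz : 0 < ((m : ℝ) / a.A) ^ (d - 1) := pow_pos (div_pos hm0 hA0) _
    have hze : a.q * a.f m ^ (d - 1) = (a.f m / a.A) ^ (d - 1) := by
      rw [hqe, div_pow]
      ring
    have hzz : ((m : ℝ) / a.A) ^ (d - 1) ≤ a.q * a.f m ^ (d - 1) := by
      rw [hze]
      exact pow_le_pow_left₀ (div_pos hm0 hA0).le (div_le_div_of_nonneg_right hmf hA0.le) _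
    have h2 := gg_log hz hzz
    have h3 : a.q * a.f m ^ (d - 1) / ((m : ℝ) / a.A) ^ (d - 1) = (a.f m / m) ^ (d - 1) := by
      rw [hze, ← div_pow]
      congr 1
      field_simp
    rw [h3, Real.log_pow] at h2
    have h4 : Real.log (a.f m / m) ≤ a.K * (1 / Real.sqrt m) + a.H * (1 / (m : ℝ)) := by
      refine (Real.log_le_sub_one_of_pos (div_pos hf0 hm0)).trans (le_of_eq ?_)
      rw [hfm]
      have h5 : Real.sqrt m * Real.sqrt m = m := Real.mul_self_sqrt hm0.le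
      have h6 : 1 / Real.sqrt m = Real.sqrt m / m := by
        rw [div_eq_div_iff hsm.ne' hm0.ne', one_mul, h5]
      rw [h6]
      field_simp
      ring
    have h7 := mul_le_mul_of_nonneg_left h4 (Nat.cast_nonneg (α := ℝ) (d - 1))
    linarith
  have hsum := Finset.sum_le_sum hterm
  rw [Finset.sum_add_distrib, ← Finset.mul_sum, Finset.sum_add_distrib, ← Finset.mul_sum,
    ← Finset.mul_sum] at hsum
  rw [Finset.sum_sub_distrib, Finset.sum_const, Nat.card_Icc, Nat.add_sub_cancel, nsmul_eq_mul]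
  have hs1 := mul_le_mul_of_nonneg_left (v8_sqrt (MM a)) hK
  have hs2 := mul_le_mul_of_nonneg_left (v8_harm (MM a)) hH.le
  have hlog : 0 ≤ Real.log (MM a) := Real.log_natCast_nonneg _
  have hnn : 0 ≤ 2 * a.K * Real.sqrt (MM a) + a.H * (1 + Real.log (MM a)) := by
    have := Real.sqrt_nonneg (MM a : ℝ)
    positivity
  have hEr : Er a / d = a.c * MM a + d * (2 * a.K * Real.sqrt (MM a) +
      a.H * (1 + Real.log (MM a))) + d * Real.log a.A + 1 := by
    unfold Er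
    field_simp
  have hd1 : ((d - 1 : ℕ) : ℝ) ≤ d := by exact_mod_cast Nat.sub_le d 1
  have h8 : ((d - 1 : ℕ) : ℝ) * (a.K * ∑ m ∈ Finset.Icc 1 (MM a), (1 / Real.sqrt m) +
      a.H * ∑ m ∈ Finset.Icc 1 (MM a), (1 / (m : ℝ))) ≤
      d * (2 * a.K * Real.sqrt (MM a) + a.H * (1 + Real.log (MM a))) := by
    calc ((d - 1 : ℕ) : ℝ) * (a.K * ∑ m ∈ Finset.Icc 1 (MM a), (1 / Real.sqrt m) +
          a.H * ∑ m ∈ Finset.Icc 1 (MM a), (1 / (m : ℝ)))
        ≤ ((d - 1 : ℕ) : ℝ) * (2 * a.K * Real.sqrt (MM a) + a.H * (1 + Real.log (MM a))) := by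
          apply mul_le_mul_of_nonneg_left _ (Nat.cast_nonneg _)
          linarith
      _ ≤ d * (2 * a.K * Real.sqrt (MM a) + a.H * (1 + Real.log (MM a))) :=
          mul_le_mul_of_nonneg_right hd1 hnn
  rw [hEr]
  linarith

end BTP
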