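import Pool.Agent.BTP.A1
import Pool.Agent.BTP.A3
import Pool.Agent.BTP.V8

set_option autoImplicit false

open Filter

namespace BTP

/-- the error term -/
theorem a2_err {d : ℕ} (hd : 2 ≤ d) {L E M g : ℝ} {h : ℕ} (hE : 1 ≤ E) (hL : 100 ≤ L)
    (hM0 : 0 < M) (hM : M ≤ 3 * L * E ^ 4) (hEL : E ^ 4 = Real.exp L)
    (h3 : 3 * L ≤ E) (h6 : 6 * L ^ (10 * d + 9) ≤ E) (h4 : 4 * d * L ^ 2 ≤ E)
    (hdL : (4 * d + 5 * d ^ 2 + 3 : ℝ) ≤ L) (hh : (h : ℝ) ≤ L + 1) (hg0 : 0 ≤ g) (hg : g ≤ d * L) :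
    (d : ℝ) * (L ^ (2 * d + 3) * (E ^ 2)⁻¹ * M + d * (2 * L ^ (d + 4) * Real.sqrt M +
      2 * L ^ (10 * d + 8) * (1 + Real.log M)) + d * L + 1) + 2 * ((h : ℝ) + d + 1) * g ≤
      E ^ 2 * L ^ (2 * d + 5) := by
  have hL1 : (1 : ℝ) ≤ L := by linarith
  have hL0 : (0 : ℝ) < L := by linarith
  have hE0 : (0 : ℝ) < E := by linarith
  have hd2 : (2 : ℝ) ≤ d := by exact_mod_cast hd
  have hd0 : (0 : ℝ) ≤ d := by linarith
  obtain ⟨W, hW⟩ : ∃ W, W = E ^ 2 * L ^ (2 * d + 4) := ⟨_, rfl⟩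
  have hLp : (1 : ℝ) ≤ L ^ (2 * d + 4) := one_le_pow₀ hL1
  have hEW : E ^ 2 ≤ W := by
    rw [hW]
    exact le_mul_of_one_le_right (by positivity) hLp
  have hEE : E ≤ E ^ 2 := by nlinarith
  have hEW' : E ≤ W := hEE.trans hEW
  have hW0 : 0 ≤ W := by linarith
  -- first term
  have t1 : L ^ (2 * d + 3) * (E ^ 2)⁻¹ * M ≤ 3 * W := by
    calc L ^ (2 * d + 3) * (E ^ 2)⁻¹ * M ≤ L ^ (2 * d + 3) * (E ^ 2)⁻¹ * (3 * L * E ^ 4) :=
          mul_le_mul_of_nonneg_left hM (by positivity)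
      _ = 3 * W := by
          rw [hW]
          field_simp
          ring
  -- second term
  have t2 : 2 * L ^ (d + 4) * Real.sqrt M ≤ 4 * W := by
    have hs : Real.sqrt M ≤ 2 * L * E ^ 2 := by
      rw [Real.sqrt_le_left (by positivity)]
      calc M ≤ 3 * L * E ^ 4 := hM
        _ ≤ 4 * L ^ 2 * E ^ 4 := by
          apply mul_le_mul_of_nonneg_right _ (by positivity)
          nlinarith
        _ = (2 * L * E ^ 2) ^ 2 := by ring
    have hp : L ^ (d + 4) * L ≤ L ^ (2 * d + 4) := by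
      rw [← pow_succ]
      exact pow_le_pow_right₀ hL1 (by omega)
    calc 2 * L ^ (d + 4) * Real.sqrt M ≤ 2 * L ^ (d + 4) * (2 * L * E ^ 2) :=
          mul_le_mul_of_nonneg_left hs (by positivity)
      _ = 4 * (E ^ 2 * (L ^ (d + 4) * L)) := by ring
      _ ≤ 4 * W := by
          rw [hW]
          have := mul_le_mul_of_nonneg_left hp (show (0 : ℝ) ≤ E ^ 2 by positivity)
          linarith
  -- third term
  have t3 : 2 * L ^ (10 * d + 8) * (1 + Real.log M) ≤ W := by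
    have hl : Real.log M ≤ 2 * L := by
      rw [Real.log_le_iff_le_exp hM0]
      have e1 : Real.exp (2 * L) = E ^ 4 * E ^ 4 := by
        rw [hEL, ← Real.exp_add]
        congr 1
        ring
      rw [e1]
      refine hM.trans (mul_le_mul_of_nonneg_right ?_ (by positivity))
      refine h3.trans ?_
      calc E ≤ E ^ 2 := hEE
        _ ≤ E ^ 4 := pow_le_pow_right₀ hE (by norm_num)
    calc 2 * L ^ (10 * d + 8) * (1 + Real.log M) ≤ 2 * L ^ (10 * d + 8) * (3 * L) :=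
          mul_le_mul_of_nonneg_left (by linarith) (by positivity)
      _ = 6 * L ^ (10 * d + 9) := by rw [pow_succ L (10 * d + 8)]; ring
      _ ≤ W := h6.trans hEW'
  have t4 : d * L + 1 ≤ W := by
    refine le_trans ?_ (h4.trans hEW')
    have : (1 : ℝ) ≤ d * L := by nlinarith
    have h5 : d * L ≤ d * L ^ 2 := by
      apply mul_le_mul_of_nonneg_left _ hd0
      nlinarith
    nlinarith
  have t5 : 2 * ((h : ℝ) + d + 1) * g ≤ W := by
    refine le_trans ?_ (h4.trans hEW')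
    have h7 : (h : ℝ) + d + 1 ≤ 2 * L := by nlinarith
    calc 2 * ((h : ℝ) + d + 1) * g ≤ 2 * (2 * L) * (d * L) := by
          apply mul_le_mul (by linarith) hg hg0 (by positivity)
      _ = 4 * d * L ^ 2 := by ring
  calc (d : ℝ) * (L ^ (2 * d + 3) * (E ^ 2)⁻¹ * M + d * (2 * L ^ (d + 4) * Real.sqrt M +
      2 * L ^ (10 * d + 8) * (1 + Real.log M)) + d * L + 1) + 2 * ((h : ℝ) + d + 1) * g
      ≤ d * (3 * W + d * (4 * W + W) + W) + W := by
        have h8 : d * (2 * L ^ (d + 4) * Real.sqrt M +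
          2 * L ^ (10 * d + 8) * (1 + Real.log M)) ≤ d * (4 * W + W) :=
          mul_le_mul_of_nonneg_left (by linarith) hd0
        have h9 := mul_le_mul_of_nonneg_left
          (show L ^ (2 * d + 3) * (E ^ 2)⁻¹ * M + d * (2 * L ^ (d + 4) * Real.sqrt M +
            2 * L ^ (10 * d + 8) * (1 + Real.log M)) + d * L + 1 ≤
            3 * W + d * (4 * W + W) + W by linarith) hd0
        linarith
    _ = (4 * d + 5 * d ^ 2 + 1) * W := by ring
    _ ≤ L * W := mul_le_mul_of_nonneg_right (by linarith) hW0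
    _ = E ^ 2 * L ^ (2 * d + 5) := by rw [hW, pow_succ L (2 * d + 4)]; ring

/-- [BTP-A2] the parameters exist for all large `A = exp L`.
PROOF. `q = exp(-(d-1)L)`, `p = 1 - exp(-q)`, `h = ⌈L⌉₊`, `H1 = L^(10d+8)`, `H = 2 H1`, `K = L^(d+4)`, `Lam = L^(d+2)`, `P = 20 d L`, `B = 4^d exp(L) L`, `c = L^(2d+3) exp(-L/2)`, `gam = gmL d L`, `Z` from `gg_ivt` for `c/2` (`Z ≤ log(4/c) ≤ L`).
All conditions for large `L` (`ev_exp`, `ev_le`, `ev_log`, `ev_pow`): `p ≤ q ≤ 1/2`; `h ≤ L + 1 ≤ 2L`; `h^d p ≤ (2L)^d exp(-L) ≤ 1`; `K² = L^(2d+8) ≤ H1`; `hLam`: `16 d (2L)^d √(1+L) ≤ L^(d+2)`; `hwin`: `(2L+2) L^(d+2) ≤ L^(5d+4) = √H1`; `hgain`: `200 d L^(d+3) ≤ L^(d+4)`;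
`hc1`: `32·400 d² L² L^(2d+4) (4^d exp(L) L)^(d-2) ≤ L^(4d+6) exp(-L) exp((d-1)L)`, i.e. `12800 d² 4^(d(d-2)) L^(3d+4) ≤ L^(4d+6)`; `hZH`: `(H1/A)^(d-1) ≤ 1`; `hHB`; `hB`: `Z ≤ L`; `hB2`: `d λ ≤ 4^d L g(1)/2`; `hcg`; `gam ≥ 0`: `log H ≤ L`; `hgam`: `gg_up`, `qH^{d-1} ≤ 1`;
`hcnt`: `B ≤ exp(2L)`, `exp(2 gam) ≤ 2 exp(dL)`: `18 e² exp(8dL + dL) ≤ exp(20dL)`; `hbase`: `base_ineq`.
Error: `MM ≤ 3 L exp L`; `c MM ≤ 3 L^(2d+4) exp(L/2)`, `K √MM ≤ 2 L^(d+5) exp(L/2)`, `H (1 + log MM) ≤ exp(L/4)`, `(h + d + 1) gam ≤ exp(L/4)`. -/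
theorem exists_par {d : ℕ} (hd : 2 ≤ d) : ∀ᶠ L : ℝ in atTop, ∃ a : Par d, a.A = Real.exp L ∧
    a.B ≤ Real.exp (2 * L) ∧
    Er a + 2 * ((a.h : ℝ) + d + 1) * a.gam ≤ Real.exp (L / 2) * L ^ (2 * d + 5) := by
  obtain ⟨k, rfl⟩ : ∃ k, d = k + 2 := ⟨d - 2, by omega⟩
  have hg1 : 0 < gg 1 := gg_pos one_pos
  have hlam : 0 ≤ lam (k + 2) := lam_nonneg
  filter_upwards [ev_le 100, ev_log (((k + 2 : ℕ) : ℝ) + 41), ev_exp (2 ^ (k + 2)) (k + 2),
    ev_exp 1 (2 * (k + 2)), ev_exp 1 (2 * (k + 2) + 3), ev_exp (2 / gg 1) 0,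
    ev_exp 2 (10 * (k + 2) + 8), ev_exp (4 ^ (k + 2)) 1,
    ev_le (2 * ((k + 2 : ℕ) : ℝ) * lam (k + 2) / gg 1),
    ev_pow (32 * ((k + 2 : ℕ) : ℝ) * 2 ^ (k + 2)) (k + 2 + 1),
    ev_pow (200 * ((k + 2 : ℕ) : ℝ)) (k + 2 + 3),
    ev_pow (12800 * ((k + 2 : ℕ) : ℝ) ^ 2 * 4 ^ ((k + 2) * k)) (3 * (k + 2) + 4),
    ev_exp 6 (10 * (k + 2) + 9), ev_exp (4 * ((k + 2 : ℕ) : ℝ)) 2, ev_exp 3 1,
    ev_le (4 * ((k + 2 : ℕ) : ℝ) + 5 * ((k + 2 : ℕ) : ℝ) ^ 2 + 3),
    ev_exp (18 * Real.exp 2) 0] with L f1 f2 f3 f4 f5 f6 f7 f8 f9 f10 f11 f12 f13 f14 f15 f16 f17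
  have hL0 : (0 : ℝ) < L := by linarith
  have hL1 : (1 : ℝ) ≤ L := by linarith
  have hk0 : (0 : ℝ) ≤ k := Nat.cast_nonneg k
  have hk2 : ((k + 2 : ℕ) : ℝ) = k + 2 := by push_cast; ring
  obtain ⟨E, hE⟩ : ∃ E, E = Real.exp (L / 4) := ⟨_, rfl⟩
  rw [← hE] at f3 f4 f5 f6 f7 f8 f13 f14 f15 f17
  have hEL : E ^ 4 = Real.exp L := by
    rw [hE, ← Real.exp_nat_mul]
    congr 1
    push_cast
    ring
  have hE2 : E ^ 2 = Real.exp (L / 2) := by
    rw [hE, ← Real.exp_nat_mul]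
    congr 1
    push_cast
    ring
  have hE26 : 26 ≤ E := by
    rw [hE]
    have := Real.add_one_le_exp (L / 4)
    linarith
  have hE1 : (1 : ℝ) ≤ E := by linarith
  have hE0 : (0 : ℝ) < E := by linarith
  have hEX : E ≤ E ^ 4 := by
    calc E = E ^ 1 := (pow_one E).symm
      _ ≤ E ^ 4 := pow_le_pow_right₀ hE1 (by norm_num)
  obtain ⟨X, hX⟩ : ∃ X, X = Real.exp L := ⟨_, rfl⟩
  rw [← hX] at hEL
  have hEX' : E ≤ X := by rw [← hEL]; exact hEX
  have hX1 : (1 : ℝ) ≤ X := hE1.trans hEX'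
  have hX0 : (0 : ℝ) < X := by linarith
  have hX26 : 26 ≤ X := hE26.trans hEX'
  have hlogX : Real.log X = L := by rw [hX, Real.log_exp]
  -- the probability
  obtain ⟨q, hqd⟩ : ∃ q : ℝ, q = (X ^ (k + 1))⁻¹ := ⟨_, rfl⟩
  have hq0 : 0 < q := by rw [hqd]; positivity
  have hqX : q ≤ X⁻¹ := by
    rw [hqd]
    apply inv_anti₀ hX0
    calc X = X ^ 1 := (pow_one X).symm
      _ ≤ X ^ (k + 1) := pow_le_pow_right₀ hX1 (by omega)
  have hqe : q = Real.exp (-((((k + 2 : ℕ) : ℝ) - 1) * L)) := by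
    rw [hqd, Real.exp_neg, hX, ← Real.exp_nat_mul]
    congr 2
    push_cast
    ring
  obtain ⟨p, hpd⟩ : ∃ p : ℝ, p = 1 - Real.exp (-q) := ⟨_, rfl⟩
  have hpq : p ≤ q := by
    have := Real.one_sub_le_exp_neg q
    rw [hpd]
    linarith
  have hp0 : 0 ≤ p := by
    have : Real.exp (-q) ≤ 1 := by
      rw [Real.exp_le_one_iff]
      linarith
    rw [hpd]
    linarith
  have hpX : p ≤ X⁻¹ := hpq.trans hqX
  have hXi : X⁻¹ ≤ 1 / 2 := by
    rw [one_div]
    exact inv_anti₀ (by norm_num) (by linarith)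
  -- the number h
  obtain ⟨h, hhd⟩ : ∃ h : ℕ, h = ⌈L⌉₊ := ⟨_, rfl⟩
  have hh1 : L ≤ h := by rw [hhd]; exact Nat.le_ceil L
  have hh2 : (h : ℝ) ≤ L + 1 := by
    rw [hhd]
    exact (Nat.ceil_lt_add_one hL0.le).le
  have hh3 : (h : ℝ) ≤ 2 * L := by linarith
  have hh4 : 1 ≤ h := by
    have : (0 : ℝ) < h := by linarith
    exact_mod_cast this
  have hhd' : (h : ℝ) ^ (k + 2) ≤ 2 ^ (k + 2) * L ^ (k + 2) := by
    rw [← mul_pow]
    exact pow_le_pow_left₀ (Nat.cast_nonneg h) hh3 _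
  -- the constant c
  obtain ⟨c, hcd⟩ : ∃ c : ℝ, c = L ^ (2 * (k + 2) + 3) * (E ^ 2)⁻¹ := ⟨_, rfl⟩
  have hc0 : 0 < c := by rw [hcd]; positivity
  have hc1 : c ≤ E⁻¹ := by
    rw [hcd]
    calc L ^ (2 * (k + 2) + 3) * (E ^ 2)⁻¹ ≤ E * (E ^ 2)⁻¹ := by
          apply mul_le_mul_of_nonneg_right _ (by positivity)
          rw [one_mul] at f5
          exact f5
      _ = E⁻¹ := by field_simp
  have hc2 : (E ^ 2)⁻¹ ≤ c := by
    rw [hcd]
    exact le_mul_of_one_le_left (by positivity) (one_le_pow₀ hL1)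
  have hcg : c ≤ gg 1 / 2 := by
    refine hc1.trans ?_
    rw [pow_zero, mul_one, div_le_iff₀ hg1] at f6
    rw [inv_le_iff_one_le_mul₀ hE0]
    linarith
  have hcle1 : c ≤ 1 := hc1.trans (inv_le_one_of_one_le₀ hE1)
  have h4c : 2 / (c / 2) = 4 / c := by field_simp; norm_num
  have h4c0 : 0 < 4 / c := by positivity
  obtain ⟨Z, hZ1, hZ2, hZ⟩ := gg_ivt (c := c / 2) (by positivity) (by linarith) (by
    rw [h4c, Real.le_log_iff_exp_le h4c0, le_div_iff₀ hc0]
    have h5 := Real.exp_one_lt_d9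
    calc Real.exp 1 * c ≤ Real.exp 1 * 1 :=
          mul_le_mul_of_nonneg_left hcle1 (Real.exp_pos 1).le
      _ ≤ 4 := by linarith)
  have hZL : Z ≤ L := by
    refine hZ2.trans ?_
    rw [h4c, Real.log_le_iff_le_exp h4c0, ← hX, div_le_iff₀ hc0, ← hEL]
    have h5 : E ^ 4 * (E ^ 2)⁻¹ ≤ E ^ 4 * c := mul_le_mul_of_nonneg_left hc2 (by positivity)
    have h6 : E ^ 4 * (E ^ 2)⁻¹ = E ^ 2 := by field_simp
    rw [h6] at h5
    have h7 : (26 : ℝ) ^ 2 ≤ E ^ 2 := pow_le_pow_left₀ (by norm_num) hE26 2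
    linarith
  -- H
  have hH0 : (0 : ℝ) < 2 * L ^ (10 * (k + 2) + 8) := by positivity
  have hHE : 2 * L ^ (10 * (k + 2) + 8) ≤ X := f7.trans hEX'
  have hlogH : Real.log (2 * L ^ (10 * (k + 2) + 8)) ≤ L := by
    rw [Real.log_le_iff_le_exp hH0, ← hX]
    exact hHE
  have hlogH0 : 0 ≤ Real.log (2 * L ^ (10 * (k + 2) + 8)) := by
    apply Real.log_nonneg
    have : (1 : ℝ) ≤ L ^ (10 * (k + 2) + 8) := one_le_pow₀ hL1
    linarith
  have hlog2 : Real.log 2 ≤ 1 := by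
    have := Real.log_two_lt_d9
    linarith
  have hlog20 : 0 ≤ Real.log 2 := Real.log_nonneg (by norm_num)
  -- gam
  obtain ⟨g, hgd⟩ : ∃ g, g = gmL (k + 2) L := ⟨_, rfl⟩
  have hgd' : 2 * g = Real.log 2 + ((k : ℝ) + 1) *
      (L - Real.log (2 * L ^ (10 * (k + 2) + 8))) := by
    rw [hgd]
    unfold gmL
    push_cast
    ring
  have hg0 : 0 ≤ g := by
    have : 0 ≤ ((k : ℝ) + 1) * (L - Real.log (2 * L ^ (10 * (k + 2) + 8))) :=
      mul_nonneg (by linarith) (by linarith)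
    linarith
  have hg2 : 2 * g ≤ Real.log 2 + ((k : ℝ) + 1) * L := by
    have : ((k : ℝ) + 1) * (L - Real.log (2 * L ^ (10 * (k + 2) + 8))) ≤ ((k : ℝ) + 1) * L :=
      mul_le_mul_of_nonneg_left (by linarith) (by linarith)
    linarith
  have hkL : 0 ≤ (k : ℝ) * L := mul_nonneg hk0 hL0.le
  have hgL : g ≤ ((k + 2 : ℕ) : ℝ) * L := by
    rw [hk2]
    linarith
  have hB4 : (1 : ℝ) ≤ 4 ^ (k + 2) := one_le_pow₀ (by norm_num)
  rw [pow_one] at f8 f15
  rw [one_mul] at f4 f5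
  rw [pow_zero, mul_one] at f17 f6
  have hBX : 4 ^ (k + 2) * X * L ≤ X ^ 2 := by
    calc 4 ^ (k + 2) * X * L = X * (4 ^ (k + 2) * L) := by ring
      _ ≤ X * X := mul_le_mul_of_nonneg_left (f8.trans hEX') hX0.le
      _ = X ^ 2 := by ring
  have hexp2L : Real.exp (2 * L) = X ^ 2 := by
    rw [hX, ← Real.exp_nat_mul]
    congr 1
  let a : Par (k + 2) :=
    { q := q
      A := X
      p := p
      c := c
      K := L ^ (k + 2 + 4)
      H := 2 * L ^ (10 * (k + 2) + 8)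
      H1 := L ^ (10 * (k + 2) + 8)
      Lam := L ^ (k + 2 + 2)
      Z := Z
      B := 4 ^ (k + 2) * X * L
      P := 20 * ((k + 2 : ℕ) : ℝ) * L
      gam := g
      h := h
      hd := hd
      hA := by linarith
      hq := hq0
      hqA := by
        rw [hqd]
        exact inv_mul_cancel₀ (by positivity)
      hp := hpd
      hp2 := hpX.trans hXi
      hh := hh4
      hhp := by
        calc (h : ℝ) ^ (k + 2) * p ≤ X * X⁻¹ :=
              mul_le_mul (hhd'.trans (f3.trans hEX')) hpX hp0 hX0.le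
          _ = 1 := mul_inv_cancel₀ hX0.ne'
      hK := by
        calc (8 : ℝ) ≤ L := by linarith
          _ = L ^ 1 := (pow_one L).symm
          _ ≤ L ^ (k + 2 + 4) := pow_le_pow_right₀ hL1 (by omega)
      hH1 := by
        calc (100 : ℝ) ≤ L := f1
          _ = L ^ 1 := (pow_one L).symm
          _ ≤ L ^ (10 * (k + 2) + 8) := pow_le_pow_right₀ hL1 (by omega)
      hKH := by
        rw [← pow_mul]
        exact pow_le_pow_right₀ hL1 (by omega)
      hH := rfl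
      hLam := by
        have h5 : Real.sqrt (1 + Z) ≤ 2 * L := by
          rw [Real.sqrt_le_left (by positivity)]
          calc 1 + Z ≤ 2 * L := by linarith
            _ = 2 * L * 1 := (mul_one _).symm
            _ ≤ 2 * L * (2 * L) := mul_le_mul_of_nonneg_left (by linarith) (by positivity)
            _ = (2 * L) ^ 2 := (sq _).symm
        calc 16 * ((k + 2 : ℕ) : ℝ) * (h : ℝ) ^ (k + 2) * Real.sqrt (1 + Z) ≤
              16 * ((k + 2 : ℕ) : ℝ) * (2 ^ (k + 2) * L ^ (k + 2)) * (2 * L) := by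
              apply mul_le_mul _ h5 (Real.sqrt_nonneg _) (by positivity)
              exact mul_le_mul_of_nonneg_left hhd' (by positivity)
          _ = 32 * ((k + 2 : ℕ) : ℝ) * 2 ^ (k + 2) * L ^ (k + 2 + 1) := by
              rw [pow_succ L (k + 2)]; ring
          _ ≤ L ^ (k + 2 + 1 + 1) := f10
          _ = L ^ (k + 2 + 2) := rfl
      hwin := by
        apply Real.le_sqrt_of_sq_le
        have h5 : ((h : ℝ) + 2) * L ^ (k + 2 + 2) ≤ L ^ (k + 2 + 4) := by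
          calc ((h : ℝ) + 2) * L ^ (k + 2 + 2) ≤ L ^ 2 * L ^ (k + 2 + 2) := by
                apply mul_le_mul_of_nonneg_right _ (by positivity)
                calc (h : ℝ) + 2 ≤ L * 2 := by linarith
                  _ ≤ L * L := mul_le_mul_of_nonneg_left (by linarith) hL0.le
                  _ = L ^ 2 := (sq L).symm
            _ = L ^ (k + 2 + 4) := by rw [← pow_add]; congr 1; omega
        calc (((h : ℝ) + 2) * L ^ (k + 2 + 2)) ^ 2 ≤ (L ^ (k + 2 + 4)) ^ 2 :=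
              pow_le_pow_left₀ (by positivity) h5 2
          _ = L ^ ((k + 2 + 4) * 2) := by rw [← pow_mul]
          _ ≤ L ^ (10 * (k + 2) + 8) := pow_le_pow_right₀ hL1 (by omega)
      hgain := by
        calc 10 * L ^ (k + 2 + 2) * (20 * ((k + 2 : ℕ) : ℝ) * L) =
              200 * ((k + 2 : ℕ) : ℝ) * L ^ (k + 2 + 3) := by
              rw [show k + 2 + 3 = (k + 2 + 2) + 1 from rfl, pow_succ L (k + 2 + 2)]; ring
          _ ≤ L ^ (k + 2 + 3 + 1) := f11
          _ = L ^ (k + 2 + 4) := rfl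
      hc := hc0
      hc1 := by
        have e1 : c ^ 2 * X ^ (k + 2 - 1) = L ^ (4 * (k + 2) + 6) * X ^ k := by
          rw [hcd, mul_pow, ← pow_mul, inv_pow, ← pow_mul, show 2 * 2 = 4 from rfl, hEL,
            show k + 2 - 1 = k + 1 from rfl, pow_succ X k,
            show (2 * (k + 2) + 3) * 2 = 4 * (k + 2) + 6 by ring]
          field_simp
        have e2 : 32 * (20 * ((k + 2 : ℕ) : ℝ) * L) ^ 2 * (L ^ (k + 2 + 2)) ^ 2 *
            (4 ^ (k + 2) * X * L) ^ (k + 2 - 2) =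
            (12800 * ((k + 2 : ℕ) : ℝ) ^ 2 * 4 ^ ((k + 2) * k) * L ^ (3 * (k + 2) + 4)) *
              X ^ k := by
          rw [show k + 2 - 2 = k from rfl, mul_pow, mul_pow, mul_pow, mul_pow, ← pow_mul,
            ← pow_mul, show 3 * (k + 2) + 4 = 2 + (k + 2 + 2) * 2 + k by ring, pow_add, pow_add]
          ring
        rw [e1, e2]
        apply mul_le_mul_of_nonneg_right _ (by positivity)
        exact f12.trans (pow_le_pow_right₀ hL1 (by omega))
      hZ1 := hZ1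
      hZ := hZ
      hZH := by
        refine le_trans ?_ hZ1
        rw [hqd, show k + 2 - 1 = k + 1 from rfl, ← inv_pow, ← mul_pow]
        apply pow_le_one₀ (by positivity)
        rw [inv_mul_le_iff₀ hX0, mul_one]
        linarith
      hHB := by
        calc L ^ (10 * (k + 2) + 8) ≤ X := by linarith
          _ ≤ 4 ^ (k + 2) * X * L := by
            have : X ≤ 4 ^ (k + 2) * X := le_mul_of_one_le_left hX0.le hB4
            exact this.trans (le_mul_of_one_le_right (by positivity) hL1)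
      hB := by
        calc (4 : ℝ) ^ (k + 2) * Z * X ≤ 4 ^ (k + 2) * L * X := by
              apply mul_le_mul_of_nonneg_right _ hX0.le
              exact mul_le_mul_of_nonneg_left hZL (by positivity)
          _ = 4 ^ (k + 2) * X * L := by ring
      hB2 := by
        rw [div_le_iff₀ hg1] at f9
        have h5 : ((k + 2 : ℕ) : ℝ) * lam (k + 2) ≤ 4 ^ (k + 2) * (L * (gg 1 / 2)) := by
          calc ((k + 2 : ℕ) : ℝ) * lam (k + 2) ≤ L * (gg 1 / 2) := by linarith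
            _ ≤ 4 ^ (k + 2) * (L * (gg 1 / 2)) := le_mul_of_one_le_left (by positivity) hB4
        calc ((k + 2 : ℕ) : ℝ) * X * lam (k + 2) = X * (((k + 2 : ℕ) : ℝ) * lam (k + 2)) := by ring
          _ ≤ X * (4 ^ (k + 2) * (L * (gg 1 / 2))) := mul_le_mul_of_nonneg_left h5 hX0.le
          _ = 4 ^ (k + 2) * X * L * (gg 1 / 2) := by ring
      hcg := hcg
      hgam0 := hg0
      hgam := by
        obtain ⟨z, hz⟩ : ∃ z, z = q * (2 * L ^ (10 * (k + 2) + 8)) ^ (k + 2 - 1) := ⟨_, rfl⟩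
        rw [← hz]
        have hz0 : 0 < z := by rw [hz]; positivity
        have hz1 : z = (X⁻¹ * (2 * L ^ (10 * (k + 2) + 8))) ^ (k + 1) := by
          rw [hz, hqd, show k + 2 - 1 = k + 1 from rfl, ← inv_pow, ← mul_pow]
        have hz2 : z ≤ 1 := by
          rw [hz1]
          apply pow_le_one₀ (by positivity)
          rw [inv_mul_le_iff₀ hX0, mul_one]
          exact hHE
        have hlz : Real.log z = ((k : ℝ) + 1) * (Real.log (2 * L ^ (10 * (k + 2) + 8)) - L) := by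
          rw [hz1, Real.log_pow, Real.log_mul (by positivity) hH0.ne', Real.log_inv, hlogX]
          push_cast
          ring
        have h5 := gg_up hz0
        have h6 : Real.log ((1 + z) / z) ≤ Real.log 2 - Real.log z := by
          rw [← Real.log_div (by norm_num) hz0.ne']
          apply Real.log_le_log (by positivity)
          exact div_le_div_of_nonneg_right (by linarith) hz0.le
        rw [hlz] at h6
        linarith
      hP := by positivity
      hcnt := by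
        have h5 : (4 ^ (k + 2) * X * L) ^ (4 * (k + 2)) ≤ Real.exp (8 * ((k + 2 : ℕ) : ℝ) * L) := by
          calc (4 ^ (k + 2) * X * L) ^ (4 * (k + 2)) ≤ (X ^ 2) ^ (4 * (k + 2)) :=
                pow_le_pow_left₀ (by positivity) hBX _
            _ = Real.exp (8 * ((k + 2 : ℕ) : ℝ) * L) := by
                rw [← hexp2L, ← Real.exp_nat_mul]
                congr 1
                push_cast
                ring
        have h6 : Real.exp (2 * g) ≤ 2 * Real.exp (((k + 2 : ℕ) : ℝ) * L) := by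
          calc Real.exp (2 * g) ≤ Real.exp (Real.log 2 + ((k + 2 : ℕ) : ℝ) * L) := by
                apply Real.exp_le_exp.2
                rw [hk2]
                linarith
            _ = 2 * Real.exp (((k + 2 : ℕ) : ℝ) * L) := by
                rw [Real.exp_add, Real.exp_log (by norm_num)]
        calc 9 * Real.exp 2 * (4 ^ (k + 2) * X * L) ^ (4 * (k + 2)) * Real.exp (2 * g) ≤
              9 * Real.exp 2 * Real.exp (8 * ((k + 2 : ℕ) : ℝ) * L) *
                (2 * Real.exp (((k + 2 : ℕ) : ℝ) * L)) := by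
              apply mul_le_mul _ h6 (Real.exp_pos _).le (by positivity)
              exact mul_le_mul_of_nonneg_left h5 (by positivity)
          _ = 18 * Real.exp 2 * Real.exp (9 * ((k + 2 : ℕ) : ℝ) * L) := by
              have : Real.exp (9 * ((k + 2 : ℕ) : ℝ) * L) =
                  Real.exp (8 * ((k + 2 : ℕ) : ℝ) * L) * Real.exp (((k + 2 : ℕ) : ℝ) * L) := by
                rw [← Real.exp_add]
                congr 1
                ring
              rw [this]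
              ring
          _ ≤ X * Real.exp (9 * ((k + 2 : ℕ) : ℝ) * L) :=
              mul_le_mul_of_nonneg_right (f17.trans hEX') (Real.exp_pos _).le
          _ = Real.exp (L + 9 * ((k + 2 : ℕ) : ℝ) * L) := by rw [hX, Real.exp_add]
          _ ≤ Real.exp (20 * ((k + 2 : ℕ) : ℝ) * L) := by
              apply Real.exp_le_exp.2
              rw [hk2]
              linarith
      hbase := by
        intro Y m hY1 hY2 hm
        rw [hgd]
        refine base_ineq hd f1 f2 ?_ hp0 (hpq.trans hqe.le) hh1 hh2 Y m hY1 hY2 hm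
        have h5 : Real.log (L ^ (2 * (k + 2))) ≤ L / 4 := by
          rw [Real.log_le_iff_le_exp (by positivity), ← hE]
          exact f4
        rw [Real.log_pow] at h5
        push_cast at h5 ⊢
        linarith }
  have haA : a.A = X := rfl
  refine ⟨a, hX, ?_, ?_⟩
  · rw [hexp2L]
    exact hBX
  · have hMd : ((MM a : ℕ) : ℝ) = (⌈2 * X * L⌉₊ : ℝ) := by
      unfold MM
      rw [haA, hlogX]
    have hM1 : ((MM a : ℕ) : ℝ) ≤ 3 * L * E ^ 4 := by
      rw [hMd, hEL]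
      have h5 : (0 : ℝ) ≤ 2 * X * L := by positivity
      have h6 := (Nat.ceil_lt_add_one h5).le
      have h7 : 1 ≤ X * L := by
        calc (1 : ℝ) = 1 * 1 := (mul_one 1).symm
          _ ≤ X * L := mul_le_mul hX1 hL1 zero_le_one hX0.le
      linarith
    have hM0 : (0 : ℝ) < ((MM a : ℕ) : ℝ) := by
      rw [hMd]
      have h5 : (0 : ℝ) < 2 * X * L := by positivity
      exact_mod_cast Nat.ceil_pos.2 h5
    have key := a2_err (d := k + 2) hd hE1 f1 hM0 hM1 (hEL.trans hX) f15 f13 f14 f16 hh2 hg0 hgL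
    rw [← hE2]
    refine le_trans (le_of_eq ?_) key
    unfold Er
    rw [haA, hlogX]
    change (((k + 2 : ℕ) : ℝ) * (c * ((MM a : ℕ) : ℝ) + ((k + 2 : ℕ) : ℝ) *
      (2 * L ^ (k + 2 + 4) * Real.sqrt ((MM a : ℕ) : ℝ) +
      2 * L ^ (10 * (k + 2) + 8) * (1 + Real.log ((MM a : ℕ) : ℝ))) +
      ((k + 2 : ℕ) : ℝ) * L + 1)) + 2 * ((h : ℝ) + ((k + 2 : ℕ) : ℝ) + 1) * g = _
    rw [hcd]

end BTP
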