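import Pool.Agent.BTP.D0

set_option autoImplicit false

open scoped Classical
open Finset

namespace BTP

variable {d : ℕ} {h : ℕ} {R S T Q : Box d} {W W' : Finset (Site d)}

/-- [BTP-B1] (`Finset.mem_Icc`, `Pi.le_def`) -/
theorem mem_sites {v : Site d} : v ∈ sites T ↔ cc v ≤ T := by
  unfold sites
  rw [Finset.mem_Icc]
  constructor
  · rintro ⟨h1, h2⟩ ⟨i, b⟩
    cases b
    · have := h1 i
      simp only [cc]
      simp only [Bool.false_eq_true, if_false]
      linarith
    · have := h2 i
      simp only [cc, if_true]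
      exact this
  · intro h
    constructor
    · intro i
      have := h (i, false)
      simp only [cc, Bool.false_eq_true, if_false] at this
      linarith
    · intro i
      have := h (i, true)
      simp only [cc, if_true] at this
      exact this

theorem b1_cct (v : Site d) (i : Fin d) : cc v (i, true) = v i := by
  simp only [cc, if_true]

theorem b1_ccf (v : Site d) (i : Fin d) : cc v (i, false) = - v i := by
  simp only [cc, Bool.false_eq_true, if_false]

theorem b1_Ys (R : Box d) : Ys R = ∑ i : Fin d, (R (i, true) + R (i, false)) := by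
  unfold Ys
  rw [Fintype.sum_prod_type]
  exact Finset.sum_congr rfl (fun i _ => Fintype.sum_bool _)

theorem b1_sup (j : Dir d) : (R ⊔ S) j = max (R j) (S j) := rfl

theorem ne_cc (v : Site d) : Ne (cc v) := by
  intro i
  rw [b1_cct, b1_ccf]
  linarith

theorem Ys_cc (v : Site d) : Ys (cc v) = 0 := by
  rw [b1_Ys]
  apply Finset.sum_eq_zero
  intro i _
  rw [b1_cct, b1_ccf]
  ring

theorem sd_cc (v : Site d) (i : Fin d) : sd (cc v) i = 1 := by
  unfold sd
  rw [b1_cct, b1_ccf, show v i + -v i + 1 = 1 by ring]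
  rfl

theorem Ne.sup_left (hR : Ne R) : Ne (R ⊔ S) := by
  intro i
  have h1 := hR i
  have h2 : R (i, true) ≤ (R ⊔ S) (i, true) := le_sup_left
  have h3 : R (i, false) ≤ (R ⊔ S) (i, false) := le_sup_left
  linarith

theorem Ne.mono (hR : Ne R) (h : R ≤ S) : Ne S := by
  intro i
  have h1 := hR i
  have h2 := h (i, true)
  have h3 := h (i, false)
  linarith

/-- [BTP-B1] -/
theorem Gen.ne (hg : Gen T W) : Ne T := by
  induction hg with
  | single v => exact ne_cc v
  | merge hR hS hd hn ihR ihS => exact ihR.sup_left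

theorem Gen.nonempty (hg : Gen T W) : W.Nonempty := by
  induction hg with
  | single v => exact Finset.singleton_nonempty v
  | merge hR hS hd hn ihR ihS => exact ihR.mono Finset.subset_union_left

theorem Gen.le (hg : Gen T W) : ∀ v ∈ W, cc v ≤ T := by
  induction hg with
  | single v =>
    intro w hw
    rw [Finset.mem_singleton] at hw
    rw [hw]
  | merge hR hS hd hn ihR ihS =>
    intro w hw
    rcases Finset.mem_union.1 hw with h | h
    · exact (ihR w h).trans le_sup_left
    · exact (ihS w h).trans le_sup_right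

theorem Gen.le_of (hg : Gen T W) (h : ∀ v ∈ W, cc v ≤ Q) : T ≤ Q := by
  induction hg with
  | single v => exact h v (Finset.mem_singleton_self v)
  | merge hR hS hd hn ihR ihS =>
    exact sup_le (ihR (fun v hv => h v (Finset.mem_union_left _ hv)))
      (ihS (fun v hv => h v (Finset.mem_union_right _ hv)))

/-- [BTP-B1] PROOF. `Fintype.sum_prod_type`: `Ys` is the sum over the axes of `T(i,+) + T(i,-)`. In each axis
`max R₊ S₊ + max R₋ S₋ ≤ (R₊ + R₋) + (S₊ + S₋) + gap` (four cases; the sums are nonnegative). -/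
theorem Ys_sup_le (hR : Ne R) (hS : Ne S) (hn : near R S) : Ys (R ⊔ S) ≤ Ys R + Ys S + 2 := by
  unfold near at hn
  rw [b1_Ys, b1_Ys, b1_Ys]
  have h1 : ∑ i : Fin d, ((R ⊔ S) (i, true) + (R ⊔ S) (i, false)) ≤
      ∑ i : Fin d, ((R (i, true) + R (i, false)) + (S (i, true) + S (i, false)) + gap R S i) := by
    apply Finset.sum_le_sum
    intro i _
    rw [b1_sup, b1_sup]
    have h1 := hR i
    have h2 := hS i
    unfold gap
    omega
  have h2 : ∑ i : Fin d, ((R (i, true) + R (i, false)) + (S (i, true) + S (i, false)) + gap R S i) =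
      ∑ i : Fin d, (R (i, true) + R (i, false)) + ∑ i : Fin d, (S (i, true) + S (i, false)) +
      ∑ i : Fin d, gap R S i := by
    rw [Finset.sum_add_distrib, Finset.sum_add_distrib]
  linarith

theorem Ys_nonneg (hR : Ne R) : 0 ≤ Ys R := by
  rw [b1_Ys]
  exact Finset.sum_nonneg (fun i _ => hR i)

theorem Ys_mono (h : R ≤ S) : Ys R ≤ Ys S := by
  exact Finset.sum_le_sum (fun j _ => h j)

theorem Ys_lt (h : R ≤ S) (hne : R ≠ S) : Ys R < Ys S := by
  obtain ⟨j, hj⟩ := Function.ne_iff.1 hne
  exact Finset.sum_lt_sum (fun j _ => h j) ⟨j, Finset.mem_univ j, lt_of_le_of_ne (h j) hj⟩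

/-- [BTP-B1] the perimeter bound: `n` sites generate a box of extent at most `2(n-1)`. -/
theorem Gen.per (hg : Gen T W) : Ys T + 2 ≤ 2 * (W.card : ℤ) := by
  induction hg with
  | single v =>
    rw [Ys_cc, Finset.card_singleton]
    norm_num
  | merge hR hS hd hn ihR ihS =>
    have h1 := Ys_sup_le hR.ne hS.ne hn
    rw [Finset.card_union_of_disjoint hd]
    push_cast
    linarith

/-- [BTP-B1] (`near` is symmetric) -/
theorem near_symm (hn : near R S) : near S R := by
  unfold near at hn ⊢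
  have h1 : ∀ i : Fin d, gap S R i = gap R S i := by
    intro i
    unfold gap
    rw [max_comm (-(S (i, true) + R (i, false)))]
  rw [Finset.sum_congr rfl (fun i _ => h1 i)]
  exact hn

theorem sd_pos (hR : Ne R) (i : Fin d) : 1 ≤ sd R i := by
  have h1 := hR i
  unfold sd
  omega

theorem sd_cast (hR : Ne R) (i : Fin d) : (sd R i : ℤ) = R (i, true) + R (i, false) + 1 := by
  have h1 := hR i
  unfold sd
  omega

theorem sd_mono (hR : Ne R) (h : R ≤ S) (i : Fin d) : sd R i ≤ sd S i := by
  have h1 := hR i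
  have h2 : R (i, true) ≤ S (i, true) := h (i, true)
  have h3 : R (i, false) ≤ S (i, false) := h (i, false)
  unfold sd
  omega

/-- [BTP-B1] -/
theorem Ys_eq (hR : Ne R) : Ys R = ∑ i, ((sd R i : ℤ) - 1) := by
  rw [b1_Ys]
  apply Finset.sum_congr rfl
  intro i _
  rw [sd_cast hR i]
  ring

theorem sd_le_Ys (hR : Ne R) (i : Fin d) : (sd R i : ℤ) ≤ Ys R + 1 := by
  rw [Ys_eq hR]
  have h1 : (sd R i : ℤ) - 1 ≤ ∑ i, ((sd R i : ℤ) - 1) := by
    apply Finset.single_le_sum (f := fun i => (sd R i : ℤ) - 1) _ (Finset.mem_univ i)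
    intro k _
    have := sd_pos hR k
    show (0 : ℤ) ≤ (sd R k : ℤ) - 1
    omega
  linarith

/-- [BTP-B1] -/
theorem sd_sup_le (hR : Ne R) (hS : Ne S) (i : Fin d) :
    sd (R ⊔ S) i ≤ sd R i + sd S i + (gap R S i).toNat := by
  have h1 := hR i
  have h2 := hS i
  unfold sd gap
  rw [b1_sup, b1_sup]
  omega

theorem sum_gap_toNat (hn : near R S) : ∑ i, (gap R S i).toNat ≤ 2 := by
  unfold near at hn
  have h1 : ((∑ i, (gap R S i).toNat : ℕ) : ℤ) ≤ 2 := by
    rw [Nat.cast_sum]
    refine le_trans (le_of_eq ?_) hn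
    apply Finset.sum_congr rfl
    intro i _
    apply Int.toNat_of_nonneg
    unfold gap
    exact le_max_left _ _
  exact_mod_cast h1

/-- [BTP-B1] for one direction -/
theorem dir_sub_le (hT : Ne T) (h : T ≤ Q) (j : Dir d) : Q j - T j ≤ (sd Q j.1 : ℤ) - sd T j.1 := by
  rw [sd_cast hT, sd_cast (hT.mono h)]
  have h2 := h (j.1, true)
  have h3 := h (j.1, false)
  obtain ⟨i, b⟩ := j
  cases b
  · dsimp only at h2 h3 ⊢
    linarith
  · dsimp only at h2 h3 ⊢
    linarith

theorem sd_sub_le (hT : Ne T) (h : T ≤ Q) (i : Fin d) : (sd Q i : ℤ) - sd T i ≤ Ys Q - Ys T := by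
  rw [Ys_eq hT, Ys_eq (hT.mono h), ← Finset.sum_sub_distrib]
  have h1 : ((sd Q i : ℤ) - 1) - ((sd T i : ℤ) - 1) ≤
      ∑ i, (((sd Q i : ℤ) - 1) - ((sd T i : ℤ) - 1)) := by
    apply Finset.single_le_sum (f := fun i => ((sd Q i : ℤ) - 1) - ((sd T i : ℤ) - 1)) _
      (Finset.mem_univ i)
    intro k _
    have := sd_mono hT h k
    show (0 : ℤ) ≤ ((sd Q k : ℤ) - 1) - ((sd T k : ℤ) - 1)
    omega
  linarith

end BTP
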