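import Pool.Agent.BTP.B1

set_option autoImplicit false

open scoped Classical
open Finset

namespace BTP

variable {d : ℕ} {R S T Q : Box d} {W W' : Finset (Site d)}

theorem b2_opp_opp (j : Dir d) : opp (opp j) = j := by
  obtain ⟨i, b⟩ := j
  simp [opp]

theorem b2_cc_opp (v : Site d) (j : Dir d) : cc v (opp j) = - cc v j := by
  obtain ⟨i, b⟩ := j
  cases b <;> simp [opp, cc]

/-- a nonempty box, in the form of an inequality for a direction -/
theorem b2_ne_dir (hT : Ne T) (j : Dir d) : - T (opp j) ≤ T j := by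
  obtain ⟨i, b⟩ := j
  have := hT i
  cases b
  · show - T (i, true) ≤ T (i, false)
    linarith
  · show - T (i, false) ≤ T (i, true)
    linarith

/-- the gap in a direction is at most two -/
theorem b2_near_dir (hn : near R S) (j : Dir d) : - S (opp j) ≤ R j + 2 := by
  have h0 : ∀ i : Fin d, 0 ≤ gap R S i := fun i => le_max_left _ _
  have h1 : gap R S j.1 ≤ 2 :=
    (Finset.single_le_sum (f := fun i => gap R S i) (fun i _ => h0 i) (Finset.mem_univ j.1)).trans hn
  obtain ⟨i, b⟩ := j
  have h2 : max (-(R (i, true) + S (i, false))) (-(S (i, true) + R (i, false))) ≤ 2 :=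
    (le_max_right _ _).trans h1
  have h3 := (le_max_left _ _).trans h2
  have h4 := (le_max_right _ _).trans h2
  cases b
  · show - S (i, true) ≤ R (i, false) + 2
    linarith
  · show - S (i, false) ≤ R (i, true) + 2
    linarith

/-- the extreme level of a box is hit -/
theorem b2_extreme (hne : Ne T)
    (hg : ∀ (j : Dir d) (t : ℤ), - T (opp j) ≤ t → t ≤ T j →
      (∃ v ∈ W, cc v j = t) ∨ (t + 1 ≤ T j ∧ ∃ v ∈ W, cc v j = t + 1)) (j : Dir d) :
    ∃ v ∈ W, cc v j = - T (opp j) := by
  have h1 : - T (opp (opp j)) ≤ T (opp j) := b2_ne_dir hne (opp j)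
  rcases hg (opp j) (T (opp j)) h1 le_rfl with ⟨v, hv, h⟩ | ⟨h, _⟩
  · refine ⟨v, hv, ?_⟩
    rw [b2_cc_opp] at h
    linarith
  · omega

/-- [BTP-B2] no double gaps: in each direction, each level of a generated box is hit by `W`, or the next level is a level of the box and is hit.
PROOF. Induction on `Gen`. `single v`: `t = cc v j`. `merge`: `(R ⊔ S) j = max (R j) (S j)`, `-(R ⊔ S)(opp j) = min ..`. If `- R (opp j) ≤ t ≤ R j` use the hypothesis for `R`, similarly for `S`. Otherwise, `t` is between the two ranges, say `R j < t < - S (opp j)`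
(the other case is symmetric); by `near`, `- S (opp j) - R j ≤ gap R S j.1 ≤ 2`, so `t + 1 = - S (opp j)`, and this level of `S` is hit: apply the hypothesis for `S` to the opposite direction `opp j` and the level `S (opp j)` (its second alternative `S (opp j) + 1 ≤ S (opp j)` is impossible; `cc v (opp j) = - cc v j`). -/
theorem Gen.gapfree (hg : Gen T W) (j : Dir d) (t : ℤ) (h1 : - T (opp j) ≤ t) (h2 : t ≤ T j) :
    (∃ v ∈ W, cc v j = t) ∨ (t + 1 ≤ T j ∧ ∃ v ∈ W, cc v j = t + 1) := by
  induction hg generalizing j t with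
  | single v =>
    left
    refine ⟨v, Finset.mem_singleton_self v, ?_⟩
    rw [b2_cc_opp, neg_neg] at h1
    exact le_antisymm h1 h2
  | @merge R S W W' hR hS hd hn ihR ihS =>
    have nR := hR.ne
    have nS := hS.ne
    have eR : R j ≤ (R ⊔ S) j := le_sup_left
    have eS : S j ≤ (R ⊔ S) j := le_sup_right
    have useR : ∀ s : ℤ, (∃ v ∈ W, cc v j = s) → ∃ v ∈ W ∪ W', cc v j = s := by
      rintro s ⟨v, hv, h⟩
      exact ⟨v, Finset.mem_union_left _ hv, h⟩
    have useS : ∀ s : ℤ, (∃ v ∈ W', cc v j = s) → ∃ v ∈ W ∪ W', cc v j = s := by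
      rintro s ⟨v, hv, h⟩
      exact ⟨v, Finset.mem_union_right _ hv, h⟩
    by_cases cR : - R (opp j) ≤ t ∧ t ≤ R j
    · rcases ihR j t cR.1 cR.2 with h | ⟨h, h'⟩
      · exact Or.inl (useR _ h)
      · exact Or.inr ⟨h.trans eR, useR _ h'⟩
    by_cases cS : - S (opp j) ≤ t ∧ t ≤ S j
    · rcases ihS j t cS.1 cS.2 with h | ⟨h, h'⟩
      · exact Or.inl (useS _ h)
      · exact Or.inr ⟨h.trans eS, useS _ h'⟩
    have k1 : - R (opp j) ≤ t ∨ - S (opp j) ≤ t := by
      rcases le_total (R (opp j)) (S (opp j)) with h | h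
      · right
        have : (R ⊔ S) (opp j) = S (opp j) := by rw [Pi.sup_apply, sup_eq_right.2 h]
        rwa [this] at h1
      · left
        have : (R ⊔ S) (opp j) = R (opp j) := by rw [Pi.sup_apply, sup_eq_left.2 h]
        rwa [this] at h1
    have k2 : t ≤ R j ∨ t ≤ S j := by
      rw [Pi.sup_apply] at h2
      exact le_sup_iff.1 h2
    have n1 := b2_near_dir hn j
    have n2 := b2_near_dir (near_symm hn) j
    have xR := b2_extreme nR ihR j
    have xS := b2_extreme nS ihS j
    have yR := b2_ne_dir nR j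
    have yS := b2_ne_dir nS j
    rcases k1 with k1 | k1
    · -- `t` is above `R`, below `S`
      have k3 : R j < t := by
        by_contra hc
        exact cR ⟨k1, by omega⟩
      have k4 : t ≤ S j := by omega
      have k5 : t < - S (opp j) := by
        by_contra hc
        exact cS ⟨by omega, k4⟩
      have k6 : - S (opp j) = t + 1 := by omega
      rw [k6] at xS
      exact Or.inr ⟨(by omega : t + 1 ≤ S j).trans eS, useS _ xS⟩
    · have k3 : S j < t := by
        by_contra hc
        exact cS ⟨k1, by omega⟩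
      have k4 : t ≤ R j := by omega
      have k5 : t < - R (opp j) := by
        by_contra hc
        exact cR ⟨by omega, k4⟩
      have k6 : - R (opp j) = t + 1 := by omega
      rw [k6] at xR
      exact Or.inr ⟨(by omega : t + 1 ≤ R j).trans eR, useR _ xR⟩

/-- [BTP-B2] PROOF. If `- S (opp j) ≤ t`: `gapfree`. Otherwise `t = R j + 1`, `- S (opp j) = R j + 2 = t + 1` by `near`, and this level is hit (as in `gapfree`). -/
theorem Gen.hit_step (hS : Gen S W) (hn : near R S) (j : Dir d) (t : ℤ) (h1 : R j < t)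
    (h2 : t ≤ S j) :
    (∃ v ∈ W, cc v j = t) ∨ (t + 1 ≤ S j ∧ ∃ v ∈ W, cc v j = t + 1) := by
  by_cases c : - S (opp j) ≤ t
  · exact hS.gapfree j t c h2
  · have n1 := b2_near_dir hn j
    have yS := b2_ne_dir hS.ne j
    have xS := b2_extreme hS.ne hS.gapfree j
    have k6 : - S (opp j) = t + 1 := by omega
    rw [k6] at xS
    exact Or.inr ⟨by omega, xS⟩

end BTP
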