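import Pool.Agent.BTP.B1

set_option autoImplicit false

open scoped Classical
open Finset

namespace BTP

variable {d : ℕ}

theorem b3_aux (U : Finset (Site d)) (n : ℕ) : ∀ 𝓒 : Finset (Box d × Finset (Site d)),
    𝓒.card = n → (∀ c ∈ 𝓒, Gen c.1 c.2 ∧ c.2 ⊆ U) →
    (∀ c ∈ 𝓒, ∀ c' ∈ 𝓒, c ≠ c' → Disjoint c.2 c'.2) → (∀ v ∈ U, ∃ c ∈ 𝓒, cc v ≤ c.1) →
    ∃ 𝓒 : Finset (Box d × Finset (Site d)),
    (∀ c ∈ 𝓒, Gen c.1 c.2 ∧ c.2 ⊆ U) ∧ (∀ v ∈ U, ∃ c ∈ 𝓒, cc v ≤ c.1) ∧
    ∀ c ∈ 𝓒, ∀ c' ∈ 𝓒, c ≠ c' → ¬ near c.1 c'.1 := by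
  induction n using Nat.strong_induction_on with
  | _ n ih =>
    intro 𝓒 hcard h1 h2 h3
    by_cases hall : ∀ c ∈ 𝓒, ∀ c' ∈ 𝓒, c ≠ c' → ¬ near c.1 c'.1
    · exact ⟨𝓒, h1, h3, hall⟩
    · push Not at hall
      obtain ⟨c, hc, c', hc', hne, hn⟩ := hall
      have hcc : c' ∈ 𝓒.erase c := Finset.mem_erase.2 ⟨hne.symm, hc'⟩
      have hcard2 : ((𝓒.erase c).erase c').card + 2 = 𝓒.card := by
        rw [Finset.card_erase_of_mem hcc, Finset.card_erase_of_mem hc]
        have h4 : 0 < (𝓒.erase c).card := Finset.card_pos.2 ⟨_, hcc⟩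
        rw [Finset.card_erase_of_mem hc] at h4
        omega
      refine ih (insert (c.1 ⊔ c'.1, c.2 ∪ c'.2) ((𝓒.erase c).erase c')).card ?_ _ rfl ?_ ?_ ?_
      · have := Finset.card_insert_le (c.1 ⊔ c'.1, c.2 ∪ c'.2) ((𝓒.erase c).erase c')
        omega
      · intro e he
        rcases Finset.mem_insert.1 he with rfl | he
        · exact ⟨Gen.merge (h1 c hc).1 (h1 c' hc').1 (h2 c hc c' hc' hne) hn,
            Finset.union_subset (h1 c hc).2 (h1 c' hc').2⟩
        · exact h1 e (Finset.mem_of_mem_erase (Finset.mem_of_mem_erase he))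
      · have key : ∀ e ∈ (𝓒.erase c).erase c', Disjoint (c.2 ∪ c'.2) e.2 := by
          intro e he
          obtain ⟨e1, he⟩ := Finset.mem_erase.1 he
          obtain ⟨e2, he⟩ := Finset.mem_erase.1 he
          exact Finset.disjoint_union_left.2 ⟨h2 c hc e he e2.symm, h2 c' hc' e he e1.symm⟩
        intro e he e' he' hee
        rcases Finset.mem_insert.1 he with rfl | he
        · rcases Finset.mem_insert.1 he' with rfl | he'
          · exact absurd rfl hee
          · exact key _ he'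
        · rcases Finset.mem_insert.1 he' with rfl | he'
          · exact (key _ he).symm
          · exact h2 e (Finset.mem_of_mem_erase (Finset.mem_of_mem_erase he)) e'
              (Finset.mem_of_mem_erase (Finset.mem_of_mem_erase he')) hee
      · intro v hv
        obtain ⟨e, he, hve⟩ := h3 v hv
        by_cases hec : e = c
        · subst hec
          exact ⟨_, Finset.mem_insert_self _ _, le_trans hve le_sup_left⟩
        · by_cases hec' : e = c'
          · subst hec'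
            exact ⟨_, Finset.mem_insert_self _ _, le_trans hve le_sup_right⟩
          · exact ⟨e, Finset.mem_insert_of_mem
              (Finset.mem_erase.2 ⟨hec', Finset.mem_erase.2 ⟨hec, he⟩⟩), hve⟩

/-- [BTP-B3] the spanning algorithm.
PROOF. Consider the finite sets `𝓒` of pairs with: all `Gen c.1 c.2`, `c.2 ⊆ U`, pairwise disjoint `c.2`, and each `v ∈ U` is in some `c.1`. There is one: the pairs `(cc v, {v})`, `v ∈ U`. Take one of minimal cardinality (`Nat.find`, or `WellFounded.min` / strong induction on the cardinality).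
If two different elements `c, c'` were near, replace them by `(c.1 ⊔ c'.1, c.2 ∪ c'.2)`: smaller cardinality, all properties remain. -/
theorem spanning (U : Finset (Site d)) : ∃ 𝓒 : Finset (Box d × Finset (Site d)),
    (∀ c ∈ 𝓒, Gen c.1 c.2 ∧ c.2 ⊆ U) ∧ (∀ v ∈ U, ∃ c ∈ 𝓒, cc v ≤ c.1) ∧
    ∀ c ∈ 𝓒, ∀ c' ∈ 𝓒, c ≠ c' → ¬ near c.1 c'.1 := by
  refine b3_aux U _ (U.image fun v => ((cc v, {v}) : Box d × Finset (Site d))) rfl ?_ ?_ ?_
  · intro c hc
    obtain ⟨v, hv, rfl⟩ := Finset.mem_image.1 hc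
    exact ⟨Gen.single v, Finset.singleton_subset_iff.2 hv⟩
  · intro c hc c' hc' hne
    obtain ⟨v, hv, rfl⟩ := Finset.mem_image.1 hc
    obtain ⟨v', hv', rfl⟩ := Finset.mem_image.1 hc'
    refine Finset.disjoint_singleton.2 ?_
    rintro rfl
    exact hne rfl
  · intro v hv
    exact ⟨_, Finset.mem_image_of_mem _ hv, le_rfl⟩

end BTP
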