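import Pool.Agent.BTP.B1

set_option autoImplicit false

open scoped Classical
open Finset

namespace BTP

variable {d : ℕ}

/-- the world `[0, n-1]^d` -/
def Wn (d n : ℕ) : Box d := fun j => if j.2 = true then (n : ℤ) - 1 else 0

/-- [BTP-B4] (`mem_sites`) -/
theorem mem_Wn {n : ℕ} {v : Site d} : v ∈ sites (Wn d n) ↔ ∀ i, 0 ≤ v i ∧ v i < n := by
  unfold sites Wn
  rw [Finset.mem_Icc, Pi.le_def, Pi.le_def]
  constructor
  · rintro ⟨h1, h2⟩ i
    have h3 := h1 i
    have h4 := h2 i
    simp at h3 h4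
    exact ⟨h3, by omega⟩
  · intro h
    refine ⟨fun i => ?_, fun i => ?_⟩
    · simpa using (h i).1
    · have := (h i).2
      simp
      omega

theorem sd_Wn {n : ℕ} (hn : 1 ≤ n) (i : Fin d) : sd (Wn d n) i = n := by
  unfold sd Wn
  simp

theorem b4_cc {u : Site d} {T : Box d} (h : cc u ≤ T) (i : Fin d) :
    u i ≤ T (i, true) ∧ - u i ≤ T (i, false) := by
  have h1 := h (i, true)
  have h2 := h (i, false)
  simp [cc] at h1 h2
  exact ⟨h1, by omega⟩

/-- sum of absolute values `1` and one coordinate is different: all others are equal -/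
theorem b4_unique {v u : Site d} (hu : ∑ i, |u i - v i| = 1) {i : Fin d} (hi : u i ≠ v i) :
    |u i - v i| = 1 ∧ ∀ l, l ≠ i → u l = v l := by
  rw [← Finset.add_sum_erase _ _ (Finset.mem_univ i)] at hu
  have h1 : 0 ≤ ∑ x ∈ Finset.univ.erase i, |u x - v x| :=
    Finset.sum_nonneg (fun _ _ => abs_nonneg _)
  have h2 : 1 ≤ |u i - v i| := Int.one_le_abs (sub_ne_zero.mpr hi)
  have h3 : ∑ x ∈ Finset.univ.erase i, |u x - v x| = 0 := by omega
  refine ⟨by omega, fun l hl => ?_⟩
  have h4 := (Finset.sum_eq_zero_iff_of_nonneg (fun _ _ => abs_nonneg _)).mp h3 l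
    (Finset.mem_erase.mpr ⟨hl, Finset.mem_univ l⟩)
  rw [abs_eq_zero] at h4
  omega

/-- [BTP-B4] two different neighbours of `v` in one box: then `v` is in the box.
PROOF. `∑ i |u i - v i| = 1` for integers: `u` differs from `v` in exactly one coordinate, by `±1`. For `u ≠ u'`: for each direction `j` one of `cc u j, cc u' j` is `≥ cc v j`. -/
theorem two_neighbours {T : Box d} {v u u' : Site d} (hu : ∑ i, |u i - v i| = 1)
    (hu' : ∑ i, |u' i - v i| = 1) (hne : u ≠ u') (h : cc u ≤ T) (h' : cc u' ≤ T) : cc v ≤ T := by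
  intro j
  by_contra hj
  rw [not_le] at hj
  obtain ⟨i, b⟩ := j
  have hT := b4_cc h i
  have hT' := b4_cc h' i
  apply hne
  have key : u i ≠ v i ∧ u' i ≠ v i ∧ ((u i < v i ∧ u' i < v i) ∨ (v i < u i ∧ v i < u' i)) := by
    cases b
    · simp [cc] at hj
      refine ⟨by omega, by omega, Or.inr ⟨by omega, by omega⟩⟩
    · simp [cc] at hj
      refine ⟨by omega, by omega, Or.inl ⟨by omega, by omega⟩⟩
  obtain ⟨k1, k2, k3⟩ := key
  obtain ⟨a1, a2⟩ := b4_unique hu k1
  obtain ⟨c1, c2⟩ := b4_unique hu' k2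
  funext l
  by_cases hl : l = i
  · subst hl
    rcases k3 with ⟨k3, k4⟩ | ⟨k3, k4⟩
    · rw [abs_of_neg (by omega)] at a1 c1
      omega
    · rw [abs_of_pos (by omega)] at a1 c1
      omega
  · rw [a2 l hl, c2 l hl]

/-- [BTP-B4] PROOF. In each axis `gap R S i ≤ |u i - u' i|`, and `∑ |u i - u' i| ≤ 2`. -/
theorem near_of_neighbours {R S : Box d} {v u u' : Site d} (hu : ∑ i, |u i - v i| ≤ 1)
    (hu' : ∑ i, |u' i - v i| ≤ 1) (h : cc u ≤ R) (h' : cc u' ≤ S) : near R S := by
  unfold near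
  have h1 : ∑ i, gap R S i ≤ ∑ i, (|u i - v i| + |u' i - v i|) := by
    apply Finset.sum_le_sum
    intro i _
    have hR := b4_cc h i
    have hS := b4_cc h' i
    unfold gap
    have e1 := le_abs_self (u i - v i)
    have e2 := neg_abs_le (u i - v i)
    have e3 := le_abs_self (u' i - v i)
    have e4 := neg_abs_le (u' i - v i)
    have e5 := abs_nonneg (u i - v i)
    have e6 := abs_nonneg (u' i - v i)
    refine max_le (by omega) (max_le (by omega) (by omega))
  rw [Finset.sum_add_distrib] at h1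
  omega

end BTP
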