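import Pool.Agent.BTP.B1

set_option autoImplicit false

open scoped Classical
open Finset

namespace BTP

variable {d : ℕ}

theorem b5_chain_aux {h : ℕ} (hh : 1 ≤ h) {Q : Box d} {W : Finset (Site d)} (w : Fin d → ℝ)
    (hw : ∀ i, (h : ℝ) + 2 ≤ w i) {T₀ : Box d} {W₂ : Finset (Site d)} (hT : Gen T₀ W₂) :
    ∀ W₁ : Finset (Site d), SG h T₀ Q W₁ → Disjoint W₁ W₂ → W₁ ⊆ W → W₂ ⊆ W → (h : ℤ) ≤ Ys T₀ →
      T₀ ≤ Q → (∀ i, ((sd Q i : ℝ) - sd T₀ i) < w i) →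
    ∃ (T : Box d) (W1 W2 : Finset (Site d)), Ne T ∧ T ≤ Q ∧
      (∀ i, ((sd Q i : ℝ) - sd T i) ≤ 2 * w i) ∧ SG h T Q W1 ∧ Disjoint W1 W2 ∧ W1 ⊆ W ∧ W2 ⊆ W ∧
      ((Gen T W2 ∧ (h : ℤ) ≤ Ys T ∧ ∃ i, w i ≤ (sd Q i : ℝ) - sd T i) ∨
       (∃ (R S : Box d) (WR WS : Finset (Site d)), T = R ⊔ S ∧ near R S ∧ Gen R WR ∧ Gen S WS ∧
          Disjoint WR WS ∧ WR ⊆ W2 ∧ WS ⊆ W2 ∧ (h : ℤ) ≤ Ys R ∧ (h : ℤ) ≤ Ys S ∧
          Ys R < Ys T ∧ Ys S < Ys T) ∨
       (Gen T W2 ∧ (h : ℤ) ≤ Ys T ∧ Ys T ≤ 2 * h + 2)) := by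
  have hw0 : ∀ i, 0 < w i := fun i => by
    have h1 := hw i
    have h2 : (0 : ℝ) ≤ h := Nat.cast_nonneg h
    linarith
  induction hT with
  | single v =>
    intro W₁ _ _ _ _ hY
    rw [Ys_cc] at hY
    exfalso
    have : (1 : ℤ) ≤ h := by exact_mod_cast hh
    omega
  | @merge R S WR WS hR hS hd hn ihR ihS =>
    intro W₁ hSG hdis hW₁ hW₂ hY hTQ hwin
    have hWR : WR ⊆ W := Finset.subset_union_left.trans hW₂
    have hWS : WS ⊆ W := Finset.subset_union_right.trans hW₂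
    have hdR : Disjoint W₁ WR := Finset.disjoint_of_subset_right Finset.subset_union_left hdis
    have hdS : Disjoint W₁ WS := Finset.disjoint_of_subset_right Finset.subset_union_right hdis
    have hRQ : R ≤ Q := le_sup_left.trans hTQ
    have hSQ : S ≤ Q := le_sup_right.trans hTQ
    by_cases e1 : R ⊔ S = R
    · rw [e1] at hSG hY hwin
      exact ihR W₁ hSG hdR hW₁ hWR hY hRQ hwin
    by_cases e2 : R ⊔ S = S
    · rw [e2] at hSG hY hwin
      exact ihS W₁ hSG hdS hW₁ hWS hY hSQ hwin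
    have hltR : Ys R < Ys (R ⊔ S) := Ys_lt le_sup_left (Ne.symm e1)
    have hltS : Ys S < Ys (R ⊔ S) := Ys_lt le_sup_right (Ne.symm e2)
    have hsub : Ys (R ⊔ S) ≤ Ys R + Ys S + 2 := Ys_sup_le hR.ne hS.ne hn
    have hNeT : BTP.Ne (R ⊔ S) := hR.ne.sup_left
    have hGenT : Gen (R ⊔ S) (WR ∪ WS) := Gen.merge hR hS hd hn
    have hwin2 : ∀ i, ((sd Q i : ℝ) - sd (R ⊔ S) i) ≤ 2 * w i := fun i => by
      have := hwin i
      have := hw0 i
      linarith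
    by_cases hR' : (h : ℤ) ≤ Ys R
    · by_cases hS' : (h : ℤ) ≤ Ys S
      · -- both big
        exact ⟨R ⊔ S, W₁, WR ∪ WS, hNeT, hTQ, hwin2, hSG, hdis, hW₁, hW₂,
          Or.inr (Or.inl ⟨R, S, WR, WS, rfl, hn, hR, hS, hd, Finset.subset_union_left,
            Finset.subset_union_right, hR', hS', hltR, hltS⟩)⟩
      · -- S small, R big
        have hS'' : Ys S < h := by omega
        have hSG' : SG h R Q (WS ∪ W₁) := SG.step hS hS'' hn hSG hdS.symm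
        have hdis' : Disjoint (WS ∪ W₁) WR := by
          rw [Finset.disjoint_union_left]
          exact ⟨hd.symm, hdR⟩
        have hsubW : WS ∪ W₁ ⊆ W := Finset.union_subset hWS hW₁
        have hbound : ∀ i, ((sd Q i : ℝ) - sd R i) ≤ 2 * w i := fun i => by
          have h1 := hwin i
          have h2 : (sd (R ⊔ S) i : ℤ) - sd R i ≤ Ys (R ⊔ S) - Ys R :=
            sd_sub_le hR.ne le_sup_left i
          have h3 : (sd (R ⊔ S) i : ℤ) - sd R i ≤ h + 1 := by omega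
          have h4 : ((sd (R ⊔ S) i : ℝ) - sd R i) ≤ h + 1 := by exact_mod_cast h3
          have h5 := hw i
          linarith
        by_cases hex : ∃ i, w i ≤ (sd Q i : ℝ) - sd R i
        · exact ⟨R, WS ∪ W₁, WR, hR.ne, hRQ, hbound, hSG', hdis', hsubW, hWR,
            Or.inl ⟨hR, hR', hex⟩⟩
        · push Not at hex
          exact ihR (WS ∪ W₁) hSG' hdis' hsubW hWR hR' hRQ hex
    · by_cases hS' : (h : ℤ) ≤ Ys S
      · -- R small, S big
        have hR'' : Ys R < h := by omega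
        have hSG0 : SG h (S ⊔ R) Q W₁ := by rw [sup_comm]; exact hSG
        have hSG' : SG h S Q (WR ∪ W₁) := SG.step hR hR'' (near_symm hn) hSG0 hdR.symm
        have hdis' : Disjoint (WR ∪ W₁) WS := by
          rw [Finset.disjoint_union_left]
          exact ⟨hd, hdS⟩
        have hsubW : WR ∪ W₁ ⊆ W := Finset.union_subset hWR hW₁
        have hbound : ∀ i, ((sd Q i : ℝ) - sd S i) ≤ 2 * w i := fun i => by
          have h1 := hwin i
          have h2 : (sd (R ⊔ S) i : ℤ) - sd S i ≤ Ys (R ⊔ S) - Ys S :=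
            sd_sub_le hS.ne le_sup_right i
          have h3 : (sd (R ⊔ S) i : ℤ) - sd S i ≤ h + 1 := by omega
          have h4 : ((sd (R ⊔ S) i : ℝ) - sd S i) ≤ h + 1 := by exact_mod_cast h3
          have h5 := hw i
          linarith
        by_cases hex : ∃ i, w i ≤ (sd Q i : ℝ) - sd S i
        · exact ⟨S, WR ∪ W₁, WS, hS.ne, hSQ, hbound, hSG', hdis', hsubW, hWS,
            Or.inl ⟨hS, hS', hex⟩⟩
        · push Not at hex
          exact ihS (WR ∪ W₁) hSG' hdis' hsubW hWS hS' hSQ hex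
      · -- both small
        have hle : Ys (R ⊔ S) ≤ 2 * h + 2 := by omega
        exact ⟨R ⊔ S, W₁, WR ∪ WS, hNeT, hTQ, hwin2, hSG, hdis, hW₁, hW₂,
          Or.inr (Or.inr ⟨hGenT, hY, hle⟩)⟩

/-- [BTP-B5] going down in the merge tree to the first box out of the window, or to a merge of two big boxes, or to a small box.
PROOF. Show the more general statement: for each `T₀, W₁, W₂` with `Gen T₀ W₂`, `SG h T₀ Q W₁`, `Disjoint W₁ W₂`, `W₁, W₂ ⊆ W`, `h ≤ Ys T₀`, `sd Q i - sd T₀ i < w i` for all `i`, the conclusion holds; by induction on `Gen T₀ W₂` (with `W₁` generalised); then apply it to `T₀ = Q`, `W₁ = ∅`.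
`single`: `Ys = 0 < h`. `merge` with `T₀ = R ⊔ S` (`WR, WS`): if `R ⊔ S = R`: the hypothesis for `R` (same box, `W₂ := WR`). Similarly if `R ⊔ S = S`. Otherwise `Ys R, Ys S < Ys (R ⊔ S)` (`Ys_lt`). If both `Ys R, Ys S ≥ h`: second alternative with `T = T₀`, `W2 = WR ∪ WS`.
Otherwise one is `< h`, say `Ys S < h` (the other case is symmetric: `sup_comm`, `Finset.union_comm`, `near_symm`). If also `Ys R < h` then `Ys T₀ ≤ 2h` (`Ys_sup_le`: `≤ (h-1) + (h-1) + 2`): third alternative. If `Ys R ≥ h`: `SG h R Q (WS ∪ W₁)` (`SG.step`), and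
`sd Q i - sd R i = (sd Q i - sd T₀ i) + (sd T₀ i - sd R i) < w i + (Ys T₀ - Ys R) ≤ w i + Ys S + 2 ≤ w i + h + 1 ≤ 2 w i` (`sd_sub_le`). If some `sd Q i - sd R i ≥ w i`: first alternative with `T = R`. Otherwise the induction hypothesis for `R`. -/
theorem chain {h : ℕ} (hh : 1 ≤ h) {Q : Box d} {W : Finset (Site d)} (w : Fin d → ℝ)
    (hw : ∀ i, (h : ℝ) + 2 ≤ w i) (hQ : Gen Q W) (hY : (h : ℤ) ≤ Ys Q) :
    ∃ (T : Box d) (W1 W2 : Finset (Site d)), Ne T ∧ T ≤ Q ∧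
      (∀ i, ((sd Q i : ℝ) - sd T i) ≤ 2 * w i) ∧ SG h T Q W1 ∧ Disjoint W1 W2 ∧ W1 ⊆ W ∧ W2 ⊆ W ∧
      ((Gen T W2 ∧ (h : ℤ) ≤ Ys T ∧ ∃ i, w i ≤ (sd Q i : ℝ) - sd T i) ∨
       (∃ (R S : Box d) (WR WS : Finset (Site d)), T = R ⊔ S ∧ near R S ∧ Gen R WR ∧ Gen S WS ∧
          Disjoint WR WS ∧ WR ⊆ W2 ∧ WS ⊆ W2 ∧ (h : ℤ) ≤ Ys R ∧ (h : ℤ) ≤ Ys S ∧
          Ys R < Ys T ∧ Ys S < Ys T) ∨
       (Gen T W2 ∧ (h : ℤ) ≤ Ys T ∧ Ys T ≤ 2 * h + 2)) := by
  refine b5_chain_aux hh w hw hQ ∅ (SG.refl Q) (Finset.disjoint_empty_left _)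
    (Finset.empty_subset _) (Finset.Subset.refl _) hY le_rfl fun i => ?_
  have h1 := hw i
  have h2 : (0 : ℝ) ≤ h := Nat.cast_nonneg h
  linarith

/-- [BTP-B5] leaving a domain. PROOF. Induction on `Gen`: `single` is excluded by `hD`; `merge`: if `¬ D R` the hypothesis for `R` (and `R ≤ R ⊔ S`), if `¬ D S` the one for `S`, otherwise `(R, S)`. -/
theorem exitD {Q : Box d} {W : Finset (Site d)} (D : Box d → Prop) (hD : ∀ v : Site d, D (cc v))
    (hg : Gen Q W) (hQ : ¬ D Q) :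
    ∃ (R S : Box d) (WR WS : Finset (Site d)), D R ∧ D S ∧ ¬ D (R ⊔ S) ∧ near R S ∧ R ⊔ S ≤ Q ∧
      Gen R WR ∧ Gen S WS ∧ Disjoint WR WS ∧ WR ⊆ W ∧ WS ⊆ W := by
  induction hg with
  | single v => exact absurd (hD v) hQ
  | @merge R S WR WS hR hS hd hn ihR ihS =>
    by_cases h1 : D R
    · by_cases h2 : D S
      · exact ⟨R, S, WR, WS, h1, h2, hQ, hn, le_rfl, hR, hS, hd, Finset.subset_union_left,
          Finset.subset_union_right⟩
      · obtain ⟨R', S', WR', WS', a1, a2, a3, a4, a5, a6, a7, a8, a9, a10⟩ := ihS h2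
        exact ⟨R', S', WR', WS', a1, a2, a3, a4, a5.trans le_sup_right, a6, a7, a8,
          a9.trans Finset.subset_union_right, a10.trans Finset.subset_union_right⟩
    · obtain ⟨R', S', WR', WS', a1, a2, a3, a4, a5, a6, a7, a8, a9, a10⟩ := ihR h1
      exact ⟨R', S', WR', WS', a1, a2, a3, a4, a5.trans le_sup_left, a6, a7, a8,
        a9.trans Finset.subset_union_left, a10.trans Finset.subset_union_left⟩

end BTP
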