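import Pool.Agent.BTP.B1

set_option autoImplicit false

open scoped Classical
open Finset

namespace BTP

variable {d : ℕ} {h : ℕ} {R S T Q : Box d} {W W' : Finset (Site d)}

/-- [BTP-B6] (`Pi.card_Icc`, `Int.card_Icc`) -/
theorem card_sites (hT : Ne T) : (sites T).card = ∏ i, sd T i := by
  unfold sites
  rw [Pi.card_Icc]
  apply Finset.prod_congr rfl
  intro i _
  rw [Int.card_Icc]
  unfold sd
  congr 1
  ring

theorem card_sites_le (hT : Ne T) : (((sites T).card : ℕ) : ℝ) ≤ ((Ys T : ℝ) + 1) ^ d := by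
  rw [card_sites hT]
  push_cast
  have h1 : ∏ i : Fin d, (sd T i : ℝ) ≤ ∏ _i : Fin d, ((Ys T : ℝ) + 1) := by
    apply Finset.prod_le_prod
    · intro i _
      exact Nat.cast_nonneg _
    · intro i _
      have := sd_le_Ys hT i
      exact_mod_cast this
  simpa using h1

/-- [BTP-B6] the number of sites in a layer -/
theorem card_lay (hQ : Ne Q) (j : Dir d) (t : ℤ) (h1 : - Q (opp j) ≤ t) (h2 : t ≤ Q j) :
    (lay Q j t).card = ∏ l ∈ Finset.univ.erase j.1, sd Q l := by
  obtain ⟨i, b⟩ := j
  -- the common value of the coordinate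
  obtain ⟨s, hs, hs1, hs2⟩ : ∃ s : ℤ, (∀ v : Site d, cc v (i, b) = t ↔ v i = s) ∧
      - Q (i, false) ≤ s ∧ s ≤ Q (i, true) := by
    cases b
    · refine ⟨-t, fun v => ?_, ?_, ?_⟩
      · simp [cc]
        constructor <;> intro h <;> omega
      · simpa using h2
      · simp [opp] at h1
        omega
    · refine ⟨t, fun v => ?_, ?_, ?_⟩
      · simp [cc]
      · simpa [opp] using h1
      · exact h2
  have hlay : lay Q (i, b) t = Finset.Icc (Function.update (fun l => - Q (l, false)) i s)
      (Function.update (fun l => Q (l, true)) i s) := by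
    ext v
    unfold lay sites
    rw [Finset.mem_filter, Finset.mem_Icc, Finset.mem_Icc, hs v]
    simp only [Pi.le_def]
    constructor
    · rintro ⟨⟨a1, a2⟩, a3⟩
      refine ⟨fun l => ?_, fun l => ?_⟩
      · by_cases hl : l = i
        · subst hl; simp [a3]
        · simp [hl]; exact a1 l
      · by_cases hl : l = i
        · subst hl; simp [a3]
        · simp [hl]; exact a2 l
    · rintro ⟨a1, a2⟩
      have b1 := a1 i
      have b2 := a2 i
      simp at b1 b2
      have b3 : v i = s := le_antisymm b2 b1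
      refine ⟨⟨fun l => ?_, fun l => ?_⟩, b3⟩
      · by_cases hl : l = i
        · subst hl; rw [b3]; exact hs1
        · have := a1 l
          simpa [hl] using this
      · by_cases hl : l = i
        · subst hl; rw [b3]; exact hs2
        · have := a2 l
          simpa [hl] using this
  rw [hlay, Pi.card_Icc, ← Finset.mul_prod_erase _ _ (Finset.mem_univ i)]
  simp only [Function.update_self, Int.card_Icc]
  have h3 : (s + 1 - s).toNat = 1 := by
    have : s + 1 - s = 1 := by ring
    rw [this]; rfl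
  rw [h3, one_mul]
  apply Finset.prod_congr rfl
  intro l hl
  have hl' : l ≠ i := (Finset.mem_erase.mp hl).1
  rw [Function.update_of_ne hl', Function.update_of_ne hl']
  unfold sd
  congr 1
  ring

theorem sites_mono (h : R ≤ S) : sites R ⊆ sites S := by
  intro v hv
  rw [mem_sites] at hv ⊢
  exact hv.trans h

theorem SG.le (hg : SG h R Q W) : R ≤ Q := by
  induction hg with
  | refl T => exact le_rfl
  | step hS hh hn hg hd ih => exact le_sup_left.trans ih

theorem Inc_IG (T : Box d) : Inc (IG T) := by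
  rintro U U' hU ⟨W, hW, hg⟩
  exact ⟨W, hW.trans hU, hg⟩

theorem Inc_SGe (h : ℕ) (R Q : Box d) : Inc (SGe h R Q) := by
  rintro U U' hU ⟨W, hW, hg⟩
  exact ⟨W, hW.trans hU, hg⟩

theorem Inc_Clu (h : ℕ) (Q : Box d) (μ : Rec d) : Inc (Clu h Q μ) := by
  rintro U U' hU ⟨S, W, hW, hg⟩
  exact ⟨S, W, hW.trans hU, hg⟩

theorem b6_hit {Q : Box d} {U U' : Finset (Site d)} (hU : U ⊆ U') {j : Dir d} {t : ℤ}
    (h : hit Q U j t) : hit Q U' j t := by
  obtain ⟨v, hv, hl⟩ := h
  exact ⟨v, hU hv, hl⟩

theorem Inc_Cross (T Q : Box d) (M : Finset (Rec d)) (i : Fin d) : Inc (Cross T Q M i) := by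
  intro U U' hU h b t ht
  rcases h b t ht with h1 | ⟨h1, h2⟩
  · exact Or.inl (b6_hit hU h1)
  · exact Or.inr ⟨h1, b6_hit hU h2⟩

end BTP
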