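import Pool.Agent.BTP.B3
import Pool.Agent.BTP.B4

set_option autoImplicit false

open scoped Classical
open Finset

namespace BTP

variable {d : ℕ}

/-- [BTP-B7] if `U` percolates in `[0, n-1]^d` then the whole box is generated by `U`.
PROOF. `spanning U` gives `𝓒`. `S :=` the sites of the world in some `c.1` (all `c.1 ≤ Wn d n`, by `Gen.le` and since `c.1` is the supremum of its sites: induction on `Gen`). `U ⊆ S`; `S` is closed: if `v` has two different neighbours `u, u' ∈ S`, in `c, c'`: if `c = c'` then `two_neighbours`, otherwise `near_of_neighbours` contradicts `¬ near`. So `S` is everything.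
Let `c₀` be the element containing `0` (`n ≥ 1`). Claim `c₀.1 = Wn d n`: otherwise there are sites of the world not in `c₀.1`; walk from `0` to such a site changing one coordinate by `1` at a time (inside the world): there are sites `u ∈ c₀.1`, `u' ∉ c₀.1` with `∑ |u i - u' i| = 1`; `u'` is in some `c ≠ c₀`, near `c₀` by `near_of_neighbours` (with `v = u`), contradiction.
(Instead of a walk: let `u` be a site of `c₀.1` with maximal coordinate sum; if `u` is not `(n-1,..,n-1)` the site `u + e_i`, `u i < n - 1`, is in the world and not in `c₀.1`.. so `c₀.1` contains the corner `(n-1,..,n-1)` and `0`, hence everything.) -/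
theorem perc_IG {n : ℕ} (hn : 1 ≤ n) (U : Finset (Site d)) (hU : U ⊆ sites (Wn d n))
    (h : ∀ S ⊆ sites (Wn d n), U ⊆ S →
      (∀ v ∈ sites (Wn d n), 2 ≤ (S.filter (fun u => ∑ i, |u i - v i| = 1)).card → v ∈ S) →
      S = sites (Wn d n)) : IG (Wn d n) U := by
  obtain ⟨C, hC1, hC2, hC3⟩ := spanning U
  have hW : ∀ v : Site d, v ∈ sites (Wn d n) → ∃ c ∈ C, cc v ≤ c.1 := by
    have h1 : (sites (Wn d n)).filter (fun v => ∃ c ∈ C, cc v ≤ c.1) = sites (Wn d n) := by
      refine h _ (Finset.filter_subset _ _) (fun v hv => ?_) (fun v hv hcard => ?_)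
      · rw [Finset.mem_filter]
        exact ⟨hU hv, hC2 v hv⟩
      · obtain ⟨u, hu, u', hu', hne⟩ := Finset.one_lt_card.1 hcard
        rw [Finset.mem_filter, Finset.mem_filter] at hu hu'
        obtain ⟨⟨-, c, hc, huc⟩, hu1⟩ := hu
        obtain ⟨⟨-, c', hc', huc'⟩, hu1'⟩ := hu'
        rw [Finset.mem_filter]
        refine ⟨hv, ?_⟩
        by_cases hcc : c = c'
        · subst hcc
          exact ⟨c, hc, two_neighbours hu1 hu1' hne huc huc'⟩
        · exact absurd (near_of_neighbours hu1.le hu1'.le huc huc') (hC3 c hc c' hc' hcc)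
    intro v hv
    rw [← h1, Finset.mem_filter] at hv
    exact hv.2
  have h0 : (0 : Site d) ∈ sites (Wn d n) := by
    rw [mem_Wn]
    intro i
    refine ⟨le_rfl, ?_⟩
    change (0 : ℤ) < n
    exact_mod_cast hn
  obtain ⟨c₀, hc₀, h0c⟩ := hW 0 h0
  -- the site with maximal coordinate sum
  obtain ⟨u, hu, hmax⟩ := Finset.exists_max_image ((sites (Wn d n)).filter fun v => cc v ≤ c₀.1)
    (fun v => ∑ i, v i) ⟨0, Finset.mem_filter.2 ⟨h0, h0c⟩⟩
  rw [Finset.mem_filter] at hu
  have hcorner : ∀ i, u i = (n : ℤ) - 1 := by
    by_contra hcon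
    push Not at hcon
    obtain ⟨i, hi⟩ := hcon
    have hu1 := mem_Wn.1 hu.1
    have hi1 : u i + 1 < n := by
      have := hu1 i
      omega
    have hu' : Function.update u i (u i + 1) ∈ sites (Wn d n) := by
      rw [mem_Wn]
      intro j
      by_cases hj : j = i
      · subst hj
        rw [Function.update_self]
        have := hu1 j
        omega
      · rw [Function.update_of_ne hj]
        exact hu1 j
    obtain ⟨c, hc, hcc⟩ := hW _ hu'
    have hne : c₀ ≠ c := by
      rintro rfl
      have h2 := hmax _ (Finset.mem_filter.2 ⟨hu', hcc⟩)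
      have h3 : ∑ j, Function.update u i (u i + 1) j = ∑ j, u j + 1 := by
        rw [Finset.sum_update_of_mem (Finset.mem_univ i), ← Finset.sum_erase_add _ _
          (Finset.mem_univ i), Finset.sdiff_singleton_eq_erase]
        ring
      rw [h3] at h2
      linarith
    refine hC3 c₀ hc₀ c hc hne (near_of_neighbours (v := u) (u := u)
      (u' := Function.update u i (u i + 1)) ?_ ?_ hu.2 hcc)
    · simp
    · rw [Finset.sum_eq_single i]
      · rw [Function.update_self]
        simp
      · intro j _ hj
        rw [Function.update_of_ne hj]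
        simp
      · intro h
        exact absurd (Finset.mem_univ i) h
  obtain ⟨hg, hsub⟩ := hC1 c₀ hc₀
  have h4 : c₀.1 ≤ Wn d n := hg.le_of fun v hv => mem_sites.1 (hU (hsub hv))
  have h5 : Wn d n ≤ c₀.1 := by
    rintro ⟨i, b⟩
    cases b with
    | true =>
      have h6 := hu.2 (i, true)
      have h7 : cc u (i, true) = (n : ℤ) - 1 := by
        rw [← hcorner i]
        rfl
      rw [h7] at h6
      exact h6
    | false =>
      have h6 := h0c (i, false)
      have h7 : cc (0 : Site d) (i, false) = 0 := by
        simp [cc]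
      rw [h7] at h6
      exact h6
  exact ⟨c₀.2, hsub, le_antisymm h4 h5 ▸ hg⟩

end BTP
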