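import Pool.Agent.BTP.B4

set_option autoImplicit false

open scoped Classical
open Finset

namespace BTP

variable {d : ℕ}

/-- the nonempty boxes inside `Q` -/
noncomputable def sub (Q : Box d) : Finset (Box d) :=
  (Finset.Icc (fun j => - Q (opp j)) Q).filter (fun T => Ne T)

/-- [BTP-C1] (`T j ≥ - T (opp j) ≥ - Q (opp j)`) -/
theorem mem_sub {T Q : Box d} : T ∈ sub Q ↔ Ne T ∧ T ≤ Q := by
  unfold sub
  rw [Finset.mem_filter, Finset.mem_Icc]
  constructor
  · rintro ⟨⟨_, h2⟩, h3⟩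
    exact ⟨h3, h2⟩
  · rintro ⟨h1, h2⟩
    refine ⟨⟨?_, h2⟩, h1⟩
    rintro ⟨i, b⟩
    have h3 := h1 i
    have h4 := h2 (opp (i, b))
    cases b
    · simp [opp] at h4 ⊢
      omega
    · simp [opp] at h4 ⊢
      omega

/-- [BTP-C1] PROOF. `Icc` has `∏_j (Q j + Q (opp j) + 1) = ∏_i (sd Q i)²` elements (`Pi.card_Icc`). -/
theorem card_sub {Q : Box d} (hQ : Ne Q) {B : ℝ} (hB : ∀ i, (sd Q i : ℝ) ≤ B) :
    ((sub Q).card : ℝ) ≤ B ^ (2 * d) := by
  unfold sub
  have h1 : (((Finset.Icc (fun j => - Q (opp j)) Q).filter (fun T => Ne T)).card : ℝ) ≤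
      ((Finset.Icc (fun j => - Q (opp j)) Q).card : ℝ) := by
    exact_mod_cast Finset.card_filter_le _ _
  refine h1.trans ?_
  rw [Pi.card_Icc]
  have h2 : ∀ j : Dir d, (Finset.Icc (- Q (opp j)) (Q j)).card = sd Q j.1 := by
    rintro ⟨i, b⟩
    rw [Int.card_Icc]
    unfold sd
    cases b
    · simp [opp]
      congr 1
      ring
    · simp [opp]
      congr 1
      ring
  have h3 : ∏ j : Dir d, (((Finset.Icc (- Q (opp j)) (Q j)).card : ℕ) : ℝ) ≤ ∏ _j : Dir d, B := by
    apply Finset.prod_le_prod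
    · intro j _
      exact Nat.cast_nonneg _
    · intro j _
      rw [h2 j]
      exact hB j.1
  push_cast
  refine h3.trans (le_of_eq ?_)
  rw [Finset.prod_const, Finset.card_univ, Fintype.card_prod, Fintype.card_fin, Fintype.card_bool,
    mul_comm]

end BTP
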