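import Pool.Agent.BTP.C1

set_option autoImplicit false

open scoped Classical
open Finset

namespace BTP

variable {d : ℕ}

/-- the pairs of near boxes with sides `≤ B` in the world `[0, n-1]^d` -/
noncomputable def prs (d n : ℕ) (B : ℝ) : Finset (Box d × Box d) :=
  ((sub (Wn d n)) ×ˢ (sub (Wn d n))).filter (fun y => near y.1 y.2 ∧
    (∀ i, (sd y.1 i : ℝ) ≤ B) ∧ ∀ i, (sd y.2 i : ℝ) ≤ B)

/-- the coding of a pair of boxes -/
noncomputable def c2_code (y : Box d × Box d) (i : Fin d) : (ℤ × ℕ) × (ℤ × ℕ) :=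
  ((y.1 (i, true), sd y.1 i), (y.2 (i, true) - y.1 (i, true), sd y.2 i))

/-- the codes in one axis -/
noncomputable def c2_set (n b : ℕ) : Finset ((ℤ × ℕ) × (ℤ × ℕ)) :=
  ((Finset.Icc (0 : ℤ) ((n : ℤ) - 1)) ×ˢ (Finset.Icc 1 b)) ×ˢ
    ((Finset.Icc (-((b : ℤ) + 1)) ((b : ℤ) + 1)) ×ˢ (Finset.Icc 1 b))

theorem c2_card (n b : ℕ) : (c2_set n b).card = (n * b) * ((2 * b + 3) * b) := by
  unfold c2_set
  rw [Finset.card_product, Finset.card_product, Finset.card_product, Int.card_Icc, Int.card_Icc,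
    Nat.card_Icc]
  congr 2
  · congr 1
    omega
  · congr 1
    omega

theorem c2_gap {R S : Box d} (hn : near R S) (i : Fin d) :
    -(R (i, true) + S (i, false)) ≤ 2 ∧ -(S (i, true) + R (i, false)) ≤ 2 := by
  unfold near at hn
  have h1 : gap R S i ≤ ∑ i, gap R S i :=
    Finset.single_le_sum (f := fun i => gap R S i) (fun l _ => le_max_left _ _)
      (Finset.mem_univ i)
  have h2 : gap R S i ≤ 2 := h1.trans hn
  unfold gap at h2
  have h3 := (le_max_right _ _).trans h2
  exact ⟨(le_max_left _ _).trans h3, (le_max_right _ _).trans h3⟩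

/-- [BTP-C2] PROOF. The map `(R, S) ↦ (i ↦ (R (i,true), sd R i, S (i,true) - R (i,true), sd S i))` is injective on nonempty boxes; `R (i,true) ∈ [0, n-1]`, `sd R i, sd S i ∈ [1, B]`, and `|S (i,true) - R (i,true)| ≤ B + 2` (`gap ≤ 2`:
`S (i,true) ≤ - S (i,false) + B ≤ R (i,true) + 2 + B`, similarly with `R, S` exchanged): at most `n · B · (2B + 5) · B` values in each axis, `2B + 5 ≤ 9 B` if `B ≥ 1`, `≤ 27 B`. -/
theorem card_prs {n : ℕ} (hn : 1 ≤ n) {B : ℝ} (hB : 1 ≤ B) :
    ((prs d n B).card : ℝ) ≤ ((n : ℝ) * (3 * B) ^ 3) ^ d := by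
  set b := ⌊B⌋₊ with hb
  have hbB : (b : ℝ) ≤ B := Nat.floor_le (by linarith)
  have hcard : (prs d n B).card ≤ (Fintype.piFinset (fun _ : Fin d => c2_set n b)).card := by
    apply Finset.card_le_card_of_injOn (fun y => c2_code y)
    · rintro ⟨R, S⟩ hy
      have hy' : (R, S) ∈ prs d n B := hy
      unfold prs at hy'
      rw [Finset.mem_filter, Finset.mem_product] at hy'
      obtain ⟨⟨hR, hS⟩, hnear, hsR, hsS⟩ := hy'
      simp only at hR hS hnear hsR hsS
      rw [mem_sub] at hR hS
      obtain ⟨hRn, hRw⟩ := hR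
      obtain ⟨hSn, hSw⟩ := hS
      show c2_code (R, S) ∈ (Fintype.piFinset (fun _ : Fin d => c2_set n b) : Set _)
      rw [Finset.mem_coe, Fintype.mem_piFinset]
      intro i
      unfold c2_set c2_code
      rw [Finset.mem_product, Finset.mem_product, Finset.mem_product, Finset.mem_Icc,
        Finset.mem_Icc, Finset.mem_Icc, Finset.mem_Icc]
      simp only
      have e1 := hRn i
      have e2 := hSn i
      have e3 := hRw (i, true)
      have e4 := hRw (i, false)
      have e5 := hSw (i, true)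
      have e6 := hSw (i, false)
      simp [Wn] at e3 e4 e5 e6
      have g := c2_gap hnear i
      have s1 := sd_cast hRn i
      have s2 := sd_cast hSn i
      have p1 := sd_pos hRn i
      have p2 := sd_pos hSn i
      have q1 : sd R i ≤ b := Nat.le_floor (hsR i)
      have q2 : sd S i ≤ b := Nat.le_floor (hsS i)
      refine ⟨⟨⟨by omega, by omega⟩, p1, q1⟩, ⟨⟨by omega, by omega⟩, p2, q2⟩⟩
    · rintro ⟨R, S⟩ hy ⟨R', S'⟩ hy' hcode
      have hy1 : (R, S) ∈ prs d n B := hy
      have hy2 : (R', S') ∈ prs d n B := hy'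
      unfold prs at hy1 hy2
      rw [Finset.mem_filter, Finset.mem_product] at hy1 hy2
      obtain ⟨⟨hR, hS⟩, _⟩ := hy1
      obtain ⟨⟨hR', hS'⟩, _⟩ := hy2
      simp only at hR hS hR' hS'
      rw [mem_sub] at hR hS hR' hS'
      have key : ∀ i, R (i, true) = R' (i, true) ∧ R (i, false) = R' (i, false) ∧
          S (i, true) = S' (i, true) ∧ S (i, false) = S' (i, false) := by
        intro i
        have h1 := congrFun hcode i
        unfold c2_code at h1
        simp only [Prod.mk.injEq] at h1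
        obtain ⟨⟨a1, a2⟩, a3, a4⟩ := h1
        have s1 := sd_cast hR.1 i
        have s2 := sd_cast hS.1 i
        have s3 := sd_cast hR'.1 i
        have s4 := sd_cast hS'.1 i
        refine ⟨by omega, by omega, by omega, by omega⟩
      have hRR : R = R' := by
        funext ⟨i, c⟩
        cases c
        · exact (key i).2.1
        · exact (key i).1
      have hSS : S = S' := by
        funext ⟨i, c⟩
        cases c
        · exact (key i).2.2.2
        · exact (key i).2.2.1
      rw [hRR, hSS]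
  have h1 : ((prs d n B).card : ℝ) ≤
      (((Fintype.piFinset (fun _ : Fin d => c2_set n b)).card : ℕ) : ℝ) := by
    exact_mod_cast hcard
  refine h1.trans ?_
  rw [Fintype.card_piFinset, Finset.prod_const, Finset.card_univ, Fintype.card_fin, c2_card]
  push_cast
  apply pow_le_pow_left₀ (by positivity)
  have hn0 : (0 : ℝ) ≤ n := Nat.cast_nonneg n
  have hb0 : (0 : ℝ) ≤ b := Nat.cast_nonneg b
  have h2 : (b : ℝ) * b ≤ B * B := mul_le_mul hbB hbB hb0 (by linarith)
  have h3 : (2 * (b : ℝ) + 3) ≤ 27 * B := by linarith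
  have h4 : (b : ℝ) * b * (2 * b + 3) ≤ B * B * (27 * B) :=
    mul_le_mul h2 h3 (by positivity) (by positivity)
  calc (n : ℝ) * b * ((2 * b + 3) * b) = n * (b * b * (2 * b + 3)) := by ring
    _ ≤ n * (B * B * (27 * B)) := mul_le_mul_of_nonneg_left h4 hn0
    _ = n * (3 * B) ^ 3 := by ring

end BTP
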