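import Pool.Agent.BTP.G2

set_option autoImplicit false

namespace BTP

theorem g3_u {z : ℝ} (hz : 0 < z) : 0 < 1 - Real.exp (-z) ∧ 1 - Real.exp (-z) < 1 := by
  constructor
  · have : Real.exp (-z) < 1 := by
      rw [Real.exp_lt_one_iff]; linarith
    linarith
  · have := Real.exp_pos (-z)
    linarith

/-- [BTP-G3] the derivative of `g`: with `u = 1 - e^{-z} ∈ (0,1)` and `s = √(4u - 3u²)`, `β = (u+s)/2`, `β'(u) = (1 + (2-3u)/s)/2`, `u'(z) = 1 - u`, so
`g'(z) = -(1-u) β'/β = -(1-u)(s+2-3u)/(s(u+s)) = -[(1/2)(1/s + 1/u) - 1]`; check with `(u+s)(s-u) = s² - u² = 4u(1-u)` and `(s+2-3u)(s-u) = 2u + s(2-4u)`. -/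
theorem gg_deriv {z : ℝ} (hz : 0 < z) :
    HasDerivAt gg (1 - (1 / Real.sqrt ((1 - Real.exp (-z)) * (4 - 3 * (1 - Real.exp (-z)))) +
      1 / (1 - Real.exp (-z))) / 2) z := by
  obtain ⟨hu0, hu1⟩ := g3_u hz
  have h1 : HasDerivAt (fun z : ℝ => 1 - Real.exp (-z)) (Real.exp (-z)) z := by
    have ha : HasDerivAt (fun z : ℝ => -z) (-1) z := (hasDerivAt_id z).neg
    have hb := (ha.exp).const_sub 1
    have e : -(Real.exp (-z) * -1) = Real.exp (-z) := by ring
    rw [e] at hb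
    exact hb
  set u : ℝ := 1 - Real.exp (-z) with hu
  have hez : Real.exp (-z) = 1 - u := by rw [hu]; ring
  have hpos : 0 < u * (4 - 3 * u) := by
    apply mul_pos hu0; linarith
  set s : ℝ := Real.sqrt (u * (4 - 3 * u)) with hs
  have hs0 : 0 < s := Real.sqrt_pos.mpr hpos
  have hs2 : s ^ 2 = u * (4 - 3 * u) := Real.sq_sqrt hpos.le
  have h2 : HasDerivAt (fun u : ℝ => u * (4 - 3 * u)) (4 - 6 * u) u := by
    have ha : HasDerivAt (fun u : ℝ => u) 1 u := hasDerivAt_id u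
    have hb : HasDerivAt (fun u : ℝ => 4 - 3 * u) (-3) u := by
      have := (ha.const_mul 3).const_sub 4
      rw [mul_one] at this
      exact this
    have := ha.mul hb
    have e : 1 * (4 - 3 * u) + u * -3 = 4 - 6 * u := by ring
    rw [e] at this
    exact this
  have h3 : HasDerivAt (fun u : ℝ => Real.sqrt (u * (4 - 3 * u))) ((4 - 6 * u) / (2 * s)) u :=
    h2.sqrt hpos.ne'
  have h4 : HasDerivAt bet ((1 + (4 - 6 * u) / (2 * s)) / 2) u := by
    have := ((hasDerivAt_id u).add h3).div_const 2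
    exact this
  have hb : bet u = (u + s) / 2 := rfl
  have h5 : HasDerivAt (fun z : ℝ => bet (1 - Real.exp (-z)))
      ((1 + (4 - 6 * u) / (2 * s)) / 2 * Real.exp (-z)) z := by
    have := HasDerivAt.comp z (h₂ := bet) (h := fun z : ℝ => 1 - Real.exp (-z)) h4 h1
    exact this
  have h6 := (h5.log (by
    have := bet_pos hu0
    exact this.ne')).neg
  have h7 : HasDerivAt gg (-((1 + (4 - 6 * u) / (2 * s)) / 2 * Real.exp (-z) /
      bet (1 - Real.exp (-z)))) z := h6
  convert h7 using 1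
  rw [← hu, hb, hez]
  have hus : 0 < u + s := by linarith
  field_simp
  nlinarith [hs2]

/-- [BTP-G3] `1/√(u(4-3u)) + 1/u` is decreasing on `(0, 1)`.
PROOF. For `0 < u ≤ v ≤ 1`, `s = √(u(4-3u))`, `t = √(v(4-3v))`; `s ≥ u`, `t ≥ v`. `1/t - 1/s = (s - t)/(st) = (s² - t²)/(st(s+t))`, `s² - t² = (v-u)(3(u+v) - 4)`. Claim `(3(u+v)-4)/(st(s+t)) ≤ 1/(uv)`: if `3(u+v) ≤ 4` clear; otherwise `3(u+v) - 4 ≤ u + v` (as `u + v ≤ 2`) and `st(s+t) ≥ uv(u+v)`. -/
theorem inv_sqrt_anti {u v : ℝ} (h0 : 0 < u) (huv : u ≤ v) (h1 : v ≤ 1) :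
    1 / Real.sqrt (v * (4 - 3 * v)) + 1 / v ≤ 1 / Real.sqrt (u * (4 - 3 * u)) + 1 / u := by
  have hv0 : 0 < v := lt_of_lt_of_le h0 huv
  have hpu : 0 < u * (4 - 3 * u) := mul_pos h0 (by linarith)
  have hpv : 0 < v * (4 - 3 * v) := mul_pos hv0 (by linarith)
  set s : ℝ := Real.sqrt (u * (4 - 3 * u)) with hs
  set t : ℝ := Real.sqrt (v * (4 - 3 * v)) with ht
  have hs0 : 0 < s := Real.sqrt_pos.mpr hpu
  have ht0 : 0 < t := Real.sqrt_pos.mpr hpv
  have hs2 : s ^ 2 = u * (4 - 3 * u) := Real.sq_sqrt hpu.le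
  have ht2 : t ^ 2 = v * (4 - 3 * v) := Real.sq_sqrt hpv.le
  have hsu : u ≤ s := by
    apply Real.le_sqrt_of_sq_le
    nlinarith
  have htv : v ≤ t := by
    apply Real.le_sqrt_of_sq_le
    nlinarith
  have hst : 0 < s * t := mul_pos hs0 ht0
  have huv0 : 0 < u * v := mul_pos h0 hv0
  -- (s - t) * (u v) ≤ (v - u) * (s t)
  have hdiff : (s - t) * (s + t) = (v - u) * (3 * (u + v) - 4) := by
    nlinarith [hs2, ht2]
  have hk1 : (s + t) * ((s - t) * (u * v)) ≤ (s + t) * ((v - u) * (s * t)) := by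
    have e1 : (s + t) * ((s - t) * (u * v)) = (v - u) * ((3 * (u + v) - 4) * (u * v)) := by
      calc (s + t) * ((s - t) * (u * v)) = ((s - t) * (s + t)) * (u * v) := by ring
        _ = _ := by rw [hdiff]; ring
    have e2 : (s + t) * ((v - u) * (s * t)) = (v - u) * ((s + t) * (s * t)) := by ring
    rw [e1, e2]
    apply mul_le_mul_of_nonneg_left _ (by linarith)
    have a1 : (3 * (u + v) - 4) * (u * v) ≤ (u + v) * (u * v) :=
      mul_le_mul_of_nonneg_right (by linarith) huv0.le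
    have a2 : (u + v) * (u * v) ≤ (s + t) * (s * t) := by
      apply mul_le_mul (by linarith) _ huv0.le (by linarith)
      exact mul_le_mul hsu htv hv0.le hs0.le
    linarith
  have hk : (s - t) * (u * v) ≤ (v - u) * (s * t) :=
    le_of_mul_le_mul_left hk1 (by linarith)
  have e : 1 / s + 1 / u - (1 / t + 1 / v) =
      ((v - u) * (s * t) - (s - t) * (u * v)) / ((s * t) * (u * v)) := by
    field_simp
    ring
  have : 0 ≤ 1 / s + 1 / u - (1 / t + 1 / v) := by
    rw [e]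
    apply div_nonneg (by linarith) (by positivity)
  linarith

/-- [BTP-G3] PROOF. `MonotoneOn.convexOn_of_deriv` (the derivative is monotone by `gg_deriv`, `inv_sqrt_anti`, `1 - e^{-z}` is increasing). -/
theorem gg_convex : ConvexOn ℝ (Set.Ioi 0) gg := by
  apply MonotoneOn.convexOn_of_deriv (convex_Ioi 0)
  · intro z hz
    exact (gg_deriv hz).continuousAt.continuousWithinAt
  · rw [interior_Ioi]
    intro z hz
    exact (gg_deriv hz).differentiableAt.differentiableWithinAt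
  · rw [interior_Ioi]
    intro x hx y hy hxy
    rw [(gg_deriv hx).deriv, (gg_deriv hy).deriv]
    obtain ⟨hu0, hu1⟩ := g3_u hx
    obtain ⟨hv0, hv1⟩ := g3_u hy
    have hle : 1 - Real.exp (-x) ≤ 1 - Real.exp (-y) := by
      have : Real.exp (-y) ≤ Real.exp (-x) := Real.exp_le_exp.mpr (by linarith)
      linarith
    have := inv_sqrt_anti hu0 hle hv1.le
    linarith

/-- [BTP-G3] PROOF. `z ↦ g(q z) - c` is convex (composition with a linear map), so is the maximum with `0` (`ConvexOn.sup`). -/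
theorem Gh_convex {q c : ℝ} (hq : 0 < q) : ConvexOn ℝ (Set.Ioi 0) (Gh q c) := by
  refine ⟨convex_Ioi 0, ?_⟩
  intro x hx y hy a b ha hb hab
  have hx' : (0 : ℝ) < x := hx
  have hy' : (0 : ℝ) < y := hy
  have h := gg_convex.2 (x := q * x) (mul_pos hq hx') (y := q * y) (mul_pos hq hy') ha hb hab
  simp only [smul_eq_mul] at h ⊢
  unfold Gh
  have e : q * (a * x + b * y) = a * (q * x) + b * (q * y) := by ring
  rw [e]
  have m1 : gg (q * x) - c ≤ max (gg (q * x) - c) 0 := le_max_left _ _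
  have m2 : gg (q * y) - c ≤ max (gg (q * y) - c) 0 := le_max_left _ _
  have n1 : 0 ≤ max (gg (q * x) - c) 0 := le_max_right _ _
  have n2 : 0 ≤ max (gg (q * y) - c) 0 := le_max_right _ _
  apply max_le
  · have k1 := mul_le_mul_of_nonneg_left m1 ha
    have k2 := mul_le_mul_of_nonneg_left m2 hb
    have : c = a * c + b * c := by rw [← add_mul, hab, one_mul]
    nlinarith
  · exact add_nonneg (mul_nonneg ha n1) (mul_nonneg hb n2)

theorem Gh_anti {q c : ℝ} (hq : 0 < q) : AntitoneOn (Gh q c) (Set.Ioi 0) := by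
  intro x hx y hy hxy
  have hx' : (0 : ℝ) < x := hx
  unfold Gh
  have := gg_anti (mul_pos hq hx') (mul_le_mul_of_nonneg_left hxy hq.le)
  exact max_le_max (by linarith) le_rfl

theorem Gh_nonneg {q c z : ℝ} : 0 ≤ Gh q c z := le_max_right _ _

end BTP
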