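import Pool.Agent.BTP.G1

set_option autoImplicit false

namespace BTP

theorem g2_u_pos {z : ℝ} (hz : 0 < z) : 0 < 1 - Real.exp (-z) := by
  have h : Real.exp (-z) < 1 := Real.exp_lt_one_iff.2 (by linarith)
  linarith

theorem g2_u_lt (z : ℝ) : 1 - Real.exp (-z) < 1 := by
  have h := Real.exp_pos (-z)
  linarith

theorem g2_bet_lt_one {u : ℝ} (h1 : u < 1) : bet u < 1 := by
  have h2 : Real.sqrt (u * (4 - 3 * u)) < 2 - u := by
    rw [Real.sqrt_lt' (by linarith)]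
    nlinarith [mul_pos (sub_pos.2 h1) (sub_pos.2 h1)]
  unfold bet
  linarith

theorem g2_bet_cont : Continuous bet := by
  unfold bet
  fun_prop

/-- [BTP-G2] -/
theorem exp_neg_gg {z : ℝ} (hz : 0 < z) : Real.exp (-gg z) = bet (1 - Real.exp (-z)) := by
  rw [gg, neg_neg, Real.exp_log (bet_pos (g2_u_pos hz))]

theorem gg_nonneg {z : ℝ} (hz : 0 < z) : 0 ≤ gg z := by
  have h := bet_le_one (g2_u_pos hz).le (g2_u_lt z).le
  have h2 := Real.log_nonpos (bet_nonneg (g2_u_pos hz).le) h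
  unfold gg
  linarith

/-- [BTP-G2] (`bet_mono`) -/
theorem gg_anti {z z' : ℝ} (hz : 0 < z) (h : z ≤ z') : gg z' ≤ gg z := by
  have h1 : Real.exp (-z') ≤ Real.exp (-z) := Real.exp_le_exp.2 (by linarith)
  have h2 := bet_mono (u := 1 - Real.exp (-z)) (v := 1 - Real.exp (-z')) (g2_u_pos hz).le
    (by linarith) (g2_u_lt z').le
  have h3 := Real.log_le_log (bet_pos (g2_u_pos hz)) h2
  unfold gg
  linarith

/-- [BTP-G2] `g(1) > 0`: `bet u < 1` for `u < 1`. -/
theorem gg_pos {z : ℝ} (hz : 0 < z) : 0 < gg z := by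
  have h2 := Real.log_neg (bet_pos (g2_u_pos hz)) (g2_bet_lt_one (g2_u_lt z))
  unfold gg
  linarith

theorem gg_cont : ContinuousOn gg (Set.Ioi 0) := by
  have h1 : ContinuousOn (fun z : ℝ => bet (1 - Real.exp (-z))) (Set.Ioi 0) := by
    have : Continuous (fun z : ℝ => bet (1 - Real.exp (-z))) :=
      g2_bet_cont.comp (by fun_prop)
    exact this.continuousOn
  exact (h1.log (fun z hz => (bet_pos (g2_u_pos hz)).ne')).neg

/-- [BTP-G2] PROOF. `sqrt_le_bet`: `g ≤ -(1/2) log(1 - e^{-z})` and `1 - e^{-z} ≥ z/(1+z)` (`e^z ≥ 1 + z`). -/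
theorem gg_up {z : ℝ} (hz : 0 < z) : gg z ≤ Real.log ((1 + z) / z) / 2 := by
  have hu := g2_u_pos hz
  have h1 := sqrt_le_bet hu.le (g2_u_lt z).le
  have h2 := Real.log_le_log (Real.sqrt_pos.2 hu) h1
  rw [Real.log_sqrt hu.le] at h2
  have h3 : z / (1 + z) ≤ 1 - Real.exp (-z) := by
    have h4 : 1 + z ≤ Real.exp z := by
      have := Real.add_one_le_exp z
      linarith
    have h5 : Real.exp (-z) ≤ 1 / (1 + z) := by
      rw [Real.exp_neg, inv_eq_one_div]
      exact one_div_le_one_div_of_le (by linarith) h4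
    have h6 : z / (1 + z) = 1 - 1 / (1 + z) := by
      field_simp
      ring
    rw [h6]
    linarith
  have h7 : 0 < z / (1 + z) := div_pos hz (by linarith)
  have h8 := Real.log_le_log h7 h3
  have h9 : Real.log ((1 + z) / z) = - Real.log (z / (1 + z)) := by
    rw [← Real.log_inv, inv_div]
  rw [h9]
  unfold gg
  linarith

/-- [BTP-G2] PROOF. `le_bet`: `g ≤ -log(1 - e^{-z}) ≤ e^{-z}/(1 - e^{-z}) ≤ 2 e^{-z}` (`-log x ≤ 1/x - 1`, `e^{-1} ≤ 1/2`). -/
theorem gg_tail {z : ℝ} (hz : 1 ≤ z) : gg z ≤ 2 * Real.exp (-z) := by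
  have hz0 : 0 < z := by linarith
  have hu := g2_u_pos hz0
  have h1 := le_bet hu.le (g2_u_lt z).le
  have h2 := Real.log_le_log hu h1
  have h3 := Real.one_sub_inv_le_log_of_pos hu
  have he : Real.exp (-z) ≤ 1 / 2 := by
    have h4 : (2 : ℝ) ≤ Real.exp z := by
      have := Real.add_one_le_exp z
      linarith
    rw [Real.exp_neg, inv_eq_one_div]
    exact one_div_le_one_div_of_le (by norm_num) h4
  have hep := Real.exp_pos (-z)
  have h5 : (1 - Real.exp (-z))⁻¹ - 1 ≤ 2 * Real.exp (-z) := by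
    rw [sub_le_iff_le_add, inv_eq_one_div, div_le_iff₀ hu]
    nlinarith
  unfold gg
  linarith

/-- [BTP-G2] PROOF. `bet_div` with `u = 1 - e^{-z}`, `u' = 1 - e^{-z'}`: `g(z) - g(z') = log(β(u')/β(u)) ≤ log(u'/u) ≤ log(z'/z)`, since `(1 - e^{-z'}) z ≤ (1 - e^{-z}) z'` (concavity of `1 - e^{-z}`: `strictConcaveOn`, or `e^{-z} - e^{-z'} ≤ e^{-z} (z'-z)` and `z e^{-z} ≤ 1 - e^{-z}`). -/
theorem gg_log {z z' : ℝ} (hz : 0 < z) (h : z ≤ z') : gg z - gg z' ≤ Real.log (z' / z) := by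
  have hz' : 0 < z' := lt_of_lt_of_le hz h
  have hu := g2_u_pos hz
  have hu' := g2_u_pos hz'
  have huu : 1 - Real.exp (-z) ≤ 1 - Real.exp (-z') := by
    have h1 : Real.exp (-z') ≤ Real.exp (-z) := Real.exp_le_exp.2 (by linarith)
    linarith
  have h1 := bet_div hu.le huu (g2_u_lt z').le
  have hb := bet_pos hu
  have hb' := bet_pos hu'
  -- concavity
  have h2 : (1 - Real.exp (-z')) * z ≤ (1 - Real.exp (-z)) * z' := by
    have h3 : Real.exp (-z) - Real.exp (-z') ≤ Real.exp (-z) * (z' - z) := by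
      have h4 : Real.exp (-z') = Real.exp (-z) * Real.exp (z - z') := by
        rw [← Real.exp_add]
        congr 1
        ring
      have h5 := Real.add_one_le_exp (z - z')
      have h6 := Real.exp_pos (-z)
      nlinarith
    have h7 : z * Real.exp (-z) ≤ 1 - Real.exp (-z) := by
      have h8 := Real.add_one_le_exp z
      have h9 : Real.exp (-z) * Real.exp z = 1 := by
        rw [← Real.exp_add, neg_add_cancel, Real.exp_zero]
      have h6 := Real.exp_pos (-z)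
      nlinarith
    nlinarith
  have h3 : Real.log (bet (1 - Real.exp (-z'))) - Real.log (bet (1 - Real.exp (-z))) ≤
      Real.log (1 - Real.exp (-z')) - Real.log (1 - Real.exp (-z)) := by
    have h4 := Real.log_le_log (mul_pos hb' hu) h1
    rw [Real.log_mul hb'.ne' hu.ne', Real.log_mul hb.ne' hu'.ne'] at h4
    linarith
  have h5 : Real.log (1 - Real.exp (-z')) - Real.log (1 - Real.exp (-z)) ≤
      Real.log z' - Real.log z := by
    have h4 := Real.log_le_log (mul_pos hu' hz) h2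
    rw [Real.log_mul hu'.ne' hz.ne', Real.log_mul hu.ne' hz'.ne'] at h4
    linarith
  rw [Real.log_div hz'.ne' hz.ne']
  unfold gg
  linarith

/-- [BTP-G2] PROOF. `z' = z(1+κ) ≤ 1/4`, `u' = 1 - e^{-z'} ≤ 1 - e^{-1/4} ≤ 1/4`. `bet_growth`: `g(z) - g(z') ≥ (1/2) log(u'/u)`, and `u' - u = e^{-z}(1 - e^{-κz}) ≥ e^{-z'} κ z ≥ (3/4) κ z ≥ (3/4) κ u` (`1 - e^{-x} ≥ x e^{-x}`, `e^{-1/4} ≥ 3/4`),
so `u'/u ≥ 1 + (3/4)κ` and `log(1 + x) ≥ x/(1+x)`: `(1/2)(3/4)κ/(1 + 3/4) = (3/14) κ ≥ κ/5`. -/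
theorem gg_gain {z k : ℝ} (hz : 0 < z) (hz1 : z ≤ 1 / 8) (hk : 0 ≤ k) (hk1 : k ≤ 1) :
    k / 5 ≤ gg z - gg (z * (1 + k)) := by
  rcases hk.eq_or_lt with hk0 | hk0
  · rw [← hk0]
    simp
  have hz' : 0 < z * (1 + k) := by positivity
  have hzk : z * (1 + k) ≤ 1 / 4 := by nlinarith
  have hu := g2_u_pos hz
  have hu' := g2_u_pos hz'
  have hzz : z ≤ z * (1 + k) := by nlinarith
  have huu : 1 - Real.exp (-z) ≤ 1 - Real.exp (-(z * (1 + k))) := by
    have h1 : Real.exp (-(z * (1 + k))) ≤ Real.exp (-z) := Real.exp_le_exp.2 (by linarith)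
    linarith
  have hez : 1 - z * (1 + k) ≤ Real.exp (-(z * (1 + k))) := by
    have := Real.add_one_le_exp (-(z * (1 + k)))
    linarith
  have h34 : 3 / 4 ≤ Real.exp (-(z * (1 + k))) := by linarith
  have hu13 : 1 - Real.exp (-(z * (1 + k))) ≤ 1 / 3 := by linarith
  have h1 := bet_growth hu.le huu hu13
  have hb := bet_pos hu
  have hb' := bet_pos hu'
  have hsu := Real.sqrt_pos.2 hu
  have hsu' := Real.sqrt_pos.2 hu'
  have h2 := Real.log_le_log (mul_pos hb hsu') h1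
  rw [Real.log_mul hb.ne' hsu'.ne', Real.log_mul hb'.ne' hsu.ne', Real.log_sqrt hu.le,
    Real.log_sqrt hu'.le] at h2
  -- `u' - u`
  have hle : (1 - Real.exp (-z)) * (1 + 3 / 4 * k) ≤ 1 - Real.exp (-(z * (1 + k))) := by
    have h3 : Real.exp (-(z * (1 + k))) * (1 + k * z) ≤ Real.exp (-z) := by
      have h4 : Real.exp (-z) = Real.exp (-(z * (1 + k))) * Real.exp (k * z) := by
        rw [← Real.exp_add]
        congr 1
        ring
      rw [h4]
      have h5 := Real.add_one_le_exp (k * z)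
      have h6 := Real.exp_pos (-(z * (1 + k)))
      nlinarith
    have h7 : 1 - Real.exp (-z) ≤ z := by
      have := Real.add_one_le_exp (-z)
      linarith
    have h8 : 0 < k * z := mul_pos hk0 hz
    nlinarith [mul_le_mul_of_nonneg_left h7 hk, mul_le_mul_of_nonneg_right h34 h8.le]
  have h9 := Real.log_le_log (mul_pos hu (by positivity)) hle
  rw [Real.log_mul hu.ne' (by positivity)] at h9
  have h10 := Real.one_sub_inv_le_log_of_pos (x := 1 + 3 / 4 * k) (by positivity)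
  have h11 : 2 / 5 * k ≤ 1 - (1 + 3 / 4 * k)⁻¹ := by
    have h12 : (1 + 3 / 4 * k)⁻¹ * (1 + 3 / 4 * k) = 1 := inv_mul_cancel₀ (by positivity)
    have h13 : 1 - (1 + 3 / 4 * k)⁻¹ = (3 / 4 * k) / (1 + 3 / 4 * k) := by
      field_simp
      ring
    rw [h13, le_div_iff₀ (by positivity)]
    nlinarith
  unfold gg
  linarith

/-- [BTP-G2] PROOF. Intermediate value theorem on `[1, log(2/c)]`: `g(1) ≥ c`, `g(log(2/c)) ≤ 2 · c/2 = c` (`gg_tail`, `1 ≤ log(2/c)`). -/
theorem gg_ivt {c : ℝ} (hc : 0 < c) (hc1 : c ≤ gg 1) (hc2 : 1 ≤ Real.log (2 / c)) :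
    ∃ Z, 1 ≤ Z ∧ Z ≤ Real.log (2 / c) ∧ gg Z = c := by
  have hcont : ContinuousOn gg (Set.Icc 1 (Real.log (2 / c))) :=
    gg_cont.mono fun x hx => lt_of_lt_of_le one_pos hx.1
  have h1 : gg (Real.log (2 / c)) ≤ c := by
    have h2 := gg_tail hc2
    rw [Real.exp_neg, Real.exp_log (by positivity)] at h2
    have h3 : 2 * (2 / c)⁻¹ = c := by
      field_simp
    linarith
  have h2 := intermediate_value_Icc' hc2 hcont
  obtain ⟨Z, hZ, hZc⟩ := h2 ⟨h1, hc1⟩
  exact ⟨Z, hZ.1, hZ.2, hZc⟩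

end BTP
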