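import Pool.Agent.BTP.B1
import Pool.Agent.BTP.G2

set_option autoImplicit false

open scoped Classical
open Finset

namespace BTP

variable {d : ℕ} (a : Par d)

namespace Par

/-! ## Simple facts on the parameters -/



/-- [BTP-R1] (`1 - e^{-q}`) -/
theorem p_nonneg : 0 ≤ a.p := by
  rw [a.hp]
  have h1 : Real.exp (-a.q) ≤ 1 := Real.exp_le_one_iff.2 (by linarith [a.hq])
  linarith

theorem p_le_q : a.p ≤ a.q := by
  rw [a.hp]
  have h1 := Real.add_one_le_exp (-a.q)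
  linarith

theorem p_le_one : a.p ≤ 1 := by
  rw [a.hp]
  have h1 := Real.exp_pos (-a.q)
  linarith

theorem H1_pos : 0 < a.H1 := by
  linarith [a.hH1]

theorem H_pos : 0 < a.H := by
  rw [a.hH]
  linarith [a.hH1]

/-- [BTP-R1] (`hLam`, `1 ≤ h`, `1 ≤ Z`, `2 ≤ d`) -/
theorem Lam_ge : 1 ≤ a.Lam := by
  refine le_trans ?_ a.hLam
  have h1 : (2 : ℝ) ≤ d := by exact_mod_cast a.hd
  have h2 : (1 : ℝ) ≤ (a.h : ℝ) ^ d := one_le_pow₀ (by exact_mod_cast a.hh)
  have h3 : 1 ≤ Real.sqrt (1 + a.Z) := by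
    rw [Real.one_le_sqrt]
    linarith [a.hZ1]
  have h4 : (1 : ℝ) ≤ 16 * d := by linarith
  calc (1 : ℝ) = 1 * 1 * 1 := by norm_num
    _ ≤ 16 * d * (a.h : ℝ) ^ d * Real.sqrt (1 + a.Z) :=
        mul_le_mul (mul_le_mul h4 h2 zero_le_one (by positivity)) h3 zero_le_one (by positivity)

theorem X_ge (T : Box d) (i : Fin d) : a.H1 ≤ a.X T i := by
  exact le_max_right _ _

theorem X_ge_sd (T : Box d) (i : Fin d) : (sd T i : ℝ) ≤ a.X T i := by
  exact le_max_left _ _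

theorem X_pos (T : Box d) (i : Fin d) : 0 < a.X T i := by
  exact lt_of_lt_of_le a.H1_pos (a.X_ge T i)

theorem X_mono {T Q : Box d} (hT : Ne T) (h : T ≤ Q) (i : Fin d) : a.X T i ≤ a.X Q i := by
  apply max_le_max _ le_rfl
  exact_mod_cast sd_mono hT h i

theorem z_pos (T : Box d) (i : Fin d) : 0 < a.z T i := by
  exact mul_pos a.hq (Finset.prod_pos fun l _ => a.X_pos T l)

theorem z_mono {T Q : Box d} (hT : Ne T) (h : T ≤ Q) (i : Fin d) : a.z T i ≤ a.z Q i := by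
  exact mul_le_mul_of_nonneg_left
    (Finset.prod_le_prod (fun l _ => (a.X_pos T l).le) fun l _ => a.X_mono hT h l) a.hq.le

/-- [BTP-R1] the domain is closed under smaller boxes -/
theorem InD_mono {T Q : Box d} (hT : Ne T) (h : T ≤ Q) (hQ : a.InD Q) : a.InD T := by
  refine ⟨fun i => (a.z_mono hT h i).trans (hQ.1 i), fun i => ?_⟩
  have h1 : (sd T i : ℝ) ≤ sd Q i := by exact_mod_cast sd_mono hT h i
  exact h1.trans (hQ.2 i)

/-- [BTP-R1] single sites are in the domain (`hZH`, `hHB`) -/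
theorem InD_cc (v : Site d) : a.InD (cc v) := by
  have h1 : (1 : ℝ) ≤ a.H1 := by linarith [a.hH1]
  refine ⟨fun i => ?_, fun i => ?_⟩
  · have h2 : ∀ l, a.X (cc v) l = a.H1 := by
      intro l
      show max ((sd (cc v) l : ℕ) : ℝ) a.H1 = a.H1
      rw [sd_cc]
      exact max_eq_right (by push_cast; exact h1)
    have h3 : a.z (cc v) i = a.q * a.H1 ^ (d - 1) := by
      show a.q * ∏ l ∈ Finset.univ.erase i, a.X (cc v) l = _
      rw [Finset.prod_congr rfl fun l _ => h2 l, Finset.prod_const,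
        Finset.card_erase_of_mem (Finset.mem_univ i), Finset.card_univ, Fintype.card_fin]
    rw [h3]
    exact a.hZH
  · rw [sd_cc]
    push_cast
    exact h1.trans a.hHB

/-- [BTP-R1] the least side `≠ i` is attained -/
theorem Mi_spec (T : Box d) (i : Fin d) :
    (∃ l, l ≠ i ∧ Mi (a.X T) i = a.X T l) ∧ ∀ l, l ≠ i → Mi (a.X T) i ≤ a.X T l := by
  have hfin : ((a.X T) '' {l | l ≠ i}).Finite := (Set.toFinite _).image _
  have hne : ((a.X T) '' {l | l ≠ i}).Nonempty := by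
    have h1 : 1 < Fintype.card (Fin d) := by
      rw [Fintype.card_fin]
      exact a.hd
    have := Fintype.one_lt_card_iff_nontrivial.1 h1
    obtain ⟨l, hl⟩ := exists_ne i
    exact ⟨_, l, hl, rfl⟩
  refine ⟨?_, fun l hl => csInf_le hfin.bddBelow ⟨l, hl, rfl⟩⟩
  obtain ⟨l, hl, hl'⟩ := hne.csInf_mem hfin
  exact ⟨l, hl, hl'.symm⟩

theorem Mi_ge (T : Box d) (i : Fin d) : a.H1 ≤ Mi (a.X T) i := by
  obtain ⟨⟨l, _, hl⟩, _⟩ := a.Mi_spec T i
  rw [hl]
  exact a.X_ge T l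

/-- [BTP-R1] `w = √M / Lam ≥ √H₁ / Lam ≥ h + 2` (`hwin`) -/
theorem w_ge (T : Box d) (i : Fin d) : (a.h : ℝ) + 2 ≤ a.w T i := by
  have hL : 0 < a.Lam := lt_of_lt_of_le zero_lt_one a.Lam_ge
  show _ ≤ Real.sqrt (Mi (a.X T) i) / a.Lam
  rw [le_div_iff₀ hL]
  exact a.hwin.trans (Real.sqrt_le_sqrt (a.Mi_ge T i))

theorem w_sq (T : Box d) (i : Fin d) : (a.Lam * a.w T i) ^ 2 = Mi (a.X T) i := by
  have hL : a.Lam ≠ 0 := (lt_of_lt_of_le zero_lt_one a.Lam_ge).ne'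
  show (a.Lam * (Real.sqrt (Mi (a.X T) i) / a.Lam)) ^ 2 = _
  rw [mul_div_cancel₀ _ hL, Real.sq_sqrt (a.H1_pos.le.trans (a.Mi_ge T i))]

/-- [BTP-R1] `1 ≤ B` etc. -/
theorem B_ge : 1 ≤ a.B := by
  linarith [a.hHB, a.hH1]

end Par

end BTP
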