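import Pool.Agent.BTP.V0
import Pool.Agent.BTP.R1
import Pool.Agent.BTP.G3

set_option autoImplicit false

open scoped Classical
open Finset

namespace BTP

variable {d : ℕ} (a : Par d)

/-- [BTP-V5] the assumptions hold for the parameters. PROOF. `Gh_convex`, `Gh_anti`, `Gh_nonneg`; `φ(m) = m + K√m + H`: `√(m+2) - √(m+1) ≤ √(m+1) - √m` (`(√m + √(m+2))² ≤ 4(m+1)`). -/
theorem Par.gp : GP a.G a.f := by
  have hK : 0 ≤ a.K := by linarith [a.hK]
  refine ⟨Gh_convex a.hq, Gh_anti a.hq, fun z => Gh_nonneg, ?_, ?_, ?_⟩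
  · intro m
    have h1 : 0 ≤ a.K * Real.sqrt m := mul_nonneg hK (Real.sqrt_nonneg _)
    have h2 := a.H_pos
    have h3 : (0 : ℝ) ≤ m := Nat.cast_nonneg m
    unfold Par.f ph
    linarith
  · intro m n h
    have h1 : (m : ℝ) ≤ n := by exact_mod_cast h
    have h2 := mul_le_mul_of_nonneg_left (Real.sqrt_le_sqrt h1) hK
    unfold Par.f ph
    linarith
  · intro m
    have h0 : (0 : ℝ) ≤ m := Nat.cast_nonneg m
    have h1 : Real.sqrt m + Real.sqrt (m + 2 : ℝ) ≤ 2 * Real.sqrt (m + 1 : ℝ) := by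
      have e0 := Real.sq_sqrt h0
      have e1 := Real.sq_sqrt (show (0 : ℝ) ≤ m + 1 by linarith)
      have e2 := Real.sq_sqrt (show (0 : ℝ) ≤ m + 2 by linarith)
      rw [← pow_le_pow_iff_left₀ (add_nonneg (Real.sqrt_nonneg _) (Real.sqrt_nonneg _))
        (mul_nonneg two_pos.le (Real.sqrt_nonneg _)) two_ne_zero]
      nlinarith [sq_nonneg (Real.sqrt m - Real.sqrt (m + 2 : ℝ))]
    have h2 := mul_le_mul_of_nonneg_left h1 hK
    unfold Par.f ph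
    push_cast
    linarith

/-- [BTP-V5] (`x ≤ x + K√x + 2 H₁`) -/
theorem Par.f_ge (x : Fin d → ℕ) (i : Fin d) : xt a.H1 x i ≤ a.f (x i) := by
  have hK : 0 ≤ a.K := by linarith [a.hK]
  have h1 : 0 ≤ a.K * Real.sqrt (x i) := mul_nonneg hK (Real.sqrt_nonneg _)
  have h2 := a.H1_pos
  have h3 := a.hH
  have h4 : (0 : ℝ) ≤ x i := Nat.cast_nonneg _
  unfold xt Par.f ph
  apply max_le
  · linarith
  · linarith

theorem v5_K_le (a : Par d) : a.K ≤ Real.sqrt a.H1 :=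
  Real.le_sqrt_of_sq_le a.hKH

/-- [BTP-V5] PROOF. `K√x ≤ √H₁ √x̃ ≤ x̃`, `H = 2H₁ ≤ 2x̃`. -/
theorem Par.f_le (x : Fin d → ℕ) (i : Fin d) : a.f (x i) ≤ 4 * xt a.H1 x i := by
  unfold xt Par.f ph
  have h1 : (x i : ℝ) ≤ max (x i : ℝ) a.H1 := le_max_left _ _
  have h2 : a.H1 ≤ max (x i : ℝ) a.H1 := le_max_right _ _
  generalize max (x i : ℝ) a.H1 = X at *
  have h3 : a.K * Real.sqrt (x i) ≤ X := by
    have e1 : a.K ≤ Real.sqrt X := (v5_K_le a).trans (Real.sqrt_le_sqrt h2)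
    have e2 : Real.sqrt (x i) ≤ Real.sqrt X := Real.sqrt_le_sqrt h1
    have e3 : Real.sqrt X * Real.sqrt X = X :=
      Real.mul_self_sqrt (a.H1_pos.le.trans h2)
    calc a.K * Real.sqrt (x i) ≤ Real.sqrt X * Real.sqrt X :=
          mul_le_mul e1 e2 (Real.sqrt_nonneg _) (Real.sqrt_nonneg _)
      _ = X := e3
  have h4 := a.hH
  linarith

/-- [BTP-V5] the gauge compensates the window: if `y ≥ x - 2√x̃/Lam` then `φ(y) ≥ x̃ + (K/2)√x̃`.
PROOF. `x ≤ H₁`: `φ(y) ≥ H = 2H₁ ≥ H₁ + (K/2)√H₁` (`K ≤ √H₁`). `x > H₁ ≥ 100`: `y ≥ x - 2√x ≥ (9/16) x` (`√x ≥ 10`), `√y ≥ (3/4)√x`, `φ(y) ≥ x - 2√x + (3/4) K √x ≥ x + (K/2)√x` as `K ≥ 8`. (`Lam ≥ 1`.) -/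
theorem Par.f_window (x y : ℕ) (h : (x : ℝ) - y ≤ 2 * (Real.sqrt (max (x : ℝ) a.H1) / a.Lam)) :
    max (x : ℝ) a.H1 + a.K / 2 * Real.sqrt (max (x : ℝ) a.H1) ≤ a.f y := by
  have hK := a.hK
  have hy : (0 : ℝ) ≤ y := Nat.cast_nonneg _
  have hKy : 0 ≤ a.K * Real.sqrt y := mul_nonneg (by linarith) (Real.sqrt_nonneg _)
  unfold Par.f ph
  rw [a.hH]
  rcases le_total (x : ℝ) a.H1 with hx | hx
  · rw [max_eq_right hx]
    have h1 : a.K * Real.sqrt a.H1 ≤ a.H1 := by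
      calc a.K * Real.sqrt a.H1 ≤ Real.sqrt a.H1 * Real.sqrt a.H1 :=
            mul_le_mul_of_nonneg_right (v5_K_le a) (Real.sqrt_nonneg _)
        _ = a.H1 := Real.mul_self_sqrt a.H1_pos.le
    have := a.H1_pos
    linarith
  · rw [max_eq_left hx] at h ⊢
    have hx100 : (100 : ℝ) ≤ x := a.hH1.trans hx
    obtain ⟨s, hs⟩ : ∃ s, s = Real.sqrt (x : ℝ) := ⟨_, rfl⟩
    rw [← hs] at h ⊢
    have hss : s * s = x := by rw [hs]; exact Real.mul_self_sqrt (by linarith)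
    have hs10 : 10 ≤ s := by
      rw [hs]
      apply Real.le_sqrt_of_sq_le
      linarith
    have h1 : s / a.Lam ≤ s := div_le_self (by linarith) a.Lam_ge
    have h2 : (x : ℝ) - 2 * s ≤ y := by linarith
    have h3 : 3 / 4 * s ≤ Real.sqrt y := by
      apply Real.le_sqrt_of_sq_le
      nlinarith
    have h4 : a.K * (3 / 4 * s) ≤ a.K * Real.sqrt y :=
      mul_le_mul_of_nonneg_left h3 (by linarith)
    have h5 : 8 * s ≤ a.K * s := mul_le_mul_of_nonneg_right hK (by linarith)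
    have := a.H1_pos
    nlinarith

end BTP
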