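import Pool.Agent.BTP.V4
import Pool.Agent.BTP.V8
import Pool.Agent.BTP.V9

set_option autoImplicit false

open scoped Classical
open Finset

namespace BTP

variable {d : ℕ} (a : Par d)

theorem v10_Er_nonneg : 0 ≤ Er a := by
  unfold Er
  have h1 := a.hc
  have h2 := a.hK
  have h3 := a.H_pos
  have h4 : 0 ≤ Real.log a.A := Real.log_nonneg (by linarith [a.hA])
  have h5 : 0 ≤ Real.log (MM a) := Real.log_natCast_nonneg _
  have h6 : (0 : ℝ) ≤ MM a := Nat.cast_nonneg _
  have h7 : (0 : ℝ) ≤ d := Nat.cast_nonneg _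
  have h8 : 0 ≤ Real.sqrt (MM a) := Real.sqrt_nonneg _
  have h9 : 0 ≤ a.K := by linarith
  positivity

/-- [BTP-V10] the potential outside the domain.
PROOF. If all faces are `≤ Z` some side is `> B`: `Ps_long` (`Er ≥ 0`). Otherwise `z T i > Z` for some `i`: by `f_ge` `q ∏_{l≠i} φ(x l) ≥ z T i > Z`, `g ≤ g(Z) = c/2 ≤ c`, so `G = 0`. `b = max x` (`Finset.exists_max_image`); `GP.raise`, `GP.Psi_diag`: `Ps T ≥ d ∑_{m=1}^b G(φ(m)^{d-1})`. As `φ(b)^{d-1} ≥ ∏_{l≠i} φ(x l)`, `G(φ(m)^{d-1}) = 0` for `m ≥ b`,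
so `∑_{m=1}^b G(φ(m)^{d-1}) ≥ ∑_{m=1}^{MM} G(φ(m)^{d-1}) ≥ ∑_{m=1}^{MM} (g(q φ(m)^{d-1}) - c)` (if `MM ≤ b` omit nonnegative terms, if `MM > b` the additional terms of the second sum are `0`). `diag_sum`. -/
theorem Ps_out {T : Box d} (hT : Ne T) (h : ¬ a.InD T) : d * a.A * lam d - Er a ≤ a.Ps T := by
  have hEr := v10_Er_nonneg a
  by_cases hf : ∀ i, a.z T i ≤ a.Z
  · have h1 : ∃ k, a.B < sd T k := by
      by_contra hc
      push_neg at hc
      exact h ⟨hf, hc⟩
    obtain ⟨k, hk⟩ := h1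
    have h2 := Ps_long a hT hf k hk
    linarith
  · push_neg at hf
    obtain ⟨i, hi⟩ := hf
    have hd := a.hd
    have hg := a.gp
    have hp : ∀ (s : Finset (Fin d)) (u : Fin d → ℕ), 0 < ∏ l ∈ s, a.f (u l) :=
      fun s u => Finset.prod_pos fun _ _ => hg.pos _
    have hG0 : a.G (∏ l ∈ Finset.univ.erase i, a.f (sd T l)) = 0 := by
      have e1 : a.Z ≤ a.q * ∏ l ∈ Finset.univ.erase i, a.f (sd T l) := by
        refine hi.le.trans ?_
        unfold Par.z face
        apply mul_le_mul_of_nonneg_left _ a.hq.le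
        apply Finset.prod_le_prod
        · intro l _
          exact (a.X_pos T l).le
        · intro l _
          exact a.f_ge (sd T) l
      have e2 := gg_anti (lt_of_lt_of_le one_pos a.hZ1) e1
      rw [a.hZ] at e2
      have e3 := a.hc
      unfold Par.G Gh
      apply max_eq_right
      linarith
    obtain ⟨i₀, -, hi₀⟩ := Finset.exists_max_image Finset.univ (sd T) ⟨i, Finset.mem_univ i⟩
    have hmax : ∀ l, sd T l ≤ sd T i₀ := fun l => hi₀ l (Finset.mem_univ l)
    have h1 := hg.raise hmax i hG0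
    have h2 := hg.Psi_diag (d := d) (sd T i₀)
    have hzero : ∀ m, sd T i₀ ≤ m → a.G (a.f m ^ (d - 1)) = 0 := by
      intro m hm
      apply le_antisymm _ (hg.nonneg _)
      rw [← hG0]
      apply hg.anti (hp _ _) (pow_pos (hg.pos _) _)
      calc ∏ l ∈ Finset.univ.erase i, a.f (sd T l)
          ≤ ∏ _l ∈ Finset.univ.erase i, a.f m := by
            apply Finset.prod_le_prod (fun _ _ => (hg.pos _).le)
            intro l _
            exact hg.mono ((hmax l).trans hm)
        _ = a.f m ^ (d - 1) := by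
            rw [Finset.prod_const, Finset.card_erase_of_mem (Finset.mem_univ i), Finset.card_univ,
              Fintype.card_fin]
    have h3 : ∑ m ∈ Finset.Icc 1 (MM a), (gg (a.q * a.f m ^ (d - 1)) - a.c) ≤
        ∑ m ∈ Finset.Icc 1 (sd T i₀), a.G (a.f m ^ (d - 1)) := by
      calc ∑ m ∈ Finset.Icc 1 (MM a), (gg (a.q * a.f m ^ (d - 1)) - a.c)
          ≤ ∑ m ∈ Finset.Icc 1 (MM a), a.G (a.f m ^ (d - 1)) :=
            Finset.sum_le_sum fun m _ => le_max_left _ _
        _ ≤ ∑ m ∈ Finset.Icc 1 (max (MM a) (sd T i₀)), a.G (a.f m ^ (d - 1)) := by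
            apply Finset.sum_le_sum_of_subset_of_nonneg
            · exact Finset.Icc_subset_Icc le_rfl (le_max_left _ _)
            · intro m _ _
              exact hg.nonneg _
        _ = ∑ m ∈ Finset.Icc 1 (sd T i₀), a.G (a.f m ^ (d - 1)) := by
            symm
            apply Finset.sum_subset
            · exact Finset.Icc_subset_Icc le_rfl (le_max_right _ _)
            · intro m hm hm'
              apply hzero
              rw [Finset.mem_Icc] at hm hm'
              omega
    have h4 := diag_sum a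
    have hd0 : (0 : ℝ) < d := by
      have : (0 : ℕ) < d := by omega
      exact_mod_cast this
    have h5 : (d : ℝ) * (a.A * lam d - Er a / d) ≤
        d * ∑ m ∈ Finset.Icc 1 (sd T i₀), a.G (a.f m ^ (d - 1)) :=
      mul_le_mul_of_nonneg_left (h4.trans h3) hd0.le
    have h6 : (d : ℝ) * (a.A * lam d - Er a / d) = d * a.A * lam d - Er a := by
      field_simp
    unfold Par.Ps
    linarith

end BTP
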