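import Pool.Agent.BTP.A2
import Pool.Agent.BTP.M3

set_option autoImplicit false

open Filter

namespace BTP

theorem f1_log_pow (k : ℕ) {e : ℝ} (he : 0 < e) :
    ∀ᶠ L : ℝ in atTop, Real.log L ^ k ≤ e * Real.sqrt L := by
  have h1 : (fun x : ℝ => Real.log x ^ k) =o[atTop] (id : ℝ → ℝ) :=
    Real.isLittleO_pow_log_id_atTop
  have h2 := (h1.def (show 0 < e / 2 ^ k by positivity))
  have h3 := Real.tendsto_sqrt_atTop.eventually h2
  filter_upwards [h3, eventually_ge_atTop (1 : ℝ)] with L hL hL1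
  have hlog : 0 ≤ Real.log L := Real.log_nonneg hL1
  rw [Real.log_sqrt (by linarith), Real.norm_eq_abs, abs_of_nonneg (by positivity), id,
    Real.norm_eq_abs, abs_of_nonneg (Real.sqrt_nonneg _), div_pow, div_mul_eq_mul_div,
    div_le_div_iff_of_pos_right (by positivity)] at hL
  exact hL

theorem f1_A {d : ℕ} (hd : 2 ≤ d) {s : ℝ} (hs : 0 < s) (hs2 : s ≤ 1 / 2) :
    s ^ (d - 1) ≤ 1 / 2 ∧ ∃ A q : ℝ, 0 < A ∧ 0 < q ∧ q * A ^ (d - 1) = 1 ∧
      s ^ (d - 1) = 1 - Real.exp (-q) ∧ A ≤ 1 / s ∧ 1 / s - 2 ≤ A := by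
  have hd1 : d - 1 ≠ 0 := by omega
  set p := s ^ (d - 1) with hp
  have hp0 : 0 < p := pow_pos hs _
  have hps : p ≤ s := by
    have := pow_le_of_le_one hs.le (by linarith) hd1
    exact this
  have hp2 : p ≤ 1 / 2 := hps.trans hs2
  refine ⟨hp2, ((-Real.log (1 - p))⁻¹) ^ (((d - 1 : ℕ) : ℝ)⁻¹), -Real.log (1 - p), ?_⟩
  have hq0 : 0 < -Real.log (1 - p) := by
    have := Real.log_neg (show 0 < 1 - p by linarith) (by linarith)
    linarith
  have hA0 : 0 < ((-Real.log (1 - p))⁻¹) ^ (((d - 1 : ℕ) : ℝ)⁻¹) :=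
    Real.rpow_pos_of_pos (inv_pos.mpr hq0) _
  have hApow : (((-Real.log (1 - p))⁻¹) ^ (((d - 1 : ℕ) : ℝ)⁻¹)) ^ (d - 1) =
      (-Real.log (1 - p))⁻¹ := Real.rpow_inv_natCast_pow (inv_pos.mpr hq0).le hd1
  refine ⟨hA0, hq0, ?_, ?_, ?_, ?_⟩
  · rw [hApow, mul_inv_cancel₀ hq0.ne']
  · rw [neg_neg, Real.exp_log (by linarith)]
    ring
  · rw [← pow_le_pow_iff_left₀ hA0.le (by positivity) hd1, hApow, one_div, inv_pow, ← hp]
    apply inv_anti₀ hp0
    have := Real.log_le_sub_one_of_pos (show 0 < 1 - p by linarith)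
    linarith
  · have h0 : 0 ≤ 1 / s - 2 := by
      rw [sub_nonneg, le_div_iff₀ hs]
      linarith
    rw [← pow_le_pow_iff_left₀ h0 hA0.le hd1, hApow]
    have h1 : 1 / s - 2 = (1 - 2 * s) / s := by
      field_simp
    rw [h1, div_pow, ← hp]
    have h2 : (1 - 2 * s) ^ (d - 1) ≤ 1 - 2 * s :=
      pow_le_of_le_one (by linarith) (by linarith) hd1
    have h3 : -Real.log (1 - p) ≤ (1 - p)⁻¹ - 1 := by
      rw [← Real.log_inv]
      exact Real.log_le_sub_one_of_pos (inv_pos.mpr (by linarith))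
    have h4 : (1 - p)⁻¹ - 1 = p / (1 - p) := by
      have : (1 - p) ≠ 0 := by linarith
      field_simp
      ring
    have h5 : (1 - p) / p ≤ (-Real.log (1 - p))⁻¹ := by
      rw [h4] at h3
      rw [← inv_div]
      exact inv_anti₀ hq0 h3
    refine le_trans ?_ h5
    apply div_le_div_of_nonneg_right _ hp0.le
    linarith

theorem f1_exp_neg_one : Real.exp (-1) < 1 / 2 := by
  have h := Real.exp_one_gt_d9
  rw [Real.exp_neg, ← one_div]
  apply one_div_lt_one_div_of_lt (by norm_num)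
  linarith

/-- the final estimate of the exponent -/
theorem f1_final {d : ℕ} (hd : 2 ≤ d) {lm L R l y A C : ℝ} (hlm : 0 < lm) (hR1 : 1 ≤ R)
    (hl1 : 1 ≤ l) (hC : 0 ≤ C)
    (hA : L + R * l ^ (2 * d + 6) / lm - 2 * lm ≤ lm * A)
    (hy : y ≤ C * R * l ^ (2 * d + 5))
    (hl : (C + 18 * d + 2 * d * lm + 1) * lm ≤ l) :
    d * (L + 6 + 12 * l) + (-(d * A * lm) + y) ≤ -1 := by
  have hd0 : (2 : ℝ) ≤ d := by exact_mod_cast hd
  have h1 : (C + 18 * d + 2 * d * lm + 1) ≤ l / lm := by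
    rw [le_div_iff₀ hlm]
    exact hl
  have hRl : 1 ≤ R * l ^ (2 * d + 5) := by
    have := one_le_pow₀ hl1 (n := 2 * d + 5)
    nlinarith
  have hRll : l ≤ R * l ^ (2 * d + 5) := by
    have h2 : l ^ 1 ≤ l ^ (2 * d + 5) := pow_le_pow_right₀ hl1 (by omega)
    rw [pow_one] at h2
    have h3 : 0 ≤ l ^ (2 * d + 5) := by positivity
    nlinarith
  have h4 : R * l ^ (2 * d + 6) / lm = (R * l ^ (2 * d + 5)) * (l / lm) := by
    rw [show 2 * d + 6 = (2 * d + 5) + 1 by omega, pow_succ]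
    ring
  rw [h4] at hA
  set M := R * l ^ (2 * d + 5) with hM
  have hy' : y ≤ C * M := by
    rw [hM]
    linarith [hy, mul_assoc C R (l ^ (2 * d + 5))]
  have h5 : M * (C + 18 * d + 2 * d * lm + 1) ≤ M * (l / lm) :=
    mul_le_mul_of_nonneg_left h1 (by linarith)
  have h6 : (d : ℝ) * (L + M * (l / lm) - 2 * lm) ≤ d * (lm * A) :=
    mul_le_mul_of_nonneg_left hA (by linarith)
  have h7 : (d : ℝ) * (M * (C + 18 * d + 2 * d * lm + 1)) ≤ d * (M * (l / lm)) :=
    mul_le_mul_of_nonneg_left h5 (by linarith)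
  have h8 : M * (C + 18 * d + 2 * d * lm + 1) ≤ d * (M * (C + 18 * d + 2 * d * lm + 1)) := by
    have : 0 ≤ M * (C + 18 * d + 2 * d * lm + 1) := by positivity
    nlinarith
  have h9 : 18 * d * l ≤ 18 * d * M := mul_le_mul_of_nonneg_left hRll (by positivity)
  have h10 : 2 * d * lm ≤ 2 * d * lm * M := by
    have : 0 ≤ 2 * d * lm := by positivity
    nlinarith
  have h11 : 6 * (d : ℝ) ≤ 6 * d * l := by nlinarith
  nlinarith

/-- [BTP-F1] the critical value as a function of `n`.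
PROOF. Let `L = log n`, `δ = (log L)^(2d+6)/L^(3/2)`, `s = λ/L - δ`, `p = s^{d-1}`; for large `n`: `0 < s ≤ 1/2`, `p ≤ s`, `δ L ≤ λ/2`. `q = -log(1-p)`, `p ≤ q ≤ p(1+p)`; `A = q^{-1/(d-1)}` (real power), `q A^{d-1} = 1`; `A ≤ p^{-1/(d-1)} = 1/s ≤ 2L/λ` and `A ≥ (1/s)(1+p)^{-1/(d-1)} ≥ (1/s)(1 - s)`.
`λ/s = L/(1 - δL/λ) ≥ L(1 + δL/λ)`, so `λ A ≥ (λ/s)(1 - s) = λ/s - λ ≥ L + δL²/λ - λ`, `δ L² = (log L)^(2d+6) √L`. `exists_par` for `log A` (`A → ∞`: `A ≥ L/(2λ)`) gives `a` with `a.A = A`; `a.q = q`, `a.p = p` follow from `hqA`, `hp`. `n > B` as `B ≤ A² ≤ (2L/λ)²`. `world_bound`: the probability is at most `exp` of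
`d(L + 3 log(3 A²)) - dλA + √A (log A)^(2d+5) ≤ -(d/λ) (log L)^(2d+6) √L + dλ + 3d log(3A²) + √(2L/λ) (log(2L/λ))^(2d+5)`, which tends to `-∞`: `log(2L/λ) ≤ 2 log L`, so the last term is `≤ C √L (log L)^(2d+5)`. -/
theorem world_small {d : ℕ} (hd : 2 ≤ d) : ∀ᶠ n : ℕ in atTop,
    0 < lam d / Real.log n - Real.log (Real.log n) ^ (2 * d + 6) / Real.log n ^ ((3 : ℝ) / 2) ∧
    (lam d / Real.log n - Real.log (Real.log n) ^ (2 * d + 6) / Real.log n ^ ((3 : ℝ) / 2)) ^ (d - 1) ≤ 1 / 2 ∧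
    Pr (sites (Wn d n)) ((lam d / Real.log n -
      Real.log (Real.log n) ^ (2 * d + 6) / Real.log n ^ ((3 : ℝ) / 2)) ^ (d - 1)) (IG (Wn d n)) < 1 / 2 := by
  have hlm : 0 < lam d := lam_pos hd
  obtain ⟨L1, hL1⟩ := eventually_atTop.mp (exists_par hd)
  have hev : ∀ᶠ L : ℝ in atTop, ∀ n : ℕ, Real.log n = L →
      0 < lam d / Real.log n - Real.log (Real.log n) ^ (2 * d + 6) / Real.log n ^ ((3 : ℝ) / 2) ∧
      (lam d / Real.log n - Real.log (Real.log n) ^ (2 * d + 6) /
        Real.log n ^ ((3 : ℝ) / 2)) ^ (d - 1) ≤ 1 / 2 ∧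
      Pr (sites (Wn d n)) ((lam d / Real.log n -
        Real.log (Real.log n) ^ (2 * d + 6) / Real.log n ^ ((3 : ℝ) / 2)) ^ (d - 1))
        (IG (Wn d n)) < 1 / 2 := by
    filter_upwards [f1_log_pow (2 * d + 6) (half_pos hlm), eventually_ge_atTop (1 : ℝ),
      eventually_ge_atTop (2 * lam d), eventually_ge_atTop (2 / lam d),
      ev_exp (4 / lam d ^ 2) 2, eventually_ge_atTop (lam d * (Real.exp (max L1 0) + 2)),
      ev_log ((Real.sqrt (2 / lam d) * 2 ^ (2 * d + 5) + 18 * d + 2 * d * lam d + 1) * lam d),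
      ev_log 1] with L c2 c1 c3 c4 c5 c6 c7 c8
    intro n hn
    rw [hn]
    set lm := lam d with hlmdef
    have hL0 : 0 < L := by linarith
    set R := Real.sqrt L with hR
    have hRR : R * R = L := Real.mul_self_sqrt hL0.le
    have hR0 : 0 < R := Real.sqrt_pos.mpr hL0
    have hR1 : 1 ≤ R := by
      rw [hR, Real.one_le_sqrt]
      exact c1
    set l := Real.log L with hl
    have hl0 : 0 < l := by linarith
    set y := l ^ (2 * d + 6) / R with hy
    have hy0 : 0 ≤ y := by positivity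
    have hy1 : y ≤ lm / 2 := by
      rw [hy, div_le_iff₀ hR0]
      exact c2
    have hLy : L * y = R * l ^ (2 * d + 6) := by
      rw [hy, ← hRR]
      field_simp
    have h32 : L ^ ((3 : ℝ) / 2) = L * R := by
      rw [show (3 : ℝ) / 2 = 1 + 1 / 2 by norm_num, Real.rpow_add hL0, Real.rpow_one,
        ← Real.sqrt_eq_rpow]
    have hs : lm / L - l ^ (2 * d + 6) / L ^ ((3 : ℝ) / 2) = (lm - y) / L := by
      rw [h32, hy]
      field_simp
    rw [hs]
    have hlmy : 0 < lm - y := by linarith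
    have hs0 : 0 < (lm - y) / L := div_pos hlmy hL0
    have hs2 : (lm - y) / L ≤ 1 / 2 := by
      rw [div_le_iff₀ hL0]
      linarith
    obtain ⟨hp2, A, q, hA0, hq0, hqA, hpq, hA1, hA2⟩ := f1_A hd hs0 hs2
    refine ⟨hs0, hp2, ?_⟩
    rw [one_div_div] at hA1 hA2
    have hA3 : A ≤ 2 * L / lm := by
      refine hA1.trans ?_
      rw [div_le_div_iff₀ hlmy hlm]
      nlinarith
    have hA4 : L / lm - 2 ≤ A := by
      refine le_trans ?_ hA2
      have : L / lm ≤ L / (lm - y) := div_le_div_of_nonneg_left hL0.le hlmy (by linarith)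
      linarith
    have hA5 : Real.exp (max L1 0) ≤ A := by
      refine le_trans ?_ hA4
      have : Real.exp (max L1 0) + 2 ≤ L / lm := by
        rw [le_div_iff₀ hlm]
        linarith
      linarith
    have hlogA : max L1 0 ≤ Real.log A := (Real.le_log_iff_exp_le hA0).mpr hA5
    have hlogA0 : 0 ≤ Real.log A := le_trans (le_max_right _ _) hlogA
    obtain ⟨a, haA, haB, haE⟩ := hL1 (Real.log A) (le_trans (le_max_left _ _) hlogA)
    rw [Real.exp_log hA0] at haA
    have haq : a.q = q := by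
      have h1 := a.hqA
      rw [haA] at h1
      have h2 : A ^ (d - 1) ≠ 0 := (pow_pos hA0 _).ne'
      exact mul_right_cancel₀ h2 (h1.trans hqA.symm)
    have hap : a.p = ((lm - y) / L) ^ (d - 1) := by
      rw [a.hp, haq, hpq]
    have hlogA2 : Real.log A ≤ 2 * l := by
      have h1 : A ≤ L * L := by
        refine hA3.trans ?_
        have : 2 * L / lm = L * (2 / lm) := by ring
        rw [this]
        exact mul_le_mul_of_nonneg_left c4 hL0.le
      have h2 := Real.log_le_log hA0 h1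
      rw [Real.log_mul hL0.ne' hL0.ne'] at h2
      linarith
    have hn0 : (n : ℝ) ≠ 0 := by
      intro h0
      rw [h0, Real.log_zero] at hn
      linarith
    have hnpos : (0 : ℝ) < n := lt_of_le_of_ne (Nat.cast_nonneg n) (Ne.symm hn0)
    have hnexp : (n : ℝ) = Real.exp L := by rw [← hn, Real.exp_log hnpos]
    have hn1 : 1 ≤ n := by
      rcases Nat.eq_zero_or_pos n with h | h
      · exact absurd (by rw [h, Nat.cast_zero]) hn0
      · exact h
    have hB0 : 0 < a.B := by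
      have h1 := a.hB
      have h2 := a.hZ1
      have h3 := a.hA
      refine lt_of_lt_of_le ?_ h1
      positivity
    have hBn : a.B < n := by
      have h1 : Real.exp (2 * Real.log A) = A * A := by
        rw [two_mul, Real.exp_add, Real.exp_log hA0]
      have h2 : A * A ≤ (2 * L / lm) * (2 * L / lm) :=
        mul_le_mul hA3 hA3 hA0.le (by positivity)
      have h3 : (2 * L / lm) * (2 * L / lm) = 4 / lm ^ 2 * L ^ 2 := by
        field_simp
        ring
      have h4 : Real.exp (L / 4) < Real.exp L := Real.exp_lt_exp.mpr (by linarith)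
      rw [hnexp]
      calc a.B ≤ Real.exp (2 * Real.log A) := haB
        _ ≤ 4 / lm ^ 2 * L ^ 2 := by rw [h1, ← h3]; exact h2
        _ ≤ Real.exp (L / 4) := c5
        _ < Real.exp L := h4
    have hwb := world_bound a hn1 hBn
    rw [hap] at hwb
    refine lt_of_le_of_lt hwb ?_
    have h3B : 3 * a.B ≤ Real.exp (2 + 4 * l) := by
      have h1 : (3 : ℝ) ≤ Real.exp 2 := by
        have h2 := Real.exp_one_gt_d9
        have h3 : Real.exp 2 = Real.exp 1 * Real.exp 1 := by
          rw [← Real.exp_add]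
          norm_num
        rw [h3]
        nlinarith
      have h4 : a.B ≤ Real.exp (4 * l) := haB.trans (Real.exp_le_exp.mpr (by linarith))
      rw [Real.exp_add]
      exact mul_le_mul h1 h4 hB0.le (Real.exp_pos _).le
    have hfirst : ((n : ℝ) * (3 * a.B) ^ 3) ^ d ≤ Real.exp (d * (L + 6 + 12 * l)) := by
      have h1 : (3 * a.B) ^ 3 ≤ Real.exp (6 + 12 * l) := by
        have h2 := pow_le_pow_left₀ (by positivity) h3B 3
        rw [← Real.exp_nat_mul] at h2
        refine h2.trans (le_of_eq ?_)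
        congr 1
        push_cast
        ring
      have h3 : (n : ℝ) * (3 * a.B) ^ 3 ≤ Real.exp (L + 6 + 12 * l) := by
        rw [hnexp, add_assoc, Real.exp_add]
        exact mul_le_mul_of_nonneg_left h1 (Real.exp_pos _).le
      have h4 := pow_le_pow_left₀ (by positivity) h3 d
      rw [← Real.exp_nat_mul] at h4
      exact h4
    have hsecond : Er a + 2 * ((a.h : ℝ) + d + 1) * a.gam ≤
        Real.sqrt (2 / lm) * 2 ^ (2 * d + 5) * R * l ^ (2 * d + 5) := by
      refine haE.trans ?_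
      have h1 : Real.exp (Real.log A / 2) ≤ Real.sqrt (2 / lm) * R := by
        rw [Real.exp_half, Real.exp_log hA0, hR, ← Real.sqrt_mul (by positivity)]
        apply Real.sqrt_le_sqrt
        refine hA3.trans (le_of_eq ?_)
        ring
      have h2 : Real.log A ^ (2 * d + 5) ≤ 2 ^ (2 * d + 5) * l ^ (2 * d + 5) := by
        rw [← mul_pow]
        exact pow_le_pow_left₀ hlogA0 hlogA2 _
      calc Real.exp (Real.log A / 2) * Real.log A ^ (2 * d + 5)
          ≤ (Real.sqrt (2 / lm) * R) * (2 ^ (2 * d + 5) * l ^ (2 * d + 5)) :=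
            mul_le_mul h1 h2 (by positivity) (by positivity)
        _ = _ := by ring
    have hAfin : L + R * l ^ (2 * d + 6) / lm - 2 * lm ≤ lm * A := by
      rw [← hLy]
      have h1 : L + L * y / lm ≤ lm * (L / (lm - y)) := by
        rw [show lm * (L / (lm - y)) = lm * L / (lm - y) by ring, le_div_iff₀ hlmy]
        have h2 : (L + L * y / lm) * (lm - y) = lm * L - L * y ^ 2 / lm := by
          field_simp
          ring
        rw [h2]
        have : 0 ≤ L * y ^ 2 / lm := by positivity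
        linarith
      have h3 : lm * (L / (lm - y) - 2) ≤ lm * A := mul_le_mul_of_nonneg_left hA2 hlm.le
      linarith
    have hfin := f1_final hd hlm hR1 c8 (by positivity) hAfin hsecond c7
    calc ((n : ℝ) * (3 * a.B) ^ 3) ^ d *
          Real.exp (-(d * a.A * lm) + Er a + 2 * ((a.h : ℝ) + d + 1) * a.gam)
        ≤ Real.exp (d * (L + 6 + 12 * l)) *
          Real.exp (-(d * a.A * lm) + Er a + 2 * ((a.h : ℝ) + d + 1) * a.gam) :=
          mul_le_mul_of_nonneg_right hfirst (Real.exp_pos _).le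
      _ ≤ Real.exp (-1) := by
          rw [← Real.exp_add, haA]
          apply Real.exp_le_exp.mpr
          linarith
      _ < 1 / 2 := f1_exp_neg_one
  have h1 := (Real.tendsto_log_atTop.comp tendsto_natCast_atTop_atTop).eventually hev
  exact h1.mono fun n hn => hn n rfl

end BTP
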