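import Pool.Agent.BTP.T1

set_option autoImplicit false

open scoped Classical
open Finset

namespace BTP

/-- [BTP-T2] the infimum. PROOF. For `p'` in the set: if `p' < p`, then `1/2 ≤ percP p' ≤ Pr p' (IG) ≤ Pr p (IG) < 1/2` (`percP_le`, `Pr_mono_p`, `Inc_IG`). The set is not empty: `p' = 1` (`percP d n 1 = 1`: only `A = univ` contributes, `PercF univ`). `le_csInf`. -/
theorem le_pc {d n : ℕ} (hn : 1 ≤ n) {p : ℝ} (hp0 : 0 ≤ p) (hp1 : p ≤ 1)
    (h : Pr (sites (Wn d n)) p (IG (Wn d n)) < 1 / 2) :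
    p ≤ sInf {p' : ℝ | 0 ≤ p' ∧ p' ≤ 1 ∧ (1 : ℝ) / 2 ≤ percP d n p'} := by
  have h1 : percP d n 1 = 1 := by
    unfold percP
    rw [Finset.sum_eq_single (Finset.univ : Finset (Fin d → Fin n))]
    · have hp : PercF d n (Finset.univ : Finset (Fin d → Fin n)) := fun S hS _ =>
        Finset.univ_subset_iff.mp hS
      rw [if_pos hp, Finset.card_univ, Nat.sub_self, pow_zero, one_pow, one_mul]
    · intro A _ hA
      have hlt : A.card < Fintype.card (Fin d → Fin n) := by
        rw [← Finset.card_univ]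
        exact Finset.card_lt_card (Finset.ssubset_univ_iff.mpr hA)
      have h0 : Fintype.card (Fin d → Fin n) - A.card ≠ 0 := by omega
      rw [sub_self, zero_pow h0, mul_zero]
      split_ifs <;> rfl
    · intro h'
      exact absurd (Finset.mem_univ _) h'
  refine le_csInf ⟨1, zero_le_one, le_rfl, ?_⟩ ?_
  · rw [h1]
    norm_num
  · rintro p' ⟨h0', h1', hh⟩
    by_contra hlt
    rw [not_le] at hlt
    have h2 := percP_le (d := d) hn h0' h1'
    have h3 := Pr_mono_p h0' hlt.le hp1 (sites (Wn d n)) (IG (Wn d n)) (Inc_IG (Wn d n))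
    linarith

end BTP
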