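import Pool.Agent.BTP.D0

set_option autoImplicit false

namespace BTP

theorem g1_arg {u : ℝ} (h0 : 0 ≤ u) (h1 : u ≤ 1) : 0 ≤ u * (4 - 3 * u) :=
  mul_nonneg h0 (by linarith)

/-- `2 β = u + √(u(4-3u))` -/
theorem g1_two (u : ℝ) : 2 * bet u = u + Real.sqrt (u * (4 - 3 * u)) := by
  unfold bet
  ring

/-- [BTP-G1] (`β ≥ 0`) -/
theorem bet_nonneg {u : ℝ} (h0 : 0 ≤ u) : 0 ≤ bet u := by
  have h := g1_two u
  have := Real.sqrt_nonneg (u * (4 - 3 * u))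
  linarith

theorem bet_pos {u : ℝ} (h0 : 0 < u) : 0 < bet u := by
  have h := g1_two u
  have := Real.sqrt_nonneg (u * (4 - 3 * u))
  linarith

/-- [BTP-G1] PROOF. `√(u(4-3u)) ≤ 2 - u` as `(2-u)² - u(4-3u) = 4(1-u)²`. -/
theorem bet_le_one {u : ℝ} (h0 : 0 ≤ u) (h1 : u ≤ 1) : bet u ≤ 1 := by
  have h := g1_two u
  have h2 : Real.sqrt (u * (4 - 3 * u)) ≤ 2 - u := by
    rw [Real.sqrt_le_left (by linarith)]
    nlinarith [sq_nonneg (1 - u)]
  linarith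

theorem bet_one : bet 1 = 1 := by
  have h := g1_two 1
  have h2 : Real.sqrt (1 * (4 - 3 * 1)) = 1 := by norm_num
  rw [h2] at h
  linarith

/-- [BTP-G1] -/
theorem bet_sq {u : ℝ} (h0 : 0 ≤ u) (h1 : u ≤ 1) : bet u ^ 2 = u * bet u + u * (1 - u) := by
  have h := g1_two u
  have h2 := Real.sq_sqrt (g1_arg h0 h1)
  have h3 : Real.sqrt (u * (4 - 3 * u)) = 2 * bet u - u := by linarith
  rw [h3] at h2
  nlinarith

/-- [BTP-G1] PROOF. `u² ≤ u(4-3u)`. -/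
theorem le_bet {u : ℝ} (h0 : 0 ≤ u) (h1 : u ≤ 1) : u ≤ bet u := by
  have h := g1_two u
  have h2 : u ≤ Real.sqrt (u * (4 - 3 * u)) := by
    apply Real.le_sqrt_of_sq_le
    nlinarith
  linarith

/-- [BTP-G1] PROOF. `bet_sq`, `le_bet`: `β² ≥ u² + u(1-u) = u`. -/
theorem sqrt_le_bet {u : ℝ} (h0 : 0 ≤ u) (h1 : u ≤ 1) : Real.sqrt u ≤ bet u := by
  have h := bet_sq h0 h1
  have h2 := le_bet h0 h1
  rw [Real.sqrt_le_left (bet_nonneg h0)]
  rw [h]
  nlinarith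

/-- [BTP-G1] PROOF. `b = β(u)`: by `bet_sq`, `b² - v b - v(1-v) = (v-u)(u + v - 1 - b) ≤ 0` (as `b ≥ u`, `v ≤ 1`), so `(2b - v)² ≤ v² + 4v(1-v) = v(4-3v)` and `2 b - v ≤ √(v(4-3v))` (`Real.le_sqrt`, abs). -/
theorem bet_mono {u v : ℝ} (h0 : 0 ≤ u) (huv : u ≤ v) (h1 : v ≤ 1) : bet u ≤ bet v := by
  have hu1 : u ≤ 1 := huv.trans h1
  have hv0 : 0 ≤ v := h0.trans huv
  have hb := bet_sq h0 hu1
  have hl := le_bet h0 hu1
  have hv := g1_two v
  have h3 : (2 * bet u - v) ^ 2 ≤ v * (4 - 3 * v) := by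
    have h4 : bet u ^ 2 - v * bet u - v * (1 - v) = (v - u) * (u + v - 1 - bet u) := by
      rw [hb]; ring
    have h5 : (v - u) * (u + v - 1 - bet u) ≤ 0 :=
      mul_nonpos_of_nonneg_of_nonpos (by linarith) (by linarith)
    nlinarith
  have h6 : 2 * bet u - v ≤ Real.sqrt (v * (4 - 3 * v)) := Real.le_sqrt_of_sq_le h3
  linarith

/-- [BTP-G1] PROOF. `u √(v(4-3v)) ≤ v √(u(4-3u))`: squares, `v²·u(4-3u) - u²·v(4-3v) = 4uv(v-u)`. -/
theorem bet_div {u v : ℝ} (h0 : 0 ≤ u) (huv : u ≤ v) (h1 : v ≤ 1) : bet v * u ≤ bet u * v := by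
  have hu1 : u ≤ 1 := huv.trans h1
  have hv0 : 0 ≤ v := h0.trans huv
  have hu := g1_two u
  have hv := g1_two v
  have h3 : u * Real.sqrt (v * (4 - 3 * v)) ≤ v * Real.sqrt (u * (4 - 3 * u)) := by
    have e1 : u * Real.sqrt (v * (4 - 3 * v)) = Real.sqrt (u ^ 2 * (v * (4 - 3 * v))) := by
      rw [Real.sqrt_mul (sq_nonneg u), Real.sqrt_sq h0]
    have e2 : v * Real.sqrt (u * (4 - 3 * u)) = Real.sqrt (v ^ 2 * (u * (4 - 3 * u))) := by
      rw [Real.sqrt_mul (sq_nonneg v), Real.sqrt_sq hv0]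
    rw [e1, e2]
    apply Real.sqrt_le_sqrt
    have h4 : 0 ≤ 4 * (u * v) * (v - u) :=
      mul_nonneg (mul_nonneg (by norm_num) (mul_nonneg h0 hv0)) (by linarith)
    nlinarith
  nlinarith

/-- [BTP-G1] PROOF. For `u > 0`: `β(u)/√u = (√u + √(4-3u))/2` (`Real.sqrt_mul`), and `√v - √u = (v-u)/(√v+√u) ≥ 3(v-u)/(√(4-3u)+√(4-3v)) = √(4-3u) - √(4-3v)` since
`√(4-3u), √(4-3v) ≥ √3 ≥ 3√v ≥ 3√u` (`v ≤ 1/3`). -/
theorem bet_growth {u v : ℝ} (h0 : 0 ≤ u) (huv : u ≤ v) (h1 : v ≤ 1 / 3) :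
    bet u * Real.sqrt v ≤ bet v * Real.sqrt u := by
  have hu1 : u ≤ 1 := by linarith
  have hv0 : 0 ≤ v := h0.trans huv
  have hu := g1_two u
  have hv := g1_two v
  have e1 : Real.sqrt (u * (4 - 3 * u)) = Real.sqrt u * Real.sqrt (4 - 3 * u) := Real.sqrt_mul h0 _
  have e2 : Real.sqrt (v * (4 - 3 * v)) = Real.sqrt v * Real.sqrt (4 - 3 * v) := Real.sqrt_mul hv0 _
  have su := Real.sq_sqrt h0
  have sv := Real.sq_sqrt hv0
  have sa := Real.sq_sqrt (show (0 : ℝ) ≤ 4 - 3 * u by linarith)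
  have sb := Real.sq_sqrt (show (0 : ℝ) ≤ 4 - 3 * v by linarith)
  have nu := Real.sqrt_nonneg u
  have nv := Real.sqrt_nonneg v
  have huv' : Real.sqrt u ≤ Real.sqrt v := Real.sqrt_le_sqrt huv
  -- `√(4-3v) ≥ 3 √v`
  have hb : 3 * Real.sqrt v ≤ Real.sqrt (4 - 3 * v) := by
    apply Real.le_sqrt_of_sq_le
    nlinarith
  have hab : Real.sqrt (4 - 3 * v) ≤ Real.sqrt (4 - 3 * u) := Real.sqrt_le_sqrt (by linarith)
  rw [e1] at hu
  rw [e2] at hv
  set a := Real.sqrt u with ha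
  set b := Real.sqrt v with hbd
  set s := Real.sqrt (4 - 3 * u) with hs
  set t := Real.sqrt (4 - 3 * v) with ht
  -- `s - t ≤ b - a`
  have key : a + s ≤ b + t := by
    by_contra hcon
    push Not at hcon
    -- `(s-t)(s+t) = 3 (b-a)(b+a)`
    have h5 : (s - t) * (s + t) = 3 * ((b - a) * (b + a)) := by nlinarith
    have h6 : 3 * (b + a) ≤ s + t := by linarith
    have h7 : b - a < s - t := by linarith
    have h8 : 0 ≤ b - a := by linarith
    rcases eq_or_lt_of_le (show 0 ≤ b + a by linarith) with h9 | h9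
    · have h10 : a = 0 := by linarith
      have h11 : b = 0 := by linarith
      rw [h10] at su
      rw [h11] at sv
      have h12 : u = v := by nlinarith
      have h13 : s = t := by rw [hs, ht, h12]
      linarith
    · nlinarith
  have hbe : bet v * a - bet u * b = a * b * ((b + t) - (a + s)) / 2 := by
    have hv' : bet v = (v + b * t) / 2 := by linarith
    have hu' : bet u = (u + a * s) / 2 := by linarith
    rw [hv', hu', ← su, ← sv]
    ring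
  have : 0 ≤ a * b * ((b + t) - (a + s)) / 2 := by
    have := mul_nonneg (mul_nonneg nu nv) (sub_nonneg.2 key)
    linarith
  linarith

end BTP
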