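import Pool.Agent.BTP.G2

set_option autoImplicit false

open Finset MeasureTheory

namespace BTP

theorem g4_meas : Measurable gg := by
  unfold gg bet
  fun_prop

theorem g4_measf (d : ℕ) : Measurable (fun s : ℝ => gg (s ^ (d - 1))) :=
  g4_meas.comp (measurable_id.pow_const _)

theorem g4_nonneg (d : ℕ) {s : ℝ} (hs : 0 < s) : 0 ≤ gg (s ^ (d - 1)) :=
  gg_nonneg (pow_pos hs _)

theorem g4_anti (d : ℕ) : AntitoneOn (fun s : ℝ => gg (s ^ (d - 1))) (Set.Ioi 0) := by
  intro a ha b hb hab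
  exact gg_anti (pow_pos ha _) (pow_le_pow_left₀ (le_of_lt ha) hab _)

theorem g4_up {d : ℕ} {s : ℝ} (hs : 0 < s) (hs1 : s ≤ 1) :
    gg (s ^ (d - 1)) ≤ (Real.log 2 - ((d - 1 : ℕ) : ℝ) * Real.log s) / 2 := by
  have hz : 0 < s ^ (d - 1) := pow_pos hs _
  have hz1 : s ^ (d - 1) ≤ 1 := pow_le_one₀ hs.le hs1
  refine (gg_up hz).trans ?_
  have h1 : Real.log ((1 + s ^ (d - 1)) / s ^ (d - 1)) ≤ Real.log (2 / s ^ (d - 1)) := by
    apply Real.log_le_log (by positivity)
    apply div_le_div_of_nonneg_right _ hz.le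
    linarith
  have h2 : Real.log (2 / s ^ (d - 1)) = Real.log 2 - ((d - 1 : ℕ) : ℝ) * Real.log s := by
    rw [Real.log_div (by norm_num) hz.ne', Real.log_pow]
  rw [← h2]
  linarith

theorem g4_tail {d : ℕ} (hd : 2 ≤ d) {s : ℝ} (hs : 1 ≤ s) :
    gg (s ^ (d - 1)) ≤ 2 * Real.exp (-s) := by
  have hz : s ≤ s ^ (d - 1) := le_self_pow₀ hs (by omega)
  refine (gg_tail (hs.trans hz)).trans ?_
  have : Real.exp (-(s ^ (d - 1))) ≤ Real.exp (-s) := Real.exp_le_exp.mpr (by linarith)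
  linarith

/-- [BTP-G4] `f(s) = g(s^{d-1})` is antitone on `(0, ∞)`, nonnegative, `f(s) ≤ (1/2)(log 2 + (d-1) log(1/s))` for `s ≤ 1` (`gg_up`) and `f(s) ≤ 2 e^{-s}` for `s ≥ 1` (`gg_tail`, `s^{d-1} ≥ s`); hence integrable
(`intervalIntegrable_log'`, `integrableOn_exp_neg_Ioi`; measurability: `AntitoneOn` or continuity). -/
theorem gg_integrable {d : ℕ} (hd : 2 ≤ d) :
    IntegrableOn (fun s : ℝ => gg (s ^ (d - 1))) (Set.Ioi 0) := by
  have hU : Set.Ioi (0 : ℝ) = Set.Ioc 0 1 ∪ Set.Ioi 1 := by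
    rw [Set.Ioc_union_Ioi_eq_Ioi zero_le_one]
  rw [hU]
  refine IntegrableOn.union ?_ ?_
  · have hI : IntegrableOn (fun s : ℝ => (Real.log 2 - ((d - 1 : ℕ) : ℝ) * Real.log s) / 2)
        (Set.Ioc 0 1) := by
      have hlog : IntegrableOn Real.log (Set.Ioc 0 1) := by
        have := (intervalIntegral.intervalIntegrable_log' (a := 0) (b := 1))
        exact (intervalIntegrable_iff_integrableOn_Ioc_of_le zero_le_one).mp this
      have hc : IntegrableOn (fun _ : ℝ => Real.log 2) (Set.Ioc 0 1) := by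
        simp
      exact (hc.sub (hlog.const_mul _)).div_const 2
    refine Integrable.mono' hI (g4_measf d).aestronglyMeasurable ?_
    refine (ae_restrict_iff' measurableSet_Ioc).mpr (Filter.Eventually.of_forall ?_)
    intro s hs
    rw [Real.norm_eq_abs, abs_of_nonneg (g4_nonneg d hs.1)]
    exact g4_up hs.1 hs.2
  · have hI : IntegrableOn (fun s : ℝ => 2 * Real.exp (-s)) (Set.Ioi 1) :=
      (integrableOn_exp_neg_Ioi 1).const_mul 2
    refine Integrable.mono' hI (g4_measf d).aestronglyMeasurable ?_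
    refine (ae_restrict_iff' measurableSet_Ioi).mpr (Filter.Eventually.of_forall ?_)
    intro s hs
    have hs1 : (1 : ℝ) < s := hs
    rw [Real.norm_eq_abs, abs_of_nonneg (g4_nonneg d (by linarith))]
    exact g4_tail hd hs1.le

theorem lam_nonneg {d : ℕ} : 0 ≤ lam d := by
  unfold lam
  exact setIntegral_nonneg measurableSet_Ioi (fun s hs => g4_nonneg d hs)

/-- [BTP-G4] PROOF. `f ≥ f(1) > 0` on `(0, 1]`. -/
theorem lam_pos {d : ℕ} (hd : 2 ≤ d) : 0 < lam d := by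
  have h1 : 0 < gg 1 := gg_pos one_pos
  have hsub : Set.Ioc (0 : ℝ) 1 ⊆ Set.Ioi 0 := fun s hs => hs.1
  have h2 : ∫ z in Set.Ioc (0 : ℝ) 1, gg (z ^ (d - 1)) ≤ lam d := by
    unfold lam
    refine setIntegral_mono_set (gg_integrable hd) ?_ hsub.eventuallyLE
    refine (ae_restrict_iff' measurableSet_Ioi).mpr (Filter.Eventually.of_forall ?_)
    intro s hs
    exact g4_nonneg d hs
  have h3 : gg 1 ≤ ∫ z in Set.Ioc (0 : ℝ) 1, gg (z ^ (d - 1)) := by
    have h4 : ∫ _z in Set.Ioc (0 : ℝ) 1, gg 1 = gg 1 := by simp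
    rw [← h4]
    refine setIntegral_mono_on (by simp) ((gg_integrable hd).mono_set hsub)
      measurableSet_Ioc ?_
    intro s hs
    have := g4_anti d (Set.mem_Ioi.mpr hs.1) (Set.mem_Ioi.mpr one_pos) hs.2
    simpa using this
  linarith

end BTP
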