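import Pool.Agent.BTP.V0

set_option autoImplicit false

open scoped Classical
open Finset

namespace BTP

variable {d : ℕ} {G : ℝ → ℝ} {φ : ℕ → ℝ}

/-- the term of the potential -/
noncomputable def v2_F (G : ℝ → ℝ) (φ : ℕ → ℝ) (x : Fin d → ℕ) (k : Fin d) (m : ℕ) : ℝ :=
  G (∏ j ∈ Finset.univ.erase k, φ (min (x j) (m + if j < k then 1 else 0)))

theorem v2_Psi (x : Fin d → ℕ) :
    Psi G φ x = ∑ k : Fin d, ∑ m ∈ Finset.range (x k), v2_F G φ x k m := rfl

theorem v2_pos (hg : GP G φ) (s : Finset (Fin d)) (u : Fin d → ℕ) : 0 < ∏ j ∈ s, φ (u j) :=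
  Finset.prod_pos fun _ _ => hg.pos _

theorem v2_mono (hg : GP G φ) (s : Finset (Fin d)) (u v : Fin d → ℕ) (h : ∀ j ∈ s, u j ≤ v j) :
    G (∏ j ∈ s, φ (v j)) ≤ G (∏ j ∈ s, φ (u j)) :=
  hg.anti (v2_pos hg s u) (v2_pos hg s v)
    (Finset.prod_le_prod (fun _ _ => (hg.pos _).le) fun j hj => hg.mono (h j hj))

theorem v2_F_le (hg : GP G φ) (x : Fin d → ℕ) (k : Fin d) (m : ℕ) {γ : ℝ}
    (hγ : G (φ 0 ^ (d - 1)) ≤ γ) : v2_F G φ x k m ≤ γ := by
  refine le_trans ?_ hγ
  have h := v2_mono hg (Finset.univ.erase k) (fun _ => 0)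
    (fun j => min (x j) (m + if j < k then 1 else 0)) (fun j _ => Nat.zero_le _)
  rw [Finset.prod_const, Finset.card_erase_of_mem (Finset.mem_univ k), Finset.card_univ,
    Fintype.card_fin] at h
  exact h

/-- [BTP-V2] subadditivity.
PROOF. For each `k` split the sum over `m < t k` into `m < x k` (there `min (t j) (m + [j<k]) ≥ min (x j) (m + [j<k])`, so the term is at most the term of `Psi x`, `anti`, `mono`), `x k ≤ m = x k + m'`, `m' < min (y k) (t k - x k)` (`min (t j) (x k + m' + [j<k]) ≥ min (y j) (m' + [j<k])`: at most the term of `Psi y`; the omitted terms are `≥ 0`)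
and at most `δ k` more terms, each `≤ G (φ 0 ^ (d-1)) ≤ γ` (the product is `≥ φ 0 ^ (d-1)`, `anti`). -/
theorem GP.sub (hg : GP G φ) {x y t δ : Fin d → ℕ} (hx : x ≤ t) (hy : y ≤ t)
    (ht : ∀ i, t i ≤ x i + y i + δ i) {γ : ℝ} (hγ : G (φ 0 ^ (d - 1)) ≤ γ) :
    Psi G φ t ≤ Psi G φ x + Psi G φ y + (∑ i, (δ i : ℝ)) * γ := by
  rw [v2_Psi, v2_Psi, v2_Psi, Finset.sum_mul, ← Finset.sum_add_distrib, ← Finset.sum_add_distrib]
  apply Finset.sum_le_sum
  intro k _
  have hγ0 : 0 ≤ γ := (hg.nonneg _).trans hγ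
  obtain ⟨r, hr⟩ : ∃ r, t k = x k + r := ⟨t k - x k, by have h : x k ≤ t k := hx k; omega⟩
  obtain ⟨r', hr'⟩ : ∃ r', r = min (y k) r + r' := ⟨r - min (y k) r, by omega⟩
  have hδ : r' ≤ δ k := by have := ht k; omega
  rw [hr, Finset.sum_range_add]
  nth_rewrite 1 [hr']
  rw [Finset.sum_range_add, ← add_assoc]
  refine add_le_add (add_le_add ?_ ?_) ?_
  · apply Finset.sum_le_sum
    intro m _
    apply v2_mono hg
    intro j _
    exact min_le_min (hx j) le_rfl
  · calc ∑ m ∈ Finset.range (min (y k) r), v2_F G φ t k (x k + m)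
        ≤ ∑ m ∈ Finset.range (min (y k) r), v2_F G φ y k m := by
          apply Finset.sum_le_sum
          intro m _
          apply v2_mono hg
          intro j _
          exact min_le_min (hy j) (by omega)
      _ ≤ ∑ m ∈ Finset.range (y k), v2_F G φ y k m := by
          apply Finset.sum_le_sum_of_subset_of_nonneg
          · intro m hm
            rw [Finset.mem_range] at hm ⊢
            omega
          · intro m _ _
            exact hg.nonneg _
  · calc ∑ m ∈ Finset.range r', v2_F G φ t k (x k + (min (y k) r + m))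
        ≤ ∑ _m ∈ Finset.range r', γ := Finset.sum_le_sum fun m _ => v2_F_le hg t k _ hγ
      _ = (r' : ℝ) * γ := by rw [Finset.sum_const, Finset.card_range, nsmul_eq_mul]
      _ ≤ (δ k : ℝ) * γ := mul_le_mul_of_nonneg_right (by exact_mod_cast hδ) hγ0

/-- [BTP-V2] trivial upper bound -/
theorem GP.Psi_le (hg : GP G φ) {x : Fin d → ℕ} {γ : ℝ} (hγ : G (φ 0 ^ (d - 1)) ≤ γ) :
    Psi G φ x ≤ (∑ i, (x i : ℝ)) * γ := by
  rw [v2_Psi, Finset.sum_mul]
  apply Finset.sum_le_sum
  intro k _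
  calc ∑ m ∈ Finset.range (x k), v2_F G φ x k m
      ≤ ∑ _m ∈ Finset.range (x k), γ := Finset.sum_le_sum fun m _ => v2_F_le hg x k _ hγ
    _ = (x k : ℝ) * γ := by rw [Finset.sum_const, Finset.card_range, nsmul_eq_mul]

theorem GP.Psi_nonneg (hg : GP G φ) {x : Fin d → ℕ} : 0 ≤ Psi G φ x := by
  rw [v2_Psi]
  exact Finset.sum_nonneg fun k _ => Finset.sum_nonneg fun m _ => hg.nonneg _

/-- [BTP-V2] PROOF. In the term `k` each product is at most `∏_{j≠k} φ (x j)`. -/
theorem GP.Psi_ge (hg : GP G φ) (x : Fin d → ℕ) (k : Fin d) :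
    (x k : ℝ) * G (∏ j ∈ Finset.univ.erase k, φ (x j)) ≤ Psi G φ x := by
  rw [v2_Psi]
  calc (x k : ℝ) * G (∏ j ∈ Finset.univ.erase k, φ (x j))
      = ∑ _m ∈ Finset.range (x k), G (∏ j ∈ Finset.univ.erase k, φ (x j)) := by
        rw [Finset.sum_const, Finset.card_range, nsmul_eq_mul]
    _ ≤ ∑ m ∈ Finset.range (x k), v2_F G φ x k m := by
        apply Finset.sum_le_sum
        intro m _
        apply v2_mono hg
        intro j _
        exact min_le_left _ _
    _ ≤ ∑ k : Fin d, ∑ m ∈ Finset.range (x k), v2_F G φ x k m :=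
        Finset.single_le_sum (f := fun k => ∑ m ∈ Finset.range (x k), v2_F G φ x k m)
          (fun k _ => Finset.sum_nonneg fun m _ => hg.nonneg _) (Finset.mem_univ k)

/-- [BTP-V2] the diagonal. PROOF. `min b (m + [j<k]) ≤ m + 1` for `m < b`; the `d` terms `k`. -/
theorem GP.Psi_diag (hg : GP G φ) (b : ℕ) :
    (d : ℝ) * ∑ m ∈ Finset.Icc 1 b, G (φ m ^ (d - 1)) ≤ Psi G φ (fun _ : Fin d => b) := by
  rw [v2_Psi]
  have h1 : ∑ m ∈ Finset.Icc 1 b, G (φ m ^ (d - 1)) =
      ∑ m ∈ Finset.range b, G (φ (m + 1) ^ (d - 1)) := by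
    induction b with
    | zero => simp
    | succ n ih => rw [Finset.sum_Icc_succ_top (by omega), ih, Finset.sum_range_succ]
  have h2 : (d : ℝ) * ∑ m ∈ Finset.Icc 1 b, G (φ m ^ (d - 1)) =
      ∑ _k : Fin d, ∑ m ∈ Finset.range b, G (φ (m + 1) ^ (d - 1)) := by
    rw [h1, Finset.sum_const, Finset.card_univ, Fintype.card_fin, nsmul_eq_mul]
  rw [h2]
  apply Finset.sum_le_sum
  intro k _
  apply Finset.sum_le_sum
  intro m _
  have h := v2_mono hg (Finset.univ.erase k)
    (fun j => min b (m + if j < k then 1 else 0)) (fun _ => m + 1) (fun j _ => by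
      show min b (m + if j < k then 1 else 0) ≤ m + 1
      split_ifs <;> omega)
  rw [Finset.prod_const, Finset.card_erase_of_mem (Finset.mem_univ k), Finset.card_univ,
    Fintype.card_fin] at h
  exact h

end BTP
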