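import Pool.Agent.BTP.S3
import Pool.Agent.BTP.V2
import Pool.Agent.BTP.V5

set_option autoImplicit false

open scoped Classical
open Finset

namespace BTP

variable {d : ℕ} (a : Par d)

/-- [BTP-M0] the step cost is bounded. PROOF. `φ 0 = H`, `G z ≤ g(q z)` as `c > 0`, `g ≥ 0`, `hgam`. -/
theorem Par.G_le : a.G (a.f 0 ^ (d - 1)) ≤ a.gam := by
  have h0 : a.f 0 = a.H := by simp [Par.f, ph]
  rw [h0]
  unfold Par.G Gh
  exact max_le (by linarith [a.hgam, a.hc]) a.hgam0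

/-- [BTP-M0] PROOF. `GP.Psi_le`, `∑ sd = Ys + d` (`Ys_eq`). -/
theorem Par.Ps_le {T : Box d} (hT : Ne T) : a.Ps T ≤ ((Ys T : ℝ) + d) * a.gam := by
  have h1 : a.Ps T ≤ (∑ i, (sd T i : ℝ)) * a.gam := a.gp.Psi_le a.G_le
  have h2 : (∑ i, (sd T i : ℝ)) = (Ys T : ℝ) + d := by
    rw [Ys_eq hT]
    push_cast
    rw [Finset.sum_sub_distrib]
    simp
  rwa [h2] at h1

/-- [BTP-M0] small boxes.
PROOF. `Pr_IG_le` with `m = ⌈(Ys T + 2)/2⌉`, `hbase` (`Y = (Ys T).toNat`), `Par.Ps_le`. -/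
theorem base (V : Finset (Site d)) {T : Box d} (hT : Ne T) (h1 : (a.h : ℤ) ≤ Ys T)
    (h2 : Ys T ≤ 2 * a.h + 2) : Pr V a.p (IG T) ≤ Real.exp (-(2 * a.P) - a.Ps T) := by
  obtain ⟨Y, hY⟩ : ∃ Y : ℕ, Ys T = Y := ⟨(Ys T).toNat, (Int.toNat_of_nonneg (Ys_nonneg hT)).symm⟩
  rw [hY] at h1 h2
  have h3 := Pr_IG_le a.p_nonneg a.p_le_one V T hT ((Y + 3) / 2) (by rw [hY]; omega)
  have h4 := a.hbase Y ((Y + 3) / 2) (by omega) (by omega) (by omega)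
  have h5 := a.Ps_le hT
  rw [hY] at h3 h5
  push_cast at h3 h5
  refine h3.trans (h4.trans (Real.exp_le_exp.2 ?_))
  linarith

/-- [BTP-M0] merges. PROOF. `GP.sub` with `x = sd R`, `y = sd S`, `δ i = (gap R S i).toNat` (`sd_sup_le`, `sd_mono`, `sum_gap_toNat`). -/
theorem Par.merge {R S : Box d} (hR : Ne R) (hS : Ne S) (hn : near R S) :
    a.Ps (R ⊔ S) ≤ a.Ps R + a.Ps S + 2 * a.gam := by
  have h1 := a.gp.sub (x := sd R) (y := sd S) (t := sd (R ⊔ S)) (δ := fun i => (gap R S i).toNat)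
    (fun i => sd_mono hR le_sup_left i) (fun i => sd_mono hS le_sup_right i)
    (fun i => sd_sup_le hR hS i) a.G_le
  have h2 : (∑ i, (((gap R S i).toNat : ℕ) : ℝ)) ≤ 2 := by
    exact_mod_cast sum_gap_toNat hn
  have h3 : (∑ i, (((gap R S i).toNat : ℕ) : ℝ)) * a.gam ≤ 2 * a.gam :=
    mul_le_mul_of_nonneg_right h2 a.hgam0
  unfold Par.Ps
  linarith

end BTP
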