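import Pool.Agent.BTP.P1

set_option autoImplicit false

open scoped Classical
open Finset

namespace BTP

section
variable {α : Type*} {p : ℝ}

theorem Inc_dis {E F : Finset α → Prop} : Inc (dis E F) := by
  rintro U U' hU ⟨W, W', hd, hW, hW', hE, hF⟩
  exact ⟨W, W', hd, hW.trans hU, hW'.trans hU, hE, hF⟩

theorem p4_bk_aux (hp0 : 0 ≤ p) (hp2 : p ≤ 1 / 2) (V : Finset α) : ∀ (E F : Finset α → Prop),
    Inc E → Inc F → Pr V p (dis E F) ≤ Pr V p E * Pr V p F := by
  have hp1 : p ≤ 1 := by linarith
  induction V using Finset.induction_on with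
  | empty =>
    intro E F _ _
    rw [Pr_empty, Pr_empty, Pr_empty]
    by_cases h1 : E ∅
    · by_cases h2 : F ∅
      · simp only [h1, h2, if_true]
        split_ifs <;> norm_num
      · have h3 : ¬ dis E F ∅ := by
          rintro ⟨W, W', _, _, hW', _, hF⟩
          rw [Finset.subset_empty.mp hW'] at hF
          exact h2 hF
        simp [h2, h3]
    · have h3 : ¬ dis E F ∅ := by
        rintro ⟨W, W', _, hW, _, hE, _⟩
        rw [Finset.subset_empty.mp hW] at hE
        exact h1 hE
      simp [h1, h3]
  | insert v V hv ih =>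
    intro E F hE hF
    have hE' : Inc (fun U => E (insert v U)) := fun U U' hU h =>
      hE _ _ (Finset.insert_subset_insert v hU) h
    have hF' : Inc (fun U => F (insert v U)) := fun U U' hU h =>
      hF _ _ (Finset.insert_subset_insert v hU) h
    rw [Pr_insert hv, Pr_insert hv, Pr_insert hv]
    set e := Pr V p E with he
    set f := Pr V p F with hf
    set e' := Pr V p (fun U => E (insert v U)) with he'
    set f' := Pr V p (fun U => F (insert v U)) with hf'
    have hee : e ≤ e' := Pr_mono hp0 hp1 fun U _ h => hE _ _ (Finset.subset_insert v U) h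
    have hff : f ≤ f' := Pr_mono hp0 hp1 fun U _ h => hF _ _ (Finset.subset_insert v U) h
    have i00 : Pr V p (dis E F) ≤ e * f := ih E F hE hF
    have i10 : Pr V p (dis (fun U => E (insert v U)) F) ≤ e' * f := ih _ F hE' hF
    have i01 : Pr V p (dis E (fun U => F (insert v U))) ≤ e * f' := ih E _ hE hF'
    have hkey : ∀ U ⊆ V, dis E F (insert v U) →
        dis (fun U => E (insert v U)) F U ∨ dis E (fun U => F (insert v U)) U := by
      rintro U hU ⟨W, W', hd, hW, hW', hEW, hFW⟩
      by_cases h1 : v ∈ W
      · left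
        have h2 : v ∉ W' := fun h => (Finset.disjoint_left.mp hd h1 h)
        refine ⟨W.erase v, W', Finset.disjoint_of_subset_left (Finset.erase_subset _ _) hd,
          Finset.subset_insert_iff.mp hW, (Finset.subset_insert_iff_of_notMem h2).mp hW', ?_, hFW⟩
        show E (insert v (W.erase v))
        rw [Finset.insert_erase h1]
        exact hEW
      · right
        refine ⟨W, W'.erase v, Finset.disjoint_of_subset_right (Finset.erase_subset _ _) hd,
          (Finset.subset_insert_iff_of_notMem h1).mp hW, Finset.subset_insert_iff.mp hW', hEW, ?_⟩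
        show F (insert v (W'.erase v))
        refine hF _ _ ?_ hFW
        exact Finset.insert_erase_subset v W'
    have hmono1 : ∀ U, dis E F U → dis (fun U => E (insert v U)) F U := by
      rintro U ⟨W, W', hd, hW, hW', hEW, hFW⟩
      exact ⟨W, W', hd, hW, hW', hE _ _ (Finset.subset_insert v W) hEW, hFW⟩
    have hmono2 : ∀ U, dis E F U → dis E (fun U => F (insert v U)) U := by
      rintro U ⟨W, W', hd, hW, hW', hEW, hFW⟩
      exact ⟨W, W', hd, hW, hW', hEW, hF _ _ (Finset.subset_insert v W') hFW⟩
    have h3 : Pr V p (fun U => dis E F (insert v U)) ≤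
        Pr V p (fun U => dis (fun U => E (insert v U)) F U ∨ dis E (fun U => F (insert v U)) U) :=
      Pr_mono hp0 hp1 hkey
    have h4 := Pr_or_add_and (V := V) (p := p) (E := dis (fun U => E (insert v U)) F)
      (F := dis E (fun U => F (insert v U)))
    have h5 : Pr V p (dis E F) ≤ Pr V p (fun U => dis (fun U => E (insert v U)) F U ∧
        dis E (fun U => F (insert v U)) U) :=
      Pr_mono hp0 hp1 fun U _ h => ⟨hmono1 U h, hmono2 U h⟩
    have h6 : Pr V p (fun U => dis E F (insert v U)) ≤
        Pr V p (dis (fun U => E (insert v U)) F) + Pr V p (dis E (fun U => F (insert v U)))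
          - Pr V p (dis E F) := by linarith
    have h7 : (1 - p) * Pr V p (dis E F) + p * Pr V p (fun U => dis E F (insert v U)) ≤
        (1 - 2 * p) * Pr V p (dis E F) + p * Pr V p (dis (fun U => E (insert v U)) F) +
          p * Pr V p (dis E (fun U => F (insert v U))) := by
      have := mul_le_mul_of_nonneg_left h6 hp0
      linarith
    have h8 : (1 - 2 * p) * Pr V p (dis E F) ≤ (1 - 2 * p) * (e * f) :=
      mul_le_mul_of_nonneg_left i00 (by linarith)
    have h9 := mul_le_mul_of_nonneg_left i10 hp0
    have h10 := mul_le_mul_of_nonneg_left i01 hp0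
    have h11 : 0 ≤ p ^ 2 * ((e' - e) * (f' - f)) :=
      mul_nonneg (sq_nonneg _) (mul_nonneg (by linarith) (by linarith))
    calc (1 - p) * Pr V p (dis E F) + p * Pr V p (fun U => dis E F (insert v U))
        ≤ (1 - 2 * p) * (e * f) + p * (e' * f) + p * (e * f') := by linarith
      _ ≤ ((1 - p) * e + p * e') * ((1 - p) * f + p * f') := by nlinarith

/-- [BTP-P4] the van den Berg-Kesten inequality for increasing events, `p ≤ 1/2`.
PROOF. Induction on `V`, for all `E, F`. `V = ∅`: `Pr_empty`; `dis E F ∅` implies `E ∅` and `F ∅`. Step `insert v V`, `v ∉ V`: put `E' U = E (insert v U)`, `F'` similarly (increasing, implied by `E`, `F`).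
For `U ⊆ V`: `dis E F (insert v U)` implies `dis E' F U ∨ dis E F' U` (let `W, W' ⊆ insert v U` be disjoint witnesses: if `v ∈ W` take `W.erase v, W'`; if `v ∈ W'` take `W, W'.erase v`; if neither take `W, W'`, `E W → E' W`).
Both events are implied by `dis E F U`, so by `Pr_or_add_and` `Pr V (dis E F (insert v ·)) ≤ x10 + x01 - x00`, with `x00 = Pr V (dis E F)`, `x10 = Pr V (dis E' F)`, `x01 = Pr V (dis E F')`. By `Pr_insert`
`Pr (insert v V) (dis E F) ≤ (1 - 2p) x00 + p x10 + p x01 ≤ (1-2p) e f + p e' f + p e f'` (induction hypothesis, `1 - 2p ≥ 0`), where `e = Pr V E`, `e' = Pr V E'`, ..; and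
`((1-p) e + p e')((1-p) f + p f') - ((1-2p) e f + p e' f + p e f') = p² (e' - e)(f' - f) ≥ 0`. -/
theorem bk (hp0 : 0 ≤ p) (hp2 : p ≤ 1 / 2) (V : Finset α) (E F : Finset α → Prop) (hE : Inc E)
    (hF : Inc F) : Pr V p (dis E F) ≤ Pr V p E * Pr V p F :=
  p4_bk_aux hp0 hp2 V E F hE hF

end

end BTP
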