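import Pool.Agent.BTP.B5
import Pool.Agent.BTP.B6
import Pool.Agent.BTP.C1
import Pool.Agent.BTP.P4
import Pool.Agent.BTP.R1

set_option autoImplicit false

open scoped Classical
open Finset

namespace BTP

variable {d : ℕ} (a : Par d)

/-- [BTP-M1] the decomposition of a generated box.
PROOF. For `U ⊆ sites W0` with `IG Q U`, `chain` with `w = a.w Q` (`w_ge`) gives `T` with `a.Win T Q` and one of three cases, with disjoint witnesses `W1` for `SGe h T Q` and `W2` for the rest: `dis (SGe h T Q) (IG T)` in cases 1, 3, and `dis (SGe h T Q) (dis (IG R) (IG S))`, `T = R ⊔ S`, in case 2. Union bound (`Pr_or` twice, `Pr_union`), `bk` (`Inc_SGe`, `Inc_IG`, `Inc_dis`).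
(In case 2 `R, S ≤ T ≤ Q` are in `sub Q`, nonempty by `Gen.ne`.) -/
theorem decomp {W0 Q : Box d} (hQ : Ne Q) (hY : (a.h : ℤ) ≤ Ys Q) :
    Pr (sites W0) a.p (IG Q) ≤
      (∑ T ∈ (sub Q).filter (fun T => a.Win T Q ∧ (a.h : ℤ) ≤ Ys T ∧
          ∃ i, a.w Q i ≤ (sd Q i : ℝ) - sd T i),
        Pr (sites W0) a.p (SGe a.h T Q) * Pr (sites W0) a.p (IG T)) +
      (∑ y ∈ (sub Q ×ˢ sub Q).filter (fun y => a.Win (y.1 ⊔ y.2) Q ∧ near y.1 y.2 ∧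
          (a.h : ℤ) ≤ Ys y.1 ∧ (a.h : ℤ) ≤ Ys y.2 ∧ Ys y.1 < Ys Q ∧ Ys y.2 < Ys Q),
        Pr (sites W0) a.p (SGe a.h (y.1 ⊔ y.2) Q) *
          (Pr (sites W0) a.p (IG y.1) * Pr (sites W0) a.p (IG y.2))) +
      ∑ T ∈ (sub Q).filter (fun T => a.Win T Q ∧ (a.h : ℤ) ≤ Ys T ∧ Ys T ≤ 2 * a.h + 2),
        Pr (sites W0) a.p (SGe a.h T Q) * Pr (sites W0) a.p (IG T) := by
  have hp0 := a.p_nonneg
  have hp1 := a.p_le_one
  have hp2 := a.hp2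
  set V := sites W0 with hV
  set F1 := (sub Q).filter (fun T => a.Win T Q ∧ (a.h : ℤ) ≤ Ys T ∧
          ∃ i, a.w Q i ≤ (sd Q i : ℝ) - sd T i) with hF1
  set F2 := (sub Q ×ˢ sub Q).filter (fun y => a.Win (y.1 ⊔ y.2) Q ∧ near y.1 y.2 ∧
          (a.h : ℤ) ≤ Ys y.1 ∧ (a.h : ℤ) ≤ Ys y.2 ∧ Ys y.1 < Ys Q ∧ Ys y.2 < Ys Q) with hF2
  set F3 := (sub Q).filter (fun T => a.Win T Q ∧ (a.h : ℤ) ≤ Ys T ∧ Ys T ≤ 2 * a.h + 2) with hF3
  have hmono : Pr V a.p (IG Q) ≤ Pr V a.p (fun U =>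
      ((∃ T ∈ F1, dis (SGe a.h T Q) (IG T) U) ∨
        (∃ y ∈ F2, dis (SGe a.h (y.1 ⊔ y.2) Q) (dis (IG y.1) (IG y.2)) U)) ∨
        (∃ T ∈ F3, dis (SGe a.h T Q) (IG T) U)) := by
    apply Pr_mono hp0 hp1
    intro U _ hU
    obtain ⟨W, hWU, hgen⟩ := hU
    obtain ⟨T, W1, W2, hNT, hTQ, hwin, hsg, hdisj, hW1, hW2, hc⟩ :=
      chain a.hh (a.w Q) (fun i => a.w_ge Q i) hgen hY
    have hWin : a.Win T Q := ⟨hNT, hTQ, hwin⟩
    have hTs : T ∈ sub Q := mem_sub.mpr ⟨hNT, hTQ⟩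
    rcases hc with ⟨hg, h1, h2⟩ | ⟨R, S, WR, WS, hTe, hn, hgR, hgS, hdRS, hWR, hWS, h1, h2, h3, h4⟩ |
      ⟨hg, h1, h2⟩
    · left; left
      refine ⟨T, ?_, W1, W2, hdisj, hW1.trans hWU, hW2.trans hWU, ⟨W1, le_refl _, hsg⟩,
        ⟨W2, le_refl _, hg⟩⟩
      rw [hF1, Finset.mem_filter]
      exact ⟨hTs, hWin, h1, h2⟩
    · left; right
      have hYTQ : Ys T ≤ Ys Q := Ys_mono hTQ
      refine ⟨(R, S), ?_, W1, W2, hdisj, hW1.trans hWU, hW2.trans hWU, ?_, ?_⟩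
      · rw [hF2, Finset.mem_filter, Finset.mem_product]
        refine ⟨⟨mem_sub.mpr ⟨hgR.ne, ?_⟩, mem_sub.mpr ⟨hgS.ne, ?_⟩⟩, ?_, hn, h1, h2, ?_, ?_⟩
        · exact le_trans (by rw [hTe]; exact le_sup_left) hTQ
        · exact le_trans (by rw [hTe]; exact le_sup_right) hTQ
        · show a.Win (R ⊔ S) Q
          rw [← hTe]; exact hWin
        · exact lt_of_lt_of_le h3 hYTQ
        · exact lt_of_lt_of_le h4 hYTQ
      · refine ⟨W1, le_refl _, ?_⟩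
        show SG a.h (R ⊔ S) Q W1
        rw [← hTe]; exact hsg
      · exact ⟨WR, WS, hdRS, hWR, hWS, ⟨WR, le_refl _, hgR⟩, ⟨WS, le_refl _, hgS⟩⟩
    · right
      refine ⟨T, ?_, W1, W2, hdisj, hW1.trans hWU, hW2.trans hWU, ⟨W1, le_refl _, hsg⟩,
        ⟨W2, le_refl _, hg⟩⟩
      rw [hF3, Finset.mem_filter]
      exact ⟨hTs, hWin, h1, h2⟩
  have hor1 := Pr_or (V := V) (p := a.p) hp0 hp1
    (E := fun U => (∃ T ∈ F1, dis (SGe a.h T Q) (IG T) U) ∨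
        (∃ y ∈ F2, dis (SGe a.h (y.1 ⊔ y.2) Q) (dis (IG y.1) (IG y.2)) U))
    (F := fun U => ∃ T ∈ F3, dis (SGe a.h T Q) (IG T) U)
  have hor2 := Pr_or (V := V) (p := a.p) hp0 hp1
    (E := fun U => ∃ T ∈ F1, dis (SGe a.h T Q) (IG T) U)
    (F := fun U => ∃ y ∈ F2, dis (SGe a.h (y.1 ⊔ y.2) Q) (dis (IG y.1) (IG y.2)) U)
  have hu1 := Pr_union (V := V) hp0 hp1 F1 (fun T => dis (SGe a.h T Q) (IG T))
  have hu2 := Pr_union (V := V) hp0 hp1 F2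
    (fun y => dis (SGe a.h (y.1 ⊔ y.2) Q) (dis (IG y.1) (IG y.2)))
  have hu3 := Pr_union (V := V) hp0 hp1 F3 (fun T => dis (SGe a.h T Q) (IG T))
  have hb1 : ∀ T : Box d, Pr V a.p (dis (SGe a.h T Q) (IG T)) ≤
      Pr V a.p (SGe a.h T Q) * Pr V a.p (IG T) := fun T =>
    bk hp0 hp2 V _ _ (Inc_SGe _ _ _) (Inc_IG _)
  have hb2 : ∀ y : Box d × Box d,
      Pr V a.p (dis (SGe a.h (y.1 ⊔ y.2) Q) (dis (IG y.1) (IG y.2))) ≤
      Pr V a.p (SGe a.h (y.1 ⊔ y.2) Q) * (Pr V a.p (IG y.1) * Pr V a.p (IG y.2)) := by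
    intro y
    refine le_trans (bk hp0 hp2 V _ _ (Inc_SGe _ _ _) Inc_dis) ?_
    exact mul_le_mul_of_nonneg_left (bk hp0 hp2 V _ _ (Inc_IG _) (Inc_IG _)) (Pr_nonneg hp0 hp1)
  have hs1 := Finset.sum_le_sum (s := F1) (fun T _ => hb1 T)
  have hs2 := Finset.sum_le_sum (s := F2) (fun y _ => hb2 y)
  have hs3 := Finset.sum_le_sum (s := F3) (fun T _ => hb1 T)
  linarith

end BTP
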