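import Pool.Agent.BTP.P4

set_option autoImplicit false

open scoped Classical
open Finset

namespace BTP

section
variable {α : Type*} {p : ℝ}

/-- [BTP-P5] -/
theorem Inc_disF {ι : Type*} {s : Finset ι} {E : ι → Finset α → Prop} : Inc (disF s E) := by
  rintro U U' hU ⟨W, h1, h2⟩
  exact ⟨W, fun i hi => ⟨(h1 i hi).1.trans hU, (h1 i hi).2⟩, h2⟩

/-- [BTP-P5] PROOF. Induction on `s`: `disF (insert i s) E U → dis (E i) (disF s E) U` with witnesses `W i` and `s.biUnion W`; `bk`. -/
theorem bkF {ι : Type*} (hp0 : 0 ≤ p) (hp2 : p ≤ 1 / 2) (V : Finset α) (s : Finset ι)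
    (E : ι → Finset α → Prop) (hE : ∀ i ∈ s, Inc (E i)) :
    Pr V p (disF s E) ≤ ∏ i ∈ s, Pr V p (E i) := by
  have hp1 : p ≤ 1 := by linarith
  induction s using Finset.induction_on with
  | empty =>
    rw [Finset.prod_empty]
    exact Pr_le_one hp0 hp1
  | insert a s ha ih =>
    rw [Finset.prod_insert ha]
    have h1 : Pr V p (disF (insert a s) E) ≤ Pr V p (dis (E a) (disF s E)) := by
      refine Pr_mono hp0 hp1 fun U _ hU => ?_
      obtain ⟨W, hW1, hW2⟩ := hU
      refine ⟨W a, s.biUnion W, ?_, (hW1 a (Finset.mem_insert_self _ _)).1, ?_,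
        (hW1 a (Finset.mem_insert_self _ _)).2, W, ?_, ?_⟩
      · rw [Finset.disjoint_biUnion_right]
        intro i hi
        exact hW2 a (Finset.mem_insert_self _ _) i (Finset.mem_insert_of_mem hi)
          (fun e => ha (e ▸ hi))
      · exact Finset.biUnion_subset.mpr fun i hi => (hW1 i (Finset.mem_insert_of_mem hi)).1
      · exact fun i hi => ⟨Finset.subset_biUnion_of_mem W hi,
          (hW1 i (Finset.mem_insert_of_mem hi)).2⟩
      · exact fun i hi j hj hij => hW2 i (Finset.mem_insert_of_mem hi) j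
          (Finset.mem_insert_of_mem hj) hij
    have h2 := bk hp0 hp2 V (E a) (disF s E) (hE a (Finset.mem_insert_self _ _)) Inc_disF
    have h3 := ih fun i hi => hE i (Finset.mem_insert_of_mem hi)
    calc Pr V p (disF (insert a s) E) ≤ _ := h1
      _ ≤ _ := h2
      _ ≤ _ := mul_le_mul_of_nonneg_left h3 (Pr_nonneg hp0 hp1)

end

end BTP
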