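import Pool.Agent.BTP.S1
import Pool.Agent.BTP.P5
import Pool.Agent.BTP.B6

set_option autoImplicit false

open scoped Classical
open Finset

namespace BTP

variable {d : ℕ}

/-- the finite set of all possible records -/
noncomputable def allRec (T Q : Box d) : Finset (Rec d) :=
  ((Finset.Icc (fun j => min 0 (T j)) (fun j => max 0 (Q j))) ×ˢ
    (Finset.Icc (fun j => min 0 (T j)) (fun j => max 0 (Q j)))).filter (fun μ => RecOK T Q μ)

/-- [BTP-S6] -/
theorem mem_allRec {T Q : Box d} {μ : Rec d} : μ ∈ allRec T Q ↔ RecOK T Q μ := by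
  unfold allRec
  rw [Finset.mem_filter, Finset.mem_product, Finset.mem_Icc, Finset.mem_Icc]
  refine ⟨fun h => h.2, fun h => ⟨?_, h⟩⟩
  have h1 := h.1
  refine ⟨⟨fun j => ?_, fun j => ?_⟩, ⟨fun j => ?_, fun j => ?_⟩⟩ <;>
  · rcases h1 j with ⟨h2, h3⟩ | ⟨h2, h3, h4⟩
    · simp [h2, h3]
    · simp only
      omega

/-- [BTP-S6] first step: the union over the sets of records and the BK inequality.
PROOF. `SGe h T Q U` gives by `det` a set `M ⊆ allRec T Q` and disjoint witnesses, i.e. `disF (M.disjSum Finset.univ) E_M U` with `E_M (Sum.inl μ) = Clu h Q μ`, `E_M (Sum.inr i) = Cross T Q M i`. So `SGe h T Q U → ∃ M ∈ (allRec T Q).powerset, disF ..`; `Pr_union`, `bkF` (`Inc_Clu`, `Inc_Cross`), `Finset.prod_disjSum`. -/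
theorem Pr_SGe_le {p : ℝ} (hp0 : 0 ≤ p) (hp2 : p ≤ 1 / 2) {h : ℕ} {W0 T Q : Box d} (hT : Ne T) :
    Pr (sites W0) p (SGe h T Q) ≤ ∑ M ∈ (allRec T Q).powerset,
      (∏ μ ∈ M, Pr (sites W0) p (Clu h Q μ)) * ∏ i : Fin d, Pr (sites W0) p (Cross T Q M i) := by
  have hp1 : p ≤ 1 := by linarith
  let E : Finset (Rec d) → (Rec d ⊕ Fin d) → Finset (Site d) → Prop :=
    fun M => Sum.elim (fun μ => Clu h Q μ) (fun i => Cross T Q M i)
  have h1 : Pr (sites W0) p (SGe h T Q) ≤ Pr (sites W0) p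
      (fun U => ∃ M ∈ (allRec T Q).powerset, disF (M.disjSum Finset.univ) (E M) U) := by
    apply Pr_mono hp0 hp1
    rintro U _ ⟨W, hWU, hg⟩
    obtain ⟨M, F, G, hF, hG, hFF, hFG, hGG⟩ := det hT hg
    refine ⟨M, ?_, Sum.elim F G, ?_, ?_⟩
    · rw [Finset.mem_powerset]
      intro μ hμ
      exact mem_allRec.mpr (hF μ hμ).1
    · intro x hx
      rcases x with μ | i
      · have hμ : μ ∈ M := by simpa using hx
        exact ⟨(hF μ hμ).2.1.trans hWU, (hF μ hμ).2.2⟩
      · exact ⟨(hG i).1.trans hWU, (hG i).2⟩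
    · intro x hx y hy hxy
      rcases x with μ | i
      · have hμ : μ ∈ M := by simpa using hx
        rcases y with μ' | i'
        · have hμ' : μ' ∈ M := by simpa using hy
          exact hFF μ hμ μ' hμ' (fun h => hxy (by rw [h]))
        · exact hFG μ hμ i'
      · rcases y with μ' | i'
        · have hμ' : μ' ∈ M := by simpa using hy
          exact (hFG μ' hμ' i).symm
        · exact hGG i i' (fun h => hxy (by rw [h]))
  refine h1.trans ((Pr_union hp0 hp1 _ _).trans ?_)
  apply Finset.sum_le_sum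
  intro M _
  refine (bkF hp0 hp2 (sites W0) (M.disjSum Finset.univ) (E M) ?_).trans (le_of_eq ?_)
  · intro x _
    rcases x with μ | i
    · exact Inc_Clu h Q μ
    · exact Inc_Cross T Q M i
  · rw [Finset.prod_disjSum]
    rfl

end BTP
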