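import Pool.Agent.BTP.P1

set_option autoImplicit false

open scoped Classical
open Finset

namespace BTP

section
variable {α : Type*} {p : ℝ}

theorem p2_indep_aux (V : Finset α) : ∀ (B : Finset α) (E F : Finset α → Prop),
    (∀ U ⊆ V, (E U ↔ E (U ∩ B))) → (∀ U ⊆ V, (F U ↔ F (U \ B))) →
    Pr V p (fun U => E U ∧ F U) = Pr V p E * Pr V p F := by
  induction V using Finset.induction_on with
  | empty =>
    intro B E F hE hF
    rw [Pr_empty, Pr_empty, Pr_empty]
    by_cases h1 : E ∅ <;> by_cases h2 : F ∅ <;> simp [h1, h2]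
  | insert v V hv ih =>
    intro B E F hE hF
    rw [Pr_insert hv, Pr_insert hv, Pr_insert hv]
    have hEV : ∀ U ⊆ V, (E U ↔ E (U ∩ B)) := fun U hU => hE U (hU.trans (Finset.subset_insert _ _))
    have hFV : ∀ U ⊆ V, (F U ↔ F (U \ B)) := fun U hU => hF U (hU.trans (Finset.subset_insert _ _))
    have hins : ∀ U ⊆ V, insert v U ⊆ insert v V := fun U hU => Finset.insert_subset_insert v hU
    by_cases hvB : v ∈ B
    · have hF1 : ∀ U ⊆ V, (F (insert v U) ↔ F U) := by
        intro U hU
        rw [hF _ (hins U hU), Finset.insert_sdiff_of_mem _ hvB, ← hFV U hU]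
      have hE2 : ∀ U ⊆ V, (E (insert v U) ↔ E (insert v (U ∩ B))) := by
        intro U hU
        rw [hE _ (hins U hU), Finset.insert_inter_of_mem hvB]
      have h1 : Pr V p (fun U => E (insert v U) ∧ F (insert v U)) =
          Pr V p (fun U => E (insert v U)) * Pr V p F := by
        have h2 := ih B (fun U => E (insert v U)) F (fun U hU => hE2 U hU) hFV
        rw [← h2]
        exact Pr_congr fun U hU => and_congr_right fun _ => hF1 U hU
      have h3 : Pr V p (fun U => F (insert v U)) = Pr V p F := Pr_congr hF1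
      rw [h1, h3, ih B E F hEV hFV]
      ring
    · have hE1 : ∀ U ⊆ V, (E (insert v U) ↔ E U) := by
        intro U hU
        rw [hE _ (hins U hU), Finset.insert_inter_of_notMem hvB, ← hEV U hU]
      have hF2 : ∀ U ⊆ V, (F (insert v U) ↔ F (insert v (U \ B))) := by
        intro U hU
        rw [hF _ (hins U hU), Finset.insert_sdiff_of_notMem _ hvB]
      have h1 : Pr V p (fun U => E (insert v U) ∧ F (insert v U)) =
          Pr V p E * Pr V p (fun U => F (insert v U)) := by
        have h2 := ih B E (fun U => F (insert v U)) hEV (fun U hU => hF2 U hU)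
        rw [← h2]
        exact Pr_congr fun U hU => and_congr_left fun _ => hE1 U hU
      have h3 : Pr V p (fun U => E (insert v U)) = Pr V p E := Pr_congr hE1
      rw [h1, h3, ih B E F hEV hFV]
      ring

/-- [BTP-P2] independence: `E` depends only on `U ∩ B`, `F` only on `U \ B`.
PROOF. Induction on `V` (`Finset.induction_on`), for all `B, E, F`. `V = ∅`: `Pr_empty`, four cases (`E ∅`, `F ∅`). `insert v V`, `v ∉ V`: `Pr_insert` for the three probabilities.
If `v ∈ B`: `F (insert v U) ↔ F U` for `U ⊆ V` (both are `F ((insert v U) \ B) = F (U \ B)`), the induction hypothesis for `V`, `B.erase v` (or `B ∩ V`) and the pairs `(E, F)`, `(E (insert v ·), F)` gives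
`(1-p) Pr V E Pr V F + p Pr V E_v Pr V F`, and `Pr (insert v V) F = Pr V F`. (The hypotheses of the induction hypothesis: for `U ⊆ V`, `U ∩ B.erase v = U ∩ B`, `U \ B.erase v = U \ B`, and
`insert v U ∩ B = insert v (U ∩ B)`.) If `v ∉ B`: the same with `E` and `F` exchanged. -/
theorem Pr_indep (V B : Finset α) (E F : Finset α → Prop)
    (hE : ∀ U ⊆ V, (E U ↔ E (U ∩ B))) (hF : ∀ U ⊆ V, (F U ↔ F (U \ B))) :
    Pr V p (fun U => E U ∧ F U) = Pr V p E * Pr V p F :=
  p2_indep_aux V B E F hE hF

/-- [BTP-P2] PROOF. Induction on `W` or on `V` (`Pr_insert`); or the sum over `U = W ∪ U'`, `U' ⊆ V \ W`. -/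
theorem Pr_subset {V W : Finset α} (h : W ⊆ V) : Pr V p (fun U => W ⊆ U) = p ^ W.card := by
  induction V using Finset.induction_on generalizing W with
  | empty =>
    have hW : W = ∅ := Finset.subset_empty.mp h
    subst hW
    rw [Pr_empty]
    simp
  | insert v V hv ih =>
    rw [Pr_insert hv]
    by_cases hvW : v ∈ W
    · have h1 : Pr V p (fun U => W ⊆ U) = 0 := by
        rw [← Pr_false (V := V) (p := p)]
        exact Pr_congr fun U hU => ⟨fun hWU => hv (hU (hWU hvW)), fun hf => hf.elim⟩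
      have h2 : Pr V p (fun U => W ⊆ insert v U) = p ^ (W.erase v).card := by
        rw [← ih (W := W.erase v) (by
          rw [← Finset.subset_insert_iff]; exact h)]
        exact Pr_congr fun U _ => Finset.subset_insert_iff
      rw [h1, h2, Finset.card_erase_of_mem hvW]
      have hc : 0 < W.card := Finset.card_pos.mpr ⟨v, hvW⟩
      obtain ⟨k, hk⟩ : ∃ k, W.card = k + 1 := ⟨W.card - 1, by omega⟩
      rw [hk, Nat.add_sub_cancel, pow_succ]
      ring
    · have hWV : W ⊆ V := (Finset.subset_insert_iff_of_notMem hvW).mp h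
      have h2 : Pr V p (fun U => W ⊆ insert v U) = Pr V p (fun U => W ⊆ U) :=
        Pr_congr fun U _ => Finset.subset_insert_iff_of_notMem hvW
      rw [h2, ih hWV]
      ring

/-- [BTP-P2] (as `Pr_subset`) -/
theorem Pr_avoid {V B : Finset α} (h : B ⊆ V) :
    Pr V p (fun U => ¬ ∃ v ∈ U, v ∈ B) = (1 - p) ^ B.card := by
  induction V using Finset.induction_on generalizing B with
  | empty =>
    have hB : B = ∅ := Finset.subset_empty.mp h
    subst hB
    rw [Pr_empty]
    simp
  | insert v V hv ih =>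
    rw [Pr_insert hv]
    by_cases hvB : v ∈ B
    · have h2 : Pr V p (fun U => ¬ ∃ w ∈ insert v U, w ∈ B) = 0 := by
        rw [← Pr_false (V := V) (p := p)]
        exact Pr_congr fun U _ => ⟨fun hh => hh ⟨v, Finset.mem_insert_self _ _, hvB⟩,
          fun hf => hf.elim⟩
      have h1 : Pr V p (fun U => ¬ ∃ w ∈ U, w ∈ B) = (1 - p) ^ (B.erase v).card := by
        rw [← ih (B := B.erase v) (by
          rw [← Finset.subset_insert_iff]; exact h)]
        refine Pr_congr fun U hU => ?_
        constructor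
        · rintro hh ⟨w, hw, hwB⟩
          exact hh ⟨w, hw, Finset.mem_of_mem_erase hwB⟩
        · rintro hh ⟨w, hw, hwB⟩
          exact hh ⟨w, hw, Finset.mem_erase.mpr ⟨fun e => hv (e ▸ hU hw), hwB⟩⟩
      rw [h1, h2, Finset.card_erase_of_mem hvB]
      have hc : 0 < B.card := Finset.card_pos.mpr ⟨v, hvB⟩
      obtain ⟨k, hk⟩ : ∃ k, B.card = k + 1 := ⟨B.card - 1, by omega⟩
      rw [hk, Nat.add_sub_cancel, pow_succ]
      ring
    · have hBV : B ⊆ V := (Finset.subset_insert_iff_of_notMem hvB).mp h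
      have h2 : Pr V p (fun U => ¬ ∃ w ∈ insert v U, w ∈ B) = Pr V p (fun U => ¬ ∃ w ∈ U, w ∈ B) := by
        refine Pr_congr fun U _ => not_congr ?_
        constructor
        · rintro ⟨w, hw, hwB⟩
          rcases Finset.mem_insert.mp hw with e | e
          · exact absurd (e ▸ hwB) hvB
          · exact ⟨w, e, hwB⟩
        · rintro ⟨w, hw, hwB⟩
          exact ⟨w, Finset.mem_insert_of_mem hw, hwB⟩
      rw [h2, ih hBV]
      ring

/-- [BTP-P2] PROOF. For `U ⊆ V` the event implies `∃ W ∈ (B ∩ V).powersetCard k, W ⊆ U`; `Pr_union`, `Pr_subset`, `Nat.choose_le_pow`, `(B ∩ V).card ≤ B.card`. -/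
theorem Pr_card_ge (V B : Finset α) (hp0 : 0 ≤ p) (hp1 : p ≤ 1) (k : ℕ) :
    Pr V p (fun U => k ≤ (U ∩ B).card) ≤ ((B.card : ℝ) * p) ^ k := by
  have h1 : Pr V p (fun U => k ≤ (U ∩ B).card) ≤
      Pr V p (fun U => ∃ W ∈ (B ∩ V).powersetCard k, (fun W U => W ⊆ U) W U) := by
    refine Pr_mono hp0 hp1 fun U hU hk => ?_
    obtain ⟨W, hW, hWc⟩ := Finset.exists_subset_card_eq hk
    refine ⟨W, Finset.mem_powersetCard.mpr ⟨?_, hWc⟩, ?_⟩
    · intro x hx
      have := Finset.mem_inter.mp (hW hx)
      exact Finset.mem_inter.mpr ⟨this.2, hU this.1⟩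
    · exact fun x hx => (Finset.mem_inter.mp (hW hx)).1
  have h2 := Pr_union (V := V) hp0 hp1 ((B ∩ V).powersetCard k) (fun W U => W ⊆ U)
  have h3 : ∑ W ∈ (B ∩ V).powersetCard k, Pr V p (fun U => W ⊆ U) =
      ((B ∩ V).card.choose k : ℝ) * p ^ k := by
    rw [Finset.sum_congr rfl (g := fun _ => p ^ k)]
    · rw [Finset.sum_const, Finset.card_powersetCard, nsmul_eq_mul]
    · intro W hW
      obtain ⟨hW1, hW2⟩ := Finset.mem_powersetCard.mp hW
      rw [Pr_subset (hW1.trans Finset.inter_subset_right), hW2]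
  have h4 : ((B ∩ V).card.choose k : ℝ) ≤ (B.card : ℝ) ^ k := by
    have h5 : ((B ∩ V).card.choose k) ≤ B.card ^ k :=
      (Nat.choose_le_pow _ _).trans (Nat.pow_le_pow_left (Finset.card_le_card Finset.inter_subset_left) _)
    exact_mod_cast h5
  calc Pr V p (fun U => k ≤ (U ∩ B).card) ≤ _ := h1
    _ ≤ _ := h2
    _ = _ := h3
    _ ≤ (B.card : ℝ) ^ k * p ^ k := mul_le_mul_of_nonneg_right h4 (pow_nonneg hp0 _)
    _ = _ := by rw [mul_pow]

end

end BTP
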