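import Pool.Agent.BTP.B6
import Pool.Agent.BTP.P2

set_option autoImplicit false

open scoped Classical
open Finset

namespace BTP

variable {d : ℕ}

/-- the growth of a record in direction `j` -/
def eR (μ : Rec d) (j : Dir d) : ℕ := (μ.2 j - μ.1 j).toNat

/-- the axes in which a record does not grow -/
noncomputable def ina (μ : Rec d) : Finset (Fin d) :=
  Finset.univ.filter (fun l => eR μ (l, true) = 0 ∧ eR μ (l, false) = 0)

/-- [BTP-S3] a box generated by `U` contains at least `(Ys S + 2)/2` sites of `U`.
PROOF. `IG S U → m ≤ (U ∩ sites S).card` (`Gen.per`, `Gen.le`), `Pr_card_ge`. -/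
theorem Pr_IG_le {p : ℝ} (hp0 : 0 ≤ p) (hp1 : p ≤ 1) (V : Finset (Site d)) (S : Box d) (hS : Ne S)
    (m : ℕ) (hm : 2 * (m : ℤ) ≤ Ys S + 3) :
    Pr V p (IG S) ≤ (((Ys S : ℝ) + 1) ^ d * p) ^ m := by
  have h1 : Pr V p (IG S) ≤ Pr V p (fun U => m ≤ (U ∩ sites S).card) := by
    refine Pr_mono hp0 hp1 ?_
    rintro U - ⟨W, hWU, hG⟩
    have hper := hG.per
    have hle := hG.le
    have hsub : W ⊆ U ∩ sites S := by
      intro v hv
      exact Finset.mem_inter.2 ⟨hWU hv, mem_sites.2 (hle v hv)⟩
    have hc := Finset.card_le_card hsub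
    have : m ≤ W.card := by omega
    exact this.trans hc
  have h0 : Pr V p (fun U => m ≤ (U ∩ sites S).card) ≤ (((sites S).card : ℝ) * p) ^ m := by
    have h := Pr_card_ge V (sites S) hp0 hp1 m
    have he : (fun a b => Classical.propDecidable (a = b) : DecidableEq (Site d)) =
        (inferInstance : DecidableEq (Site d)) := Subsingleton.elim _ _
    rw [he] at h
    exact h
  refine h1.trans (h0.trans ?_)
  have h2 := card_sites_le hS
  have h3 : ((sites S).card : ℝ) * p ≤ ((Ys S : ℝ) + 1) ^ d * p :=
    mul_le_mul_of_nonneg_right h2 hp0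
  exact pow_le_pow_left₀ (mul_nonneg (Nat.cast_nonneg _) hp0) h3 m

/-- [BTP-S3] counting: the nonempty boxes `S ≤ Q` of extent `< h` with prescribed levels in the active directions.
PROOF. The map `S ↦ (l ↦ (S (l, true), S (l, true) + S (l, false)))` is injective; the second coordinate is in `[0, h)` (`Ys S < h`, all axis sums `≥ 0`). If `(l, true)` is active the first coordinate is prescribed; if `(l, false)` is active the difference of the coordinates is prescribed: at most `h` values in both cases. If `l` is inactive the first coordinate is in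
`[-Q (l, false), Q (l, true)]` (`sd Q l` values): at most `sd Q l * h` values. (`Fintype.card_piFinset`, `Finset.card_le_card_of_injOn`.) -/
theorem card_S {h : ℕ} {Q : Box d} (hQ : Ne Q) (μ : Rec d) (𝓢 : Finset (Box d))
    (h𝓢 : ∀ S ∈ 𝓢, Ne S ∧ S ≤ Q ∧ Ys S < h ∧ ∀ j, μ.1 j < μ.2 j → S j = μ.2 j) :
    𝓢.card ≤ h ^ d * ∏ l ∈ ina μ, sd Q l := by
  let A : Fin d → Finset (ℤ × ℤ) := fun l =>
    if l ∈ ina μ then (Finset.Icc (-Q (l, false)) (Q (l, true))) ×ˢ (Finset.Ico (0 : ℤ) h)
    else if μ.1 (l, true) < μ.2 (l, true) then {μ.2 (l, true)} ×ˢ (Finset.Ico (0 : ℤ) h)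
    else (Finset.Ico (0 : ℤ) h).image (fun t => (t - μ.2 (l, false), t))
  let φ : Box d → (Fin d → ℤ × ℤ) := fun S l => (S (l, true), S (l, true) + S (l, false))
  have hinj : Set.InjOn φ (𝓢 : Set (Box d)) := by
    intro S _ S' _ hSS
    funext j
    obtain ⟨l, b⟩ := j
    have := congrFun hSS l
    simp only [φ, Prod.mk.injEq] at this
    obtain ⟨h1, h2⟩ := this
    cases b
    · omega
    · exact h1
  have hmap : ∀ S ∈ 𝓢, φ S ∈ Fintype.piFinset A := by
    intro S hS
    obtain ⟨hN, hle, hY, hlev⟩ := h𝓢 S hS
    rw [Fintype.mem_piFinset]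
    intro l
    have h0 : 0 ≤ S (l, true) + S (l, false) := hN l
    have hh : S (l, true) + S (l, false) < (h : ℤ) := by
      have h1 := sd_le_Ys hN l
      have h2 := sd_cast hN l
      omega
    have ht : S (l, true) ≤ Q (l, true) := hle _
    have hf : S (l, false) ≤ Q (l, false) := hle _
    by_cases hl : l ∈ ina μ
    · simp only [A, φ, hl, if_true, Finset.mem_product, Finset.mem_Icc, Finset.mem_Ico]
      refine ⟨⟨by omega, ht⟩, h0, hh⟩
    · by_cases ha : μ.1 (l, true) < μ.2 (l, true)
      · simp only [A, φ, hl, ha, if_true, if_false, Finset.mem_product, Finset.mem_singleton,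
          Finset.mem_Ico]
        exact ⟨hlev _ ha, h0, hh⟩
      · have hb : μ.1 (l, false) < μ.2 (l, false) := by
          simp only [ina, Finset.mem_filter, Finset.mem_univ, true_and, eR] at hl
          omega
        simp only [A, φ, hl, ha, if_false, Finset.mem_image, Finset.mem_Ico]
        refine ⟨S (l, true) + S (l, false), ⟨h0, hh⟩, ?_⟩
        rw [← hlev _ hb]
        simp
  have hcard := Finset.card_le_card_of_injOn φ hmap hinj
  refine hcard.trans ?_
  rw [Fintype.card_piFinset]
  have hA : ∀ l, (A l).card ≤ h * (if l ∈ ina μ then sd Q l else 1) := by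
    intro l
    by_cases hl : l ∈ ina μ
    · simp only [A, hl, if_true, Finset.card_product, Int.card_Icc, Int.card_Ico, sd]
      have : (Q (l, true) + 1 - -Q (l, false)) = Q (l, true) + Q (l, false) + 1 := by ring
      rw [this]
      simp [mul_comm]
    · by_cases ha : μ.1 (l, true) < μ.2 (l, true)
      · simp only [A, hl, ha, if_true, if_false, Finset.card_product, Finset.card_singleton,
          Int.card_Ico]
        simp
      · simp only [A, hl, ha, if_false]
        refine Finset.card_image_le.trans ?_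
        simp
  refine (Finset.prod_le_prod' (fun l _ => hA l)).trans ?_
  rw [Finset.prod_mul_distrib, Finset.prod_const, Finset.card_univ, Fintype.card_fin]
  rw [Finset.prod_ite_mem, Finset.univ_inter]

end BTP
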