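import Pool.Agent.BTP.R1
import Pool.Agent.BTP.S3

set_option autoImplicit false

open scoped Classical
open Finset

namespace BTP

variable {d : ℕ}

/-- the relative weight per unit of growth, times the window -/
noncomputable def th (a : Par d) : ℝ := (a.h : ℝ) ^ d * Real.sqrt (1 + a.Z) / a.Lam

/-- [BTP-S4] lower bound for `β_i`.
PROOF. `exp_neg_gg`, `sqrt_le_bet`, and `1 - e^{-z} ≥ z/(1+z) ≥ z/(1+Z)` for `z ≤ Z`. -/
theorem beta_ge (a : Par d) {Q : Box d} (hQ : a.InD Q) (i : Fin d) :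
    Real.sqrt (a.z Q i / (1 + a.Z)) ≤ Real.exp (-gg (a.z Q i)) := by
  have hz := Par.z_pos a Q i
  have hzZ := hQ.1 i
  set z := a.z Q i with hzdef
  rw [exp_neg_gg hz]
  have hexp : Real.exp (-z) ≤ 1 / (1 + z) := by
    rw [Real.exp_neg, ← one_div]
    apply one_div_le_one_div_of_le (by linarith)
    have := Real.add_one_le_exp z
    linarith
  have h1 : z / (1 + a.Z) ≤ 1 - Real.exp (-z) := by
    calc z / (1 + a.Z) ≤ z / (1 + z) := by
          apply div_le_div_of_nonneg_left hz.le (by linarith) (by linarith)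
      _ = 1 - 1 / (1 + z) := by field_simp; ring
      _ ≤ _ := by linarith
  have h0 : 0 ≤ 1 - Real.exp (-z) := by
    have : Real.exp (-z) ≤ 1 := Real.exp_le_one_iff.mpr (by linarith)
    linarith
  have h2 : 1 - Real.exp (-z) ≤ 1 := by
    have := Real.exp_pos (-z)
    linarith
  exact (Real.sqrt_le_sqrt h1).trans (sqrt_le_bet h0 h2)

/-- a product of numbers `≥ 1` is at least each factor -/
theorem s4_single {ι : Type*} (s : Finset ι) (f : ι → ℝ) (hf : ∀ i, 1 ≤ f i) {i : ι} (hi : i ∈ s) :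
    f i ≤ ∏ l ∈ s, f l := by
  rw [← Finset.mul_prod_erase s f hi]
  have h1 : (1 : ℝ) ≤ ∏ l ∈ s.erase i, f l := by
    calc (1 : ℝ) = ∏ l ∈ s.erase i, (1 : ℝ) := by simp
      _ ≤ _ := Finset.prod_le_prod (fun _ _ => zero_le_one) (fun l _ => hf l)
  have h0 := hf i
  nlinarith

/-- [BTP-S4] the weight of a record.
PROOF. Let `e i = eR μ (i, true) + eR μ (i, false)`, `E = ∑ e i = ∑ j, eR μ j`, `I = {i | e i ≠ 0}` (complement of `ina μ`); by `RecOK` `|I| ≥ 2`, so `E ≥ 2`. `N = ∏_{l ∈ ina μ} X_l ≥ 1`, `M_i = Mi (X Q) i`. For `i ∈ I`: `∏_{l ≠ i} X_l = N ∏_{l ∈ I, l ≠ i} X_l ≥ N M_i` (the product over `I ∖ {i} ≠ ∅` of numbers `≥ M_i`, all `≥ 1`), so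
`z_i ≥ q N M_i` and by `beta_ge` `β_i^{e_i} ≥ √(q N M_i/(1+Z))^{e_i}`. Since `p ≤ q`, with `√(h^d p) ≤ √(h^d q)`:
`h^d √(h^d q)^E N = h^d √(h^d(1+Z))^E N · √(q/(1+Z))^E = h^d √(h^d (1+Z))^E · N · N^{-E/2} ∏ M_i^{-e_i/2} · ∏_i √(q N M_i/(1+Z))^{e_i}`,
`N^{1-E/2} ≤ 1`, `√M_i = Lam w_i`, and `h^d √(h^d)^E ≤ (h^d)^E` as `E ≥ 2`; so the left side is `≤ ∏_i (h^d √(1+Z)/(Lam w_i))^{e_i} ∏_i β_i^{e_i}`. (Only `i ∈ I` matter in the products, `e_i = 0` otherwise; the product over `j : Dir d` is the product over `i` of the two directions, `pow_add`, `Fintype.prod_prod_type`.) -/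
theorem weight (a : Par d) {T Q : Box d} (hT : Ne T) (hTQ : T ≤ Q) (hQ : a.InD Q) (μ : Rec d)
    (hμ : RecOK T Q μ) :
    (a.h : ℝ) ^ d * Real.sqrt ((a.h : ℝ) ^ d * a.p) ^ (∑ j, eR μ j) * ∏ l ∈ ina μ, (sd Q l : ℝ) ≤
      (∏ j : Dir d, (th a / a.w Q j.1) ^ eR μ j) *
        ∏ i : Fin d, Real.exp (-gg (a.z Q i)) ^ (eR μ (i, true) + eR μ (i, false)) := by
  have hX1 : ∀ l, 1 ≤ a.X Q l := fun l => by
    have h1 := Par.X_ge a Q l
    have h2 := a.hH1
    linarith
  have hX0 : ∀ l, 0 < a.X Q l := fun l => Par.X_pos a Q l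
  have hLam : 0 < a.Lam := by
    have := Par.Lam_ge a
    linarith
  have hZ : 0 < 1 + a.Z := by
    have := a.hZ1
    linarith
  have hw : ∀ i, 0 < a.w Q i := fun i => by
    have h2 := Par.w_ge a Q i
    have h3 : (0 : ℝ) ≤ a.h := Nat.cast_nonneg _
    linarith
  have hh1 : (1 : ℝ) ≤ (a.h : ℝ) ^ d := by
    apply one_le_pow₀
    exact_mod_cast a.hh
  set N : ℝ := ∏ l ∈ ina μ, a.X Q l with hN
  have hN1 : 1 ≤ N := by
    calc (1 : ℝ) = ∏ l ∈ ina μ, (1 : ℝ) := by simp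
      _ ≤ _ := Finset.prod_le_prod (fun _ _ => zero_le_one) (fun l _ => hX1 l)
  -- the two sums
  have hsum : ∑ j, eR μ j = ∑ i : Fin d, (eR μ (i, true) + eR μ (i, false)) := by
    rw [Fintype.sum_prod_type]
    simp
  have hprod : (∏ j : Dir d, (th a / a.w Q j.1) ^ eR μ j) =
      ∏ i : Fin d, (th a / a.w Q i) ^ (eR μ (i, true) + eR μ (i, false)) := by
    rw [Fintype.prod_prod_type]
    simp [pow_add]
  -- `E ≥ 2`
  obtain ⟨j, j', hjj, hj, hj'⟩ := hμ.2
  have hej : 1 ≤ eR μ j := by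
    unfold eR
    omega
  have hej' : 1 ≤ eR μ j' := by
    unfold eR
    omega
  have hne : j ≠ j' := fun h => hjj (by rw [h])
  have hE : 2 ≤ ∑ j, eR μ j := by
    have h1 : ∑ x ∈ ({j, j'} : Finset (Dir d)), eR μ x ≤ ∑ j, eR μ j :=
      Finset.sum_le_sum_of_subset (Finset.subset_univ _)
    rw [Finset.sum_pair hne] at h1
    omega
  have hina : ∀ j : Dir d, 1 ≤ eR μ j → j.1 ∉ ina μ := by
    intro j hj h
    unfold ina at h
    rw [Finset.mem_filter] at h
    obtain ⟨_, h1, h2⟩ := h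
    obtain ⟨i, b⟩ := j
    cases b
    · simp only at h1 h2 hj
      omega
    · simp only at h1 h2 hj
      omega
  -- the faces
  have hface : ∀ i, eR μ (i, true) + eR μ (i, false) ≠ 0 →
      a.q * N * Mi (a.X Q) i ≤ a.z Q i := by
    intro i hi
    have hi0 : i ∉ ina μ := by
      intro h
      unfold ina at h
      rw [Finset.mem_filter] at h
      obtain ⟨_, h1, h2⟩ := h
      omega
    obtain ⟨l, hl, hli⟩ : ∃ l, l ≠ i ∧ l ∉ ina μ := by
      by_cases h : j.1 = i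
      · exact ⟨j'.1, fun h' => hjj (by rw [h, h']), hina j' hej'⟩
      · exact ⟨j.1, h, hina j hej⟩
    have hsub : ina μ ⊆ Finset.univ.erase i := by
      intro x hx
      rw [Finset.mem_erase]
      exact ⟨fun h => hi0 (h ▸ hx), Finset.mem_univ _⟩
    have h1 : (∏ x ∈ Finset.univ.erase i \ ina μ, a.X Q x) * N =
        ∏ x ∈ Finset.univ.erase i, a.X Q x := Finset.prod_sdiff hsub
    have h2 : a.X Q l ≤ ∏ x ∈ Finset.univ.erase i \ ina μ, a.X Q x :=
      s4_single _ _ hX1 (by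
        rw [Finset.mem_sdiff, Finset.mem_erase]
        exact ⟨⟨hl, Finset.mem_univ _⟩, hli⟩)
    have h3 := (Par.Mi_spec a Q i).2 l hl
    have hq := a.hq
    change a.q * N * Mi (a.X Q) i ≤ a.q * ∏ x ∈ Finset.univ.erase i, a.X Q x
    rw [← h1, mul_assoc]
    apply mul_le_mul_of_nonneg_left _ hq.le
    rw [mul_comm]
    apply mul_le_mul_of_nonneg_right (h3.trans h2) (by linarith)
  -- each factor
  have hfac : ∀ i, ((a.h : ℝ) ^ d * Real.sqrt (a.q * N)) ^ (eR μ (i, true) + eR μ (i, false)) ≤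
      (th a / a.w Q i) ^ (eR μ (i, true) + eR μ (i, false)) *
        Real.exp (-gg (a.z Q i)) ^ (eR μ (i, true) + eR μ (i, false)) := by
    intro i
    by_cases hi : eR μ (i, true) + eR μ (i, false) = 0
    · rw [hi]; simp
    rw [← mul_pow]
    apply pow_le_pow_left₀ (by positivity)
    have hf := hface i hi
    have hM : 0 < Mi (a.X Q) i := by
      have h1 := Par.Mi_ge a Q i
      have h2 := a.hH1
      linarith
    have hq := a.hq
    have hb := beta_ge a hQ i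
    have hth : th a / a.w Q i = (a.h : ℝ) ^ d * Real.sqrt (1 + a.Z) / Real.sqrt (Mi (a.X Q) i) := by
      unfold th
      rw [show a.w Q i = Real.sqrt (Mi (a.X Q) i) / a.Lam from rfl]
      have hs : 0 < Real.sqrt (Mi (a.X Q) i) := Real.sqrt_pos.mpr hM
      field_simp
    have hthp : 0 ≤ th a / a.w Q i := by
      rw [hth]; positivity
    refine le_trans ?_ (mul_le_mul_of_nonneg_left hb hthp)
    rw [hth]
    have h1 : Real.sqrt (a.q * N) ≤ Real.sqrt (1 + a.Z) / Real.sqrt (Mi (a.X Q) i) *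
        Real.sqrt (a.z Q i / (1 + a.Z)) := by
      rw [← Real.sqrt_div' _ hM.le, ← Real.sqrt_mul (by positivity)]
      apply Real.sqrt_le_sqrt
      rw [show (1 + a.Z) / Mi (a.X Q) i * (a.z Q i / (1 + a.Z)) = a.z Q i / Mi (a.X Q) i by
        field_simp]
      rw [le_div_iff₀ hM]
      exact hf
    calc (a.h : ℝ) ^ d * Real.sqrt (a.q * N)
        ≤ (a.h : ℝ) ^ d * (Real.sqrt (1 + a.Z) / Real.sqrt (Mi (a.X Q) i) *
            Real.sqrt (a.z Q i / (1 + a.Z))) := mul_le_mul_of_nonneg_left h1 (by positivity)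
      _ = _ := by ring
  -- assemble
  have hright : ((a.h : ℝ) ^ d * Real.sqrt (a.q * N)) ^ (∑ j, eR μ j) ≤
      (∏ j : Dir d, (th a / a.w Q j.1) ^ eR μ j) *
        ∏ i : Fin d, Real.exp (-gg (a.z Q i)) ^ (eR μ (i, true) + eR μ (i, false)) := by
    rw [hprod, ← Finset.prod_mul_distrib, hsum, ← Finset.prod_pow_eq_pow_sum]
    apply Finset.prod_le_prod
    · intro i _
      have hq := a.hq
      positivity
    · intro i _
      exact hfac i
  refine le_trans ?_ hright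
  set E := ∑ j, eR μ j with hEdef
  have hq := a.hq
  have hp0 := Par.p_nonneg a
  have hpq := Par.p_le_q a
  have hprodle : ∏ l ∈ ina μ, (sd Q l : ℝ) ≤ N :=
    Finset.prod_le_prod (fun _ _ => Nat.cast_nonneg _) (fun l _ => Par.X_ge_sd a Q l)
  set s := Real.sqrt ((a.h : ℝ) ^ d) with hs
  have hs1 : 1 ≤ s := by
    rw [hs]
    exact Real.one_le_sqrt.mpr hh1
  have hs2 : s ^ 2 = (a.h : ℝ) ^ d := Real.sq_sqrt (by linarith)
  set r := Real.sqrt N with hr
  have hr1 : 1 ≤ r := by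
    rw [hr]
    exact Real.one_le_sqrt.mpr hN1
  have hr2 : r ^ 2 = N := Real.sq_sqrt (by linarith)
  have hsq : 0 ≤ Real.sqrt a.q := Real.sqrt_nonneg _
  obtain ⟨k, hk⟩ : ∃ k, E = 2 + k := ⟨E - 2, by omega⟩
  calc (a.h : ℝ) ^ d * Real.sqrt ((a.h : ℝ) ^ d * a.p) ^ E * ∏ l ∈ ina μ, (sd Q l : ℝ)
      ≤ (a.h : ℝ) ^ d * Real.sqrt ((a.h : ℝ) ^ d * a.q) ^ E * N := by
        apply mul_le_mul _ hprodle (Finset.prod_nonneg (fun _ _ => Nat.cast_nonneg _)) (by positivity)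
        apply mul_le_mul_of_nonneg_left _ (by positivity)
        apply pow_le_pow_left₀ (Real.sqrt_nonneg _)
        apply Real.sqrt_le_sqrt
        apply mul_le_mul_of_nonneg_left hpq (by positivity)
    _ = s ^ 2 * (s * Real.sqrt a.q) ^ E * r ^ 2 := by
        rw [hs2, hr2, Real.sqrt_mul (by positivity)]
    _ = (s * Real.sqrt a.q) ^ E * (s ^ 2 * r ^ 2) := by ring
    _ ≤ (s * Real.sqrt a.q) ^ E * (s ^ E * r ^ E) := by
        apply mul_le_mul_of_nonneg_left _ (by positivity)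
        apply mul_le_mul _ _ (by positivity) (by positivity)
        · exact pow_le_pow_right₀ hs1 (by omega)
        · exact pow_le_pow_right₀ hr1 (by omega)
    _ = ((s ^ 2) * (Real.sqrt a.q * r)) ^ E := by
        rw [mul_pow, mul_pow, mul_pow, ← pow_mul]; ring
    _ = ((a.h : ℝ) ^ d * Real.sqrt (a.q * N)) ^ E := by
        rw [hs2, Real.sqrt_mul hq.le]

end BTP
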