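import Pool.Agent.BTP.S3

set_option autoImplicit false

open scoped Classical
open Finset

namespace BTP

variable {d : ℕ}

/-- [BTP-S9] probability of a record.
PROOF. For `U ⊆ sites W0`, `Clu h Q μ U` implies `∃ S ∈ 𝓢, IG S U`, `𝓢` = the boxes in `Finset.Icc (fun j => - Q (opp j)) Q` with `Ne S`, `Ys S < h`, the prescribed levels, and `E ≤ Ys S + 2` (`E = ∑ eR`; all differences are `≥ 0` by `RecOK`). `Pr_union`, `card_S`. For each `S`: `Pr_IG_le` with `m = ⌈(Ys S + 2)/2⌉` (so `E ≤ 2m`): `((Ys S + 1)^d p)^m ≤ (h^d p)^m ≤ √(h^d p)^E`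
(`Ys S + 1 ≤ h`, `h^d p ≤ 1`, `(h^d p)^m = √(h^d p)^(2m)`). -/
theorem Pr_Clu {p : ℝ} (hp0 : 0 ≤ p) (hp1 : p ≤ 1) {h : ℕ} (hh : 1 ≤ h) (hhp : (h : ℝ) ^ d * p ≤ 1)
    {W0 T Q : Box d} (hT : Ne T) (hTQ : T ≤ Q) (hQ : Q ≤ W0) (μ : Rec d) (hμ : RecOK T Q μ) :
    Pr (sites W0) p (Clu h Q μ) ≤
      (h : ℝ) ^ d * Real.sqrt ((h : ℝ) ^ d * p) ^ (∑ j, eR μ j) * ∏ l ∈ ina μ, (sd Q l : ℝ) := by
  have hQne : Ne Q := hT.mono hTQ
  have hE : ((∑ j, eR μ j : ℕ) : ℤ) = ∑ j, (μ.2 j - μ.1 j) := by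
    push_cast
    apply Finset.sum_congr rfl
    intro j _
    unfold eR
    rcases hμ.1 j with ⟨h2, h3⟩ | ⟨h2, h3, h4⟩
    · rw [h2, h3]; simp
    · omega
  set E := ∑ j, eR μ j with hEdef
  set 𝓢 : Finset (Box d) := (Finset.Icc (fun j => - Q (opp j)) Q).filter (fun S => Ne S ∧
    Ys S < h ∧ (∀ j, μ.1 j < μ.2 j → S j = μ.2 j) ∧ ∑ j, (μ.2 j - μ.1 j) ≤ Ys S + 2) with h𝓢
  have hcard := card_S (h := h) hQne μ 𝓢 (by
    intro S hS
    rw [h𝓢, Finset.mem_filter, Finset.mem_Icc] at hS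
    exact ⟨hS.2.1, hS.1.2, hS.2.2.1, hS.2.2.2.1⟩)
  have h1 : Pr (sites W0) p (Clu h Q μ) ≤ Pr (sites W0) p (fun U => ∃ S ∈ 𝓢, IG S U) := by
    apply Pr_mono hp0 hp1
    rintro U _ ⟨S, W, hWU, hg, hYS, hSQ, hlev, hsum⟩
    refine ⟨S, ?_, W, hWU, hg⟩
    rw [h𝓢, Finset.mem_filter, Finset.mem_Icc]
    refine ⟨⟨?_, hSQ⟩, hg.ne, hYS, hlev, hsum⟩
    intro j
    have hne := hg.ne j.1
    have h2 := hSQ (opp j)
    obtain ⟨i, b⟩ := j
    cases b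
    · simp only [opp, Bool.not_false] at h2 ⊢
      simp only at hne
      linarith
    · simp only [opp, Bool.not_true] at h2 ⊢
      simp only at hne
      linarith
  refine h1.trans ((Pr_union hp0 hp1 _ _).trans ?_)
  set s := Real.sqrt ((h : ℝ) ^ d * p) with hs
  have hs0 : 0 ≤ s := Real.sqrt_nonneg _
  have hs1 : s ≤ 1 := by
    rw [hs]
    exact Real.sqrt_le_one.mpr hhp
  have hs2 : s ^ 2 = (h : ℝ) ^ d * p := Real.sq_sqrt (by positivity)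
  have hterm : ∀ S ∈ 𝓢, Pr (sites W0) p (IG S) ≤ s ^ E := by
    intro S hS
    rw [h𝓢, Finset.mem_filter, Finset.mem_Icc] at hS
    obtain ⟨_, hSne, hYS, _, hsum⟩ := hS
    have hY0 := Ys_nonneg hSne
    rw [← hE] at hsum
    have hm := Pr_IG_le hp0 hp1 (sites W0) S hSne ((Ys S + 3) / 2).toNat (by omega)
    have hEm : E ≤ 2 * ((Ys S + 3) / 2).toNat := by omega
    refine hm.trans ?_
    have hY1 : (0 : ℝ) ≤ (Ys S : ℝ) := by exact_mod_cast hY0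
    have hYh : (Ys S : ℝ) + 1 ≤ (h : ℝ) := by
      have : Ys S + 1 ≤ (h : ℤ) := by omega
      exact_mod_cast this
    calc (((Ys S : ℝ) + 1) ^ d * p) ^ ((Ys S + 3) / 2).toNat
        ≤ ((h : ℝ) ^ d * p) ^ ((Ys S + 3) / 2).toNat := by
          apply pow_le_pow_left₀ (by positivity)
          apply mul_le_mul_of_nonneg_right _ hp0
          apply pow_le_pow_left₀ (by positivity) hYh
      _ = s ^ (2 * ((Ys S + 3) / 2).toNat) := by rw [pow_mul, hs2]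
      _ ≤ s ^ E := pow_le_pow_of_le_one hs0 hs1 hEm
  calc ∑ S ∈ 𝓢, Pr (sites W0) p (IG S) ≤ ∑ S ∈ 𝓢, s ^ E := Finset.sum_le_sum hterm
    _ = (𝓢.card : ℝ) * s ^ E := by rw [Finset.sum_const, nsmul_eq_mul]
    _ ≤ ((h : ℝ) ^ d * ∏ l ∈ ina μ, (sd Q l : ℝ)) * s ^ E := by
        apply mul_le_mul_of_nonneg_right _ (pow_nonneg hs0 _)
        have : ((𝓢.card : ℕ) : ℝ) ≤ ((h ^ d * ∏ l ∈ ina μ, sd Q l : ℕ) : ℝ) := by
          exact_mod_cast hcard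
        push_cast at this
        exact this
    _ = _ := by ring

end BTP
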