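import Pool.Agent.BTP.S2
import Pool.Agent.BTP.S4
import Pool.Agent.BTP.S9

set_option autoImplicit false

open scoped Classical
open Finset

namespace BTP

variable {d : ℕ}

/-- the factors are in `(0, 1]` -/
theorem s7_b_pos (a : Par d) (Q : Box d) (i : Fin d) : 0 < Real.exp (-gg (a.z Q i)) := Real.exp_pos _

theorem s7_b_le (a : Par d) (Q : Box d) (i : Fin d) : Real.exp (-gg (a.z Q i)) ≤ 1 := by
  rw [Real.exp_le_one_iff, neg_nonpos]
  exact gg_nonneg (a.z_pos Q i)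

theorem s7_cross (a : Par d) {W0 T Q : Box d} (hQ : Q ≤ W0) (hT : Ne T) (hTQ : T ≤ Q)
    (M : Finset (Rec d)) (i : Fin d) :
    Pr (sites W0) a.p (Cross T Q M i) ≤ Real.exp (-gg (a.z Q i)) ^
      ((free T Q M (i, true)).card + (free T Q M (i, false)).card) := by
  refine le_trans (Pr_Cross a.p_nonneg a.p_le_one hT hTQ hQ M i) ?_
  have h1 : (1 - a.p) = Real.exp (-a.q) := by rw [a.hp]; ring
  have h2 : a.q * ((∏ l ∈ Finset.univ.erase i, sd Q l : ℕ) : ℝ) ≤ a.z Q i := by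
    unfold Par.z face
    refine mul_le_mul_of_nonneg_left ?_ a.hq.le
    rw [Nat.cast_prod]
    exact Finset.prod_le_prod (fun l _ => Nat.cast_nonneg _) fun l _ => a.X_ge_sd Q l
  have h3 : (1 - a.p) ^ (∏ l ∈ Finset.univ.erase i, sd Q l) =
      Real.exp (-(a.q * ((∏ l ∈ Finset.univ.erase i, sd Q l : ℕ) : ℝ))) := by
    rw [h1, ← Real.exp_nat_mul]
    congr 1
    ring
  have h4 : 0 ≤ a.q * ((∏ l ∈ Finset.univ.erase i, sd Q l : ℕ) : ℝ) :=
    mul_nonneg a.hq.le (Nat.cast_nonneg _)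
  rw [exp_neg_gg (a.z_pos Q i), h3]
  have h5 : 0 ≤ 1 - Real.exp (-(a.q * ((∏ l ∈ Finset.univ.erase i, sd Q l : ℕ) : ℝ))) := by
    rw [sub_nonneg, Real.exp_le_one_iff]
    linarith
  refine pow_le_pow_left₀ (bet_nonneg h5) (bet_mono h5 ?_ ?_) _
  · have := Real.exp_le_exp.2 (neg_le_neg h2)
    linarith
  · have := Real.exp_pos (-a.z Q i)
    linarith

theorem s7_sd {T Q : Box d} (hT : Ne T) (hTQ : T ≤ Q) (i : Fin d) :
    (sd Q i : ℤ) - sd T i = (Q (i, true) - T (i, true)) + (Q (i, false) - T (i, false)) := by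
  have h1 : 0 ≤ T (i, true) + T (i, false) := hT i
  have h2 : T (i, true) ≤ Q (i, true) := hTQ (i, true)
  have h3 : T (i, false) ≤ Q (i, false) := hTQ (i, false)
  unfold sd
  omega

theorem s7_count {T Q : Box d} (hT : Ne T) (hTQ : T ≤ Q) (M : Finset (Rec d))
    (hM : ∀ μ ∈ M, RecOK T Q μ) (i : Fin d) :
    (sd Q i : ℝ) - sd T i ≤
      (((free T Q M (i, true)).card + (free T Q M (i, false)).card +
        ∑ μ ∈ M, (eR μ (i, true) + eR μ (i, false)) : ℕ) : ℝ) := by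
  have h1 := card_free hTQ M hM (i, true)
  have h2 := card_free hTQ M hM (i, false)
  have h3 := s7_sd hT hTQ i
  have h4 : ∀ j : Dir d, ∑ μ ∈ M, (μ.2 j - μ.1 j) ≤ ((∑ μ ∈ M, eR μ j : ℕ) : ℤ) := by
    intro j
    rw [Nat.cast_sum]
    exact Finset.sum_le_sum fun μ _ => Int.self_le_toNat _
  have h5 := h4 (i, true)
  have h6 := h4 (i, false)
  have h7 : (sd Q i : ℤ) - sd T i ≤
      (((free T Q M (i, true)).card + (free T Q M (i, false)).card +
        ∑ μ ∈ M, (eR μ (i, true) + eR μ (i, false)) : ℕ) : ℤ) := by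
    rw [Finset.sum_add_distrib]
    push_cast at h5 h6 ⊢
    linarith
  exact_mod_cast h7

/-- [BTP-S7] one set of records.
PROOF. `b i = exp(-g(z_i)) ∈ (0, 1]`. `Pr_Cross`: `1 - (1-p)^n = 1 - e^{-q n} ≤ 1 - e^{-z_i}` for `n = ∏_{l≠i} sd Q l` (`hp`, `q n ≤ z_i` by `X_ge_sd`), `bet_mono`, `exp_neg_gg`: `Pr (Cross) ≤ b i ^ (|free (i,+)| + |free (i,-)|)`, and by `card_free` (for both directions)
`(sd Q i - sd T i) ≤ |free (i,+)| + |free (i,-)| + ∑_{μ ∈ M} (eR μ (i,+) + eR μ (i,-))`, so (`b i ≤ 1`) `b i ^ |free..| · ∏_{μ ∈ M} b i ^ (eR μ (i,+) + eR μ (i,-)) ≤ b i ^ (sd Q i - sd T i)`.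
With `Pr_Clu` and `weight` for each `μ ∈ M` the product is at most `∏_μ (∏_j (th/w)^eR) · ∏_μ ∏_i b i ^ e_i(μ) · ∏_i b i ^ |free|`. -/
theorem one_M (a : Par d) {W0 T Q : Box d} (hQ : Q ≤ W0) (hQD : a.InD Q) (hT : Ne T) (hTQ : T ≤ Q)
    (M : Finset (Rec d)) (hM : ∀ μ ∈ M, RecOK T Q μ) :
    (∏ μ ∈ M, Pr (sites W0) a.p (Clu a.h Q μ)) * ∏ i : Fin d, Pr (sites W0) a.p (Cross T Q M i) ≤
      (∏ μ ∈ M, ∏ j : Dir d, (th a / a.w Q j.1) ^ eR μ j) *
        Real.exp (-∑ i, ((sd Q i : ℝ) - sd T i) * gg (a.z Q i)) := by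
  have hp0 := a.p_nonneg
  have hp1 := a.p_le_one
  have h1 : ∀ μ ∈ M, Pr (sites W0) a.p (Clu a.h Q μ) ≤
      (∏ j : Dir d, (th a / a.w Q j.1) ^ eR μ j) *
        ∏ i : Fin d, Real.exp (-gg (a.z Q i)) ^ (eR μ (i, true) + eR μ (i, false)) := by
    intro μ hμ
    exact le_trans (Pr_Clu hp0 hp1 a.hh a.hhp hT hTQ hQ μ (hM μ hμ)) (weight a hT hTQ hQD μ (hM μ hμ))
  have h2 : (∏ μ ∈ M, Pr (sites W0) a.p (Clu a.h Q μ)) ≤
      (∏ μ ∈ M, ∏ j : Dir d, (th a / a.w Q j.1) ^ eR μ j) *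
        ∏ μ ∈ M, ∏ i : Fin d, Real.exp (-gg (a.z Q i)) ^ (eR μ (i, true) + eR μ (i, false)) := by
    rw [← Finset.prod_mul_distrib]
    exact Finset.prod_le_prod (fun μ _ => Pr_nonneg hp0 hp1) h1
  have h3 : (∏ i : Fin d, Pr (sites W0) a.p (Cross T Q M i)) ≤
      ∏ i : Fin d, Real.exp (-gg (a.z Q i)) ^
        ((free T Q M (i, true)).card + (free T Q M (i, false)).card) :=
    Finset.prod_le_prod (fun i _ => Pr_nonneg hp0 hp1) fun i _ => s7_cross a hQ hT hTQ M i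
  have hth : 0 ≤ th a := by
    unfold th
    have := a.Lam_ge
    positivity
  have hw : ∀ i, 0 ≤ a.w Q i := by
    intro i
    have h4 := a.w_ge Q i
    have h5 : (0 : ℝ) ≤ a.h := Nat.cast_nonneg _
    linarith
  have h4 : 0 ≤ ∏ μ ∈ M, ∏ j : Dir d, (th a / a.w Q j.1) ^ eR μ j :=
    Finset.prod_nonneg fun μ _ => Finset.prod_nonneg fun j _ => pow_nonneg (div_nonneg hth (hw j.1)) _
  have h5 : (∏ μ ∈ M, ∏ i : Fin d, Real.exp (-gg (a.z Q i)) ^ (eR μ (i, true) + eR μ (i, false))) *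
      ∏ i : Fin d, Real.exp (-gg (a.z Q i)) ^
        ((free T Q M (i, true)).card + (free T Q M (i, false)).card) ≤
      Real.exp (-∑ i, ((sd Q i : ℝ) - sd T i) * gg (a.z Q i)) := by
    rw [Finset.prod_comm, ← Finset.prod_mul_distrib, ← Finset.sum_neg_distrib, Real.exp_sum]
    refine Finset.prod_le_prod (fun i _ => ?_) fun i _ => ?_
    · exact mul_nonneg (Finset.prod_nonneg fun μ _ => pow_nonneg (s7_b_pos a Q i).le _)
        (pow_nonneg (s7_b_pos a Q i).le _)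
    · rw [Finset.prod_pow_eq_pow_sum, ← pow_add, ← Real.exp_nat_mul, Real.exp_le_exp]
      have h6 := s7_count hT hTQ M hM i
      have h7 := gg_nonneg (a.z_pos Q i)
      have h8 := mul_le_mul_of_nonneg_right h6 h7
      push_cast at h8 ⊢
      linarith
  calc (∏ μ ∈ M, Pr (sites W0) a.p (Clu a.h Q μ)) * ∏ i : Fin d, Pr (sites W0) a.p (Cross T Q M i)
      ≤ ((∏ μ ∈ M, ∏ j : Dir d, (th a / a.w Q j.1) ^ eR μ j) *
        ∏ μ ∈ M, ∏ i : Fin d, Real.exp (-gg (a.z Q i)) ^ (eR μ (i, true) + eR μ (i, false))) *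
        ∏ i : Fin d, Real.exp (-gg (a.z Q i)) ^
        ((free T Q M (i, true)).card + (free T Q M (i, false)).card) := by
        refine mul_le_mul h2 h3 (Finset.prod_nonneg fun i _ => Pr_nonneg hp0 hp1) ?_
        exact mul_nonneg h4 (Finset.prod_nonneg fun μ _ => Finset.prod_nonneg fun i _ =>
          pow_nonneg (s7_b_pos a Q i).le _)
    _ = (∏ μ ∈ M, ∏ j : Dir d, (th a / a.w Q j.1) ^ eR μ j) *
        ((∏ μ ∈ M, ∏ i : Fin d, Real.exp (-gg (a.z Q i)) ^ (eR μ (i, true) + eR μ (i, false))) *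
        ∏ i : Fin d, Real.exp (-gg (a.z Q i)) ^
        ((free T Q M (i, true)).card + (free T Q M (i, false)).card)) := by ring
    _ ≤ _ := mul_le_mul_of_nonneg_left h5 h4

end BTP
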