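import Pool.Agent.BTP.S5
import Pool.Agent.BTP.S6
import Pool.Agent.BTP.S7

set_option autoImplicit false

open scoped Classical
open Finset

namespace BTP

variable {d : ℕ}

/-- [BTP-S8] the probability of small growth.
PROOF. `Pr_SGe_le`, `one_M`, `Finset.prod_one_add` (`∏ (1 + f) = ∑_{M ⊆ s} ∏_{M} f`), `1 + x ≤ exp x`, `Real.exp_sum`, `sum_rec` (`16 d th ≤ 1` by `hLam`; `Q j - T j ≤ sd Q - sd T ≤ 2 w`: `dir_sub_le`, `Win`; `1 ≤ w` by `w_ge`). -/
theorem Pr_SGe (a : Par d) {W0 T Q : Box d} (hQ : Q ≤ W0) (hQD : a.InD Q) (hw : a.Win T Q) :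
    Pr (sites W0) a.p (SGe a.h T Q) ≤
      Real.exp 2 * Real.exp (-∑ i, ((sd Q i : ℝ) - sd T i) * gg (a.z Q i)) := by
  obtain ⟨hT, hTQ, hwin⟩ := hw
  have hLam : 0 < a.Lam := lt_of_lt_of_le one_pos a.Lam_ge
  have hw1 : ∀ i, 1 ≤ a.w Q i := by
    intro i
    have h1 := a.w_ge Q i
    have h2 : (0 : ℝ) ≤ a.h := Nat.cast_nonneg _
    linarith
  have hth0 : 0 ≤ th a := by
    unfold th
    exact div_nonneg (mul_nonneg (pow_nonneg (Nat.cast_nonneg _) _) (Real.sqrt_nonneg _)) hLam.le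
  have hth : 16 * d * th a ≤ 1 := by
    unfold th
    rw [← mul_div_assoc, div_le_one hLam]
    have := a.hLam
    linarith
  have hw2 : ∀ j : Dir d, ((Q j : ℝ) - T j) ≤ 2 * a.w Q j.1 := by
    intro j
    refine le_trans ?_ (hwin j.1)
    have := dir_sub_le hT hTQ j
    exact_mod_cast this
  have hd : 1 ≤ d := le_trans (by norm_num) a.hd
  set f : Rec d → ℝ := fun μ => ∏ j : Dir d, (th a / a.w Q j.1) ^ eR μ j with hf
  set E : ℝ := Real.exp (-∑ i, ((sd Q i : ℝ) - sd T i) * gg (a.z Q i)) with hE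
  have hE0 : 0 ≤ E := (Real.exp_pos _).le
  have hf0 : ∀ μ, 0 ≤ f μ := by
    intro μ
    refine Finset.prod_nonneg fun j _ => pow_nonneg (div_nonneg hth0 ?_) _
    linarith [hw1 j.1]
  have hsum : ∑ μ ∈ allRec T Q, f μ ≤ 2 :=
    sum_rec hd hTQ (a.w Q) hw1 hw2 hth0 hth (allRec T Q) (fun μ hμ => mem_allRec.1 hμ)
  calc Pr (sites W0) a.p (SGe a.h T Q)
      ≤ ∑ M ∈ (allRec T Q).powerset,
        (∏ μ ∈ M, Pr (sites W0) a.p (Clu a.h Q μ)) * ∏ i : Fin d, Pr (sites W0) a.p (Cross T Q M i) :=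
        Pr_SGe_le a.p_nonneg a.hp2 hT
    _ ≤ ∑ M ∈ (allRec T Q).powerset, (∏ μ ∈ M, f μ) * E := by
        refine Finset.sum_le_sum fun M hM => ?_
        exact one_M a hQ hQD hT hTQ M (fun μ hμ => mem_allRec.1 (Finset.mem_powerset.1 hM hμ))
    _ = (∏ μ ∈ allRec T Q, (1 + f μ)) * E := by
        rw [← Finset.sum_mul, Finset.prod_one_add]
    _ ≤ (∏ μ ∈ allRec T Q, Real.exp (f μ)) * E := by
        refine mul_le_mul_of_nonneg_right ?_ hE0
        refine Finset.prod_le_prod (fun μ _ => by linarith [hf0 μ]) fun μ _ => ?_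
        rw [add_comm]
        exact Real.add_one_le_exp _
    _ = Real.exp (∑ μ ∈ allRec T Q, f μ) * E := by rw [Real.exp_sum]
    _ ≤ Real.exp 2 * E := mul_le_mul_of_nonneg_right (Real.exp_le_exp.2 hsum) hE0

end BTP
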