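import Pool.Agent.BTP.V5

set_option autoImplicit false

open scoped Classical
open Finset

namespace BTP

variable {d : ℕ} (a : Par d)

/-- [BTP-V6] the gain.
PROOF. Let `M = Mi (X Q) i`, `w = √M/Lam`, `κ = (K/2)/√M`; `κ ≤ 1` (`K/2 ≤ √H₁ ≤ √M`), and `z = z Q i`. By hypothesis `q R ≥ z(1+κ)`. If `z ≤ 1/8`: `gg_gain`: `g(qR) ≤ g(z(1+κ)) ≤ g(z) - κ/5`, `κ/5 = K/(10 √M) = K/(10 Lam w) ≥ P/w` (`hgain`); `G R = max (g(qR) - c) 0 ≤ g(z) - P/w` (also for the `0`: `g(z) ≥ κ/5` as `g ≥ 0`).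
If `z > 1/8`: `∏_{l≠i} X_l > A^{d-1}/8` (`hqA`), each `X_l ≤ B` (`InD`, `hHB`), so `M B^{d-2} > A^{d-1}/8`; `w² = M/Lam²`, so by `hc1` `c² w² ≥ 4P²`, i.e. `P/w ≤ c/2`; `g(z) ≥ g(Z) = c/2` (`z ≤ Z`), `G R ≤ max (g(z) - c) 0 ≤ g(z) - c/2`. -/
theorem Par.gain {Q : Box d} (hQ : Ne Q) (hD : a.InD Q) (i : Fin d) {R : ℝ}
    (hR : a.z Q i * (1 + a.K / 2 / Real.sqrt (Mi (a.X Q) i)) ≤ a.q * R) :
    a.G R ≤ gg (a.z Q i) - a.P / a.w Q i := by
  have hMge := a.Mi_ge Q i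
  have hH1 := a.hH1
  set M := Mi (a.X Q) i with hM
  have hMpos : 0 < M := by linarith
  have hsM : 0 < Real.sqrt M := Real.sqrt_pos.mpr hMpos
  have hKpos : 0 < a.K := by linarith [a.hK]
  have hLam : 0 < a.Lam := lt_of_lt_of_le one_pos a.Lam_ge
  have hPpos := a.hP
  have hcpos := a.hc
  have hw : a.w Q i = Real.sqrt M / a.Lam := rfl
  have hPw : a.P / a.w Q i = a.P * a.Lam / Real.sqrt M := by
    rw [hw]; field_simp
  have hKM : a.K ≤ Real.sqrt M := by
    apply Real.le_sqrt_of_sq_le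
    linarith [a.hKH]
  set k := a.K / 2 / Real.sqrt M with hk
  have hk0 : 0 ≤ k := by positivity
  have hk1 : k ≤ 1 := by
    rw [hk, div_le_one hsM]
    linarith
  have hz : 0 < a.z Q i := a.z_pos Q i
  have hz1 : 0 < a.z Q i * (1 + k) := by positivity
  have hgR : gg (a.q * R) ≤ gg (a.z Q i * (1 + k)) := gg_anti hz1 hR
  have hG : a.G R = max (gg (a.q * R) - a.c) 0 := rfl
  rw [hG, hPw]
  by_cases h8 : a.z Q i ≤ 1 / 8
  · have hg := gg_gain hz h8 hk0 hk1
    have hg0 := gg_nonneg hz1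
    have hPk : a.P * a.Lam / Real.sqrt M ≤ k / 5 := by
      have h1 : k / 5 = (a.K / 10) / Real.sqrt M := by rw [hk]; field_simp; ring
      rw [h1]
      apply div_le_div_of_nonneg_right _ hsM.le
      linarith [a.hgain]
    apply max_le
    · linarith
    · linarith
  · push Not at h8
    have hB1 := a.B_ge
    have hBpos : 0 < a.B := by linarith
    have hApos : 0 < a.A := by linarith [a.hA]
    obtain ⟨ls, hls, hMl⟩ := (a.Mi_spec Q i).1
    have hXB : ∀ l, a.X Q l ≤ a.B := by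
      intro l
      exact max_le (hD.2 l) a.hHB
    have hzdef : a.z Q i = a.q * ∏ l ∈ Finset.univ.erase i, a.X Q l := rfl
    have hmem : ls ∈ Finset.univ.erase i := Finset.mem_erase.mpr ⟨hls, Finset.mem_univ _⟩
    have hprod : ∏ l ∈ Finset.univ.erase i, a.X Q l ≤ M * a.B ^ (d - 2) := by
      rw [← Finset.mul_prod_erase _ _ hmem, ← hMl]
      apply mul_le_mul_of_nonneg_left _ hMpos.le
      calc ∏ x ∈ (Finset.univ.erase i).erase ls, a.X Q x
          ≤ ∏ x ∈ (Finset.univ.erase i).erase ls, a.B :=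
            Finset.prod_le_prod (fun l _ => (a.X_pos Q l).le) (fun l _ => hXB l)
        _ = a.B ^ (d - 2) := by
            rw [Finset.prod_const, Finset.card_erase_of_mem hmem,
              Finset.card_erase_of_mem (Finset.mem_univ _), Finset.card_univ, Fintype.card_fin]
            rfl
    have hApow : 0 < a.A ^ (d - 1) := by positivity
    have hBpow : 0 < a.B ^ (d - 2) := by positivity
    have h2 : a.A ^ (d - 1) ≤ 8 * (M * a.B ^ (d - 2)) := by
      have h3 : (1 : ℝ) / 8 ≤ a.q * (M * a.B ^ (d - 2)) := by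
        rw [hzdef] at h8
        exact le_trans h8.le (mul_le_mul_of_nonneg_left hprod a.hq.le)
      have h4 : a.A ^ (d - 1) * (1 / 8) ≤ a.A ^ (d - 1) * (a.q * (M * a.B ^ (d - 2))) :=
        mul_le_mul_of_nonneg_left h3 hApow.le
      have h5 : a.A ^ (d - 1) * (a.q * (M * a.B ^ (d - 2))) = M * a.B ^ (d - 2) := by
        calc a.A ^ (d - 1) * (a.q * (M * a.B ^ (d - 2)))
            = (a.q * a.A ^ (d - 1)) * (M * a.B ^ (d - 2)) := by ring
          _ = M * a.B ^ (d - 2) := by rw [a.hqA, one_mul]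
      rw [h5] at h4
      linarith
    have h6 : 4 * (a.P * a.Lam) ^ 2 ≤ a.c ^ 2 * M := by
      have h7 := a.hc1
      have h8' : a.c ^ 2 * a.A ^ (d - 1) ≤ a.c ^ 2 * (8 * (M * a.B ^ (d - 2))) :=
        mul_le_mul_of_nonneg_left h2 (sq_nonneg _)
      have h9 : (4 * (a.P * a.Lam) ^ 2) * a.B ^ (d - 2) ≤ (a.c ^ 2 * M) * a.B ^ (d - 2) := by
        nlinarith [h7, h8']
      exact le_of_mul_le_mul_right h9 hBpow
    have h10 : 2 * (a.P * a.Lam) ≤ a.c * Real.sqrt M := by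
      apply abs_le_of_sq_le_sq' _ (by positivity) |>.2
      rw [mul_pow a.c, Real.sq_sqrt hMpos.le]
      calc (2 * (a.P * a.Lam)) ^ 2 = 4 * (a.P * a.Lam) ^ 2 := by ring
        _ ≤ a.c ^ 2 * M := h6
    have h11 : a.P * a.Lam / Real.sqrt M ≤ a.c / 2 := by
      rw [div_le_iff₀ hsM]
      linarith
    have h12 : a.c / 2 ≤ gg (a.z Q i) := by
      rw [← a.hZ]
      exact gg_anti hz (hD.1 i)
    have h13 : gg (a.z Q i * (1 + k)) ≤ gg (a.z Q i) := by
      apply gg_anti hz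
      nlinarith
    apply max_le
    · linarith
    · linarith

end BTP
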