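import Pool.Agent.BTP.V3
import Pool.Agent.BTP.V6

set_option autoImplicit false

open scoped Classical
open Finset

namespace BTP

variable {d : ℕ} (a : Par d)

theorem Par.v7_lower {K X : ℝ} (hX : 0 < X) {f : ℝ} (h : X + K / 2 * Real.sqrt X ≤ f) :
    X * (1 + K / 2 / Real.sqrt X) ≤ f := by
  have hs : 0 < Real.sqrt X := Real.sqrt_pos.mpr hX
  have h1 : X * (1 + K / 2 / Real.sqrt X) = X + K / 2 * Real.sqrt X := by
    have h2 : X / Real.sqrt X = Real.sqrt X := Real.div_sqrt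
    calc X * (1 + K / 2 / Real.sqrt X) = X + K / 2 * (X / Real.sqrt X) := by ring
      _ = X + K / 2 * Real.sqrt X := by rw [h2]
  rw [h1]; exact h

/-- [BTP-V7] the window inequality.
PROOF. `x = sd Q`, `x' = sd T ≤ x`. Let `i₀` minimise `X Q i`. `GP.multi` with `i₀` and `α i = g(z Q i) - P/w Q i`. For `l ≠ i₀`: `Mi (X Q) l ≤ X Q i₀ ≤ X Q l` (`Mi_spec`), so `w Q l ≤ √(X Q l)/Lam` and by `f_window` `φ(x' l) ≥ X_l (1 + (K/2)/√X_l)`. Direction `i₀`: `∏_{l≠i₀} φ(x' l) ≥ ∏_{l≠i₀} X_l · (1 + (K/2)/√X_{l*})` where `X_{l*} = Mi (X Q) i₀` (all other factors `1 + .. ≥ 1`); `gain`.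
Direction `j ≠ i₀`: `Mi (X Q) j = X_{i₀}`, `φ(x i₀) ≥ X_{i₀}(1 + (K/2)/√X_{i₀})` (`f_window` with `y = x`), `φ(x' l) ≥ X_l`; `gain`. -/
theorem Par.window {T Q : Box d} (hQ : Ne Q) (hD : a.InD Q) (hw : a.Win T Q) :
    a.Ps Q + ∑ i, ((sd Q i : ℝ) - sd T i) * (a.P / a.w Q i) ≤
      a.Ps T + ∑ i, ((sd Q i : ℝ) - sd T i) * gg (a.z Q i) := by
  obtain ⟨hT, hTQ, hwin⟩ := hw
  have hd0 : 0 < d := by have := a.hd; omega
  have : Nonempty (Fin d) := ⟨⟨0, hd0⟩⟩
  obtain ⟨i₀, hi₀⟩ := Finite.exists_min (fun i : Fin d => a.X Q i)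
  have hKpos : 0 < a.K := by linarith [a.hK]
  have hxx : sd T ≤ sd Q := fun i => sd_mono hT hTQ i
  have hXpos : ∀ l, 0 < a.X Q l := fun l => a.X_pos Q l
  have hLam : 0 < a.Lam := lt_of_lt_of_le one_pos a.Lam_ge
  -- the lower bound of the gauge
  have hfw : ∀ l, l ≠ i₀ → a.X Q l * (1 + a.K / 2 / Real.sqrt (a.X Q l)) ≤ a.f (sd T l) := by
    intro l hl
    apply Par.v7_lower (hXpos l)
    apply a.f_window (sd Q l) (sd T l)
    refine le_trans (hwin l) ?_
    have h1 : Mi (a.X Q) l ≤ a.X Q l :=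
      le_trans ((a.Mi_spec Q l).2 i₀ (Ne.symm hl)) (hi₀ l)
    have h2 : Real.sqrt (Mi (a.X Q) l) ≤ Real.sqrt (a.X Q l) := Real.sqrt_le_sqrt h1
    have h3 : a.w Q l ≤ Real.sqrt (a.X Q l) / a.Lam := by
      unfold Par.w
      exact div_le_div_of_nonneg_right h2 hLam.le
    have h4 : a.X Q l = max (sd Q l : ℝ) a.H1 := rfl
    rw [← h4]
    linarith
  have hfQ : a.X Q i₀ * (1 + a.K / 2 / Real.sqrt (a.X Q i₀)) ≤ a.f (sd Q i₀) := by
    apply Par.v7_lower (hXpos i₀)
    apply a.f_window (sd Q i₀) (sd Q i₀)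
    have : 0 ≤ 2 * (Real.sqrt (max (sd Q i₀ : ℝ) a.H1) / a.Lam) := by positivity
    linarith
  have hkap : ∀ l, 1 ≤ 1 + a.K / 2 / Real.sqrt (a.X Q l) := by
    intro l
    have : 0 ≤ a.K / 2 / Real.sqrt (a.X Q l) := by positivity
    linarith
  have hfX : ∀ l, l ≠ i₀ → a.X Q l ≤ a.f (sd T l) := by
    intro l hl
    refine le_trans ?_ (hfw l hl)
    calc a.X Q l = a.X Q l * 1 := by ring
      _ ≤ _ := mul_le_mul_of_nonneg_left (hkap l) (hXpos l).le
  have key := (a.gp).multi hxx i₀ (fun i => gg (a.z Q i) - a.P / a.w Q i) ?_ ?_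
  · have h1 : a.Ps Q = Psi a.G a.f (sd Q) := rfl
    have h2 : a.Ps T = Psi a.G a.f (sd T) := rfl
    rw [h1, h2]
    have h3 : ∑ i, ((sd Q i : ℝ) - sd T i) * (gg (a.z Q i) - a.P / a.w Q i) =
        ∑ i, ((sd Q i : ℝ) - sd T i) * gg (a.z Q i) -
          ∑ i, ((sd Q i : ℝ) - sd T i) * (a.P / a.w Q i) := by
      rw [← Finset.sum_sub_distrib]
      apply Finset.sum_congr rfl
      intro i _
      ring
    rw [h3] at key
    linarith
  · -- direction i₀
    apply a.gain hQ hD i₀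
    obtain ⟨ls, hls, hM⟩ := (a.Mi_spec Q i₀).1
    have hz : a.z Q i₀ = a.q * ∏ l ∈ Finset.univ.erase i₀, a.X Q l := rfl
    rw [hz, hM, mul_assoc]
    apply mul_le_mul_of_nonneg_left _ a.hq.le
    have hmem : ls ∈ Finset.univ.erase i₀ := Finset.mem_erase.mpr ⟨hls, Finset.mem_univ _⟩
    rw [← Finset.mul_prod_erase _ _ hmem, ← Finset.mul_prod_erase _ (fun l => a.f (sd T l)) hmem]
    calc a.X Q ls * (∏ x ∈ (Finset.univ.erase i₀).erase ls, a.X Q x) *
          (1 + a.K / 2 / Real.sqrt (a.X Q ls))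
        = (a.X Q ls * (1 + a.K / 2 / Real.sqrt (a.X Q ls))) *
          (∏ x ∈ (Finset.univ.erase i₀).erase ls, a.X Q x) := by ring
      _ ≤ a.f (sd T ls) * (∏ x ∈ (Finset.univ.erase i₀).erase ls, a.f (sd T x)) := by
          apply mul_le_mul (hfw ls hls)
          · apply Finset.prod_le_prod
            · intro l _; exact (hXpos l).le
            · intro l hl
              apply hfX l
              have := (Finset.mem_erase.mp (Finset.mem_erase.mp hl).2).1
              exact this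
          · apply Finset.prod_nonneg
            intro l _; exact (hXpos l).le
          · exact le_trans (by have := hXpos ls; have := hkap ls; positivity) (hfw ls hls)
  · intro j hj
    apply a.gain hQ hD j
    have hM : Mi (a.X Q) j = a.X Q i₀ := by
      apply le_antisymm
      · exact (a.Mi_spec Q j).2 i₀ (Ne.symm hj)
      · obtain ⟨l, _, hl⟩ := (a.Mi_spec Q j).1
        rw [hl]; exact hi₀ l
    have hz : a.z Q j = a.q * ∏ l ∈ Finset.univ.erase j, a.X Q l := rfl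
    rw [hz, hM, mul_assoc]
    apply mul_le_mul_of_nonneg_left _ a.hq.le
    have hmem : i₀ ∈ Finset.univ.erase j := Finset.mem_erase.mpr ⟨Ne.symm hj, Finset.mem_univ _⟩
    rw [← Finset.mul_prod_erase _ _ hmem]
    calc a.X Q i₀ * (∏ x ∈ (Finset.univ.erase j).erase i₀, a.X Q x) *
          (1 + a.K / 2 / Real.sqrt (a.X Q i₀))
        = (a.X Q i₀ * (1 + a.K / 2 / Real.sqrt (a.X Q i₀))) *
          (∏ x ∈ (Finset.univ.erase j).erase i₀, a.X Q x) := by ring
      _ ≤ a.f (sd Q i₀) * (∏ x ∈ (Finset.univ.erase j).erase i₀, a.f (sd T x)) := by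
          apply mul_le_mul hfQ
          · apply Finset.prod_le_prod
            · intro l _; exact (hXpos l).le
            · intro l hl
              exact hfX l (Finset.mem_erase.mp hl).1
          · apply Finset.prod_nonneg
            intro l _; exact (hXpos l).le
          · exact le_trans (by have := hXpos i₀; have := hkap i₀; positivity) hfQ

end BTP
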