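import Pool.Agent.BTP.M0
import Pool.Agent.BTP.M1
import Pool.Agent.BTP.S8
import Pool.Agent.BTP.V7

set_option autoImplicit false

open scoped Classical
open Finset

namespace BTP

variable {d : ℕ} (a : Par d)

/-- the product of the growth probability and a bound for the rest -/
theorem m2_term {W0 T Q : Box d} (hQ : Ne Q) (hQW : Q ≤ W0) (hD : a.InD Q) (hw : a.Win T Q)
    {x r : ℝ} (hx0 : 0 ≤ x) (hx : x ≤ Real.exp (r - a.Ps T)) :
    Pr (sites W0) a.p (SGe a.h T Q) * x ≤
      Real.exp 2 * Real.exp (r - a.Ps Q - ∑ i, ((sd Q i : ℝ) - sd T i) * (a.P / a.w Q i)) := by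
  have h1 := Pr_SGe a hQW hD hw
  have h2 := Par.window a hQ hD hw
  calc Pr (sites W0) a.p (SGe a.h T Q) * x
      ≤ (Real.exp 2 * Real.exp (-∑ i, ((sd Q i : ℝ) - sd T i) * gg (a.z Q i))) *
          Real.exp (r - a.Ps T) :=
        mul_le_mul h1 hx hx0 (by positivity)
    _ = Real.exp 2 * Real.exp (-(∑ i, ((sd Q i : ℝ) - sd T i) * gg (a.z Q i)) + (r - a.Ps T)) := by
        rw [mul_assoc, ← Real.exp_add]
    _ ≤ _ := by
        apply mul_le_mul_of_nonneg_left _ (Real.exp_pos 2).le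
        apply Real.exp_le_exp.mpr
        linarith

theorem m2_pos {T Q : Box d} (hw : a.Win T Q) (i : Fin d) :
    0 ≤ ((sd Q i : ℝ) - sd T i) * (a.P / a.w Q i) := by
  have h1 : (sd T i : ℝ) ≤ sd Q i := by exact_mod_cast sd_mono hw.1 hw.2.1 i
  have h2 := Par.w_ge a Q i
  have h3 : (0 : ℝ) ≤ a.h := Nat.cast_nonneg _
  have h4 : 0 < a.w Q i := by linarith
  have h5 := a.hP
  apply mul_nonneg (by linarith) (by positivity)

/-- [BTP-M2] the main bound.
PROOF. Strong induction on `(Ys Q).toNat`. `decomp`. Let `σ_T = ∑ i (sd Q i - sd T i) g(z Q i)`; `Pr_SGe`: `Pr (SGe h T Q) ≤ e² e^{-σ_T}`; `Par.window`: `Ps Q + ∑ (sd Q i - sd T i) P/w ≤ Ps T + σ_T`.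
First sum: `T` is in the domain (`InD_mono`), `Ys T < Ys Q` (`T ≠ Q` since some side differs), so `Pr (IG T) ≤ exp(-P - Ps T)`; by the window inequality (`∑ (sd Q - sd T) P/w ≥ P`, all terms `≥ 0`) each term is `≤ e² exp(-2P - Ps Q)`. At most `B^{2d}` terms (`card_sub`, `InD`).
Second sum: `T = R ⊔ S`; `Pr (IG R) Pr (IG S) ≤ exp(-2P - Ps R - Ps S) ≤ exp(-2P - Ps T + 2γ)` (`Par.merge`); each term `≤ e² exp(-2P + 2γ - Ps Q)`, at most `B^{4d}` terms. Third sum: `base`: each term `≤ e² exp(-2P - Ps Q)`, at most `B^{2d}` terms.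
Total `≤ 3 e² B^{4d} e^{2γ} e^{-P} · exp(-P - Ps Q) ≤ exp(-P - Ps Q)` by `hcnt` (`B ≥ 1`, `γ ≥ 0`). -/
theorem main_bound {W0 Q : Box d} (hQ : Ne Q) (hQW : Q ≤ W0) (hD : a.InD Q)
    (hY : (a.h : ℤ) ≤ Ys Q) : Pr (sites W0) a.p (IG Q) ≤ Real.exp (-a.P - a.Ps Q) := by
  have hp0 := Par.p_nonneg a
  have hp1 := Par.p_le_one a
  induction hn : (Ys Q).toNat using Nat.strong_induction_on generalizing Q with
  | _ n ih =>
    subst hn
    have IH : ∀ R : Box d, Ne R → R ≤ Q → Ys R < Ys Q → (a.h : ℤ) ≤ Ys R →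
        Pr (sites W0) a.p (IG R) ≤ Real.exp (-a.P - a.Ps R) := by
      intro R hR hRQ hlt hYR
      refine ih (Ys R).toNat ?_ hR (hRQ.trans hQW) (Par.InD_mono a hR hRQ hD) hYR rfl
      have := Ys_nonneg hR
      omega
    have hB1 : 1 ≤ a.B := Par.B_ge a
    have hcs := card_sub hQ hD.2
    have hpow : a.B ^ (2 * d) ≤ a.B ^ (4 * d) := pow_le_pow_right₀ hB1 (by omega)
    have hg0 := a.hgam0
    have hP := a.hP
    set C : ℝ := Real.exp 2 * Real.exp (-(2 * a.P) + 2 * a.gam - a.Ps Q) with hC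
    have hC0 : 0 ≤ C := by positivity
    have hS1 : (∑ T ∈ (sub Q).filter (fun T => a.Win T Q ∧ (a.h : ℤ) ≤ Ys T ∧
          ∃ i, a.w Q i ≤ (sd Q i : ℝ) - sd T i),
        Pr (sites W0) a.p (SGe a.h T Q) * Pr (sites W0) a.p (IG T)) ≤ a.B ^ (4 * d) * C := by
      calc _ ≤ ∑ T ∈ (sub Q).filter (fun T => a.Win T Q ∧ (a.h : ℤ) ≤ Ys T ∧
          ∃ i, a.w Q i ≤ (sd Q i : ℝ) - sd T i), C := by
            apply Finset.sum_le_sum
            intro T hT
            rw [Finset.mem_filter, mem_sub] at hT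
            obtain ⟨⟨hTn, hTQ⟩, hw, hhT, i, hi⟩ := hT
            have hwi : 0 < a.w Q i := by
              have h2 := Par.w_ge a Q i
              have h3 : (0 : ℝ) ≤ a.h := Nat.cast_nonneg _
              linarith
            have hlt : Ys T < Ys Q := by
              have h1 := sd_sub_le hTn hTQ i
              have h2 : (0 : ℝ) < (sd Q i : ℝ) - sd T i := by linarith
              have h3 : (0 : ℤ) < (sd Q i : ℤ) - sd T i := by
                have : ((0 : ℤ) : ℝ) < (((sd Q i : ℤ) - sd T i : ℤ) : ℝ) := by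
                  push_cast
                  exact h2
                exact_mod_cast this
              linarith
            have hx := IH T hTn hTQ hlt hhT
            refine (m2_term a hQ hQW hD hw (r := -a.P) (Pr_nonneg hp0 hp1) hx).trans ?_
            rw [hC]
            apply mul_le_mul_of_nonneg_left _ (Real.exp_pos 2).le
            apply Real.exp_le_exp.mpr
            have h1 : a.P ≤ ∑ i, ((sd Q i : ℝ) - sd T i) * (a.P / a.w Q i) := by
              calc a.P = a.w Q i * (a.P / a.w Q i) := by field_simp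
                _ ≤ ((sd Q i : ℝ) - sd T i) * (a.P / a.w Q i) := by
                    apply mul_le_mul_of_nonneg_right hi (by positivity)
                _ ≤ _ := Finset.single_le_sum (f := fun i => ((sd Q i : ℝ) - sd T i) * (a.P / a.w Q i))
                    (fun j _ => m2_pos a hw j) (Finset.mem_univ i)
            linarith
        _ = (((sub Q).filter (fun T => a.Win T Q ∧ (a.h : ℤ) ≤ Ys T ∧
          ∃ i, a.w Q i ≤ (sd Q i : ℝ) - sd T i)).card : ℝ) * C := by
            rw [Finset.sum_const, nsmul_eq_mul]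
        _ ≤ a.B ^ (4 * d) * C := by
            apply mul_le_mul_of_nonneg_right _ hC0
            refine le_trans ?_ (hcs.trans hpow)
            exact_mod_cast Finset.card_filter_le _ _
    have hS2 : (∑ y ∈ (sub Q ×ˢ sub Q).filter (fun y => a.Win (y.1 ⊔ y.2) Q ∧ near y.1 y.2 ∧
          (a.h : ℤ) ≤ Ys y.1 ∧ (a.h : ℤ) ≤ Ys y.2 ∧ Ys y.1 < Ys Q ∧ Ys y.2 < Ys Q),
        Pr (sites W0) a.p (SGe a.h (y.1 ⊔ y.2) Q) *
          (Pr (sites W0) a.p (IG y.1) * Pr (sites W0) a.p (IG y.2))) ≤ a.B ^ (4 * d) * C := by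
      calc _ ≤ ∑ y ∈ (sub Q ×ˢ sub Q).filter (fun y => a.Win (y.1 ⊔ y.2) Q ∧ near y.1 y.2 ∧
          (a.h : ℤ) ≤ Ys y.1 ∧ (a.h : ℤ) ≤ Ys y.2 ∧ Ys y.1 < Ys Q ∧ Ys y.2 < Ys Q), C := by
            apply Finset.sum_le_sum
            intro y hy
            rw [Finset.mem_filter, Finset.mem_product, mem_sub, mem_sub] at hy
            obtain ⟨⟨⟨hRn, hRQ⟩, hSn, hSQ⟩, hw, hnear, hhR, hhS, hR, hS⟩ := hy
            have hxR := IH y.1 hRn hRQ hR hhR
            have hxS := IH y.2 hSn hSQ hS hhS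
            have hm := Par.merge a hRn hSn hnear
            have hx : Pr (sites W0) a.p (IG y.1) * Pr (sites W0) a.p (IG y.2) ≤
                Real.exp ((-(2 * a.P) + 2 * a.gam) - a.Ps (y.1 ⊔ y.2)) := by
              calc _ ≤ Real.exp (-a.P - a.Ps y.1) * Real.exp (-a.P - a.Ps y.2) :=
                    mul_le_mul hxR hxS (Pr_nonneg hp0 hp1) (Real.exp_pos _).le
                _ = Real.exp ((-a.P - a.Ps y.1) + (-a.P - a.Ps y.2)) := by rw [Real.exp_add]
                _ ≤ _ := by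
                    apply Real.exp_le_exp.mpr
                    linarith
            refine (m2_term a hQ hQW hD hw
              (mul_nonneg (Pr_nonneg hp0 hp1) (Pr_nonneg hp0 hp1)) hx).trans ?_
            rw [hC]
            apply mul_le_mul_of_nonneg_left _ (Real.exp_pos 2).le
            apply Real.exp_le_exp.mpr
            have h1 : 0 ≤ ∑ i, ((sd Q i : ℝ) - sd (y.1 ⊔ y.2) i) * (a.P / a.w Q i) :=
              Finset.sum_nonneg (fun j _ => m2_pos a hw j)
            linarith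
        _ = (((sub Q ×ˢ sub Q).filter (fun y => a.Win (y.1 ⊔ y.2) Q ∧ near y.1 y.2 ∧
          (a.h : ℤ) ≤ Ys y.1 ∧ (a.h : ℤ) ≤ Ys y.2 ∧ Ys y.1 < Ys Q ∧ Ys y.2 < Ys Q)).card : ℝ) * C := by
            rw [Finset.sum_const, nsmul_eq_mul]
        _ ≤ a.B ^ (4 * d) * C := by
            apply mul_le_mul_of_nonneg_right _ hC0
            calc _ ≤ (((sub Q ×ˢ sub Q).card : ℕ) : ℝ) := by exact_mod_cast Finset.card_filter_le _ _
              _ = ((sub Q).card : ℝ) * ((sub Q).card : ℝ) := by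
                  rw [Finset.card_product]; push_cast; ring
              _ ≤ a.B ^ (2 * d) * a.B ^ (2 * d) :=
                  mul_le_mul hcs hcs (Nat.cast_nonneg _) (by positivity)
              _ = a.B ^ (4 * d) := by rw [← pow_add]; congr 1; ring
    have hS3 : (∑ T ∈ (sub Q).filter (fun T => a.Win T Q ∧ (a.h : ℤ) ≤ Ys T ∧ Ys T ≤ 2 * a.h + 2),
        Pr (sites W0) a.p (SGe a.h T Q) * Pr (sites W0) a.p (IG T)) ≤ a.B ^ (4 * d) * C := by
      calc _ ≤ ∑ T ∈ (sub Q).filter (fun T => a.Win T Q ∧ (a.h : ℤ) ≤ Ys T ∧ Ys T ≤ 2 * a.h + 2),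
          C := by
            apply Finset.sum_le_sum
            intro T hT
            rw [Finset.mem_filter, mem_sub] at hT
            obtain ⟨⟨hTn, hTQ⟩, hw, hhT, hh2⟩ := hT
            have hx := base a (sites W0) hTn hhT hh2
            refine (m2_term a hQ hQW hD hw (r := -(2 * a.P)) (Pr_nonneg hp0 hp1) hx).trans ?_
            rw [hC]
            apply mul_le_mul_of_nonneg_left _ (Real.exp_pos 2).le
            apply Real.exp_le_exp.mpr
            have h1 : 0 ≤ ∑ i, ((sd Q i : ℝ) - sd T i) * (a.P / a.w Q i) :=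
              Finset.sum_nonneg (fun j _ => m2_pos a hw j)
            linarith
        _ = (((sub Q).filter (fun T => a.Win T Q ∧ (a.h : ℤ) ≤ Ys T ∧
            Ys T ≤ 2 * a.h + 2)).card : ℝ) * C := by
            rw [Finset.sum_const, nsmul_eq_mul]
        _ ≤ a.B ^ (4 * d) * C := by
            apply mul_le_mul_of_nonneg_right _ hC0
            refine le_trans ?_ (hcs.trans hpow)
            exact_mod_cast Finset.card_filter_le _ _
    refine (decomp a (W0 := W0) hQ hY).trans ?_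
    have hcnt := a.hcnt
    calc _ ≤ a.B ^ (4 * d) * C + a.B ^ (4 * d) * C + a.B ^ (4 * d) * C :=
          add_le_add (add_le_add hS1 hS2) hS3
      _ = 3 * (Real.exp 2 * a.B ^ (4 * d) * Real.exp (2 * a.gam)) *
            Real.exp (-(2 * a.P) - a.Ps Q) := by
          rw [hC, show -(2 * a.P) + 2 * a.gam - a.Ps Q = 2 * a.gam + (-(2 * a.P) - a.Ps Q) by ring,
            Real.exp_add]
          ring
      _ ≤ Real.exp a.P * Real.exp (-(2 * a.P) - a.Ps Q) := by
          apply mul_le_mul_of_nonneg_right _ (Real.exp_pos _).le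
          have h0 : 0 ≤ Real.exp 2 * a.B ^ (4 * d) * Real.exp (2 * a.gam) := by positivity
          nlinarith
      _ = Real.exp (-a.P - a.Ps Q) := by
          rw [← Real.exp_add]; congr 1; ring

end BTP
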