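import Pool.Agent.BTP.D0

set_option autoImplicit false

open scoped Classical
open Finset

namespace BTP

section
variable {α : Type*} {V : Finset α} {p : ℝ} {E F : Finset α → Prop}

theorem p1_term_nonneg (hp0 : 0 ≤ p) (hp1 : p ≤ 1) (U : Finset α) :
    0 ≤ p ^ U.card * (1 - p) ^ (V.card - U.card) :=
  mul_nonneg (pow_nonneg hp0 _) (pow_nonneg (by linarith) _)

theorem p1_Pr_eq_ite : Pr V p E =
    ∑ U ∈ V.powerset, if E U then p ^ U.card * (1 - p) ^ (V.card - U.card) else 0 := by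
  unfold Pr
  rw [Finset.sum_filter]

/-- [BTP-P1] -/
theorem Pr_nonneg (hp0 : 0 ≤ p) (hp1 : p ≤ 1) : 0 ≤ Pr V p E := by
  unfold Pr
  exact Finset.sum_nonneg fun U _ => p1_term_nonneg hp0 hp1 U

/-- [BTP-P1] (`Finset.sum_pow_mul_eq_add_pow` or `Finset.prod_add`) -/
theorem Pr_true : Pr V p (fun _ => True) = 1 := by
  unfold Pr
  rw [Finset.filter_true, Finset.sum_pow_mul_eq_add_pow]
  simp

theorem Pr_false : Pr V p (fun _ => False) = 0 := by
  unfold Pr
  simp

/-- [BTP-P1] -/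
theorem Pr_congr (h : ∀ U ⊆ V, (E U ↔ F U)) : Pr V p E = Pr V p F := by
  rw [p1_Pr_eq_ite, p1_Pr_eq_ite]
  refine Finset.sum_congr rfl fun U hU => ?_
  have := h U (Finset.mem_powerset.mp hU)
  by_cases hE : E U
  · rw [if_pos hE, if_pos (this.mp hE)]
  · rw [if_neg hE, if_neg (fun hF => hE (this.mpr hF))]

/-- [BTP-P1] -/
theorem Pr_mono (hp0 : 0 ≤ p) (hp1 : p ≤ 1) (h : ∀ U ⊆ V, E U → F U) : Pr V p E ≤ Pr V p F := by
  rw [p1_Pr_eq_ite, p1_Pr_eq_ite]
  refine Finset.sum_le_sum fun U hU => ?_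
  by_cases hE : E U
  · rw [if_pos hE, if_pos (h U (Finset.mem_powerset.mp hU) hE)]
  · rw [if_neg hE]
    split_ifs
    · exact p1_term_nonneg hp0 hp1 U
    · exact le_rfl

theorem Pr_le_one (hp0 : 0 ≤ p) (hp1 : p ≤ 1) : Pr V p E ≤ 1 := by
  rw [← Pr_true (V := V) (p := p)]
  exact Pr_mono hp0 hp1 fun _ _ _ => trivial

/-- [BTP-P1] -/
theorem Pr_or_add_and : Pr V p (fun U => E U ∨ F U) + Pr V p (fun U => E U ∧ F U) =
    Pr V p E + Pr V p F := by
  rw [p1_Pr_eq_ite, p1_Pr_eq_ite, p1_Pr_eq_ite, p1_Pr_eq_ite, ← Finset.sum_add_distrib,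
    ← Finset.sum_add_distrib]
  refine Finset.sum_congr rfl fun U _ => ?_
  by_cases hE : E U <;> by_cases hF : F U <;> simp [hE, hF]

/-- [BTP-P1] -/
theorem Pr_compl : Pr V p (fun U => ¬ E U) = 1 - Pr V p E := by
  have h := Pr_or_add_and (V := V) (p := p) (E := fun U => ¬ E U) (F := E)
  have h1 : Pr V p (fun U => ¬ E U ∨ E U) = 1 := by
    rw [← Pr_true (V := V) (p := p)]
    exact Pr_congr fun U _ => by tauto
  have h2 : Pr V p (fun U => ¬ E U ∧ E U) = 0 := by
    rw [← Pr_false (V := V) (p := p)]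
    exact Pr_congr fun U _ => by tauto
  rw [h1, h2] at h
  linarith

theorem Pr_or (hp0 : 0 ≤ p) (hp1 : p ≤ 1) :
    Pr V p (fun U => E U ∨ F U) ≤ Pr V p E + Pr V p F := by
  have h := Pr_or_add_and (V := V) (p := p) (E := E) (F := F)
  have h2 : 0 ≤ Pr V p (fun U => E U ∧ F U) := Pr_nonneg hp0 hp1
  linarith

/-- [BTP-P1] union bound -/
theorem Pr_union {ι : Type*} (hp0 : 0 ≤ p) (hp1 : p ≤ 1) (s : Finset ι) (E : ι → Finset α → Prop) :
    Pr V p (fun U => ∃ i ∈ s, E i U) ≤ ∑ i ∈ s, Pr V p (E i) := by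
  induction s using Finset.induction_on with
  | empty =>
    rw [Finset.sum_empty, ← Pr_false (V := V) (p := p)]
    exact Pr_mono hp0 hp1 fun U _ hU => by simp at hU
  | insert a s ha ih =>
    rw [Finset.sum_insert ha]
    calc Pr V p (fun U => ∃ i ∈ insert a s, E i U)
        ≤ Pr V p (fun U => E a U ∨ ∃ i ∈ s, E i U) := by
          refine Pr_mono hp0 hp1 fun U _ hU => ?_
          obtain ⟨i, hi, hEi⟩ := hU
          rcases Finset.mem_insert.mp hi with h | h
          · left; rw [← h]; exact hEi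
          · right; exact ⟨i, h, hEi⟩
      _ ≤ Pr V p (E a) + Pr V p (fun U => ∃ i ∈ s, E i U) := Pr_or hp0 hp1
      _ ≤ _ := by linarith

/-- [BTP-P1] -/
theorem Pr_empty : Pr (∅ : Finset α) p E = if E ∅ then 1 else 0 := by
  rw [p1_Pr_eq_ite]
  simp

/-- [BTP-P1] conditioning on one point. PROOF. `Finset.powerset_insert`; the subsets of `insert v V` are `U` and `insert v U`, `U ⊆ V`; `(insert v U).card = U.card + 1`,
`V.card + 1 - U.card = (V.card - U.card) + 1`. -/
theorem Pr_insert {v : α} (hv : v ∉ V) :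
    Pr (insert v V) p E = (1 - p) * Pr V p E + p * Pr V p (fun U => E (insert v U)) := by
  rw [p1_Pr_eq_ite, p1_Pr_eq_ite, p1_Pr_eq_ite, Finset.sum_powerset_insert hv, Finset.mul_sum,
    Finset.mul_sum]
  congr 1
  · refine Finset.sum_congr rfl fun U hU => ?_
    have hU' := Finset.mem_powerset.mp hU
    have hc : U.card ≤ V.card := Finset.card_le_card hU'
    rw [Finset.card_insert_of_notMem hv, show V.card + 1 - U.card = (V.card - U.card) + 1 by omega,
      pow_succ]
    split_ifs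
    · ring
    · simp
  · refine Finset.sum_congr rfl fun U hU => ?_
    have hU' := Finset.mem_powerset.mp hU
    have hvU : v ∉ U := fun h => hv (hU' h)
    have hc : U.card ≤ V.card := Finset.card_le_card hU'
    rw [Finset.card_insert_of_notMem hv, Finset.card_insert_of_notMem hvU,
      show V.card + 1 - (U.card + 1) = V.card - U.card by omega, pow_succ]
    split_ifs
    · ring
    · simp

end

end BTP
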