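import Pool.Agent.BTP.P1

set_option autoImplicit false

open scoped Classical
open Finset

namespace BTP

section
variable {α : Type*} {p : ℝ}

/-- [BTP-P6] monotonicity in `p`.
PROOF. Induction on `V` for all increasing `E`: with `e = Pr V p E`, `e' = Pr V p E'` (`E' U = E (insert v U)`, `e ≤ e'` for each `p`): `(1-p₁) e(p₁) + p₁ e'(p₁) ≤ (1-p₁) e(p₂) + p₁ e'(p₂) ≤ (1-p₂) e(p₂) + p₂ e'(p₂)`. -/
theorem Pr_mono_p {p₁ p₂ : ℝ} (h0 : 0 ≤ p₁) (h12 : p₁ ≤ p₂) (h1 : p₂ ≤ 1) (V : Finset α)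
    (E : Finset α → Prop) (hE : Inc E) : Pr V p₁ E ≤ Pr V p₂ E := by
  induction V using Finset.induction_on generalizing E with
  | empty => rw [Pr_empty, Pr_empty]
  | insert v V hv ih =>
    have hE' : Inc (fun U => E (insert v U)) := by
      intro U U' hUU' hU
      exact hE _ _ (Finset.insert_subset_insert v hUU') hU
    have i1 := ih E hE
    have i2 := ih _ hE'
    have i3 : Pr V p₂ E ≤ Pr V p₂ (fun U => E (insert v U)) :=
      Pr_mono (h0.trans h12) h1 (fun U _ hU => hE _ _ (Finset.subset_insert v U) hU)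
    rw [Pr_insert hv, Pr_insert hv]
    have h2 : 0 ≤ 1 - p₁ := by linarith
    nlinarith [mul_le_mul_of_nonneg_left i1 h2, mul_le_mul_of_nonneg_left i2 h0,
      mul_le_mul_of_nonneg_left i3 (sub_nonneg.mpr h12)]

end

end BTP
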