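import Pool.Agent.BTP.P2
import Pool.Agent.BTP.G1

set_option autoImplicit false

open scoped Classical
open Finset

namespace BTP

/-- the crossing event -/
def p7_X {α : Type*} (L : ℤ → Finset α) (C : Finset ℤ) (U : Finset α) : Prop :=
  ∀ t ∈ C, (∃ v ∈ U, v ∈ L t) ∨ (t + 1 ∈ C ∧ ∃ v ∈ U, v ∈ L (t + 1))

theorem p7_hit_sdiff {α : Type*} {A B U : Finset α} (h : Disjoint A B) :
    (∃ v ∈ U, v ∈ A) ↔ (∃ v ∈ U \ B, v ∈ A) := by
  constructor
  · rintro ⟨v, hv, hA⟩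
    exact ⟨v, Finset.mem_sdiff.2 ⟨hv, fun hB => (Finset.disjoint_left.1 h hA hB)⟩, hA⟩
  · rintro ⟨v, hv, hA⟩
    exact ⟨v, (Finset.mem_sdiff.1 hv).1, hA⟩

theorem p7_X_sdiff {α : Type*} {L : ℤ → Finset α} {C : Finset ℤ} {B : Finset α}
    (h : ∀ t ∈ C, Disjoint (L t) B) (U : Finset α) :
    p7_X L C U ↔ p7_X L C (U \ B) := by
  unfold p7_X
  refine forall_congr' fun t => ?_
  refine forall_congr' fun ht => ?_
  refine or_congr (p7_hit_sdiff (h t ht)) ?_
  exact and_congr_right fun h1 => p7_hit_sdiff (h _ h1)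

theorem p7_hit_inter {α : Type*} {A U : Finset α} :
    (∃ v ∈ U, v ∈ A) ↔ (∃ v ∈ U ∩ A, v ∈ A) := by
  constructor
  · rintro ⟨v, hv, hA⟩
    exact ⟨v, Finset.mem_inter.2 ⟨hv, hA⟩, hA⟩
  · rintro ⟨v, hv, hA⟩
    exact ⟨v, (Finset.mem_inter.1 hv).1, hA⟩

/-- the hypothesis on `F` is inherited by subsets of the union of the layers -/
theorem p7_hF_mono {α : Type*} {V : Finset α} {D D' : Finset α} (hD : D' ⊆ D) {F : Finset α → Prop}
    (hF : ∀ U ⊆ V, (F U ↔ F (U \ D))) : ∀ U ⊆ V, (F U ↔ F (U \ D')) := by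
  intro U hU
  rw [hF U hU, hF (U \ D') (Finset.sdiff_subset.trans hU)]
  have : (U \ D') \ D = U \ D := by
    ext v
    simp only [Finset.mem_sdiff]
    constructor
    · rintro ⟨⟨h1, _⟩, h3⟩
      exact ⟨h1, h3⟩
    · rintro ⟨h1, h3⟩
      exact ⟨⟨h1, fun h => h3 (hD h)⟩, h3⟩
  rw [this]

theorem p7_hit_prob {α : Type*} {V B : Finset α} {p : ℝ} (h : B ⊆ V) :
    Pr V p (fun U => ∃ v ∈ U, v ∈ B) = 1 - (1 - p) ^ B.card := by
  have h1 : Pr V p (fun U => ¬ ∃ v ∈ U, v ∈ B) = 1 - Pr V p (fun U => ∃ v ∈ U, v ∈ B) := Pr_compl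
  rw [Pr_avoid h] at h1
  linarith

/-- the layer `B` is hit, and an event not depending on `B` -/
theorem p7_hit_and {α : Type*} {V B : Finset α} {p : ℝ} (h : B ⊆ V) {G : Finset α → Prop}
    (hG : ∀ U ⊆ V, (G U ↔ G (U \ B))) :
    Pr V p (fun U => (∃ v ∈ U, v ∈ B) ∧ G U) = (1 - (1 - p) ^ B.card) * Pr V p G := by
  rw [Pr_indep V B (fun U => ∃ v ∈ U, v ∈ B) G (fun U _ => p7_hit_inter) hG, p7_hit_prob h]

theorem p7_not_hit_and {α : Type*} {V B : Finset α} {p : ℝ} (h : B ⊆ V) {G : Finset α → Prop}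
    (hG : ∀ U ⊆ V, (G U ↔ G (U \ B))) :
    Pr V p (fun U => (¬ ∃ v ∈ U, v ∈ B) ∧ G U) = (1 - p) ^ B.card * Pr V p G := by
  rw [Pr_indep V B (fun U => ¬ ∃ v ∈ U, v ∈ B) G (fun U _ => not_congr p7_hit_inter) hG, Pr_avoid h]

theorem p7_main {α : Type*} {V : Finset α} {p : ℝ} (hp0 : 0 ≤ p) (hp1 : p ≤ 1)
    (L : ℤ → Finset α) (a : ℕ) (F : Finset α → Prop) :
    ∀ n : ℕ, ∀ C : Finset ℤ, C.card = n → (∀ t ∈ C, L t ⊆ V ∧ (L t).card = a) →
    (∀ t ∈ C, ∀ t' ∈ C, t ≠ t' → Disjoint (L t) (L t')) →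
    (∀ U ⊆ V, (F U ↔ F (U \ C.biUnion L))) →
    Pr V p (fun U => p7_X L C U ∧ F U) ≤ bet (1 - (1 - p) ^ a) ^ n * Pr V p F := by
  intro n
  induction n using Nat.strong_induction_on with
  | _ n ih =>
  intro C hn hL hdis hF
  have hq0 : 0 ≤ (1 - p) ^ a := pow_nonneg (by linarith) _
  have hq1 : (1 - p) ^ a ≤ 1 := pow_le_one₀ (by linarith) (by linarith)
  set u : ℝ := 1 - (1 - p) ^ a with hu
  have hu0 : 0 ≤ u := by rw [hu]; linarith
  have hu1 : u ≤ 1 := by rw [hu]; linarith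
  have hb0 : 0 ≤ bet u := bet_nonneg hu0
  have hPF : 0 ≤ Pr V p F := Pr_nonneg hp0 hp1
  rcases Finset.eq_empty_or_nonempty C with hC | hC
  · subst hC
    have : n = 0 := by rw [← hn]; rfl
    subst this
    rw [pow_zero, one_mul]
    exact Pr_mono hp0 hp1 (fun U _ h => h.2)
  -- the maximal element
  set t0 := C.max' hC with ht0
  have ht0C : t0 ∈ C := C.max'_mem hC
  have hmax : ∀ t ∈ C, t ≤ t0 := fun t ht => C.le_max' t ht
  have hn1 : 1 ≤ n := by rw [← hn]; exact Finset.card_pos.2 hC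
  set C' := C.erase t0 with hC'
  have hC'sub : C' ⊆ C := Finset.erase_subset _ _
  have hcard' : C'.card = n - 1 := by rw [hC', Finset.card_erase_of_mem ht0C, hn]
  have hL' : ∀ t ∈ C', L t ⊆ V ∧ (L t).card = a := fun t ht => hL t (hC'sub ht)
  have hdis' : ∀ t ∈ C', ∀ t' ∈ C', t ≠ t' → Disjoint (L t) (L t') :=
    fun t ht t' ht' h => hdis t (hC'sub ht) t' (hC'sub ht') h
  have hF' : ∀ U ⊆ V, (F U ↔ F (U \ C'.biUnion L)) :=
    p7_hF_mono (Finset.biUnion_subset_biUnion_of_subset_left L hC'sub) hF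
  have hX' := ih (n - 1) (by omega) C' hcard' hL' hdis' hF'
  have hFt : ∀ t ∈ C, ∀ U ⊆ V, (F U ↔ F (U \ L t)) := fun t ht =>
    p7_hF_mono (Finset.subset_biUnion_of_mem L ht) hF
  have hhit0 : ∀ U, p7_X L C U → ∃ v ∈ U, v ∈ L t0 := by
    intro U hX
    rcases hX t0 ht0C with h | ⟨h, _⟩
    · exact h
    · exact absurd (hmax _ h) (by omega)
  have hd0 : ∀ t ∈ C', Disjoint (L t) (L t0) := fun t ht =>
    hdis t (hC'sub ht) t0 ht0C (Finset.ne_of_mem_erase ht)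
  have hcard0 : (L t0).card = a := (hL t0 ht0C).2
  by_cases hcase : t0 - 1 ∈ C
  · -- the level before the last one is present
    set C'' := C'.erase (t0 - 1) with hC''
    have hmem' : t0 - 1 ∈ C' := Finset.mem_erase.2 ⟨by omega, hcase⟩
    have hC''sub' : C'' ⊆ C' := Finset.erase_subset _ _
    have hC''sub : C'' ⊆ C := hC''sub'.trans hC'sub
    have hn2 : 2 ≤ n := by
      have : 1 ≤ C'.card := Finset.card_pos.2 ⟨_, hmem'⟩
      omega
    have hcard'' : C''.card = n - 2 := by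
      rw [hC'', Finset.card_erase_of_mem hmem', hcard']; omega
    have hL'' : ∀ t ∈ C'', L t ⊆ V ∧ (L t).card = a := fun t ht => hL t (hC''sub ht)
    have hdis'' : ∀ t ∈ C'', ∀ t' ∈ C'', t ≠ t' → Disjoint (L t) (L t') :=
      fun t ht t' ht' h => hdis t (hC''sub ht) t' (hC''sub ht') h
    have hF'' : ∀ U ⊆ V, (F U ↔ F (U \ C''.biUnion L)) :=
      p7_hF_mono (Finset.biUnion_subset_biUnion_of_subset_left L hC''sub) hF
    have hX'' := ih (n - 2) (by omega) C'' hcard'' hL'' hdis'' hF''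
    have hd1 : ∀ t ∈ C'', Disjoint (L t) (L (t0 - 1)) := fun t ht =>
      hdis t (hC''sub ht) (t0 - 1) hcase (Finset.ne_of_mem_erase ht)
    have hd0'' : ∀ t ∈ C'', Disjoint (L t) (L t0) := fun t ht => hd0 t (hC''sub' ht)
    have hd01 : Disjoint (L (t0 - 1)) (L t0) := hd0 _ hmem'
    have hcard1 : (L (t0 - 1)).card = a := (hL _ hcase).2
    have step : ∀ U ⊆ V, (p7_X L C U ∧ F U) →
        ((∃ v ∈ U, v ∈ L t0) ∧ ((p7_X L C' U ∧ F U) ∨
          ((¬ ∃ v ∈ U, v ∈ L (t0 - 1)) ∧ (p7_X L C'' U ∧ F U)))) := by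
      rintro U hU ⟨hX, hFU⟩
      refine ⟨hhit0 U hX, ?_⟩
      by_cases h1 : ∃ v ∈ U, v ∈ L (t0 - 1)
      · left
        refine ⟨?_, hFU⟩
        intro t ht
        by_cases hte : t = t0 - 1
        · left; rw [hte]; exact h1
        rcases hX t (hC'sub ht) with h | ⟨h, h'⟩
        · exact Or.inl h
        · right
          refine ⟨Finset.mem_erase.2 ⟨?_, h⟩, h'⟩
          omega
      · right
        refine ⟨h1, ?_, hFU⟩
        intro t ht
        have htC' : t ∈ C' := hC''sub' ht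
        have hne1 : t ≠ t0 - 1 := Finset.ne_of_mem_erase ht
        rcases hX t (hC'sub htC') with h | ⟨h, h'⟩
        · exact Or.inl h
        · by_cases hte : t + 1 = t0 - 1
          · rw [hte] at h'
            exact absurd h' h1
          · right
            refine ⟨Finset.mem_erase.2 ⟨hte, Finset.mem_erase.2 ⟨?_, h⟩⟩, h'⟩
            omega
    refine (Pr_mono hp0 hp1 step).trans ?_
    rw [p7_hit_and (V := V) (B := L t0) (p := p) (hL t0 ht0C).1
      (G := fun U => (p7_X L C' U ∧ F U) ∨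
          ((¬ ∃ v ∈ U, v ∈ L (t0 - 1)) ∧ (p7_X L C'' U ∧ F U))) ?_]
    · rw [hcard0, ← hu]
      have h1 : Pr V p (fun U => (p7_X L C' U ∧ F U) ∨
          ((¬ ∃ v ∈ U, v ∈ L (t0 - 1)) ∧ (p7_X L C'' U ∧ F U))) ≤
          Pr V p (fun U => p7_X L C' U ∧ F U) +
          Pr V p (fun U => (¬ ∃ v ∈ U, v ∈ L (t0 - 1)) ∧ (p7_X L C'' U ∧ F U)) :=
        Pr_or hp0 hp1
      have h2 : Pr V p (fun U => (¬ ∃ v ∈ U, v ∈ L (t0 - 1)) ∧ (p7_X L C'' U ∧ F U)) =
          (1 - u) * Pr V p (fun U => p7_X L C'' U ∧ F U) := by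
        rw [p7_not_hit_and (V := V) (B := L (t0 - 1)) (p := p) (hL _ hcase).1
          (G := fun U => p7_X L C'' U ∧ F U), hcard1, hu]
        · ring
        · intro U hU
          exact and_congr (p7_X_sdiff hd1 U) (hFt _ hcase U hU)
      have h3 : (1 - u) * Pr V p (fun U => p7_X L C'' U ∧ F U) ≤
          (1 - u) * (bet u ^ (n - 2) * Pr V p F) :=
        mul_le_mul_of_nonneg_left hX'' (by linarith)
      have h4 : Pr V p (fun U => (p7_X L C' U ∧ F U) ∨
          ((¬ ∃ v ∈ U, v ∈ L (t0 - 1)) ∧ (p7_X L C'' U ∧ F U))) ≤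
          bet u ^ (n - 1) * Pr V p F + (1 - u) * (bet u ^ (n - 2) * Pr V p F) := by
        linarith
      refine (mul_le_mul_of_nonneg_left h4 hu0).trans (le_of_eq ?_)
      obtain ⟨m, rfl⟩ : ∃ m, n = m + 2 := ⟨n - 2, by omega⟩
      have e1 : m + 2 - 1 = m + 1 := by omega
      have e2 : m + 2 - 2 = m := by omega
      rw [e1, e2]
      have hsq := bet_sq hu0 hu1
      have : bet u ^ (m + 2) = bet u ^ m * bet u ^ 2 := by rw [pow_add]
      rw [this, hsq, pow_succ]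
      ring
    · intro U hU
      refine or_congr (and_congr (p7_X_sdiff hd0 U) (hFt _ ht0C U hU)) ?_
      refine and_congr (not_congr (p7_hit_sdiff hd01)) ?_
      exact and_congr (p7_X_sdiff hd0'' U) (hFt _ ht0C U hU)
  · -- the level before the last one is absent
    have step : ∀ U ⊆ V, (p7_X L C U ∧ F U) →
        ((∃ v ∈ U, v ∈ L t0) ∧ (p7_X L C' U ∧ F U)) := by
      rintro U hU ⟨hX, hFU⟩
      refine ⟨hhit0 U hX, ?_, hFU⟩
      intro t ht
      rcases hX t (hC'sub ht) with h | ⟨h, h'⟩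
      · exact Or.inl h
      · right
        refine ⟨Finset.mem_erase.2 ⟨?_, h⟩, h'⟩
        intro he
        apply hcase
        have : t0 - 1 = t := by omega
        rw [this]
        exact hC'sub ht
    refine (Pr_mono hp0 hp1 step).trans ?_
    rw [p7_hit_and (V := V) (B := L t0) (p := p) (hL t0 ht0C).1
      (G := fun U => p7_X L C' U ∧ F U)]
    · rw [hcard0, ← hu]
      calc u * Pr V p (fun U => p7_X L C' U ∧ F U)
          ≤ bet u * (bet u ^ (n - 1) * Pr V p F) :=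
            mul_le_mul (le_bet hu0 hu1) hX' (Pr_nonneg hp0 hp1) hb0
        _ = bet u ^ n * Pr V p F := by
            obtain ⟨m, rfl⟩ : ∃ m, n = m + 1 := ⟨n - 1, by omega⟩
            have e1 : m + 1 - 1 = m := by omega
            rw [e1, pow_succ]
            ring
    · intro U hU
      exact and_congr (p7_X_sdiff hd0 U) (hFt _ ht0C U hU)

/-- [BTP-P7] crossing without double gaps (one dimensional). Layers `L t`, `t ∈ C ⊂ ℤ`, pairwise disjoint, of the same size `a`; event: each layer is hit, or the next level is in `C` and its layer is hit. Probability at most `β^{|C|}`, `u = 1 - (1-p)^a`.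
PROOF. Strong induction on `C.card`, for fixed `F`-free part: `X C U` denotes the crossing event. Let `t₀ = max C`, `C' = C.erase t₀`, `n = |C|`. As `t₀ + 1 ∉ C`, `X C` implies that `L t₀` is hit; this has probability `u`
(`Pr_avoid`, `Pr_compl`) and depends only on `U ∩ L t₀`. If `t₀ - 1 ∉ C`: `X C ∧ F` implies `(L t₀ hit) ∧ (X C' ∧ F)`, independent (`Pr_indep`, `B = L t₀`): `≤ u β^(n-1) Pr F ≤ β^n Pr F` (`le_bet`). If `t₀ - 1 ∈ C`: let `C'' = C'.erase (t₀ - 1)`;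
`X C ∧ F` implies `(L t₀ hit) ∧ [(X C' ∧ F) ∨ ((L (t₀-1) not hit) ∧ (X C'' ∧ F))]` (first case if `L (t₀-1)` is hit; otherwise for `t ∈ C''` with `t + 1 = t₀ - 1` the layer `L t` must be hit itself). By `Pr_or`, `Pr_indep`, `Pr_avoid` the probability is at most
`u [β^(n-1) + (1-u) β^(n-2)] Pr F = β^(n-2) (u β + u (1-u)) Pr F = β^n Pr F` (`bet_sq`). For the independence: `F` and the other layers do not depend on `U ∩ L t₀` (the layers are disjoint; for `F` apply `hF` to `U` and to `U \ L t₀`); the hypothesis `hF` for the smaller sets `C', C''` follows from `hF` (again twice). -/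
theorem cross1 {α : Type*} {V : Finset α} {p : ℝ} (hp0 : 0 ≤ p) (hp1 : p ≤ 1) (C : Finset ℤ)
    (L : ℤ → Finset α) (a : ℕ) (hL : ∀ t ∈ C, L t ⊆ V ∧ (L t).card = a)
    (hdis : ∀ t ∈ C, ∀ t' ∈ C, t ≠ t' → Disjoint (L t) (L t')) (F : Finset α → Prop)
    (hF : ∀ U ⊆ V, (F U ↔ F (U \ C.biUnion L))) :
    Pr V p (fun U => (∀ t ∈ C, (∃ v ∈ U, v ∈ L t) ∨ (t + 1 ∈ C ∧ ∃ v ∈ U, v ∈ L (t + 1))) ∧ F U) ≤
      bet (1 - (1 - p) ^ a) ^ C.card * Pr V p F :=
  p7_main hp0 hp1 L a F C.card C rfl hL hdis hF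

end BTP
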