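import Pool.Agent.BTP.B2

set_option autoImplicit false

open scoped Classical
open Finset

namespace BTP

variable {d : ℕ}

theorem s1_le {h : ℕ} {T Q : Box d} {W : Finset (Site d)} (hg : SG h T Q W) : T ≤ Q := by
  induction hg with
  | refl T => exact le_rfl
  | step hS hh hn hg hd ih => exact le_sup_left.trans ih

theorem s1_recOK {T T' Q : Box d} {μ : Rec d} (h : T ≤ T') (hr : RecOK T' Q μ) :
    RecOK T Q μ := by
  refine ⟨fun j => ?_, hr.2⟩
  rcases hr.1 j with h1 | h1
  · exact Or.inl h1
  · exact Or.inr ⟨(h j).trans h1.1, h1.2⟩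

theorem s1_hit_mono {Q : Box d} {U U' : Finset (Site d)} {j : Dir d} {t : ℤ} (h : U ⊆ U')
    (hh : hit Q U j t) : hit Q U' j t := by
  obtain ⟨v, hv, hv'⟩ := hh
  exact ⟨v, h hv, hv'⟩

theorem s1_mem_free {T Q : Box d} {M : Finset (Rec d)} {j : Dir d} {t : ℤ} :
    t ∈ free T Q M j ↔ (T j < t ∧ t ≤ Q j) ∧ ∀ μ ∈ M, ¬ (μ.1 j < t ∧ t ≤ μ.2 j) := by
  rw [free, Finset.mem_filter, Finset.mem_Ioc]

theorem s1_hit_of {Q S : Box d} {U : Finset (Site d)} {v : Site d} {j : Dir d} {t : ℤ}
    (hv : v ∈ U) (hS : cc v ≤ S) (hSQ : S ≤ Q) (ht : cc v j = t) : hit Q U j t :=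
  ⟨v, hv, Finset.mem_filter.2 ⟨mem_sites.2 (hS.trans hSQ), ht⟩⟩

/-- [BTP-S1] the deterministic structure of small growth: the steps in at least two axes are recorded, the steps in one axis cross the levels that are not recorded.
PROOF. Induction on `SG`. `refl T`: `M = ∅`, `G = ∅`; `free T T ∅ j` is empty (`Finset.Ioc_self`).
`step`: `R₁ = R ⊔ S`, by induction `M, F, G` for `SG h R₁ Q W` (`Ne R₁`), all inside `W`, and `W'` (with `Gen S W'`) is disjoint from `W`. `R ≤ R₁ ≤ Q` (`SG.le`), so `RecOK R₁ Q μ → RecOK R Q μ`. Where `R j < R₁ j`: `R₁ j = S j`. Let `act = {j | R j < R₁ j}`.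
(0) `act = ∅`: then `R₁ = R`, take the same `M, F, G` (`W ⊆ W' ∪ W`).
(1) all elements of `act` are in one axis `i`: keep `M, F`, replace `G i` by `G i ∪ W'`. For `j = (i', b)`, `i' ≠ i`: `R j = R₁ j`, `free` is unchanged, `Cross` is unchanged. For `j = (i, b)`: `free R Q M j = Ioc (R j) (R₁ j) ∪ free R₁ Q M j`, because every `μ ∈ M` has `μ.1 j = μ.2 j = 0` (covers nothing) or `μ.1 j ≥ R₁ j`
(covers no level `≤ R₁ j`). Old levels: `Cross` for `G i` is increasing in the set (and `free` got larger). New levels `R j < t ≤ R₁ j = S j`: `Gen.hit_step`: `t` is hit by `W'`, or `t + 1 ≤ S j = R₁ j` is hit by `W'`, and `t + 1` is free. (The sites of `W'` are in `S ≤ Q` by `Gen.le`, so they are in `lay Q j t`.)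
(2) `act` contains two directions of different axes: new record `μ₀`, `μ₀.1 j = R j`, `μ₀.2 j = R₁ j` for `j ∈ act`, both `0` otherwise. `μ₀ ∉ M`: for `j ∈ act` a record of `M` has `μ.1 j ≥ R₁ j > R j` or `μ.1 j = μ.2 j`. `M' = insert μ₀ M`, `F' = Function.update F μ₀ W'`, same `G`. `Clu h Q μ₀ W'`: with `S`, `W'`; `∑ (μ₀.2 j - μ₀.1 j) = Ys R₁ - Ys R ≤ Ys S + 2` (`Ys_sup_le`).
`free R Q M' j = free R₁ Q M j`: for `j ∈ act` the levels in `(R j, R₁ j]` are covered by `μ₀` and the higher ones are not covered by `μ₀`; for `j ∉ act` `R j = R₁ j` and `μ₀` covers nothing. So `Cross` is unchanged. -/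
theorem det {h : ℕ} {T Q : Box d} {W : Finset (Site d)} (hT : Ne T) (hg : SG h T Q W) :
    ∃ (M : Finset (Rec d)) (F : Rec d → Finset (Site d)) (G : Fin d → Finset (Site d)),
      (∀ μ ∈ M, RecOK T Q μ ∧ F μ ⊆ W ∧ Clu h Q μ (F μ)) ∧
      (∀ i, G i ⊆ W ∧ Cross T Q M i (G i)) ∧
      (∀ μ ∈ M, ∀ μ' ∈ M, μ ≠ μ' → Disjoint (F μ) (F μ')) ∧
      (∀ μ ∈ M, ∀ i, Disjoint (F μ) (G i)) ∧
      (∀ i i', i ≠ i' → Disjoint (G i) (G i')) := by
  induction hg with
  | refl T =>
    refine ⟨∅, fun _ => ∅, fun _ => ∅, ?_, ?_, ?_, ?_, ?_⟩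
    · intro μ hμ
      exact absurd hμ (Finset.notMem_empty μ)
    · intro i
      refine ⟨Finset.empty_subset _, fun b t ht => ?_⟩
      rw [s1_mem_free] at ht
      omega
    · intro μ hμ
      exact absurd hμ (Finset.notMem_empty μ)
    · intro μ hμ
      exact absurd hμ (Finset.notMem_empty μ)
    · intro i i' _
      exact Finset.disjoint_empty_left _
  | @step R S Q W' W hS hh hn hg hd ih =>
    obtain ⟨M, F, G, hM, hG, hFF, hFG, hGG⟩ := ih hT.sup_left
    have hRQ : R ⊔ S ≤ Q := s1_le hg
    have hSQ : S ≤ Q := le_sup_right.trans hRQ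
    have hRS : R ≤ R ⊔ S := le_sup_left
    have hWW : W ⊆ W' ∪ W := Finset.subset_union_right
    have hWW' : W' ⊆ W' ∪ W := Finset.subset_union_left
    -- a level covered by a record of `M` is above `R ⊔ S`
    have hcov : ∀ μ ∈ M, ∀ (j : Dir d) (t : ℤ), t ≤ (R ⊔ S) j →
        ¬ (μ.1 j < t ∧ t ≤ μ.2 j) := by
      intro μ hμ j t ht hc
      rcases (hM μ hμ).1.1 j with h1 | h1
      · omega
      · omega
    by_cases h2 : ∃ j j' : Dir d, j.1 ≠ j'.1 ∧ R j < S j ∧ R j' < S j'
    · -- a new record
      set μ₀ : Rec d := (fun j => if R j < S j then R j else 0,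
        fun j => if R j < S j then S j else 0) with hμ₀
      have hact1 : ∀ j, R j < S j → μ₀.1 j = R j ∧ μ₀.2 j = S j := by
        intro j hj
        simp [hμ₀, hj]
      have hact2 : ∀ j, ¬ R j < S j → μ₀.1 j = 0 ∧ μ₀.2 j = 0 := by
        intro j hj
        simp only [hμ₀, if_neg hj, and_self]
      have hnot : μ₀ ∉ M := by
        intro hmem
        obtain ⟨j, -, -, hj, -⟩ := h2
        have h3 := hact1 j hj
        have h4 : S j ≤ (R ⊔ S) j := (le_sup_right : S ≤ R ⊔ S) j
        exact hcov μ₀ hmem j (S j) h4 (by omega)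
      have hne : ∀ μ ∈ M, μ ≠ μ₀ := by
        rintro μ hμ rfl
        exact hnot hμ
      refine ⟨insert μ₀ M, Function.update F μ₀ W', G, ?_, ?_, ?_, ?_, hGG⟩
      · intro μ hμ
        rcases Finset.mem_insert.1 hμ with rfl | hμ
        · refine ⟨⟨fun j => ?_, ?_⟩, ?_, ?_⟩
          · by_cases hj : R j < S j
            · right
              have h3 := hact1 j hj
              have h4 := hSQ j
              rw [h3.1, h3.2]
              exact ⟨le_rfl, hj, h4⟩
            · left
              exact hact2 j hj
          · obtain ⟨j, j', hjj, hj, hj'⟩ := h2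
            refine ⟨j, j', hjj, ?_, ?_⟩
            · rw [(hact1 j hj).1, (hact1 j hj).2]
              exact hj
            · rw [(hact1 j' hj').1, (hact1 j' hj').2]
              exact hj'
          · rw [Function.update_self]
            exact hWW'
          · rw [Function.update_self]
            refine ⟨S, W', Finset.Subset.refl _, hS, hh, hSQ, fun j hj => ?_, ?_⟩
            · by_cases hj' : R j < S j
              · exact (hact1 j hj').2.symm
              · have h3 := hact2 j hj'
                omega
            · have h3 : ∑ j, (μ₀.2 j - μ₀.1 j) = Ys (R ⊔ S) - Ys R := by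
                rw [Ys, Ys, ← Finset.sum_sub_distrib]
                refine Finset.sum_congr rfl fun j _ => ?_
                rw [Pi.sup_apply]
                by_cases hj : R j < S j
                · rw [(hact1 j hj).1, (hact1 j hj).2, max_eq_right hj.le]
                · rw [(hact2 j hj).1, (hact2 j hj).2, max_eq_left (not_lt.1 hj)]
                  ring
              have h4 := Ys_sup_le hT hS.ne hn
              rw [h3]
              linarith
        · rw [Function.update_of_ne (hne μ hμ)]
          obtain ⟨h3, h4, h5⟩ := hM μ hμ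
          exact ⟨s1_recOK hRS h3, h4.trans hWW, h5⟩
      · intro i
        refine ⟨(hG i).1.trans hWW, ?_⟩
        have hfree : ∀ j, free R Q (insert μ₀ M) j = free (R ⊔ S) Q M j := by
          intro j
          ext t
          rw [s1_mem_free, s1_mem_free, Finset.forall_mem_insert, Pi.sup_apply]
          by_cases hj : R j < S j
          · rw [(hact1 j hj).1, (hact1 j hj).2, max_eq_right hj.le]
            constructor
            · rintro ⟨⟨h3, h4⟩, h5, h6⟩
              exact ⟨⟨by omega, h4⟩, h6⟩
            · rintro ⟨⟨h3, h4⟩, h6⟩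
              exact ⟨⟨by omega, h4⟩, by omega, h6⟩
          · rw [(hact2 j hj).1, (hact2 j hj).2, max_eq_left (not_lt.1 hj)]
            constructor
            · rintro ⟨⟨h3, h4⟩, h5, h6⟩
              exact ⟨⟨h3, h4⟩, h6⟩
            · rintro ⟨⟨h3, h4⟩, h6⟩
              exact ⟨⟨h3, h4⟩, by omega, h6⟩
        intro b t ht
        rw [hfree] at ht ⊢
        exact (hG i).2 b t ht
      · intro μ hμ μ' hμ' hμμ
        rcases Finset.mem_insert.1 hμ with rfl | hμ
        · rcases Finset.mem_insert.1 hμ' with rfl | hμ'
          · exact absurd rfl hμμ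
          · rw [Function.update_self, Function.update_of_ne (hne μ' hμ')]
            exact Finset.disjoint_of_subset_right (hM μ' hμ').2.1 hd
        · rcases Finset.mem_insert.1 hμ' with rfl | hμ'
          · rw [Function.update_self, Function.update_of_ne (hne μ hμ)]
            exact (Finset.disjoint_of_subset_right (hM μ hμ).2.1 hd).symm
          · rw [Function.update_of_ne (hne μ hμ), Function.update_of_ne (hne μ' hμ')]
            exact hFF μ hμ μ' hμ' hμμ
      · intro μ hμ i
        rcases Finset.mem_insert.1 hμ with rfl | hμ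
        · rw [Function.update_self]
          exact Finset.disjoint_of_subset_right (hG i).1 hd
        · rw [Function.update_of_ne (hne μ hμ)]
          exact hFG μ hμ i
    · by_cases h1 : ∃ j : Dir d, R j < S j
      · -- all active directions in one axis
        obtain ⟨j₀, hj₀⟩ := h1
        have hax : ∀ j, j.1 ≠ j₀.1 → S j ≤ R j := by
          intro j hj
          by_contra hc
          exact h2 ⟨j, j₀, hj, not_le.1 hc, hj₀⟩
        refine ⟨M, F, Function.update G j₀.1 (G j₀.1 ∪ W'), ?_, ?_, hFF, ?_, ?_⟩
        · intro μ hμ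
          obtain ⟨h3, h4, h5⟩ := hM μ hμ
          exact ⟨s1_recOK hRS h3, h4.trans hWW, h5⟩
        · intro i
          by_cases hi : i = j₀.1
          · subst hi
            rw [Function.update_self]
            refine ⟨Finset.union_subset ((hG _).1.trans hWW) hWW', fun b t ht => ?_⟩
            rw [s1_mem_free] at ht
            by_cases htt : (R ⊔ S) (j₀.1, b) < t
            · rcases (hG j₀.1).2 b t (s1_mem_free.2 ⟨⟨htt, ht.1.2⟩, ht.2⟩) with h3 | ⟨h3, h4⟩
              · exact Or.inl (s1_hit_mono Finset.subset_union_left h3)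
              · refine Or.inr ⟨?_, s1_hit_mono Finset.subset_union_left h4⟩
                rw [s1_mem_free] at h3 ⊢
                exact ⟨⟨by omega, h3.1.2⟩, h3.2⟩
            · have h3 : t ≤ S (j₀.1, b) := by
                rw [Pi.sup_apply, not_lt] at htt
                rcases le_max_iff.1 htt with h4 | h4
                · omega
                · exact h4
              rcases hS.hit_step hn (j₀.1, b) t ht.1.1 h3 with ⟨v, hv, hvt⟩ | ⟨h5, v, hv, hvt⟩
              · exact Or.inl (s1_hit_of (Finset.mem_union_right _ hv) (hS.le v hv) hSQ hvt)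
              · refine Or.inr ⟨?_, s1_hit_of (Finset.mem_union_right _ hv) (hS.le v hv) hSQ hvt⟩
                rw [s1_mem_free]
                refine ⟨⟨by omega, h5.trans (hSQ _)⟩, fun μ hμ => hcov μ hμ _ _ ?_⟩
                exact h5.trans ((le_sup_right : S ≤ R ⊔ S) _)
          · rw [Function.update_of_ne hi]
            refine ⟨(hG i).1.trans hWW, fun b t ht => ?_⟩
            have h3 : (R ⊔ S) (i, b) = R (i, b) := by
              rw [Pi.sup_apply, max_eq_left (hax (i, b) hi)]
            have h4 : free R Q M (i, b) = free (R ⊔ S) Q M (i, b) := by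
              rw [free, free, h3]
            rw [h4] at ht ⊢
            exact (hG i).2 b t ht
        · intro μ hμ i
          by_cases hi : i = j₀.1
          · subst hi
            rw [Function.update_self, Finset.disjoint_union_right]
            exact ⟨hFG μ hμ _, (Finset.disjoint_of_subset_right (hM μ hμ).2.1 hd).symm⟩
          · rw [Function.update_of_ne hi]
            exact hFG μ hμ i
        · intro i i' hii
          by_cases hi : i = j₀.1
          · subst hi
            rw [Function.update_self, Function.update_of_ne hii.symm,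
              Finset.disjoint_union_left]
            exact ⟨hGG _ _ hii, Finset.disjoint_of_subset_right (hG i').1 hd⟩
          · rw [Function.update_of_ne hi]
            by_cases hi' : i' = j₀.1
            · subst hi'
              rw [Function.update_self, Finset.disjoint_union_right]
              exact ⟨hGG _ _ hii, (Finset.disjoint_of_subset_right (hG i).1 hd).symm⟩
            · rw [Function.update_of_ne hi']
              exact hGG i i' hii
      · -- nothing changes
        have h3 : R ⊔ S = R := by
          refine sup_eq_left.2 fun j => ?_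
          by_contra hc
          exact h1 ⟨j, not_le.1 hc⟩
        rw [h3] at hM hG
        refine ⟨M, F, G, ?_, ?_, hFF, hFG, hGG⟩
        · intro μ hμ
          obtain ⟨h4, h5, h6⟩ := hM μ hμ
          exact ⟨h4, h5.trans hWW, h6⟩
        · intro i
          exact ⟨(hG i).1.trans hWW, (hG i).2⟩

end BTP
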