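import Pool.Agent.BTP.B6
import Pool.Agent.BTP.P7

set_option autoImplicit false

open scoped Classical
open Finset

namespace BTP

variable {d : ℕ}

theorem s2_lay_sub {Q W0 : Box d} (hQ : Q ≤ W0) (j : Dir d) (t : ℤ) : lay Q j t ⊆ sites W0 :=
  (Finset.filter_subset _ _).trans (sites_mono hQ)

theorem s2_lay_disj (Q : Box d) (j : Dir d) {t t' : ℤ} (h : t ≠ t') :
    Disjoint (lay Q j t) (lay Q j t') := by
  rw [Finset.disjoint_left]
  intro v hv hv'
  rw [lay, Finset.mem_filter] at hv hv'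
  exact h (hv.2.symm.trans hv'.2)

theorem s2_card {T Q : Box d} (hT : Ne T) (hTQ : T ≤ Q) (M : Finset (Rec d)) (i : Fin d) (b : Bool) :
    ∀ t ∈ free T Q M (i, b), (lay Q (i, b) t).card = ∏ l ∈ Finset.univ.erase i, sd Q l := by
  intro t ht
  rw [free, Finset.mem_filter, Finset.mem_Ioc] at ht
  refine card_lay (hT.mono hTQ) (i, b) t ?_ ht.1.2
  have h1 := hT i
  have h2 : T (opp (i, b)) ≤ Q (opp (i, b)) := hTQ _
  cases b
  · simp only [opp, Bool.not_false] at h2 ⊢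
    linarith [ht.1.1]
  · simp only [opp, Bool.not_true] at h2 ⊢
    linarith [ht.1.1]

theorem s2_two {α : Type*} {V : Finset α} {p : ℝ} (hp0 : 0 ≤ p) (hp1 : p ≤ 1) (C C' : Finset ℤ)
    (L L' : ℤ → Finset α) (a : ℕ) (hL : ∀ t ∈ C, L t ⊆ V ∧ (L t).card = a)
    (hL' : ∀ t ∈ C', L' t ⊆ V ∧ (L' t).card = a)
    (hdis : ∀ t ∈ C, ∀ t' ∈ C, t ≠ t' → Disjoint (L t) (L t'))
    (hdis' : ∀ t ∈ C', ∀ t' ∈ C', t ≠ t' → Disjoint (L' t) (L' t'))
    (key : ∀ v : α, ∀ t' ∈ C', v ∈ L' t' → ∀ t ∈ C, v ∉ L t) :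
    Pr V p (fun U => (∀ t ∈ C, (∃ v ∈ U, v ∈ L t) ∨ (t + 1 ∈ C ∧ ∃ v ∈ U, v ∈ L (t + 1))) ∧
      ∀ t ∈ C', (∃ v ∈ U, v ∈ L' t) ∨ (t + 1 ∈ C' ∧ ∃ v ∈ U, v ∈ L' (t + 1))) ≤
      bet (1 - (1 - p) ^ a) ^ (C.card + C'.card) := by
  have hb : 0 ≤ bet (1 - (1 - p) ^ a) :=
    bet_nonneg (sub_nonneg.2 (pow_le_one₀ (by linarith) (by linarith)))
  have step1 := cross1 (V := V) hp0 hp1 C L a hL hdis
      (fun U => ∀ t ∈ C', (∃ v ∈ U, v ∈ L' t) ∨ (t + 1 ∈ C' ∧ ∃ v ∈ U, v ∈ L' (t + 1)))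
      (by
        intro U _
        constructor
        · intro hF t ht
          rcases hF t ht with ⟨v, hv, hv'⟩ | ⟨h1, v, hv, hv'⟩
          · refine Or.inl ⟨v, Finset.mem_sdiff.2 ⟨hv, fun hm => ?_⟩, hv'⟩
            obtain ⟨s, hs, hvs⟩ := Finset.mem_biUnion.1 hm
            exact key v t ht hv' s hs hvs
          · refine Or.inr ⟨h1, v, Finset.mem_sdiff.2 ⟨hv, fun hm => ?_⟩, hv'⟩
            obtain ⟨s, hs, hvs⟩ := Finset.mem_biUnion.1 hm
            exact key v (t + 1) h1 hv' s hs hvs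
        · intro hF t ht
          rcases hF t ht with ⟨v, hv, hv'⟩ | ⟨h1, v, hv, hv'⟩
          · exact Or.inl ⟨v, (Finset.mem_sdiff.1 hv).1, hv'⟩
          · exact Or.inr ⟨h1, v, (Finset.mem_sdiff.1 hv).1, hv'⟩)
  have step2 : Pr V p
      (fun U => ∀ t ∈ C', (∃ v ∈ U, v ∈ L' t) ∨ (t + 1 ∈ C' ∧ ∃ v ∈ U, v ∈ L' (t + 1))) ≤
      bet (1 - (1 - p) ^ a) ^ C'.card := by
    have h := cross1 (V := V) hp0 hp1 C' L' a hL' hdis' (fun _ => True) (fun _ _ => Iff.rfl)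
    rw [Pr_true, mul_one] at h
    refine le_trans (Pr_mono hp0 hp1 ?_) h
    intro U _ hU
    exact ⟨hU, trivial⟩
  refine step1.trans ?_
  rw [pow_add]
  exact mul_le_mul_of_nonneg_left step2 (pow_nonneg hb _)

/-- [BTP-S2] probability of a crossing in axis `i`.
PROOF. Apply `cross1` twice. `V = sites W0`, `C₊ = free T Q M (i, true)`, `L t = lay Q (i, true) t`, `F U =` the condition for the levels of `free T Q M (i, false)`; then again with `C₋`, `L = lay Q (i, false)`, `F = True` (`Pr_true`). The layers are in `sites Q ⊆ sites W0` (`sites_mono`) and have `∏_{l ≠ i} sd Q l` elements (`card_lay`: for `T j < t ≤ Q j`,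
`- Q (opp j) ≤ - T (opp j) ≤ T j < t` since `Ne T`). Layers of different levels are disjoint; the layers `lay Q (i, true) t` (`v i = t > T (i, true)`) and `lay Q (i, false) t'` (`v i = - t' < - T (i, false) ≤ T (i, true)`) are disjoint, so `F` does not depend on the sites in `C₊.biUnion L`. -/
theorem Pr_Cross {p : ℝ} (hp0 : 0 ≤ p) (hp1 : p ≤ 1) {W0 T Q : Box d} (hT : Ne T) (hTQ : T ≤ Q)
    (hQ : Q ≤ W0) (M : Finset (Rec d)) (i : Fin d) :
    Pr (sites W0) p (Cross T Q M i) ≤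
      bet (1 - (1 - p) ^ (∏ l ∈ Finset.univ.erase i, sd Q l)) ^
        ((free T Q M (i, true)).card + (free T Q M (i, false)).card) := by
  refine le_trans (Pr_mono hp0 hp1 ?_) (s2_two (V := sites W0) hp0 hp1 (free T Q M (i, true))
    (free T Q M (i, false)) (fun t => lay Q (i, true) t) (fun t => lay Q (i, false) t) _
    (fun t ht => ⟨s2_lay_sub hQ _ _, s2_card hT hTQ M i true t ht⟩)
    (fun t ht => ⟨s2_lay_sub hQ _ _, s2_card hT hTQ M i false t ht⟩)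
    (fun t _ t' _ hne => s2_lay_disj Q _ hne) (fun t _ t' _ hne => s2_lay_disj Q _ hne) ?_)
  · intro U _ hU
    exact ⟨hU true, hU false⟩
  · intro v t' ht' hv' t ht hvt
    rw [lay, Finset.mem_filter] at hv' hvt
    rw [free, Finset.mem_filter, Finset.mem_Ioc] at ht ht'
    have e1 : v i = t := by simpa [cc] using hvt.2
    have e2 : - v i = t' := by simpa [cc] using hv'.2
    have h1 := hT i
    linarith [ht.1.1, ht'.1.1]

/-- [BTP-S2] PROOF. The levels covered by one record are at most `μ.2 j - μ.1 j` (for inactive directions `0`); `Finset.card_biUnion_le`. -/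
theorem card_free {T Q : Box d} (hTQ : T ≤ Q) (M : Finset (Rec d)) (hM : ∀ μ ∈ M, RecOK T Q μ)
    (j : Dir d) :
    Q j - T j ≤ ((free T Q M j).card : ℤ) + ∑ μ ∈ M, (μ.2 j - μ.1 j) := by
  have hsub : Finset.Ioc (T j) (Q j) ⊆
      free T Q M j ∪ M.biUnion (fun μ => Finset.Ioc (μ.1 j) (μ.2 j)) := by
    intro t ht
    by_cases h : ∀ μ ∈ M, ¬ (μ.1 j < t ∧ t ≤ μ.2 j)
    · exact Finset.mem_union_left _ (Finset.mem_filter.2 ⟨ht, h⟩)
    · push Not at h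
      obtain ⟨μ, hμ, h1, h2⟩ := h
      exact Finset.mem_union_right _ (Finset.mem_biUnion.2 ⟨μ, hμ, Finset.mem_Ioc.2 ⟨h1, h2⟩⟩)
  have h1 : (Finset.Ioc (T j) (Q j)).card ≤
      (free T Q M j).card + ∑ μ ∈ M, (Finset.Ioc (μ.1 j) (μ.2 j)).card :=
    (Finset.card_le_card hsub).trans
      ((Finset.card_union_le _ _).trans (Nat.add_le_add_left Finset.card_biUnion_le _))
  have h2 : ∀ μ ∈ M, (((Finset.Ioc (μ.1 j) (μ.2 j)).card : ℕ) : ℤ) = μ.2 j - μ.1 j := by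
    intro μ hμ
    rw [Int.card_Ioc, Int.toNat_of_nonneg]
    rcases (hM μ hμ).1 j with ⟨e1, e2⟩ | ⟨_, e2, _⟩
    · rw [e1, e2, sub_zero]
    · linarith
  have h3 : ((Finset.Ioc (T j) (Q j)).card : ℤ) = Q j - T j := by
    rw [Int.card_Ioc, Int.toNat_of_nonneg]
    linarith [hTQ j]
  have h4 : ((Finset.Ioc (T j) (Q j)).card : ℤ) ≤
      ((free T Q M j).card : ℤ) + ∑ μ ∈ M, (((Finset.Ioc (μ.1 j) (μ.2 j)).card : ℕ) : ℤ) := by
    exact_mod_cast h1
  rw [h3, Finset.sum_congr rfl h2] at h4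
  exact h4

end BTP
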