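import Pool.Agent.BTP.S3

set_option autoImplicit false

open scoped Classical
open Finset

namespace BTP

variable {d : ℕ}

theorem s5_ioc (lo : ℤ) (x : ℝ) (n : ℕ) :
    ∑ hi ∈ Finset.Ioc lo (lo + n), x ^ (hi - lo).toNat = ∑ e ∈ Finset.range n, x ^ (e + 1) := by
  induction n with
  | zero => simp
  | succ n ih =>
    have h1 : Finset.Ioc lo (lo + ((n + 1 : ℕ) : ℤ)) =
        insert (lo + ((n + 1 : ℕ) : ℤ)) (Finset.Ioc lo (lo + n)) := by
      ext y
      simp only [Finset.mem_Ioc, Finset.mem_insert]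
      push_cast
      omega
    rw [h1, Finset.sum_insert, ih, Finset.sum_range_succ, add_comm]
    · congr 2
      rw [add_sub_cancel_left]
      simp
    · simp only [Finset.mem_Ioc]
      push_cast
      omega

theorem s5_geom {x : ℝ} (hx0 : 0 ≤ x) (hx : x ≤ 1 / 2) (n : ℕ) :
    ∑ e ∈ Finset.range n, x ^ (e + 1) ≤ 2 * x := by
  have h1 : (∑ e ∈ Finset.range n, x ^ e) * (1 - x) = 1 - x ^ n := by
    have := geom_sum_mul x n
    linarith
  have h2 : 0 ≤ x ^ n := pow_nonneg hx0 n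
  have h3 : 0 ≤ ∑ e ∈ Finset.range n, x ^ e := Finset.sum_nonneg fun e _ => pow_nonneg hx0 e
  have h4 : ∑ e ∈ Finset.range n, x ^ e ≤ 2 := by nlinarith
  have h5 : ∑ e ∈ Finset.range n, x ^ (e + 1) = x * ∑ e ∈ Finset.range n, x ^ e := by
    rw [Finset.mul_sum]
    exact Finset.sum_congr rfl fun e _ => pow_succ' x e
  rw [h5]
  nlinarith

/-- [BTP-S5] one direction: the sum over the levels `T j ≤ lo < hi ≤ Q j`.
PROOF. For each `lo` the sum over `hi` is at most `∑_{e ≥ 1} x^e = x/(1-x) ≤ 2x` (`x ≤ 1/2`), and there are `Q - T` values of `lo`. -/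
theorem sum_levels {s t : ℤ} (hst : s ≤ t) {x : ℝ} (hx0 : 0 ≤ x) (hx : x ≤ 1 / 2) :
    ∑ y ∈ (Finset.Icc s t ×ˢ Finset.Icc s t).filter (fun y => y.1 < y.2), x ^ (y.2 - y.1).toNat ≤
      2 * x * (t - s) := by
  rw [Finset.sum_filter, Finset.sum_product]
  have h1 : ∀ lo ∈ Finset.Icc s t, (∑ hi ∈ Finset.Icc s t,
      if lo < hi then x ^ (hi - lo).toNat else 0) ≤ if lo < t then 2 * x else 0 := by
    intro lo hlo
    rw [Finset.mem_Icc] at hlo
    rw [← Finset.sum_filter]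
    have h2 : (Finset.Icc s t).filter (fun hi => lo < hi) =
        Finset.Ioc lo (lo + ((t - lo).toNat : ℤ)) := by
      ext y
      simp only [Finset.mem_filter, Finset.mem_Icc, Finset.mem_Ioc]
      omega
    rw [h2, s5_ioc]
    by_cases hlt : lo < t
    · rw [if_pos hlt]
      exact s5_geom hx0 hx _
    · rw [if_neg hlt]
      have h3 : (t - lo).toNat = 0 := by omega
      rw [h3]
      simp
  refine (Finset.sum_le_sum h1).trans ?_
  rw [← Finset.sum_filter, Finset.sum_const, nsmul_eq_mul]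
  have h4 : (Finset.Icc s t).filter (fun lo => lo < t) = Finset.Ico s t := by
    ext y
    simp only [Finset.mem_filter, Finset.mem_Icc, Finset.mem_Ico]
    omega
  rw [h4, Int.card_Ico]
  have h5 : (((t - s).toNat : ℕ) : ℝ) = (t : ℝ) - s := by
    have h6 : (((t - s).toNat : ℕ) : ℤ) = t - s := Int.toNat_of_nonneg (by omega)
    have h7 : ((((t - s).toNat : ℕ) : ℤ) : ℝ) = ((t - s : ℤ) : ℝ) := by rw [h6]
    push_cast at h7
    rw [← h7]
  rw [h5]
  exact le_of_eq (by ring)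

/-- [BTP-S5] the sum over all records.
PROOF. Identify a record with the function `j ↦ (μ.1 j, μ.2 j)`; the records of `RS` are in the product over `j` of `{(0,0)} ∪ {T j ≤ lo < hi ≤ Q j}` (`Fintype.piFinset`), all terms are `≥ 0`; `Finset.prod_univ_sum`: the sum is `≤ ∏_j (1 + 2 (th/w) (Q j - T j)) ≤ ∏_j (1 + 4 th) ≤ (1 + 1/(4d))^(2d) ≤ exp(1/2) ≤ 2` (`sum_levels` with `x = th / w j.1 ≤ th ≤ 1/2`). -/
theorem sum_rec {T Q : Box d} (hd : 1 ≤ d) (hTQ : T ≤ Q) (w : Fin d → ℝ) (hw : ∀ i, 1 ≤ w i)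
    (hwin : ∀ j : Dir d, ((Q j : ℝ) - T j) ≤ 2 * w j.1) {t : ℝ} (ht0 : 0 ≤ t) (ht : 16 * d * t ≤ 1)
    (RS : Finset (Rec d)) (hRS : ∀ μ ∈ RS, RecOK T Q μ) :
    ∑ μ ∈ RS, ∏ j : Dir d, (t / w j.1) ^ eR μ j ≤ 2 := by
  have hd' : (1 : ℝ) ≤ d := by exact_mod_cast hd
  have hwpos : ∀ i, 0 < w i := fun i => lt_of_lt_of_le one_pos (hw i)
  have hx0 : ∀ i, 0 ≤ t / w i := fun i => div_nonneg ht0 (hwpos i).le
  have ht2 : t ≤ 1 / 2 := by nlinarith
  have hx : ∀ i, t / w i ≤ 1 / 2 := fun i => by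
    rw [div_le_iff₀ (hwpos i)]
    nlinarith [hw i]
  let f : Dir d → ℤ × ℤ → ℝ := fun j y => (t / w j.1) ^ (y.2 - y.1).toNat
  let A : Dir d → Finset (ℤ × ℤ) := fun j =>
    insert (0, 0) ((Finset.Icc (T j) (Q j) ×ˢ Finset.Icc (T j) (Q j)).filter (fun y => y.1 < y.2))
  let φ : Rec d → (Dir d → ℤ × ℤ) := fun μ j => (μ.1 j, μ.2 j)
  have hφ : Function.Injective φ := by
    intro μ ν h
    apply Prod.ext
    · funext j
      exact congrArg Prod.fst (congrFun h j)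
    · funext j
      exact congrArg Prod.snd (congrFun h j)
  have hf0 : ∀ j y, 0 ≤ f j y := fun j y => pow_nonneg (hx0 _) _
  have h1 : ∑ μ ∈ RS, ∏ j : Dir d, (t / w j.1) ^ eR μ j =
      ∑ g ∈ RS.image φ, ∏ j : Dir d, f j (g j) := by
    rw [Finset.sum_image fun μ _ ν _ h => hφ h]
    rfl
  have h2 : RS.image φ ⊆ Fintype.piFinset A := by
    intro g hg
    obtain ⟨μ, hμ, rfl⟩ := Finset.mem_image.1 hg
    rw [Fintype.mem_piFinset]
    intro j
    rcases (hRS μ hμ).1 j with ⟨h3, h4⟩ | ⟨h3, h4, h5⟩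
    · apply Finset.mem_insert.2
      left
      simp only [φ, h3, h4]
    · apply Finset.mem_insert.2
      right
      simp only [φ, Finset.mem_filter, Finset.mem_product, Finset.mem_Icc]
      omega
  have h3 : ∑ g ∈ RS.image φ, ∏ j : Dir d, f j (g j) ≤ ∑ g ∈ Fintype.piFinset A, ∏ j, f j (g j) :=
    Finset.sum_le_sum_of_subset_of_nonneg h2 fun g _ _ => Finset.prod_nonneg fun j _ => hf0 _ _
  have h4 : ∑ g ∈ Fintype.piFinset A, ∏ j, f j (g j) = ∏ j, ∑ y ∈ A j, f j y :=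
    (Finset.prod_univ_sum A f).symm
  have h5 : ∀ j : Dir d, ∑ y ∈ A j, f j y ≤ 1 + 4 * t := by
    intro j
    have h6 : ((0 : ℤ), (0 : ℤ)) ∉
        (Finset.Icc (T j) (Q j) ×ˢ Finset.Icc (T j) (Q j)).filter (fun y => y.1 < y.2) := by
      intro h
      exact lt_irrefl _ (Finset.mem_filter.1 h).2
    have h7 : ∑ y ∈ A j, f j y = f j (0, 0) +
        ∑ y ∈ (Finset.Icc (T j) (Q j) ×ˢ Finset.Icc (T j) (Q j)).filter (fun y => y.1 < y.2),
          f j y := Finset.sum_insert h6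
    have h8 := sum_levels (hTQ j) (hx0 j.1) (hx j.1)
    have h9 : 2 * (t / w j.1) * ((Q j : ℝ) - T j) ≤ 4 * t := by
      have h10 : 2 * (t / w j.1) * ((Q j : ℝ) - T j) ≤ 2 * (t / w j.1) * (2 * w j.1) :=
        mul_le_mul_of_nonneg_left (hwin j) (mul_nonneg two_pos.le (hx0 _))
      have h11 : 2 * (t / w j.1) * (2 * w j.1) = 4 * t := by
        have := (hwpos j.1).ne'
        field_simp
        ring
      linarith
    have h12 : f j (0, 0) = 1 := by simp [f]
    rw [h7, h12]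
    have h13 : ∑ y ∈ (Finset.Icc (T j) (Q j) ×ˢ Finset.Icc (T j) (Q j)).filter
        (fun y => y.1 < y.2), f j y ≤ 2 * (t / w j.1) * ((Q j : ℝ) - T j) := h8
    linarith
  have h6 : ∏ j, ∑ y ∈ A j, f j y ≤ ∏ _j : Dir d, (1 + 4 * t) :=
    Finset.prod_le_prod (fun j _ => Finset.sum_nonneg fun y _ => hf0 _ _) fun j _ => h5 j
  have h7 : ∏ _j : Dir d, (1 + 4 * t) ≤ 2 := by
    rw [Finset.prod_const, Finset.card_univ, Fintype.card_prod, Fintype.card_fin,
      Fintype.card_bool]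
    have h8 : (1 + 4 * t) ^ (d * 2) ≤ Real.exp (4 * t) ^ (d * 2) := by
      refine pow_le_pow_left₀ (by linarith) ?_ _
      have := Real.add_one_le_exp (4 * t)
      linarith
    refine h8.trans ?_
    rw [← Real.exp_nat_mul]
    have h9 : ((d * 2 : ℕ) : ℝ) * (4 * t) ≤ 1 / 2 := by
      push_cast
      linarith
    have h10 : Real.exp (((d * 2 : ℕ) : ℝ) * (4 * t)) ≤ Real.exp (1 / 2) := Real.exp_le_exp.2 h9
    refine h10.trans ?_
    have h11 : Real.exp (1 / 2) ^ 2 = Real.exp 1 := by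
      rw [← Real.exp_nat_mul]
      norm_num
    have h12 := Real.exp_one_lt_d9
    have h13 := Real.exp_pos (1 / 2 : ℝ)
    nlinarith
  rw [h1]
  exact h3.trans (h4.le.trans (h6.trans h7))

end BTP
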