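import Pool.Agent.BTP.B6
import Pool.Agent.BTP.B7
import Pool.Agent.BTP.P6

set_option autoImplicit false

open scoped Classical
open Finset

namespace BTP

/-- percolation in `[0, n-1]^d`, as in the frozen statement -/
def PercF (d n : ℕ) (A : Finset (Fin d → Fin n)) : Prop :=
  ∀ S : Finset (Fin d → Fin n), A ⊆ S →
    (∀ v : Fin d → Fin n,
      2 ≤ (Finset.univ.filter (fun u : Fin d → Fin n =>
        u ∈ S ∧ ∑ i, |((u i : ℕ) : ℤ) - ((v i : ℕ) : ℤ)| = 1)).card → v ∈ S) →
    S = Finset.univ

/-- the probability of percolation -/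
noncomputable def percP (d n : ℕ) (p : ℝ) : ℝ := ∑ A : Finset (Fin d → Fin n),
  (if PercF d n A then p ^ A.card * (1 - p) ^ (Fintype.card (Fin d → Fin n) - A.card) else 0)

/-- the embedding of the finite box -/
def t1_e (d n : ℕ) : (Fin d → Fin n) ↪ Site d :=
  ⟨fun v i => (((v i : Fin n) : ℕ) : ℤ), fun v w h => by
    funext i
    have := congrFun h i
    simp only [Nat.cast_inj] at this
    exact Fin.ext this⟩

theorem t1_e_apply {d n : ℕ} (v : Fin d → Fin n) (i : Fin d) :
    t1_e d n v i = (((v i : Fin n) : ℕ) : ℤ) := rfl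

theorem t1_e_mem {d n : ℕ} (v : Fin d → Fin n) : t1_e d n v ∈ sites (Wn d n) := by
  rw [mem_Wn]
  intro i
  rw [t1_e_apply]
  have := (v i).2
  constructor
  · positivity
  · exact_mod_cast this

theorem t1_e_surj {d n : ℕ} {w : Site d} (hw : w ∈ sites (Wn d n)) : ∃ v, t1_e d n v = w := by
  rw [mem_Wn] at hw
  refine ⟨fun i => ⟨(w i).toNat, ?_⟩, ?_⟩
  · have := hw i; omega
  · funext i
    rw [t1_e_apply]
    have := hw i
    show (((w i).toNat : ℕ) : ℤ) = w i
    omega

theorem t1_map_univ {d n : ℕ} : (Finset.univ : Finset (Fin d → Fin n)).map (t1_e d n) =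
    sites (Wn d n) := by
  ext w
  rw [Finset.mem_map]
  constructor
  · rintro ⟨v, _, rfl⟩; exact t1_e_mem v
  · intro hw
    obtain ⟨v, hv⟩ := t1_e_surj hw
    exact ⟨v, Finset.mem_univ _, hv⟩

theorem t1_perc {d n : ℕ} (hn : 1 ≤ n) {A : Finset (Fin d → Fin n)} (hA : PercF d n A) :
    IG (Wn d n) (A.map (t1_e d n)) := by
  apply perc_IG hn
  · rw [← t1_map_univ]
    exact Finset.map_subset_map.mpr (Finset.subset_univ _)
  · intro S hS hAS hcl
    have h1 := hA (Finset.univ.filter (fun v => t1_e d n v ∈ S)) ?_ ?_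
    · apply Finset.Subset.antisymm hS
      intro w hw
      obtain ⟨v, rfl⟩ := t1_e_surj hw
      have : v ∈ Finset.univ.filter (fun v => t1_e d n v ∈ S) := by
        rw [h1]; exact Finset.mem_univ _
      exact (Finset.mem_filter.mp this).2
    · intro v hv
      rw [Finset.mem_filter]
      exact ⟨Finset.mem_univ _, hAS (Finset.mem_map_of_mem _ hv)⟩
    · intro v hv
      rw [Finset.mem_filter]
      refine ⟨Finset.mem_univ _, hcl _ (t1_e_mem v) (le_trans hv ?_)⟩
      rw [← Finset.card_map (t1_e d n)]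
      apply Finset.card_le_card
      intro w hw
      obtain ⟨u, hu, rfl⟩ := Finset.mem_map.mp hw
      rw [Finset.mem_filter] at hu
      obtain ⟨_, hu1, hu2⟩ := hu
      rw [Finset.mem_filter] at hu1
      rw [Finset.mem_filter]
      refine ⟨hu1.2, ?_⟩
      simpa only [t1_e_apply] using hu2

/-- [BTP-T1] transfer to `ℤ^d`.
PROOF. `e : (Fin d → Fin n) ↪ Site d`, `e v i = (v i : ℕ)`; `Finset.univ.map e = sites (Wn d n)` (`mem_Wn`). The subsets of `sites (Wn d n)` are the `A.map e` (`Finset.map_injective`, `Finset.powerset_map` or preimages), `(A.map e).card = A.card`; so `percP = Pr (sites (Wn d n)) p E`, `E U = PercF (U.preimage e)`, and `PercF A → IG (Wn d n) (A.map e)` by `perc_IG`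
(for `S ⊆ sites (Wn d n)`, `S = S'.map e`; the neighbours of `e v` in `S` are the images of the neighbours of `v` in `S'`). `Pr_mono`. -/
theorem percP_le {d n : ℕ} (hn : 1 ≤ n) {p : ℝ} (hp0 : 0 ≤ p) (hp1 : p ≤ 1) :
    percP d n p ≤ Pr (sites (Wn d n)) p (IG (Wn d n)) := by
  unfold percP Pr
  have hcard : (sites (Wn d n)).card = Fintype.card (Fin d → Fin n) := by
    rw [← t1_map_univ, Finset.card_map, Finset.card_univ]
  rw [hcard, ← Finset.sum_filter]
  have h1 : ∑ A ∈ (Finset.univ.filter (fun A => PercF d n A)),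
        p ^ A.card * (1 - p) ^ (Fintype.card (Fin d → Fin n) - A.card) =
      ∑ U ∈ (Finset.univ.filter (fun A => PercF d n A)).map
          (Finset.mapEmbedding (t1_e d n)).toEmbedding,
        p ^ U.card * (1 - p) ^ (Fintype.card (Fin d → Fin n) - U.card) := by
    rw [Finset.sum_map]
    apply Finset.sum_congr rfl
    intro A _
    simp only [RelEmbedding.coe_toEmbedding, Finset.mapEmbedding_apply, Finset.card_map]
  rw [h1]
  apply Finset.sum_le_sum_of_subset_of_nonneg
  · intro U hU
    obtain ⟨A, hA, rfl⟩ := Finset.mem_map.mp hU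
    rw [Finset.mem_filter] at hA
    simp only [RelEmbedding.coe_toEmbedding, Finset.mapEmbedding_apply]
    rw [Finset.mem_filter, Finset.mem_powerset]
    refine ⟨?_, t1_perc hn hA.2⟩
    rw [← t1_map_univ]
    exact Finset.map_subset_map.mpr (Finset.subset_univ _)
  · intro U _ _
    have : 0 ≤ 1 - p := by linarith
    positivity

end BTP
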