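import Pool.Agent.BTP.D0

set_option autoImplicit false

open scoped Classical
open Finset

namespace BTP

/-- general assumptions on the step cost and the gauge -/
structure GP (G : ℝ → ℝ) (φ : ℕ → ℝ) : Prop where
  conv : ConvexOn ℝ (Set.Ioi 0) G
  anti : AntitoneOn G (Set.Ioi 0)
  nonneg : ∀ z, 0 ≤ G z
  pos : ∀ m, 0 < φ m
  mono : Monotone φ
  conc : ∀ m, φ (m + 2) - φ (m + 1) ≤ φ (m + 1) - φ m

variable {d : ℕ} {G : ℝ → ℝ} {φ : ℕ → ℝ}

theorem v0_step (hg : GP G φ) {R : ℝ} (hR : 0 < R) (s : ℕ) :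
    G (φ (s + 1) * R) - G (φ (s + 2) * R) ≤ G (φ s * R) - G (φ (s + 1) * R) := by
  have hx : 0 < φ s * R := mul_pos (hg.pos s) hR
  have hxy : φ s * R ≤ φ (s + 1) * R :=
    mul_le_mul_of_nonneg_right (hg.mono (Nat.le_succ s)) hR.le
  have hyz : φ (s + 1) * R ≤ φ (s + 2) * R :=
    mul_le_mul_of_nonneg_right (hg.mono (Nat.le_succ (s + 1))) hR.le
  have hc : φ (s + 2) * R - φ (s + 1) * R ≤ φ (s + 1) * R - φ s * R := by
    have := mul_le_mul_of_nonneg_right (hg.conc s) hR.le
    linarith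
  have hy : 0 < φ (s + 1) * R := mul_pos (hg.pos _) hR
  have hz : 0 < φ (s + 2) * R := mul_pos (hg.pos _) hR
  have hD : G (φ (s + 1) * R) ≤ G (φ s * R) := hg.anti hx hy hxy
  generalize φ s * R = x at *
  generalize φ (s + 1) * R = y at *
  generalize φ (s + 2) * R = z at *
  rcases eq_or_lt_of_le hyz with h | h
  · rw [← h]
    linarith
  · have hxy' : x < y := by linarith
    have h1 := hg.conv.slope_mono_adjacent (Set.mem_Ioi.2 hx) (Set.mem_Ioi.2 hz) hxy' h
    rw [div_le_div_iff₀ (by linarith) (by linarith)] at h1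
    have h2 : (G y - G z) * (y - x) ≤ (G x - G y) * (y - x) := by nlinarith
    exact le_of_mul_le_mul_right h2 (by linarith)

/-- [BTP-V0] discrete convexity along one coordinate.
PROOF. `f s = G (φ s * R)` has increasing differences: `f (s+1) - f (s+2) ≤ f s - f (s+1)`: with `x = φ s R ≤ y = φ (s+1) R ≤ z = φ (s+2) R`, `z - y ≤ y - x`. If `x = y` then `z = y` and both sides are `0`. Otherwise, convexity (`ConvexOn.slope_mono_adjacent`) `(G z - G y)/(z - y) ≥ (G y - G x)/(y - x)` for `z > y` (if `z = y` the left side is `0 ≤ f s - f (s+1)` by `anti`), so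
`G y - G z ≤ (z-y) (G x - G y)/(y - x) ≤ G x - G y` (`G x ≥ G y`). Then induction on `b - a`. -/
theorem GP.swap1 (hg : GP G φ) {R : ℝ} (hR : 0 < R) {a b : ℕ} (hab : a ≤ b) :
    G (φ b * R) - G (φ (b + 1) * R) ≤ G (φ a * R) - G (φ (a + 1) * R) := by
  induction b, hab using Nat.le_induction with
  | base => exact le_rfl
  | succ n _ ih => exact (v0_step hg hR n).trans ih

end BTP
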