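import Pool.Agent.BTP.V0

set_option autoImplicit false

open scoped Classical
open Finset

namespace BTP

variable {d : ℕ} {G : ℝ → ℝ} {φ : ℕ → ℝ}

/-- [BTP-V1] the state of the diagonal path to `x` before the step of coordinate `k` at time `m` -/
def st (x : Fin d → ℕ) (m : ℕ) (k : ℕ) (j : Fin d) : ℕ := min (x j) (m + if j.val < k then 1 else 0)

/-- the product over the coordinates other than `i` -/
noncomputable def v1_s (φ : ℕ → ℝ) (x : Fin d → ℕ) (i : Fin d) (m k : ℕ) : ℝ :=
  ∏ j ∈ Finset.univ.erase i, φ (st x m k j)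

/-- the product over the coordinates other than `i`, `k` -/
noncomputable def v1_S (φ : ℕ → ℝ) (x : Fin d → ℕ) (i k : Fin d) (m : ℕ) : ℝ :=
  ∏ j ∈ (Finset.univ.erase i).erase k, φ (st x m k j)

theorem v1_s_d (x : Fin d → ℕ) (i : Fin d) (m : ℕ) : v1_s φ x i m d = v1_s φ x i (m + 1) 0 := by
  unfold v1_s st
  refine Finset.prod_congr rfl fun j _ => ?_
  simp [j.2]

theorem v1_s_i (x : Fin d → ℕ) (i : Fin d) (m : ℕ) :
    v1_s φ x i m (i.val + 1) = v1_s φ x i m i.val := by
  unfold v1_s st
  refine Finset.prod_congr rfl fun j hj => ?_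
  have h1 : j.val ≠ i.val := fun h => (Finset.ne_of_mem_erase hj) (Fin.ext h)
  by_cases h2 : j.val < i.val
  · rw [if_pos h2, if_pos (by omega)]
  · rw [if_neg h2, if_neg (by omega)]

theorem v1_s_top (x : Fin d → ℕ) (i : Fin d) (M : ℕ) (hM : ∀ j, x j ≤ M) :
    v1_s φ x i M 0 = ∏ j ∈ Finset.univ.erase i, φ (x j) := by
  unfold v1_s st
  refine Finset.prod_congr rfl fun j _ => ?_
  simp [hM j]

theorem v1_split (x : Fin d → ℕ) {i k : Fin d} (hk : k ≠ i) (m : ℕ) :
    v1_s φ x i m k.val = φ (min (x k) m) * v1_S φ x i k m ∧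
    v1_s φ x i m (k.val + 1) = φ (min (x k) (m + 1)) * v1_S φ x i k m := by
  have hmem : k ∈ Finset.univ.erase i := Finset.mem_erase.2 ⟨hk, Finset.mem_univ _⟩
  unfold v1_s v1_S
  constructor
  · rw [← Finset.mul_prod_erase _ _ hmem]
    congr 1
    unfold st
    simp
  · rw [← Finset.mul_prod_erase _ _ hmem]
    congr 1
    · unfold st
      simp
    · refine Finset.prod_congr rfl fun j hj => ?_
      unfold st
      have h1 : j.val ≠ k.val := fun h => (Finset.ne_of_mem_erase hj) (Fin.ext h)
      by_cases h2 : j.val < k.val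
      · rw [if_pos h2, if_pos (by omega)]
      · rw [if_neg h2, if_neg (by omega)]

theorem v1_S_pos (hg : GP G φ) (x : Fin d → ℕ) (i k : Fin d) (m : ℕ) : 0 < v1_S φ x i k m :=
  Finset.prod_pos fun _ _ => hg.pos _

/-- the factor of coordinate `i` in the term of `Psi` -/
theorem v1_term (x : Fin d → ℕ) {i k : Fin d} (hk : k ≠ i) (m b : ℕ) :
    (∏ j ∈ Finset.univ.erase k, φ (min (Function.update x i b j) (m + if j < k then 1 else 0))) =
      φ (min b (m + if i < k then 1 else 0)) * v1_S φ x i k m := by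
  have hmem : i ∈ Finset.univ.erase k := Finset.mem_erase.2 ⟨hk.symm, Finset.mem_univ _⟩
  rw [← Finset.mul_prod_erase _ _ hmem, Function.update_self]
  congr 1
  unfold v1_S
  rw [Finset.erase_right_comm]
  refine Finset.prod_congr rfl fun j hj => ?_
  have h1 : j ≠ i := by
    have := Finset.mem_of_mem_erase hj
    exact Finset.ne_of_mem_erase this
  rw [Function.update_of_ne h1]
  rfl

/-- the lower bound for the gain -/
noncomputable def v1_c (G : ℝ → ℝ) (φ : ℕ → ℝ) (x : Fin d → ℕ) (i : Fin d) (m k : ℕ) : ℝ :=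
  if x i + 1 ≤ m + (if i.val < k then 1 else 0) then
    G (v1_s φ x i m k) - G (v1_s φ x i m (k + 1)) else 0

theorem v1_c_i (x : Fin d → ℕ) (i : Fin d) (m : ℕ) : v1_c G φ x i m i.val = 0 := by
  unfold v1_c
  rw [v1_s_i]
  simp

theorem v1_gain (hg : GP G φ) (x : Fin d → ℕ) {i k : Fin d} (hk : k ≠ i) (m : ℕ) (hm : m < x k) :
    v1_c G φ x i m k.val ≤ G (φ (min (x i) (m + if i < k then 1 else 0)) * v1_S φ x i k m) -
      G (φ (min (x i + 1) (m + if i < k then 1 else 0)) * v1_S φ x i k m) := by
  unfold v1_c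
  by_cases h : x i + 1 ≤ m + (if i.val < k.val then 1 else 0)
  · rw [if_pos h]
    have h1 : min (x i) (m + if i < k then 1 else 0) = x i := by
      apply min_eq_left
      have : (if i < k then 1 else 0) = (if i.val < k.val then 1 else 0) := rfl
      rw [this]
      omega
    have h2 : min (x i + 1) (m + if i < k then 1 else 0) = x i + 1 := min_eq_left h
    rw [h1, h2, (v1_split x hk m).1, (v1_split x hk m).2, min_eq_right hm.le,
      min_eq_right (Nat.succ_le_of_lt hm)]
    refine hg.swap1 (v1_S_pos hg x i k m) ?_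
    split_ifs at h <;> omega
  · rw [if_neg h]
    have h1 : min (x i) (m + if i < k then 1 else 0) = m + if i < k then 1 else 0 := by
      apply min_eq_right
      have : (if i < k then 1 else 0) = (if i.val < k.val then 1 else 0) := rfl
      rw [this]
      omega
    have h2 : min (x i + 1) (m + if i < k then 1 else 0) = m + if i < k then 1 else 0 := by
      apply min_eq_right
      have : (if i < k then 1 else 0) = (if i.val < k.val then 1 else 0) := rfl
      rw [this]
      omega
    rw [h1, h2, sub_self]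

theorem v1_c_zero (x : Fin d → ℕ) {i k : Fin d} (hk : k ≠ i) (m : ℕ) (hm : x k ≤ m) :
    v1_c G φ x i m k.val = 0 := by
  unfold v1_c
  rw [(v1_split x hk m).1, (v1_split x hk m).2, min_eq_left hm, min_eq_left (by omega)]
  simp

/-- telescoping in `k` -/
theorem v1_tel (t : ℕ → ℝ) (a : ℕ) : ∀ n, a ≤ n →
    ∑ k ∈ Finset.range n, (if a ≤ k then t k - t (k + 1) else 0) = t a - t n := by
  intro n hn
  induction n, hn using Nat.le_induction with
  | base =>
    rw [sub_self]
    refine Finset.sum_eq_zero fun k hk => ?_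
    rw [Finset.mem_range] at hk
    rw [if_neg (by omega)]
  | succ n hn ih =>
    rw [Finset.sum_range_succ, ih, if_pos hn]
    ring

theorem v1_row_lt (x : Fin d → ℕ) (i : Fin d) (m : ℕ) (hm : m < x i) :
    ∑ k ∈ Finset.range d, v1_c G φ x i m k = 0 := by
  refine Finset.sum_eq_zero fun k _ => ?_
  unfold v1_c
  rw [if_neg]
  split_ifs <;> omega

theorem v1_row_eq (x : Fin d → ℕ) (i : Fin d) :
    ∑ k ∈ Finset.range d, v1_c G φ x i (x i) k =
      G (v1_s φ x i (x i) i.val) - G (v1_s φ x i (x i + 1) 0) := by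
  have h1 := v1_tel (fun k => G (v1_s φ x i (x i) k)) (i.val + 1) d i.2
  simp only [v1_s_i, v1_s_d] at h1
  rw [← h1]
  refine Finset.sum_congr rfl fun k _ => ?_
  unfold v1_c
  by_cases h : i.val < k
  · rw [if_pos h, if_pos le_rfl, if_pos (by omega)]
  · rw [if_neg h, if_neg (by omega), if_neg (by omega)]

theorem v1_row_gt (x : Fin d → ℕ) (i : Fin d) (m : ℕ) (hm : x i < m) :
    ∑ k ∈ Finset.range d, v1_c G φ x i m k =
      G (v1_s φ x i m 0) - G (v1_s φ x i (m + 1) 0) := by
  have h1 := v1_tel (fun k => G (v1_s φ x i m k)) 0 d (Nat.zero_le _)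
  simp only [v1_s_d] at h1
  rw [← h1]
  refine Finset.sum_congr rfl fun k _ => ?_
  unfold v1_c
  rw [if_pos (by omega), if_pos (Nat.zero_le _)]

theorem v1_total (x : Fin d → ℕ) (i : Fin d) : ∀ M, x i + 1 ≤ M →
    ∑ m ∈ Finset.range M, ∑ k ∈ Finset.range d, v1_c G φ x i m k =
      G (v1_s φ x i (x i) i.val) - G (v1_s φ x i M 0) := by
  intro M hM
  induction M, hM using Nat.le_induction with
  | base =>
    rw [Finset.sum_range_succ, v1_row_eq, Finset.sum_eq_zero, zero_add]
    intro m hm
    rw [Finset.mem_range] at hm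
    exact v1_row_lt x i m hm
  | succ M hM ih =>
    rw [Finset.sum_range_succ, ih, v1_row_gt x i M (by omega)]
    ring

/-- [BTP-V1] the exchange inequality: one more unit in direction `i` costs at most the step at the end of the path.
PROOF. Let `a = x i`, `x' = Function.update x i (a+1)`, `s(m,k) = ∏_{j ≠ i} φ (st x m k j)` for `k ≤ d`; `s(m, d) = s(m+1, 0)`, `s(m, i) = s(m, i+1)`.
(1) `Psi x' - Psi x = G (s(a, i)) - ∑_{(k, m): k ≠ i, m < x k, a + 1 ≤ m + [i < k]} (G (φ a S) - G (φ (a+1) S))`, `S = S_{k,m} = ∏_{j ≠ i, k} φ (st x m k j)`: the term `k = i` of `Psi x'` has the additional summand `m = a` (the others do not see coordinate `i`);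
in the terms `k ≠ i` only the factor `j = i` changes, from `φ (min a (m + [i<k]))` to `φ (min (a+1) (m + [i<k]))`; different only if `m + [i<k] ≥ a + 1`, then from `φ a` to `φ (a+1)`.
(2) For such `(k, m)`, `m ≥ a`, so by `swap1` `G (φ a S) - G (φ (a+1) S) ≥ G (φ m S) - G (φ (m+1) S) = G (s(m,k)) - G (s(m,k+1))` (for `m < x k`, `k ≠ i`). If `m ≥ x k` then `s(m,k) = s(m,k+1)`.
(3) So `Psi x' - Psi x ≤ G (s(a,i)) - ∑_{(m,k) > (a,i) lexicographically} (G (s(m,k)) - G (s(m,k+1)))`, the sum over `k < d` and `m ≤ N`, `N = max x`; it telescopes (`Finset.sum_range_sub'`, first in `k`, then in `m`): from `G (s(a, i+1))` to `G (s(N, d)) = G (∏_{j≠i} φ (x j))`. -/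
theorem GP.step (hg : GP G φ) (x : Fin d → ℕ) (i : Fin d) :
    Psi G φ (Function.update x i (x i + 1)) ≤
      Psi G φ x + G (∏ j ∈ Finset.univ.erase i, φ (x j)) := by
  obtain ⟨M, hM, hMi⟩ : ∃ M, (∀ j, x j ≤ M) ∧ x i + 1 ≤ M := by
    refine ⟨(Finset.univ.sup x) + 1, fun j => ?_, ?_⟩
    · exact (Finset.le_sup (Finset.mem_univ j)).trans (Nat.le_succ _)
    · exact Nat.succ_le_succ (Finset.le_sup (Finset.mem_univ i))
  -- the terms of the two sums
  have hterm : ∀ k : Fin d, ∑ m ∈ Finset.range (Function.update x i (x i + 1) k),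
      G (∏ j ∈ Finset.univ.erase k,
        φ (min (Function.update x i (x i + 1) j) (m + if j < k then 1 else 0))) ≤
      ∑ m ∈ Finset.range (x k),
        G (∏ j ∈ Finset.univ.erase k, φ (min (x j) (m + if j < k then 1 else 0))) +
      (if k = i then G (v1_s φ x i (x i) i.val) else 0) -
      ∑ m ∈ Finset.range M, v1_c G φ x i m k.val := by
    intro k
    by_cases hk : k = i
    · rw [hk, if_pos rfl, Function.update_self, Finset.sum_range_succ]
      have h0 : ∑ m ∈ Finset.range M, v1_c G φ x i m i.val = 0 :=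
        Finset.sum_eq_zero fun m _ => v1_c_i x i m
      rw [h0, sub_zero]
      have h1 : ∀ m, (∏ j ∈ Finset.univ.erase i,
          φ (min (Function.update x i (x i + 1) j) (m + if j < i then 1 else 0))) =
          ∏ j ∈ Finset.univ.erase i, φ (min (x j) (m + if j < i then 1 else 0)) := by
        intro m
        refine Finset.prod_congr rfl fun j hj => ?_
        rw [Function.update_of_ne (Finset.ne_of_mem_erase hj)]
      simp only [h1]
      exact le_refl _
    · rw [if_neg hk, add_zero, Function.update_of_ne hk]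
      have h1 : ∑ m ∈ Finset.range M, v1_c G φ x i m k.val =
          ∑ m ∈ Finset.range (x k), v1_c G φ x i m k.val := by
        symm
        refine Finset.sum_subset (Finset.range_subset_range.2 (hM k)) ?_
        intro m _ hm
        rw [Finset.mem_range, not_lt] at hm
        exact v1_c_zero x hk m hm
      rw [h1, ← Finset.sum_sub_distrib]
      refine Finset.sum_le_sum fun m hm => ?_
      rw [Finset.mem_range] at hm
      have h2 := v1_gain hg x hk m hm
      have h3 := v1_term (φ := φ) x hk m (x i + 1)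
      have h4 := v1_term (φ := φ) x hk m (x i)
      rw [Function.update_eq_self] at h4
      rw [h3, h4]
      linarith
  have hsum : Psi G φ (Function.update x i (x i + 1)) ≤ Psi G φ x +
      G (v1_s φ x i (x i) i.val) - ∑ k : Fin d, ∑ m ∈ Finset.range M, v1_c G φ x i m k.val := by
    unfold Psi
    refine (Finset.sum_le_sum fun k _ => hterm k).trans (le_of_eq ?_)
    rw [Finset.sum_sub_distrib, Finset.sum_add_distrib, Finset.sum_ite_eq' Finset.univ i]
    simp
  have h5 : ∑ k : Fin d, ∑ m ∈ Finset.range M, v1_c G φ x i m k.val =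
      G (v1_s φ x i (x i) i.val) - G (∏ j ∈ Finset.univ.erase i, φ (x j)) := by
    rw [Finset.sum_comm, ← v1_s_top x i M hM, ← v1_total x i M hMi]
    refine Finset.sum_congr rfl fun m _ => ?_
    exact Fin.sum_univ_eq_sum_range (fun k => v1_c G φ x i m k) d
  rw [h5] at hsum
  linarith

end BTP
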