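import Pool.Agent.BTP.V1

set_option autoImplicit false

open scoped Classical
open Finset

namespace BTP

variable {d : ℕ} {G : ℝ → ℝ} {φ : ℕ → ℝ}

/-- [BTP-V3] several steps in one direction (the faces do not change). PROOF. Induction on `n`, `GP.step`. -/
theorem GP.steps (hg : GP G φ) (x : Fin d → ℕ) (i : Fin d) (n : ℕ) :
    Psi G φ (Function.update x i (x i + n)) ≤
      Psi G φ x + n * G (∏ j ∈ Finset.univ.erase i, φ (x j)) := by
  induction n with
  | zero => simp
  | succ n ih =>
    have h1 := hg.step (Function.update x i (x i + n)) i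
    have h2 : Function.update (Function.update x i (x i + n)) i
        (Function.update x i (x i + n) i + 1) = Function.update x i (x i + (n + 1)) := by
      rw [Function.update_self, Function.update_idem, add_assoc]
    have h3 : ∏ j ∈ Finset.univ.erase i, φ (Function.update x i (x i + n) j) =
        ∏ j ∈ Finset.univ.erase i, φ (x j) := by
      apply Finset.prod_congr rfl
      intro j hj
      rw [Function.update_of_ne (Finset.ne_of_mem_erase hj)]
    rw [h2, h3] at h1
    push_cast
    linarith

/-- [BTP-V3] from `x'` to `x`: first the coordinate `i₀`, then the others.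
PROOF. First `GP.steps` for `i₀`: cost `(x i₀ - x' i₀) G (∏_{l≠i₀} φ (x' l)) ≤ (x i₀ - x' i₀) α i₀`. Then induction over the finite set of coordinates `j ≠ i₀` already raised (or on the list of coordinates): at the current point `y` (`y i₀ = x i₀`, `y l ≥ x' l`), raising `j` costs `(x j - x' j) G (∏_{l≠j} φ (y l))` and
`∏_{l≠j} φ (y l) ≥ φ (x i₀) ∏_{l ≠ j, i₀} φ (x' l)`, so (`anti`) at most `(x j - x' j) α j`. -/
theorem GP.multi (hg : GP G φ) {x' x : Fin d → ℕ} (hx : x' ≤ x) (i₀ : Fin d) (α : Fin d → ℝ)
    (h0 : G (∏ l ∈ Finset.univ.erase i₀, φ (x' l)) ≤ α i₀)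
    (h1 : ∀ j, j ≠ i₀ → G (φ (x i₀) * ∏ l ∈ (Finset.univ.erase j).erase i₀, φ (x' l)) ≤ α j) :
    Psi G φ x ≤ Psi G φ x' + ∑ i, ((x i : ℝ) - x' i) * α i := by
  have key : ∀ s : Finset (Fin d), i₀ ∉ s →
      Psi G φ (fun l => if l = i₀ ∨ l ∈ s then x l else x' l) ≤
        Psi G φ x' + ((x i₀ : ℝ) - x' i₀) * α i₀ + ∑ j ∈ s, ((x j : ℝ) - x' j) * α j := by
    intro s
    induction s using Finset.induction_on with
    | empty =>
      intro _
      have h2 := hg.steps x' i₀ (x i₀ - x' i₀)
      have h3 : Function.update x' i₀ (x' i₀ + (x i₀ - x' i₀)) =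
          fun l => if l = i₀ ∨ l ∈ (∅ : Finset (Fin d)) then x l else x' l := by
        funext l
        by_cases h : l = i₀
        · subst h
          have := hx l
          rw [Function.update_self, if_pos (Or.inl rfl)]
          exact Nat.add_sub_cancel' this
        · rw [Function.update_of_ne h, if_neg]
          rintro (h' | h')
          · exact h h'
          · exact absurd h' (Finset.notMem_empty _)
      rw [h3] at h2
      rw [Finset.sum_empty, add_zero]
      refine h2.trans (add_le_add_right ?_ _)
      rw [Nat.cast_sub (hx i₀)]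
      exact mul_le_mul_of_nonneg_left h0 (sub_nonneg.2 (by exact_mod_cast hx i₀))
    | insert j s hj ih =>
      intro hi
      have hji : j ≠ i₀ := fun h => hi (by rw [h]; exact Finset.mem_insert_self _ _)
      have his : i₀ ∉ s := fun h => hi (Finset.mem_insert_of_mem h)
      have h6 := ih his
      set y : Fin d → ℕ := fun l => if l = i₀ ∨ l ∈ s then x l else x' l with hy
      have hyj : y j = x' j := by
        simp only [hy]
        rw [if_neg]
        rintro (h | h)
        · exact hji h
        · exact hj h
      have hyi : y i₀ = x i₀ := by simp [hy]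
      have h2 := hg.steps y j (x j - x' j)
      have h3 : Function.update y j (y j + (x j - x' j)) =
          fun l => if l = i₀ ∨ l ∈ insert j s then x l else x' l := by
        funext l
        by_cases h : l = j
        · subst h
          have := hx l
          rw [Function.update_self, if_pos (Or.inr (Finset.mem_insert_self _ _)), hyj]
          exact Nat.add_sub_cancel' this
        · rw [Function.update_of_ne h]
          simp only [hy, Finset.mem_insert, h, false_or]
      rw [h3] at h2
      have h4 : G (∏ l ∈ Finset.univ.erase j, φ (y l)) ≤ α j := by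
        refine le_trans ?_ (h1 j hji)
        rw [← Finset.mul_prod_erase (Finset.univ.erase j) _
          (Finset.mem_erase.2 ⟨hji.symm, Finset.mem_univ i₀⟩), hyi]
        have hp : ∀ (s : Finset (Fin d)) (u : Fin d → ℕ), 0 < ∏ l ∈ s, φ (u l) :=
          fun s u => Finset.prod_pos fun _ _ => hg.pos _
        apply hg.anti (mul_pos (hg.pos _) (hp _ _)) (mul_pos (hg.pos _) (hp _ _))
        apply mul_le_mul_of_nonneg_left _ (hg.pos _).le
        apply Finset.prod_le_prod (fun _ _ => (hg.pos _).le)
        intro l _
        apply hg.mono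
        simp only [hy]
        split_ifs
        · exact hx l
        · exact le_rfl
      rw [Finset.sum_insert hj]
      have h5 : ((x j - x' j : ℕ) : ℝ) * G (∏ l ∈ Finset.univ.erase j, φ (y l)) ≤
          ((x j : ℝ) - x' j) * α j := by
        rw [Nat.cast_sub (hx j)]
        exact mul_le_mul_of_nonneg_left h4 (sub_nonneg.2 (by exact_mod_cast hx j))
      linarith
  have h := key (Finset.univ.erase i₀) (Finset.notMem_erase _ _)
  have h2 : (fun l => if l = i₀ ∨ l ∈ Finset.univ.erase i₀ then x l else x' l) = x := by
    funext l
    rw [if_pos]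
    by_cases hl : l = i₀
    · exact Or.inl hl
    · exact Or.inr (Finset.mem_erase.2 ⟨hl, Finset.mem_univ _⟩)
  rw [h2] at h
  rw [← Finset.add_sum_erase _ _ (Finset.mem_univ i₀), ← add_assoc]
  exact h

end BTP
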