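import Pool.Agent.BTP.V1

set_option autoImplicit false

open scoped Classical
open Finset

namespace BTP

variable {d : ℕ} {G : ℝ → ℝ} {φ : ℕ → ℝ}

/-- [BTP-V4] raising for free.
PROOF. Induction on `∑ (b - x l)`. If `x = (b, .., b)` nothing to do. Otherwise let `i₁` be a coordinate with minimal `x i₁` (`< b`): `∏_{l≠i₁} φ (x l) ≥ ∏_{l≠i} φ (x l)` (`φ (x i) ≥ φ (x i₁)`, compare the full products), so `G (∏_{l≠i₁}) = 0` (`anti`, `nonneg`), `GP.step` gives `Psi (x + e_{i₁}) ≤ Psi x`, and for the new point the product without `i₁` is the same, so the hypothesis holds with `i := i₁`. -/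
theorem GP.raise (hg : GP G φ) {x : Fin d → ℕ} {b : ℕ} (hb : ∀ l, x l ≤ b) (i : Fin d)
    (h : G (∏ l ∈ Finset.univ.erase i, φ (x l)) = 0) :
    Psi G φ (fun _ : Fin d => b) ≤ Psi G φ x := by
  have key : ∀ (n : ℕ) (x : Fin d → ℕ) (i : Fin d), (∀ l, x l ≤ b) → ∑ l, (b - x l) = n →
      G (∏ l ∈ Finset.univ.erase i, φ (x l)) = 0 → Psi G φ (fun _ : Fin d => b) ≤ Psi G φ x := by
    intro n
    induction n with
    | zero =>
      intro x i hb hn _
      have h1 : x = fun _ => b := by
        funext l
        have h2 := (Finset.sum_eq_zero_iff.1 hn) l (Finset.mem_univ l)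
        have h3 := hb l
        omega
      rw [h1]
    | succ n ih =>
      intro x i hb hn h
      obtain ⟨i₁, -, hi₁⟩ := Finset.exists_min_image Finset.univ x ⟨i, Finset.mem_univ i⟩
      have hlt : x i₁ < b := by
        by_contra hc
        have h2 : ∑ l, (b - x l) = 0 := by
          apply Finset.sum_eq_zero
          intro l _
          have h3 := hi₁ l (Finset.mem_univ l)
          omega
        omega
      have hp : ∀ (s : Finset (Fin d)) (u : Fin d → ℕ), 0 < ∏ l ∈ s, φ (u l) :=
        fun s u => Finset.prod_pos fun _ _ => hg.pos _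
      have h1 : ∏ l ∈ Finset.univ.erase i, φ (x l) ≤ ∏ l ∈ Finset.univ.erase i₁, φ (x l) := by
        have e1 := Finset.mul_prod_erase Finset.univ (fun l => φ (x l)) (Finset.mem_univ i)
        have e2 := Finset.mul_prod_erase Finset.univ (fun l => φ (x l)) (Finset.mem_univ i₁)
        have e3 : φ (x i₁) ≤ φ (x i) := hg.mono (hi₁ i (Finset.mem_univ i))
        have e4 : φ (x i₁) * ∏ l ∈ Finset.univ.erase i, φ (x l) ≤
            φ (x i₁) * ∏ l ∈ Finset.univ.erase i₁, φ (x l) := by
          rw [e2, ← e1]
          exact mul_le_mul_of_nonneg_right e3 (hp _ _).le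
        exact le_of_mul_le_mul_left e4 (hg.pos _)
      have h2 : G (∏ l ∈ Finset.univ.erase i₁, φ (x l)) = 0 :=
        le_antisymm ((hg.anti (hp _ _) (hp _ _) h1).trans h.le) (hg.nonneg _)
      have h3 := hg.step x i₁
      rw [h2, add_zero] at h3
      refine (ih (Function.update x i₁ (x i₁ + 1)) i₁ ?_ ?_ ?_).trans h3
      · intro l
        by_cases hl : l = i₁
        · subst hl
          rw [Function.update_self]
          omega
        · rw [Function.update_of_ne hl]
          exact hb l
      · have e1 := Finset.add_sum_erase Finset.univ (fun l => b - x l) (Finset.mem_univ i₁)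
        have e2 := Finset.add_sum_erase Finset.univ
          (fun l => b - Function.update x i₁ (x i₁ + 1) l) (Finset.mem_univ i₁)
        have e3 : ∑ l ∈ Finset.univ.erase i₁, (b - Function.update x i₁ (x i₁ + 1) l) =
            ∑ l ∈ Finset.univ.erase i₁, (b - x l) := by
          apply Finset.sum_congr rfl
          intro l hl
          rw [Function.update_of_ne (Finset.ne_of_mem_erase hl)]
        simp only [Function.update_self] at e2
        rw [e3] at e2
        rw [← e2]
        omega
      · have e3 : ∏ l ∈ Finset.univ.erase i₁, φ (Function.update x i₁ (x i₁ + 1) l) =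
            ∏ l ∈ Finset.univ.erase i₁, φ (x l) := by
          apply Finset.prod_congr rfl
          intro l hl
          rw [Function.update_of_ne (Finset.ne_of_mem_erase hl)]
        rw [e3]
        exact h2
  exact key _ x i hb rfl h

end BTP
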